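import Mathlib
import Pool.Agent.Lib.MP_95e7ec_an.Rb.Defs

/-!
# The mean number of closed orbits over all the rotations of a field: definitions

A *leaf* of angle `b` is a closed orbit of `e^{ib} (A + B)`, `A`, `B` homogeneous of degrees
`k < m`, in polar coordinates about the centre: `z = r(θ) e^{iθ}`, `d = m - k`,
`r' / r = cot arg (e^{ib} (p + r^d q))`, where `p = A(e^{iθ}) e^{-iθ}`, `q = B(e^{iθ}) e^{-iθ}`.
-/

set_option autoImplicit false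

open Set Filter Topology MeasureTheory
open scoped ContDiff ENNReal

namespace Pool.Agent.Lib.MP_95e7ec_an

/-- the scalar product of two plane vectors -/
def ipv (u w : ℝ × ℝ) : ℝ := u.1 * w.1 + u.2 * w.2

/-- `A(e) e^{-iθ}`, `e = e^{iθ}`: the components of `A(e)` along and across `e` -/
noncomputable def pol (A : ℝ × ℝ → ℝ × ℝ) (θ : ℝ) : ℂ :=
  ⟨ipv (dirv θ) (A (dirv θ)), det2 (dirv θ) (A (dirv θ))⟩

/-- `e^{ib} (p + r^d q)` -/
noncomputable def lfU (p q : ℝ → ℂ) (d : ℕ) (b : ℝ) (r : ℝ → ℝ) (θ : ℝ) : ℂ :=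
  Complex.exp ((b : ℂ) * Complex.I) * (p θ + ((r θ ^ d : ℝ) : ℂ) * q θ)

/-- the cotangent of the argument of `e^{ib} (p + r^d q)` -/
noncomputable def lfC (p q : ℝ → ℂ) (d : ℕ) (b : ℝ) (r : ℝ → ℝ) (θ : ℝ) : ℝ :=
  (lfU p q d b r θ).re / (lfU p q d b r θ).im

/-- a leaf of angle `b` -/
structure Leaf (p q : ℝ → ℂ) (d : ℕ) (b : ℝ) (r : ℝ → ℝ) : Prop where
  pos : ∀ θ, 0 < r θ
  per : ∀ θ, r (θ + 2 * Real.pi) = r θ
  up : ∀ θ, 0 < (lfU p q d b r θ).im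
  der : ∀ θ, HasDerivAt r (r θ * lfC p q d b r θ) θ

/-- `p` and `q` are continuous and `2π`-periodic -/
structure PQ (p q : ℝ → ℂ) : Prop where
  cp : Continuous p
  cq : Continuous q
  pp : ∀ θ, p (θ + 2 * Real.pi) = p θ
  pq : ∀ θ, q (θ + 2 * Real.pi) = q θ

/-- the determinant of `p` and `q` -/
noncomputable def pqD (p q : ℝ → ℂ) (θ : ℝ) : ℝ := (p θ).re * (q θ).im - (p θ).im * (q θ).re

/-- the zeros strictly inside the curve `r`, except for the centre -/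
def zin (p q : ℝ → ℂ) (d : ℕ) (r : ℝ → ℝ) : Set (ℝ × ℝ) :=
  {z | ∃ θ s : ℝ, 0 < s ∧ s < r θ ∧ z = s • dirv θ ∧ p θ + ((s ^ d : ℝ) : ℂ) * q θ = 0}

/-- the integral of the cotangent over the part of `S` in `(0,2π]` -/
noncomputable def FS (p q : ℝ → ℂ) (d : ℕ) (b : ℝ) (r : ℝ → ℝ) (S : Set ℝ) : ℝ :=
  ∫ θ in S ∩ Set.Ioc 0 (2 * Real.pi), lfC p q d b r θ

/-- the curve `q + r(θ) e^{iθ}` -/
def pcurve (q : ℝ × ℝ) (r : ℝ → ℝ) : Set (ℝ × ℝ) := Set.range fun θ => q + r θ • dirv θ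

/-- `v = A + B` with `A`, `B` homogeneous of the degrees `k < m` -/
structure HomSum (v A B : ℝ × ℝ → ℝ × ℝ) (k m : ℕ) : Prop where
  lt : k < m
  sum : ∀ z, v z = A z + B z
  homA : ∀ (t : ℝ) (z : ℝ × ℝ), A (t • z) = t ^ k • A z
  homB : ∀ (t : ℝ) (z : ℝ × ℝ), B (t • z) = t ^ m • B z
  dA : ContDiff ℝ 1 A
  dB : ContDiff ℝ 1 B

/-- The closed orbit `C` of `v` surrounds the point `z`: `C` is the range of a periodic solution
with nonzero winding number about `z`. -/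
def Surr (v : ℝ × ℝ → ℝ × ℝ) (C : Set (ℝ × ℝ)) (z : ℝ × ℝ) : Prop :=
  z ∉ C ∧ ∃ γ : ℝ → ℝ × ℝ, ∃ T : ℝ, 0 < T ∧ (∀ t : ℝ, HasDerivAt γ (v (γ t)) t) ∧
    (∀ t : ℝ, γ (t + T) = γ t) ∧ C = Set.range γ ∧ wnd γ (fun t => v (γ t)) T z ≠ 0

/-- the Jacobian determinant of the field `v` -/
noncomputable def jacd (v : ℝ × ℝ → ℝ × ℝ) (q : ℝ × ℝ) : ℝ :=
  det2 (fderiv ℝ v q (1, 0)) (fderiv ℝ v q (0, 1))

/-- the number of the leaves of angle `x` with the zeros `E` inside -/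
noncomputable def lfN (p q : ℝ → ℂ) (d : ℕ) (E : Set (ℝ × ℝ)) (x : ℝ) : ℝ≥0∞ :=
  ((({r : ℝ → ℝ | Leaf p q d x r ∧ zin p q d r = E}.encard : ℕ∞)) : ℝ≥0∞)

end Pool.Agent.Lib.MP_95e7ec_an
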