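import Mathlib
import Pool.Agent.Lib.MP_95e7ec_an.Rz.Defs
import Pool.Agent.Lib.MP_95e7ec_an.Zeros

/-!
# Rz, QuadLine: a quadratic field on a line
-/

set_option autoImplicit false

open Set Filter Topology MeasureTheory
open scoped ContDiff ENNReal

namespace Pool.Agent.Lib.MP_95e7ec_an

private theorem QuadLine_poly (P : MvPolynomial (Fin 2) ℝ) (a b c d s : ℝ) :
    Polynomial.eval s (MvPolynomial.aeval ![Polynomial.C a + Polynomial.X * Polynomial.C c,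
      Polynomial.C b + Polynomial.X * Polynomial.C d] P) =
      MvPolynomial.eval ![a + s * c, b + s * d] P := by
  induction P using MvPolynomial.induction_on with
  | C r => simp
  | add p q hp hq => simp only [map_add, Polynomial.eval_add, hp, hq]
  | mul_X p i hp =>
    simp only [map_mul, Polynomial.eval_mul, hp, MvPolynomial.aeval_X, MvPolynomial.eval_X]
    congr 1
    fin_cases i <;> simp <;> ring

private theorem QuadLine_deg (a b : ℝ) :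
    (Polynomial.C a + Polynomial.X * Polynomial.C b).natDegree ≤ 1 := by
  refine (Polynomial.natDegree_add_le _ _).trans (max_le ?_ ?_)
  · rw [Polynomial.natDegree_C]
    exact Nat.zero_le 1
  · refine Polynomial.natDegree_mul_le.trans ?_
    rw [Polynomial.natDegree_C, Polynomial.natDegree_X]

/-- The values of a polynomial of degree at most `2` on a line. Proof: expand the monomials
(`MvPolynomial.induction_on` does not keep the degree; use `P = ∑ m ∈ P.support, ...`, every `m` in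
the support has `m 0 + m 1 ≤ 2` (`MvPolynomial.le_totalDegree`), so
`(x₀ + s e₀)^(m 0) (x₁ + s e₁)^(m 1)` is a polynomial of degree at most `2` in `s`; or
`MvPolynomial.aeval` into `ℝ[X]` and `natDegree ≤ 2`, a lemma of this kind is used for Bezout in
Zeros.lean or in Rq/RayW.lean). -/
theorem poly_line {P : MvPolynomial (Fin 2) ℝ} (hP : P.totalDegree ≤ 2) (x e : ℝ × ℝ) :
    ∃ c₀ c₁ c₂ : ℝ, ∀ s : ℝ, MvPolynomial.eval ![(x + s • e).1, (x + s • e).2] P =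
      c₀ + c₁ * s + c₂ * s ^ 2 := by
  set f : Polynomial ℝ := MvPolynomial.aeval
    ![Polynomial.C x.1 + Polynomial.X * Polynomial.C e.1,
      Polynomial.C x.2 + Polynomial.X * Polynomial.C e.2] P with hf
  have hfe : ∀ s, Polynomial.eval s f = MvPolynomial.eval ![x.1 + s * e.1, x.2 + s * e.2] P :=
    fun s => QuadLine_poly P x.1 x.2 e.1 e.2 s
  have hdeg : f.natDegree ≤ 2 := by
    have h1 := MvPolynomial.aeval_natDegree_le (m := 2) (n := 1) P hP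
      (![Polynomial.C x.1 + Polynomial.X * Polynomial.C e.1,
        Polynomial.C x.2 + Polynomial.X * Polynomial.C e.2]) (by
        intro i
        fin_cases i
        · exact QuadLine_deg _ _
        · exact QuadLine_deg _ _)
    rw [mul_one] at h1
    exact h1
  refine ⟨f.coeff 0, f.coeff 1, f.coeff 2, fun s => ?_⟩
  have h2 : Polynomial.eval s f = ∑ i ∈ Finset.range 3, f.coeff i * s ^ i :=
    Polynomial.eval_eq_sum_range' (by omega) s
  rw [Finset.sum_range_succ, Finset.sum_range_succ, Finset.sum_range_one, pow_zero, mul_one,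
    pow_one] at h2
  rw [← h2, hfe]
  simp [Prod.smul_fst, Prod.smul_snd]

theorem vf_line {P Q : MvPolynomial (Fin 2) ℝ} (hP : P.totalDegree ≤ 2)
    (hQ : Q.totalDegree ≤ 2) (x e : ℝ × ℝ) :
    ∃ c₀ c₁ c₂ : ℝ × ℝ, ∀ s : ℝ, vf P Q (x + s • e) = c₀ + s • c₁ + s ^ 2 • c₂ := by
  obtain ⟨a₀, a₁, a₂, ha⟩ := poly_line hP x e
  obtain ⟨b₀, b₁, b₂, hb⟩ := poly_line hQ x e
  refine ⟨(a₀, b₀), (a₁, b₁), (a₂, b₂), fun s => ?_⟩
  unfold vf
  apply Prod.ext
  · show MvPolynomial.eval ![(x + s • e).1, (x + s • e).2] P = _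
    rw [ha s]
    simp only [Prod.fst_add, Prod.smul_fst, smul_eq_mul]
    ring
  · show MvPolynomial.eval ![(x + s • e).1, (x + s • e).2] Q = _
    rw [hb s]
    simp only [Prod.snd_add, Prod.smul_snd, smul_eq_mul]
    ring

theorem turn_vf_line {P Q : MvPolynomial (Fin 2) ℝ} (hP : P.totalDegree ≤ 2)
    (hQ : Q.totalDegree ≤ 2) (b : ℝ) (x e f : ℝ × ℝ) :
    ∃ c₀ c₁ c₂ : ℝ, ∀ s : ℝ, det2 f (turn b (vf P Q) (x + s • e)) =
      c₀ + c₁ * s + c₂ * s ^ 2 := by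
  obtain ⟨a₀, a₁, a₂, ha⟩ := vf_line hP hQ x e
  refine ⟨det2 f (Real.cos b * a₀.1 - Real.sin b * a₀.2, Real.sin b * a₀.1 + Real.cos b * a₀.2),
    det2 f (Real.cos b * a₁.1 - Real.sin b * a₁.2, Real.sin b * a₁.1 + Real.cos b * a₁.2),
    det2 f (Real.cos b * a₂.1 - Real.sin b * a₂.2, Real.sin b * a₂.1 + Real.cos b * a₂.2),
    fun s => ?_⟩
  unfold turn
  rw [ha s]
  simp only [det2, Prod.fst_add, Prod.snd_add, Prod.smul_fst, Prod.smul_snd, smul_eq_mul]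
  ring

/-- Four alternating weak signs of a quadratic polynomial. Proof: subtract; if `c₂ ≠ 0`, or by cases:
a quadratic function with `f x₁ ≤ 0 ≤ f x₂`, `f x₃ ≤ 0 ≤ f x₄`. Divided differences:
`f[x₁,x₂] ≥ 0`, `f[x₂,x₃] ≤ 0`, `f[x₃,x₄] ≥ 0`, so `c₂ (x₃-x₁) = f[x₂,x₃] - f[x₁,x₂] ≤ 0` and
`c₂ (x₄-x₂) = f[x₃,x₄] - f[x₂,x₃] ≥ 0`, so `c₂ = 0`, all divided differences are `0`, `c₁ = 0`, and
`f` is constant `= c₀`, `c₀ ≤ 0 ≤ c₀`. -/
theorem quad_four {c₀ c₁ c₂ x₁ x₂ x₃ x₄ : ℝ} (h12 : x₁ < x₂) (h23 : x₂ < x₃) (h34 : x₃ < x₄)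
    (h1 : c₀ + c₁ * x₁ + c₂ * x₁ ^ 2 ≤ 0) (h2 : 0 ≤ c₀ + c₁ * x₂ + c₂ * x₂ ^ 2)
    (h3 : c₀ + c₁ * x₃ + c₂ * x₃ ^ 2 ≤ 0) (h4 : 0 ≤ c₀ + c₁ * x₄ + c₂ * x₄ ^ 2) :
    c₀ = 0 ∧ c₁ = 0 ∧ c₂ = 0 := by
  have d12 : 0 ≤ c₁ + c₂ * (x₁ + x₂) := by
    have h : 0 ≤ (x₂ - x₁) * (c₁ + c₂ * (x₁ + x₂)) := by
      have : (x₂ - x₁) * (c₁ + c₂ * (x₁ + x₂)) =
          (c₀ + c₁ * x₂ + c₂ * x₂ ^ 2) - (c₀ + c₁ * x₁ + c₂ * x₁ ^ 2) := by ring
      rw [this]
      linarith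
    exact nonneg_of_mul_nonneg_right h (by linarith)
  have d23 : c₁ + c₂ * (x₂ + x₃) ≤ 0 := by
    have h : 0 ≤ (x₃ - x₂) * (-(c₁ + c₂ * (x₂ + x₃))) := by
      have : (x₃ - x₂) * (-(c₁ + c₂ * (x₂ + x₃))) =
          (c₀ + c₁ * x₂ + c₂ * x₂ ^ 2) - (c₀ + c₁ * x₃ + c₂ * x₃ ^ 2) := by ring
      rw [this]
      linarith
    have := nonneg_of_mul_nonneg_right h (by linarith)
    linarith
  have d34 : 0 ≤ c₁ + c₂ * (x₃ + x₄) := by
    have h : 0 ≤ (x₄ - x₃) * (c₁ + c₂ * (x₃ + x₄)) := by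
      have : (x₄ - x₃) * (c₁ + c₂ * (x₃ + x₄)) =
          (c₀ + c₁ * x₄ + c₂ * x₄ ^ 2) - (c₀ + c₁ * x₃ + c₂ * x₃ ^ 2) := by ring
      rw [this]
      linarith
    exact nonneg_of_mul_nonneg_right h (by linarith)
  have e1 : c₂ ≤ 0 := by
    have h : 0 ≤ (x₃ - x₁) * (-c₂) := by nlinarith
    have := nonneg_of_mul_nonneg_right h (by linarith)
    linarith
  have e2 : 0 ≤ c₂ := by
    have h : 0 ≤ (x₄ - x₂) * c₂ := by nlinarith
    exact nonneg_of_mul_nonneg_right h (by linarith)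
  have hc2 : c₂ = 0 := le_antisymm e1 e2
  subst hc2
  have hc1 : c₁ = 0 := by linarith
  subst hc1
  refine ⟨by linarith, rfl, rfl⟩

end Pool.Agent.Lib.MP_95e7ec_an
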