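import Mathlib
import Pool.Agent.Lib.MP_95e7ec_an.Rz.QuadLine
import Pool.Agent.Lib.MP_95e7ec_an.Rb.Basic

/-!
# Rz, JacThree: at most three zeros with a positive Jacobian determinant
-/

set_option autoImplicit false

open Set Filter Topology MeasureTheory
open scoped ContDiff ENNReal

namespace Pool.Agent.Lib.MP_95e7ec_an

/-- a polynomial function of degree at most two in two variables -/
private def jtGood (f : ℝ → ℝ → ℝ) : Prop :=
  ∃ a0 a1 a2 a3 a4 a5 : ℝ, ∀ x y : ℝ,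
    f x y = a0 + a1 * x + a2 * y + a3 * x ^ 2 + a4 * (x * y) + a5 * y ^ 2

private theorem jt_add {f g : ℝ → ℝ → ℝ} (hf : jtGood f) (hg : jtGood g) : jtGood (f + g) := by
  obtain ⟨a0, a1, a2, a3, a4, a5, ha⟩ := hf
  obtain ⟨b0, b1, b2, b3, b4, b5, hb⟩ := hg
  refine ⟨a0 + b0, a1 + b1, a2 + b2, a3 + b3, a4 + b4, a5 + b5, fun x y => ?_⟩
  rw [Pi.add_apply, Pi.add_apply, ha, hb]
  ring

private theorem jt_zero : jtGood 0 := ⟨0, 0, 0, 0, 0, 0, fun x y => by simp⟩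

private theorem jt_mono (c : ℝ) (i j : ℕ) (h : i + j ≤ 2) :
    jtGood (fun x y => c * (x ^ i * y ^ j)) := by
  have hi : i ≤ 2 := by omega
  interval_cases i
  · have hj : j ≤ 2 := by omega
    interval_cases j
    · exact ⟨c, 0, 0, 0, 0, 0, fun x y => by ring⟩
    · exact ⟨0, 0, c, 0, 0, 0, fun x y => by ring⟩
    · exact ⟨0, 0, 0, 0, 0, c, fun x y => by ring⟩
  · have hj : j ≤ 1 := by omega
    interval_cases j
    · exact ⟨0, c, 0, 0, 0, 0, fun x y => by ring⟩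
    · exact ⟨0, 0, 0, 0, c, 0, fun x y => by ring⟩
  · have hj : j = 0 := by omega
    subst hj
    exact ⟨0, 0, 0, c, 0, 0, fun x y => by ring⟩

private theorem jt_form {P : MvPolynomial (Fin 2) ℝ} (hP : P.totalDegree ≤ 2) :
    jtGood (fun x y => MvPolynomial.eval ![x, y] P) := by
  have h1 : (fun x y : ℝ => MvPolynomial.eval ![x, y] P) =
      ∑ d ∈ P.support, fun x y : ℝ => P.coeff d * (x ^ (d 0) * y ^ (d 1)) := by
    funext x y
    rw [MvPolynomial.eval_eq', Finset.sum_apply, Finset.sum_apply]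
    refine Finset.sum_congr rfl fun d _ => ?_
    rw [Fin.prod_univ_two]
    simp
  rw [h1]
  refine Finset.sum_induction _ jtGood (fun _ _ => jt_add) jt_zero fun d hd => ?_
  refine jt_mono _ _ _ ?_
  have h2 := MvPolynomial.le_totalDegree hd
  have h3 : (d.sum fun _ e => e) = d 0 + d 1 := by
    rw [Finsupp.sum_fintype _ _ (fun _ => rfl), Fin.sum_univ_two]
  omega

/-- the Jacobian determinant in terms of the coefficients -/
private theorem jt_jac {P Q : MvPolynomial (Fin 2) ℝ} {a0 a1 a2 a3 a4 a5 b0 b1 b2 b3 b4 b5 : ℝ}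
    (ha : ∀ x y : ℝ, MvPolynomial.eval ![x, y] P =
      a0 + a1 * x + a2 * y + a3 * x ^ 2 + a4 * (x * y) + a5 * y ^ 2)
    (hb : ∀ x y : ℝ, MvPolynomial.eval ![x, y] Q =
      b0 + b1 * x + b2 * y + b3 * x ^ 2 + b4 * (x * y) + b5 * y ^ 2) (z : ℝ × ℝ) :
    jacd (vf P Q) z = (a1 + 2 * a3 * z.1 + a4 * z.2) * (b2 + b4 * z.1 + 2 * b5 * z.2) -
      (a2 + a4 * z.1 + 2 * a5 * z.2) * (b1 + 2 * b3 * z.1 + b4 * z.2) := by
  have hv : vf P Q = fun w : ℝ × ℝ =>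
      (a0 + a1 * w.1 + a2 * w.2 + a3 * w.1 ^ 2 + a4 * (w.1 * w.2) + a5 * w.2 ^ 2,
        b0 + b1 * w.1 + b2 * w.2 + b3 * w.1 ^ 2 + b4 * (w.1 * w.2) + b5 * w.2 ^ 2) := by
    funext w
    rw [vf, ha, hb]
  have hd : DifferentiableAt ℝ (vf P Q) z :=
    ((contDiff_vf P Q (k := 1)).differentiable (by norm_num)) z
  have key : ∀ e : ℝ × ℝ, fderiv ℝ (vf P Q) z e =
      ((a1 + 2 * a3 * z.1 + a4 * z.2) * e.1 + (a2 + a4 * z.1 + 2 * a5 * z.2) * e.2,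
        (b1 + 2 * b3 * z.1 + b4 * z.2) * e.1 + (b2 + b4 * z.1 + 2 * b5 * z.2) * e.2) := by
    intro e
    have h1 : HasDerivAt (fun t : ℝ => vf P Q (z + t • e)) (fderiv ℝ (vf P Q) z e) 0 := by
      have h2 : HasDerivAt (fun t : ℝ => z + t • e) e 0 := by
        simpa using ((hasDerivAt_id (0 : ℝ)).smul_const e).const_add z
      have h3 : HasFDerivAt (vf P Q) (fderiv ℝ (vf P Q) z) (z + (0 : ℝ) • e) := by
        rw [zero_smul, add_zero]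
        exact hd.hasFDerivAt
      exact h3.comp_hasDerivAt (0 : ℝ) h2
    have quad : ∀ c0 c1 c2 : ℝ, HasDerivAt (fun t : ℝ => c0 + c1 * t + c2 * t ^ 2) c1 0 := by
      intro c0 c1 c2
      have h4 := (((hasDerivAt_id (0 : ℝ)).const_mul c1).const_add c0).add
        (((hasDerivAt_id (0 : ℝ)).pow 2).const_mul c2)
      refine (h4.congr_deriv ?_).congr_of_eventuallyEq (Eventually.of_forall fun t => ?_)
      · simp
      · simp
    have h5 : HasDerivAt (fun t : ℝ => vf P Q (z + t • e))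
        ((a1 + 2 * a3 * z.1 + a4 * z.2) * e.1 + (a2 + a4 * z.1 + 2 * a5 * z.2) * e.2,
        (b1 + 2 * b3 * z.1 + b4 * z.2) * e.1 + (b2 + b4 * z.1 + 2 * b5 * z.2) * e.2) 0 := by
      have h6 := (quad (a0 + a1 * z.1 + a2 * z.2 + a3 * z.1 ^ 2 + a4 * (z.1 * z.2) +
          a5 * z.2 ^ 2)
        ((a1 + 2 * a3 * z.1 + a4 * z.2) * e.1 + (a2 + a4 * z.1 + 2 * a5 * z.2) * e.2)
        (a3 * e.1 ^ 2 + a4 * (e.1 * e.2) + a5 * e.2 ^ 2)).prodMk
        (quad (b0 + b1 * z.1 + b2 * z.2 + b3 * z.1 ^ 2 + b4 * (z.1 * z.2) +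
          b5 * z.2 ^ 2)
        ((b1 + 2 * b3 * z.1 + b4 * z.2) * e.1 + (b2 + b4 * z.1 + 2 * b5 * z.2) * e.2)
        (b3 * e.1 ^ 2 + b4 * (e.1 * e.2) + b5 * e.2 ^ 2))
      refine h6.congr_of_eventuallyEq (Eventually.of_forall fun t => ?_)
      rw [hv]
      refine Prod.ext ?_ ?_
      · simp only [Prod.fst_add, Prod.snd_add, Prod.smul_fst, Prod.smul_snd, smul_eq_mul]
        ring
      · simp only [Prod.fst_add, Prod.snd_add, Prod.smul_fst, Prod.smul_snd, smul_eq_mul]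
        ring
    exact h1.unique h5
  rw [jacd, key, key, det2]
  simp only
  ring

/-- The algebraic core: no fourth point. -/
private theorem jt_alg {A B C A' B' C' p q D : ℝ}
    (hR : A * (p * (p - 1)) + B * (q * (q - 1)) + C * (p * q) = 0)
    (hR' : A' * (p * (p - 1)) + B' * (q * (q - 1)) + C' * (p * q) = 0)
    (h1 : 0 < D * (A * B' - A' * B))
    (h2 : 0 < D * (A * (C' - B') - A' * (C - B)))
    (h3 : 0 < D * ((C - A) * B' - (C' - A') * B))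
    (h4 : 0 < D * ((A * (2 * p - 1) + C * q) * (B' * (2 * q - 1) + C' * p) -
      (A' * (2 * p - 1) + C' * q) * (B * (2 * q - 1) + C * p)))
    (n0 : ¬ (p = 0 ∧ q = 0)) (n1 : ¬ (p = 1 ∧ q = 0)) (n2 : ¬ (p = 0 ∧ q = 1)) : False := by
  by_cases hq : q = 0
  · have hp0 : p ≠ 0 := fun h => n0 ⟨h, hq⟩
    have hp1 : p - 1 ≠ 0 := fun h => n1 ⟨by linarith, hq⟩
    have e1 : A = 0 := by
      have : A * (p * (p - 1)) = 0 := by rw [hq] at hR; linarith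
      rcases mul_eq_zero.1 this with h | h
      · exact h
      · exact absurd h (mul_ne_zero hp0 hp1)
    have e2 : A' = 0 := by
      have : A' * (p * (p - 1)) = 0 := by rw [hq] at hR'; linarith
      rcases mul_eq_zero.1 this with h | h
      · exact h
      · exact absurd h (mul_ne_zero hp0 hp1)
    rw [e1, e2] at h1
    simp at h1
  by_cases hp : p = 0
  · have hq1 : q - 1 ≠ 0 := fun h => n2 ⟨hp, by linarith⟩
    have e1 : B = 0 := by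
      have : B * (q * (q - 1)) = 0 := by rw [hp] at hR; linarith
      rcases mul_eq_zero.1 this with h | h
      · exact h
      · exact absurd h (mul_ne_zero hq hq1)
    have e2 : B' = 0 := by
      have : B' * (q * (q - 1)) = 0 := by rw [hp] at hR'; linarith
      rcases mul_eq_zero.1 this with h | h
      · exact h
      · exact absurd h (mul_ne_zero hq hq1)
    rw [e1, e2] at h1
    simp at h1
  -- the two relations
  have r1 : p * (A * C' - A' * C) = -((q - 1) * (A * B' - A' * B)) := by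
    have : q * (p * (A * C' - A' * C) + (q - 1) * (A * B' - A' * B)) = 0 := by
      linear_combination A * hR' - A' * hR
    rcases mul_eq_zero.1 this with h | h
    · exact absurd h hq
    · linarith
  have r2 : q * (C * B' - C' * B) = -((p - 1) * (A * B' - A' * B)) := by
    have : p * (q * (C * B' - C' * B) + (p - 1) * (A * B' - A' * B)) = 0 := by
      linear_combination B' * hR - B * hR'
    rcases mul_eq_zero.1 this with h | h
    · exact absurd h hp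
    · linarith
  set J1 := D * (A * B' - A' * B) with hJ1
  have k2 : p * (D * (A * (C' - B') - A' * (C - B))) = -((p + q - 1) * J1) := by
    rw [hJ1]; linear_combination D * r1
  have k3 : q * (D * ((C - A) * B' - (C' - A') * B)) = -((p + q - 1) * J1) := by
    rw [hJ1]; linear_combination D * r2
  have k4 : D * ((A * (2 * p - 1) + C * q) * (B' * (2 * q - 1) + C' * p) -
      (A' * (2 * p - 1) + C' * q) * (B * (2 * q - 1) + C * p)) = (p + q - 1) * J1 := by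
    rw [hJ1]; linear_combination D * (2 * p - 1) * r1 + D * (2 * q - 1) * r2
  have s0 : 0 < p + q - 1 := by
    rw [k4] at h4
    exact (pos_iff_pos_of_mul_pos h4).2 h1
  have s1 : 0 < (p + q - 1) * J1 := mul_pos s0 h1
  have p0 : p < 0 := by
    by_contra h
    have := mul_nonneg (not_lt.1 h) h2.le
    linarith
  have q0 : q < 0 := by
    by_contra h
    have := mul_nonneg (not_lt.1 h) h3.le
    linarith
  linarith

/-- The collinear case. -/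
private theorem jt_line {α1 α2 β1 β2 a3 a4 a5 b3 b4 b5 u1 u2 v1 v2 : ℝ}
    (eu : α1 * u1 + α2 * u2 = -(a3 * u1 ^ 2 + a4 * (u1 * u2) + a5 * u2 ^ 2))
    (ev : α1 * v1 + α2 * v2 = -(a3 * v1 ^ 2 + a4 * (v1 * v2) + a5 * v2 ^ 2))
    (fu : β1 * u1 + β2 * u2 = -(b3 * u1 ^ 2 + b4 * (u1 * u2) + b5 * u2 ^ 2))
    (fv : β1 * v1 + β2 * v2 = -(b3 * v1 ^ 2 + b4 * (v1 * v2) + b5 * v2 ^ 2))
    (hD : u1 * v2 - u2 * v1 = 0) (hu : ¬ (u1 = 0 ∧ u2 = 0)) (hv : ¬ (v1 = 0 ∧ v2 = 0))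
    (huv : ¬ (u1 = v1 ∧ u2 = v2)) : α1 * β2 - α2 * β1 = 0 := by
  obtain ⟨l, hl1, hl2⟩ : ∃ l : ℝ, v1 = l * u1 ∧ v2 = l * u2 := by
    by_cases h : u1 = 0
    · have h2 : u2 ≠ 0 := fun h2 => hu ⟨h, h2⟩
      refine ⟨v2 / u2, ?_, ?_⟩
      · rw [h] at hD ⊢
        have : u2 * v1 = 0 := by linarith
        rcases mul_eq_zero.1 this with h3 | h3
        · exact absurd h3 h2
        · rw [h3]; ring
      · field_simp
    · refine ⟨v1 / u1, ?_, ?_⟩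
      · field_simp
      · field_simp
        linarith
  subst hl1 hl2
  have l0 : l ≠ 0 := fun h => hv ⟨by rw [h]; ring, by rw [h]; ring⟩
  have l1 : l - 1 ≠ 0 := fun h => huv ⟨by
    have : l = 1 := by linarith
    rw [this]; ring, by
    have : l = 1 := by linarith
    rw [this]; ring⟩
  have e1 : α1 * u1 + α2 * u2 = 0 := by
    have : (l * (l - 1)) * (α1 * u1 + α2 * u2) = 0 := by
      linear_combination l ^ 2 * eu - ev
    rcases mul_eq_zero.1 this with h | h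
    · exact absurd h (mul_ne_zero l0 l1)
    · exact h
  have e2 : β1 * u1 + β2 * u2 = 0 := by
    have : (l * (l - 1)) * (β1 * u1 + β2 * u2) = 0 := by
      linear_combination l ^ 2 * fu - fv
    rcases mul_eq_zero.1 this with h | h
    · exact absurd h (mul_ne_zero l0 l1)
    · exact h
  by_cases h : u1 = 0
  · have h2 : u2 ≠ 0 := fun h2 => hu ⟨h, h2⟩
    have : u2 * (α1 * β2 - α2 * β1) = 0 := by linear_combination α1 * e2 - β1 * e1
    rcases mul_eq_zero.1 this with h3 | h3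
    · exact absurd h3 h2
    · exact h3
  · have : u1 * (α1 * β2 - α2 * β1) = 0 := by linear_combination β2 * e1 - α2 * e2
    rcases mul_eq_zero.1 this with h3 | h3
    · exact absurd h3 h
    · exact h3

/-- No four zeros with a positive determinant, in coordinates. -/
private theorem jt_four {a0 a1 a2 a3 a4 a5 b0 b1 b2 b3 b4 b5 : ℝ}
    {x1 y1 x2 y2 x3 y3 x4 y4 : ℝ}
    (e1 : a0 + a1 * x1 + a2 * y1 + a3 * x1 ^ 2 + a4 * (x1 * y1) + a5 * y1 ^ 2 = 0)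
    (e2 : a0 + a1 * x2 + a2 * y2 + a3 * x2 ^ 2 + a4 * (x2 * y2) + a5 * y2 ^ 2 = 0)
    (e3 : a0 + a1 * x3 + a2 * y3 + a3 * x3 ^ 2 + a4 * (x3 * y3) + a5 * y3 ^ 2 = 0)
    (e4 : a0 + a1 * x4 + a2 * y4 + a3 * x4 ^ 2 + a4 * (x4 * y4) + a5 * y4 ^ 2 = 0)
    (f1 : b0 + b1 * x1 + b2 * y1 + b3 * x1 ^ 2 + b4 * (x1 * y1) + b5 * y1 ^ 2 = 0)
    (f2 : b0 + b1 * x2 + b2 * y2 + b3 * x2 ^ 2 + b4 * (x2 * y2) + b5 * y2 ^ 2 = 0)
    (f3 : b0 + b1 * x3 + b2 * y3 + b3 * x3 ^ 2 + b4 * (x3 * y3) + b5 * y3 ^ 2 = 0)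
    (f4 : b0 + b1 * x4 + b2 * y4 + b3 * x4 ^ 2 + b4 * (x4 * y4) + b5 * y4 ^ 2 = 0)
    (j1 : 0 < (a1 + 2 * a3 * x1 + a4 * y1) * (b2 + b4 * x1 + 2 * b5 * y1) -
      (a2 + a4 * x1 + 2 * a5 * y1) * (b1 + 2 * b3 * x1 + b4 * y1))
    (j2 : 0 < (a1 + 2 * a3 * x2 + a4 * y2) * (b2 + b4 * x2 + 2 * b5 * y2) -
      (a2 + a4 * x2 + 2 * a5 * y2) * (b1 + 2 * b3 * x2 + b4 * y2))
    (j3 : 0 < (a1 + 2 * a3 * x3 + a4 * y3) * (b2 + b4 * x3 + 2 * b5 * y3) -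
      (a2 + a4 * x3 + 2 * a5 * y3) * (b1 + 2 * b3 * x3 + b4 * y3))
    (j4 : 0 < (a1 + 2 * a3 * x4 + a4 * y4) * (b2 + b4 * x4 + 2 * b5 * y4) -
      (a2 + a4 * x4 + 2 * a5 * y4) * (b1 + 2 * b3 * x4 + b4 * y4))
    (n12 : ¬ (x1 = x2 ∧ y1 = y2)) (n13 : ¬ (x1 = x3 ∧ y1 = y3)) (n14 : ¬ (x1 = x4 ∧ y1 = y4))
    (n23 : ¬ (x2 = x3 ∧ y2 = y3)) (n24 : ¬ (x2 = x4 ∧ y2 = y4)) (n34 : ¬ (x3 = x4 ∧ y3 = y4)) :
    False := by
  obtain ⟨u1, hu1⟩ : ∃ t, t = x2 - x1 := ⟨_, rfl⟩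
  obtain ⟨u2, hu2⟩ : ∃ t, t = y2 - y1 := ⟨_, rfl⟩
  obtain ⟨v1, hv1⟩ : ∃ t, t = x3 - x1 := ⟨_, rfl⟩
  obtain ⟨v2, hv2⟩ : ∃ t, t = y3 - y1 := ⟨_, rfl⟩
  obtain ⟨α1, hα1⟩ : ∃ t, t = a1 + 2 * a3 * x1 + a4 * y1 := ⟨_, rfl⟩
  obtain ⟨α2, hα2⟩ : ∃ t, t = a2 + a4 * x1 + 2 * a5 * y1 := ⟨_, rfl⟩
  obtain ⟨β1, hβ1⟩ : ∃ t, t = b1 + 2 * b3 * x1 + b4 * y1 := ⟨_, rfl⟩
  obtain ⟨β2, hβ2⟩ : ∃ t, t = b2 + b4 * x1 + 2 * b5 * y1 := ⟨_, rfl⟩
  have eu : α1 * u1 + α2 * u2 = -(a3 * u1 ^ 2 + a4 * (u1 * u2) + a5 * u2 ^ 2) := by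
    rw [hα1, hα2, hu1, hu2]; linear_combination e2 - e1
  have ev : α1 * v1 + α2 * v2 = -(a3 * v1 ^ 2 + a4 * (v1 * v2) + a5 * v2 ^ 2) := by
    rw [hα1, hα2, hv1, hv2]; linear_combination e3 - e1
  have fu : β1 * u1 + β2 * u2 = -(b3 * u1 ^ 2 + b4 * (u1 * u2) + b5 * u2 ^ 2) := by
    rw [hβ1, hβ2, hu1, hu2]; linear_combination f2 - f1
  have fv : β1 * v1 + β2 * v2 = -(b3 * v1 ^ 2 + b4 * (v1 * v2) + b5 * v2 ^ 2) := by
    rw [hβ1, hβ2, hv1, hv2]; linear_combination f3 - f1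
  have j1' : 0 < α1 * β2 - α2 * β1 := by rw [hα1, hα2, hβ1, hβ2]; linarith
  have hu : ¬ (u1 = 0 ∧ u2 = 0) := fun h => n12 ⟨by linarith [h.1], by linarith [h.2]⟩
  have hv : ¬ (v1 = 0 ∧ v2 = 0) := fun h => n13 ⟨by linarith [h.1], by linarith [h.2]⟩
  have huv : ¬ (u1 = v1 ∧ u2 = v2) := fun h => n23 ⟨by linarith [h.1], by linarith [h.2]⟩
  obtain ⟨D, hD⟩ : ∃ t, t = u1 * v2 - u2 * v1 := ⟨_, rfl⟩
  by_cases hD0 : D = 0
  · have := jt_line eu ev fu fv (by rw [← hD, hD0]) hu hv huv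
    linarith
  obtain ⟨w1, hw1⟩ : ∃ t, t = x4 - x1 := ⟨_, rfl⟩
  obtain ⟨w2, hw2⟩ : ∃ t, t = y4 - y1 := ⟨_, rfl⟩
  obtain ⟨p, hp⟩ : ∃ t, t = (w1 * v2 - w2 * v1) / D := ⟨_, rfl⟩
  obtain ⟨q, hq⟩ : ∃ t, t = (u1 * w2 - u2 * w1) / D := ⟨_, rfl⟩
  have hpD : p * D = w1 * v2 - w2 * v1 := by rw [hp]; field_simp
  have hqD : q * D = u1 * w2 - u2 * w1 := by rw [hq]; field_simp
  have k1 : w1 = p * u1 + q * v1 := by
    have : D * (w1 - (p * u1 + q * v1)) = 0 := by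
      linear_combination (-u1) * hpD - v1 * hqD + w1 * hD
    rcases mul_eq_zero.1 this with h | h
    · exact absurd h hD0
    · linarith
  have k2 : w2 = p * u2 + q * v2 := by
    have : D * (w2 - (p * u2 + q * v2)) = 0 := by
      linear_combination (-u2) * hpD - v2 * hqD + w2 * hD
    rcases mul_eq_zero.1 this with h | h
    · exact absurd h hD0
    · linarith
  have ew : α1 * w1 + α2 * w2 = -(a3 * w1 ^ 2 + a4 * (w1 * w2) + a5 * w2 ^ 2) := by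
    rw [hα1, hα2, hw1, hw2]; linear_combination e4 - e1
  have fw : β1 * w1 + β2 * w2 = -(b3 * w1 ^ 2 + b4 * (w1 * w2) + b5 * w2 ^ 2) := by
    rw [hβ1, hβ2, hw1, hw2]; linear_combination f4 - f1
  have D2 : 0 < D ^ 2 := by positivity
  refine jt_alg (A := a3 * u1 ^ 2 + a4 * (u1 * u2) + a5 * u2 ^ 2)
    (B := a3 * v1 ^ 2 + a4 * (v1 * v2) + a5 * v2 ^ 2)
    (C := 2 * a3 * (u1 * v1) + a4 * (u1 * v2 + u2 * v1) + 2 * a5 * (u2 * v2))
    (A' := b3 * u1 ^ 2 + b4 * (u1 * u2) + b5 * u2 ^ 2)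
    (B' := b3 * v1 ^ 2 + b4 * (v1 * v2) + b5 * v2 ^ 2)
    (C' := 2 * b3 * (u1 * v1) + b4 * (u1 * v2 + u2 * v1) + 2 * b5 * (u2 * v2))
    (p := p) (q := q) (D := D) ?_ ?_ ?_ ?_ ?_ ?_ ?_ ?_ ?_
  · rw [k1, k2] at ew
    linear_combination ew - p * eu - q * ev
  · rw [k1, k2] at fw
    linear_combination fw - p * fu - q * fv
  · have h : D ^ 2 * (α1 * β2 - α2 * β1) = D * ((a3 * u1 ^ 2 + a4 * (u1 * u2) + a5 * u2 ^ 2) *
        (b3 * v1 ^ 2 + b4 * (v1 * v2) + b5 * v2 ^ 2) -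
        (b3 * u1 ^ 2 + b4 * (u1 * u2) + b5 * u2 ^ 2) *
        (a3 * v1 ^ 2 + a4 * (v1 * v2) + a5 * v2 ^ 2)) := by
      have g : D * (α1 * β2 - α2 * β1) = (α1 * u1 + α2 * u2) * (β1 * v1 + β2 * v2) -
          (α1 * v1 + α2 * v2) * (β1 * u1 + β2 * u2) := by rw [hD]; ring
      rw [eu, ev, fu, fv] at g
      linear_combination D * g
    rw [← h]
    exact mul_pos D2 j1'
  · -- the point z2
    obtain ⟨g1, hg1⟩ : ∃ t, t = α1 + 2 * a3 * u1 + a4 * u2 := ⟨_, rfl⟩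
    obtain ⟨g2, hg2⟩ : ∃ t, t = α2 + a4 * u1 + 2 * a5 * u2 := ⟨_, rfl⟩
    obtain ⟨h1, hh1⟩ : ∃ t, t = β1 + 2 * b3 * u1 + b4 * u2 := ⟨_, rfl⟩
    obtain ⟨h2, hh2⟩ : ∃ t, t = β2 + b4 * u1 + 2 * b5 * u2 := ⟨_, rfl⟩
    have j2' : 0 < g1 * h2 - g2 * h1 := by
      have : g1 * h2 - g2 * h1 = (a1 + 2 * a3 * x2 + a4 * y2) * (b2 + b4 * x2 + 2 * b5 * y2) -
          (a2 + a4 * x2 + 2 * a5 * y2) * (b1 + 2 * b3 * x2 + b4 * y2) := by
        rw [hg1, hg2, hh1, hh2, hα1, hα2, hβ1, hβ2, hu1, hu2]; ring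
      rw [this]; exact j2
    have q1 : g1 * u1 + g2 * u2 = a3 * u1 ^ 2 + a4 * (u1 * u2) + a5 * u2 ^ 2 := by
      rw [hg1, hg2]; linear_combination eu
    have q2 : g1 * v1 + g2 * v2 = (2 * a3 * (u1 * v1) + a4 * (u1 * v2 + u2 * v1) +
        2 * a5 * (u2 * v2)) - (a3 * v1 ^ 2 + a4 * (v1 * v2) + a5 * v2 ^ 2) := by
      rw [hg1, hg2]; linear_combination ev
    have q3 : h1 * u1 + h2 * u2 = b3 * u1 ^ 2 + b4 * (u1 * u2) + b5 * u2 ^ 2 := by
      rw [hh1, hh2]; linear_combination fu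
    have q4 : h1 * v1 + h2 * v2 = (2 * b3 * (u1 * v1) + b4 * (u1 * v2 + u2 * v1) +
        2 * b5 * (u2 * v2)) - (b3 * v1 ^ 2 + b4 * (v1 * v2) + b5 * v2 ^ 2) := by
      rw [hh1, hh2]; linear_combination fv
    have g : D * (g1 * h2 - g2 * h1) = (g1 * u1 + g2 * u2) * (h1 * v1 + h2 * v2) -
        (g1 * v1 + g2 * v2) * (h1 * u1 + h2 * u2) := by rw [hD]; ring
    rw [q1, q2, q3, q4] at g
    have h : D ^ 2 * (g1 * h2 - g2 * h1) = D * (D * (g1 * h2 - g2 * h1)) := by ring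
    have h0 := mul_pos D2 j2'
    rw [h, g] at h0
    refine lt_of_lt_of_eq h0 ?_
    ring
  · -- the point z3
    obtain ⟨g1, hg1⟩ : ∃ t, t = α1 + 2 * a3 * v1 + a4 * v2 := ⟨_, rfl⟩
    obtain ⟨g2, hg2⟩ : ∃ t, t = α2 + a4 * v1 + 2 * a5 * v2 := ⟨_, rfl⟩
    obtain ⟨h1, hh1⟩ : ∃ t, t = β1 + 2 * b3 * v1 + b4 * v2 := ⟨_, rfl⟩
    obtain ⟨h2, hh2⟩ : ∃ t, t = β2 + b4 * v1 + 2 * b5 * v2 := ⟨_, rfl⟩
    have j3' : 0 < g1 * h2 - g2 * h1 := by
      have : g1 * h2 - g2 * h1 = (a1 + 2 * a3 * x3 + a4 * y3) * (b2 + b4 * x3 + 2 * b5 * y3) -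
          (a2 + a4 * x3 + 2 * a5 * y3) * (b1 + 2 * b3 * x3 + b4 * y3) := by
        rw [hg1, hg2, hh1, hh2, hα1, hα2, hβ1, hβ2, hv1, hv2]; ring
      rw [this]; exact j3
    have q1 : g1 * v1 + g2 * v2 = a3 * v1 ^ 2 + a4 * (v1 * v2) + a5 * v2 ^ 2 := by
      rw [hg1, hg2]; linear_combination ev
    have q2 : g1 * u1 + g2 * u2 = (2 * a3 * (u1 * v1) + a4 * (u1 * v2 + u2 * v1) +
        2 * a5 * (u2 * v2)) - (a3 * u1 ^ 2 + a4 * (u1 * u2) + a5 * u2 ^ 2) := by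
      rw [hg1, hg2]; linear_combination eu
    have q3 : h1 * v1 + h2 * v2 = b3 * v1 ^ 2 + b4 * (v1 * v2) + b5 * v2 ^ 2 := by
      rw [hh1, hh2]; linear_combination fv
    have q4 : h1 * u1 + h2 * u2 = (2 * b3 * (u1 * v1) + b4 * (u1 * v2 + u2 * v1) +
        2 * b5 * (u2 * v2)) - (b3 * u1 ^ 2 + b4 * (u1 * u2) + b5 * u2 ^ 2) := by
      rw [hh1, hh2]; linear_combination fu
    have g : D * (g1 * h2 - g2 * h1) = (g1 * u1 + g2 * u2) * (h1 * v1 + h2 * v2) -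
        (g1 * v1 + g2 * v2) * (h1 * u1 + h2 * u2) := by rw [hD]; ring
    rw [q1, q2, q3, q4] at g
    have h : D ^ 2 * (g1 * h2 - g2 * h1) = D * (D * (g1 * h2 - g2 * h1)) := by ring
    have h0 := mul_pos D2 j3'
    rw [h, g] at h0
    refine lt_of_lt_of_eq h0 ?_
    ring
  · -- the point z4
    obtain ⟨g1, hg1⟩ : ∃ t, t = α1 + 2 * a3 * w1 + a4 * w2 := ⟨_, rfl⟩
    obtain ⟨g2, hg2⟩ : ∃ t, t = α2 + a4 * w1 + 2 * a5 * w2 := ⟨_, rfl⟩
    obtain ⟨h1, hh1⟩ : ∃ t, t = β1 + 2 * b3 * w1 + b4 * w2 := ⟨_, rfl⟩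
    obtain ⟨h2, hh2⟩ : ∃ t, t = β2 + b4 * w1 + 2 * b5 * w2 := ⟨_, rfl⟩
    have j4' : 0 < g1 * h2 - g2 * h1 := by
      have : g1 * h2 - g2 * h1 = (a1 + 2 * a3 * x4 + a4 * y4) * (b2 + b4 * x4 + 2 * b5 * y4) -
          (a2 + a4 * x4 + 2 * a5 * y4) * (b1 + 2 * b3 * x4 + b4 * y4) := by
        rw [hg1, hg2, hh1, hh2, hα1, hα2, hβ1, hβ2, hw1, hw2]; ring
      rw [this]; exact j4
    have q1 : g1 * u1 + g2 * u2 = (a3 * u1 ^ 2 + a4 * (u1 * u2) + a5 * u2 ^ 2) * (2 * p - 1) +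
        (2 * a3 * (u1 * v1) + a4 * (u1 * v2 + u2 * v1) + 2 * a5 * (u2 * v2)) * q := by
      rw [hg1, hg2, k1, k2]; linear_combination eu
    have q2 : g1 * v1 + g2 * v2 = (a3 * v1 ^ 2 + a4 * (v1 * v2) + a5 * v2 ^ 2) * (2 * q - 1) +
        (2 * a3 * (u1 * v1) + a4 * (u1 * v2 + u2 * v1) + 2 * a5 * (u2 * v2)) * p := by
      rw [hg1, hg2, k1, k2]; linear_combination ev
    have q3 : h1 * u1 + h2 * u2 = (b3 * u1 ^ 2 + b4 * (u1 * u2) + b5 * u2 ^ 2) * (2 * p - 1) +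
        (2 * b3 * (u1 * v1) + b4 * (u1 * v2 + u2 * v1) + 2 * b5 * (u2 * v2)) * q := by
      rw [hh1, hh2, k1, k2]; linear_combination fu
    have q4 : h1 * v1 + h2 * v2 = (b3 * v1 ^ 2 + b4 * (v1 * v2) + b5 * v2 ^ 2) * (2 * q - 1) +
        (2 * b3 * (u1 * v1) + b4 * (u1 * v2 + u2 * v1) + 2 * b5 * (u2 * v2)) * p := by
      rw [hh1, hh2, k1, k2]; linear_combination fv
    have g : D * (g1 * h2 - g2 * h1) = (g1 * u1 + g2 * u2) * (h1 * v1 + h2 * v2) -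
        (g1 * v1 + g2 * v2) * (h1 * u1 + h2 * u2) := by rw [hD]; ring
    rw [q1, q2, q3, q4] at g
    have h : D ^ 2 * (g1 * h2 - g2 * h1) = D * (D * (g1 * h2 - g2 * h1)) := by ring
    have h0 := mul_pos D2 j4'
    rw [h, g] at h0
    refine lt_of_lt_of_eq h0 ?_
    ring
  · rintro ⟨h, h'⟩
    refine n14 ⟨?_, ?_⟩
    · have : w1 = 0 := by rw [k1, h, h']; ring
      linarith
    · have : w2 = 0 := by rw [k2, h, h']; ring
      linarith
  · rintro ⟨h, h'⟩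
    refine n24 ⟨?_, ?_⟩
    · have : w1 = u1 := by rw [k1, h, h']; ring
      linarith
    · have : w2 = u2 := by rw [k2, h, h']; ring
      linarith
  · rintro ⟨h, h'⟩
    refine n34 ⟨?_, ?_⟩
    · have : w1 = v1 := by rw [k1, h, h']; ring
      linarith
    · have : w2 = v2 := by rw [k2, h, h']; ring
      linarith

/-- At most three zeros of a quadratic field have a positive Jacobian determinant. Proof. Suppose
that `z₁, z₂, z₃, z₄` are different zeros with positive determinant. No three are on a line: on a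
line with three zeros `vf_line` gives `vf P Q = 0` (a quadratic polynomial with three zeros, in both
components), so the derivative in the direction of the line vanishes and the determinant is `0`.
Let `u = z₂ - z₁`, `v = z₃ - z₁` (independent), `z₄ = z₁ + p u + q v`; `p ≠ 0`, `q ≠ 0`,
`p + q ≠ 1`. The functions `f (x,y) = P(z₁ + x u + y v)` and `g` (with `Q`) are quadratic polynomials
which vanish at `(0,0)`, `(1,0)`, `(0,1)`, so `f = a x(x-1) + b y(y-1) + c x y`,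
`g = a' x(x-1) + b' y(y-1) + c' x y` (a polynomial of degree at most 2 in `(x,y)`: use `poly_line`
or the coefficients), and `a p(p-1) + b q(q-1) + c p q = 0`, the same for `a',b',c'`. The Jacobian
determinants at the four points (with respect to `(x,y)`; they are the determinants of the field times
`det2 u v`, so they have the same strict sign) are
`J₁ = a b' - a' b`, `J₂ = a (c' - b') - a' (c - b)`, `J₃ = (c - a) b' - (c' - a') b`,
`J₄ = (a(2p-1)+cq)(b'(2q-1)+c'p) - (a'(2p-1)+c'q)(b(2q-1)+cp)`. With `s = p + q - 1`: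
`p J₂ = -s J₁`, `q J₃ = -s J₁`, `J₄ = s J₁` (multiply by `q`, `p`, `p q` and use the two relations).
All `J` of the same strict sign: `s > 0` from `J₄`, `p < 0`, `q < 0` from `J₂`, `J₃`, so
`s = p + q - 1 < 0`, a contradiction. -/
theorem jac_three {P Q : MvPolynomial (Fin 2) ℝ} (hP : P.totalDegree ≤ 2)
    (hQ : Q.totalDegree ≤ 2) (s : Finset (ℝ × ℝ))
    (hs : ∀ q ∈ s, vf P Q q = 0 ∧ 0 < jacd (vf P Q) q) : s.card ≤ 3 := by
  classical
  obtain ⟨a0, a1, a2, a3, a4, a5, ha⟩ := jt_form hP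
  obtain ⟨b0, b1, b2, b3, b4, b5, hb⟩ := jt_form hQ
  by_contra hc
  obtain ⟨t, hts, ht⟩ := Finset.exists_subset_card_eq (show 4 ≤ s.card by omega)
  obtain ⟨z1, t', hz1, rfl, ht'⟩ := Finset.card_eq_succ.1 ht
  obtain ⟨z2, z3, z4, n23, n24, n34, rfl⟩ := Finset.card_eq_three.1 ht'
  have m1 := hs z1 (hts (by simp))
  have m2 := hs z2 (hts (by simp))
  have m3 := hs z3 (hts (by simp))
  have m4 := hs z4 (hts (by simp))
  simp only [Finset.mem_insert, Finset.mem_singleton, not_or] at hz1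
  obtain ⟨n12, n13, n14⟩ := hz1
  have hv : ∀ z : ℝ × ℝ, vf P Q z = 0 →
      a0 + a1 * z.1 + a2 * z.2 + a3 * z.1 ^ 2 + a4 * (z.1 * z.2) + a5 * z.2 ^ 2 = 0 ∧
      b0 + b1 * z.1 + b2 * z.2 + b3 * z.1 ^ 2 + b4 * (z.1 * z.2) + b5 * z.2 ^ 2 = 0 := by
    intro z hz
    rw [vf, Prod.mk_eq_zero] at hz
    exact ⟨by rw [← ha]; exact hz.1, by rw [← hb]; exact hz.2⟩
  have hne : ∀ z w : ℝ × ℝ, z ≠ w → ¬ (z.1 = w.1 ∧ z.2 = w.2) :=
    fun z w h h' => h (Prod.ext h'.1 h'.2)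
  have hj : ∀ z : ℝ × ℝ, 0 < jacd (vf P Q) z →
      0 < (a1 + 2 * a3 * z.1 + a4 * z.2) * (b2 + b4 * z.1 + 2 * b5 * z.2) -
      (a2 + a4 * z.1 + 2 * a5 * z.2) * (b1 + 2 * b3 * z.1 + b4 * z.2) := by
    intro z hz
    rwa [jt_jac ha hb z] at hz
  exact jt_four (hv z1 m1.1).1 (hv z2 m2.1).1 (hv z3 m3.1).1 (hv z4 m4.1).1
    (hv z1 m1.1).2 (hv z2 m2.1).2 (hv z3 m3.1).2 (hv z4 m4.1).2
    (hj z1 m1.2) (hj z2 m2.2) (hj z3 m3.2) (hj z4 m4.2)
    (hne _ _ n12) (hne _ _ n13) (hne _ _ n14) (hne _ _ n23) (hne _ _ n24) (hne _ _ n34)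

end Pool.Agent.Lib.MP_95e7ec_an
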