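import Mathlib
import Pool.Agent.Lib.MP_95e7ec_an.Rz.Defs

/-!
# Rz, Closed: the integral of the cotangent over a leaf is zero
-/

set_option autoImplicit false

open Set Filter Topology MeasureTheory
open scoped ContDiff ENNReal

namespace Pool.Agent.Lib.MP_95e7ec_an

/-- Proof. `r` is continuous (it is differentiable), `lfU` is continuous, its imaginary part is
positive. -/
theorem Leaf.continuous_lfC {p q : ℝ → ℂ} (h : PQ p q) {d : ℕ} {b : ℝ} {r : ℝ → ℝ}
    (hr : Leaf p q d b r) : Continuous (lfC p q d b r) := by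
  have hrc : Continuous r := by
    rw [continuous_iff_continuousAt]
    intro θ
    exact (hr.der θ).continuousAt
  have hU : Continuous (lfU p q d b r) := by
    unfold lfU
    exact continuous_const.mul
      (h.cp.add ((Complex.continuous_ofReal.comp (hrc.pow d)).mul h.cq))
  exact (Complex.continuous_re.comp hU).div (Complex.continuous_im.comp hU)
    (fun θ => (hr.up θ).ne')

/-- Proof. Everything is periodic. -/
theorem Leaf.periodic_lfC {p q : ℝ → ℂ} (h : PQ p q) {d : ℕ} {b : ℝ} {r : ℝ → ℝ}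
    (hr : Leaf p q d b r) (θ : ℝ) : lfC p q d b r (θ + 2 * Real.pi) = lfC p q d b r θ := by
  unfold lfC lfU
  rw [h.pp, h.pq, hr.per]

/-- Proof. `lfC` is the derivative of `log r`, and `r (2π) = r 0`. -/
theorem Leaf.integral_lfC {p q : ℝ → ℂ} (h : PQ p q) {d : ℕ} {b : ℝ} {r : ℝ → ℝ}
    (hr : Leaf p q d b r) : ∫ θ in Set.Ioc 0 (2 * Real.pi), lfC p q d b r θ = 0 := by
  have hpi : (0 : ℝ) ≤ 2 * Real.pi := by positivity
  have hd : ∀ θ ∈ Set.uIcc (0 : ℝ) (2 * Real.pi),
      HasDerivAt (fun θ => Real.log (r θ)) (lfC p q d b r θ) θ := by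
    intro θ _
    have h1 := (hr.der θ).log (hr.pos θ).ne'
    have h2 : r θ * lfC p q d b r θ / r θ = lfC p q d b r θ := by
      field_simp [(hr.pos θ).ne']
    rwa [h2] at h1
  have h3 := intervalIntegral.integral_eq_sub_of_hasDerivAt hd
    ((Leaf.continuous_lfC h hr).intervalIntegrable 0 (2 * Real.pi))
  rw [intervalIntegral.integral_of_le hpi] at h3
  rw [h3]
  have h4 : r (2 * Real.pi) = r 0 := by
    have := hr.per 0
    rwa [zero_add] at this
  simp only [h4, sub_self]

/-- Proof. `∫ over S ∩ I + ∫ over Sᶜ ∩ I = ∫ over I = 0` (`integral_inter_add_diff` or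
`setIntegral` of a disjoint union; the function is continuous, so integrable on the bounded set). -/
theorem FS_compl {p q : ℝ → ℂ} (h : PQ p q) {d : ℕ} {b : ℝ} {r : ℝ → ℝ}
    (hr : Leaf p q d b r) {S : Set ℝ} (hS : MeasurableSet S) :
    FS p q d b r Sᶜ = -FS p q d b r S := by
  have hint : IntegrableOn (lfC p q d b r) (Set.Ioc 0 (2 * Real.pi)) volume :=
    ((Leaf.continuous_lfC h hr).integrableOn_Icc).mono_set Set.Ioc_subset_Icc_self
  have h1 := MeasureTheory.integral_inter_add_sdiff (μ := volume) (f := lfC p q d b r)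
    (s := Set.Ioc 0 (2 * Real.pi)) hS hint
  rw [Leaf.integral_lfC h hr] at h1
  unfold FS
  have e1 : S ∩ Set.Ioc 0 (2 * Real.pi) = Set.Ioc 0 (2 * Real.pi) ∩ S := Set.inter_comm _ _
  have e2 : Sᶜ ∩ Set.Ioc 0 (2 * Real.pi) = Set.Ioc 0 (2 * Real.pi) \ S := by
    ext x
    constructor
    · rintro ⟨h1, h2⟩
      exact ⟨h2, h1⟩
    · rintro ⟨h1, h2⟩
      exact ⟨h2, h1⟩
  rw [e1, e2]
  linarith

end Pool.Agent.Lib.MP_95e7ec_an
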