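import Mathlib
import Pool.Agent.Lib.MP_95e7ec_an.Rz.Defs

/-!
# Rz, Cot: one point of two leaves
-/

set_option autoImplicit false

open Set Filter Topology MeasureTheory
open scoped ContDiff ENNReal

namespace Pool.Agent.Lib.MP_95e7ec_an

private theorem Cot_polar {U : ℂ} (hU : 0 < U.im) :
    ∃ r : ℝ, 0 < r ∧ 0 < Real.sin (Complex.arg U) ∧ U.re = r * Real.cos (Complex.arg U) ∧
      U.im = r * Real.sin (Complex.arg U) ∧ 0 < Complex.arg U ∧ Complex.arg U < Real.pi := by
  have hne : U ≠ 0 := by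
    rintro rfl
    simp at hU
  have hr : 0 < ‖U‖ := norm_pos_iff.mpr hne
  have h1 : U.re = ‖U‖ * Real.cos (Complex.arg U) := by
    rw [Complex.cos_arg hne]
    field_simp
  have h2 : U.im = ‖U‖ * Real.sin (Complex.arg U) := by
    rw [Complex.sin_arg]
    field_simp
  have h3 : 0 < Real.sin (Complex.arg U) := by
    rw [Complex.sin_arg]
    positivity
  have h4 : 0 ≤ Complex.arg U := Complex.arg_nonneg_iff.mpr hU.le
  have h5 : Complex.arg U ≤ Real.pi := Complex.arg_le_pi U
  refine ⟨‖U‖, hr, h3, h1, h2, ?_, ?_⟩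
  · refine lt_of_le_of_ne h4 (fun h => ?_)
    rw [← h, Real.sin_zero] at h3
    exact lt_irrefl _ h3
  · refine lt_of_le_of_ne h5 (fun h => ?_)
    rw [h, Real.sin_pi] at h3
    exact lt_irrefl _ h3

/-- Proof. Let `α = arg U`, `β = arg V`, both in `(0,π)` since the imaginary parts are positive;
`U.re / U.im = cos α / sin α` (`Complex.norm_mul_exp_arg_mul_I` or `Complex.cos_arg`,
`Complex.sin_arg`). Then `cos t + (U.re/U.im) sin t = sin (α+t) / sin α > 0` because
`0 < α + t ≤ β < π`, and the second claim is, after multiplication with `sin α sin β > 0`,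
`cos β sin (α+t) ≤ cos (α+t) sin β`, i.e. `0 ≤ sin (β - α - t)`. -/
theorem cot_step {U V : ℂ} (hU : 0 < U.im) (hV : 0 < V.im) {t : ℝ} (ht : 0 ≤ t)
    (h : Complex.arg U + t ≤ Complex.arg V) :
    0 < Real.cos t + U.re / U.im * Real.sin t ∧
      V.re / V.im * (Real.cos t + U.re / U.im * Real.sin t) ≤
        U.re / U.im * Real.cos t - Real.sin t := by
  obtain ⟨r, hr, hs, hre, him, hα0, hαπ⟩ := Cot_polar hU
  obtain ⟨q, hq, hs', hre', him', hβ0, hβπ⟩ := Cot_polar hV
  set α := Complex.arg U with hα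
  set β := Complex.arg V with hβ
  have e1 : U.re / U.im = Real.cos α / Real.sin α := by
    rw [hre, him, mul_div_mul_left _ _ hr.ne']
  have e2 : V.re / V.im = Real.cos β / Real.sin β := by
    rw [hre', him', mul_div_mul_left _ _ hq.ne']
  have e3 : Real.cos t + Real.cos α / Real.sin α * Real.sin t =
      Real.sin (α + t) / Real.sin α := by
    rw [Real.sin_add]
    field_simp
  have e4 : Real.cos α / Real.sin α * Real.cos t - Real.sin t =
      Real.cos (α + t) / Real.sin α := by
    rw [Real.cos_add]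
    field_simp
  have hpos : 0 < Real.sin (α + t) :=
    Real.sin_pos_of_pos_of_lt_pi (by linarith) (by linarith)
  rw [e1, e2, e3, e4]
  refine ⟨by positivity, ?_⟩
  have hd : 0 ≤ Real.sin (β - (α + t)) :=
    Real.sin_nonneg_of_nonneg_of_le_pi (by linarith) (by linarith)
  rw [Real.sin_sub] at hd
  rw [div_mul_div_comm, div_le_div_iff₀ (by positivity) hs]
  nlinarith [mul_nonneg hs.le hd]

/-- Proof. As above: `cot` is strictly decreasing on `(0,π)`. (Or: use `cot_step` with the angle
`0` for `≤` and the same computation with `<`.) -/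
theorem cot_lt {U V : ℂ} (hU : 0 < U.im) (hV : 0 < V.im)
    (h : Complex.arg U < Complex.arg V) : V.re / V.im < U.re / U.im := by
  obtain ⟨r, hr, hs, hre, him, hα0, hαπ⟩ := Cot_polar hU
  obtain ⟨q, hq, hs', hre', him', hβ0, hβπ⟩ := Cot_polar hV
  have e1 : U.re / U.im = Real.cos (Complex.arg U) / Real.sin (Complex.arg U) := by
    rw [hre, him, mul_div_mul_left _ _ hr.ne']
  have e2 : V.re / V.im = Real.cos (Complex.arg V) / Real.sin (Complex.arg V) := by
    rw [hre', him', mul_div_mul_left _ _ hq.ne']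
  have hd : 0 < Real.sin (Complex.arg V - Complex.arg U) :=
    Real.sin_pos_of_pos_of_lt_pi (by linarith) (by linarith)
  rw [Real.sin_sub] at hd
  rw [e1, e2, div_lt_div_iff₀ hs' hs]
  linarith

/-- Proof. `(conj V * U).im = V.re U.im - V.im U.re`; divide by `U.im V.im > 0`. -/
theorem cot_le_of_det {U V : ℂ} (hU : 0 < U.im) (hV : 0 < V.im)
    (h : 0 ≤ V.re * U.im - V.im * U.re) : U.re / U.im ≤ V.re / V.im := by
  rw [div_le_div_iff₀ hU hV]
  linarith

end Pool.Agent.Lib.MP_95e7ec_an
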