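import Mathlib
import Pool.Agent.Lib.MP_95e7ec_an.Rz.Cot
import Pool.Agent.Lib.MP_95e7ec_an.Rz.Closed

/-!
# Rz, Anti: opposite points of a leaf
-/

set_option autoImplicit false

open Set Filter Topology MeasureTheory
open scoped ContDiff ENNReal

namespace Pool.Agent.Lib.MP_95e7ec_an

private theorem Anti_det (P Q w : ℂ) (s t : ℝ) (hw : w.re ^ 2 + w.im ^ 2 = 1) :
    (w * (P - (t : ℂ) * Q)).re * (w * (P + (s : ℂ) * Q)).im -
      (w * (P - (t : ℂ) * Q)).im * (w * (P + (s : ℂ) * Q)).re =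
      (s + t) * (P.re * Q.im - P.im * Q.re) := by
  simp only [Complex.mul_re, Complex.mul_im, Complex.add_re, Complex.add_im, Complex.sub_re,
    Complex.sub_im, Complex.ofReal_re, Complex.ofReal_im]
  have h2 : (s + t) * (P.re * Q.im - P.im * Q.re) =
      (w.re ^ 2 + w.im ^ 2) * ((s + t) * (P.re * Q.im - P.im * Q.re)) := by rw [hw, one_mul]
  rw [h2]
  ring

private theorem Anti_norm (b : ℝ) :
    (Complex.exp ((b : ℂ) * Complex.I)).re ^ 2 + (Complex.exp ((b : ℂ) * Complex.I)).im ^ 2 =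
      1 := by
  rw [Complex.exp_ofReal_mul_I_re, Complex.exp_ofReal_mul_I_im]
  exact Real.cos_sq_add_sin_sq b

private theorem Anti_shift {f : ℝ → ℝ} (hper : ∀ θ, f (θ + 2 * Real.pi) = f θ)
    {S : Set ℝ} (hS : MeasurableSet S) (hanti : ∀ θ, θ ∈ S ↔ θ + Real.pi ∉ S) :
    ∫ θ in S ∩ Set.Ioc 0 (2 * Real.pi), f (θ + Real.pi) =
      ∫ θ in Sᶜ ∩ Set.Ioc 0 (2 * Real.pi), f θ := by
  have hpi := Real.pi_pos
  have h0 : (0 : ℝ) ≤ 2 * Real.pi := by positivity
  have hgper : Function.Periodic (Sᶜ.indicator f) (2 * Real.pi) := by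
    intro θ
    have h1 : θ + 2 * Real.pi ∈ Sᶜ ↔ θ ∈ Sᶜ := by
      have e : θ + 2 * Real.pi = (θ + Real.pi) + Real.pi := by ring
      have ha := hanti θ
      have hb := hanti (θ + Real.pi)
      rw [Set.mem_compl_iff, Set.mem_compl_iff, e]
      tauto
    by_cases hθ : θ ∈ Sᶜ
    · rw [Set.indicator_of_mem hθ, Set.indicator_of_mem (h1.2 hθ), hper]
    · rw [Set.indicator_of_notMem hθ, Set.indicator_of_notMem (fun h => hθ (h1.1 h))]
  have hg : ∀ θ, S.indicator (fun θ => f (θ + Real.pi)) θ = Sᶜ.indicator f (θ + Real.pi) := by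
    intro θ
    by_cases hθ : θ ∈ S
    · rw [Set.indicator_of_mem hθ, Set.indicator_of_mem (show θ + Real.pi ∈ Sᶜ from
        (hanti θ).1 hθ)]
    · have h2 : θ + Real.pi ∉ Sᶜ := by
        intro h3
        exact hθ ((hanti θ).2 h3)
      rw [Set.indicator_of_notMem hθ, Set.indicator_of_notMem h2]
  calc ∫ θ in S ∩ Set.Ioc 0 (2 * Real.pi), f (θ + Real.pi)
      = ∫ θ in Set.Ioc 0 (2 * Real.pi), S.indicator (fun θ => f (θ + Real.pi)) θ := by
        rw [MeasureTheory.setIntegral_indicator hS, Set.inter_comm]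
    _ = ∫ θ in (0 : ℝ)..(2 * Real.pi), Sᶜ.indicator f (θ + Real.pi) := by
        rw [intervalIntegral.integral_of_le h0]
        simp only [hg]
    _ = ∫ θ in (0 + Real.pi)..(2 * Real.pi + Real.pi), Sᶜ.indicator f θ := by
        rw [intervalIntegral.integral_comp_add_right (fun θ => Sᶜ.indicator f θ)]
    _ = ∫ θ in (0 : ℝ)..(2 * Real.pi), Sᶜ.indicator f θ := by
        have h3 := hgper.intervalIntegral_add_eq (0 + Real.pi) 0
        rw [zero_add (2 * Real.pi)] at h3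
        rw [← h3]
        congr 1
        ring
    _ = ∫ θ in Sᶜ ∩ Set.Ioc 0 (2 * Real.pi), f θ := by
        rw [intervalIntegral.integral_of_le h0,
          MeasureTheory.setIntegral_indicator hS.compl, Set.inter_comm]

/-- Proof. Let `I = Ioc 0 (2π)`, `F = FS .. S`. For `θ ∈ S`: `U(θ) = e^{ib} (p + s q)`,
`U(θ+π) = σ e^{ib} (p - s' q)` with `p = p θ`, `q = q θ`, `s = r(θ)^d > 0`, `s' = r(θ+π)^d > 0`, so
`(conj U(θ+π) * U(θ)).im = σ (s + s') pqD p q θ`. If `σ = 1` it is `≥ 0` and `cot_le_of_det` gives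
`lfC θ ≤ lfC (θ+π)`; integrate over `S ∩ I`:
`F ≤ ∫_{S ∩ I} lfC (θ+π) dθ = ∫_{(S+π) ∩ (I+π)} lfC = ∫_{Sᶜ ∩ (I+π)} lfC = FS .. Sᶜ = -F`
(`θ ∈ S ↔ θ+π ∉ S`; `Sᶜ` and `lfC` have the period `2π`, so the integral over `Sᶜ ∩ (π,3π]` is the
integral over `Sᶜ ∩ (0,2π]`: use the periodic function `indicator Sᶜ lfC` and
`Function.Periodic.intervalIntegral_add_eq`), so `F ≤ 0`. If `σ = -1` the inequality is reversed
and `F ≥ 0`. -/
theorem anti_sign {p q : ℝ → ℂ} (h : PQ p q) {d : ℕ} {b : ℝ} {r : ℝ → ℝ}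
    (hr : Leaf p q d b r) {σ : ℝ} (hσ : σ = 1 ∨ σ = -1)
    (hp : ∀ θ, p (θ + Real.pi) = (σ : ℂ) * p θ) (hq : ∀ θ, q (θ + Real.pi) = -((σ : ℂ) * q θ))
    {S : Set ℝ} (hS : MeasurableSet S) (hS1 : ∀ θ ∈ S, 0 ≤ pqD p q θ)
    (hanti : ∀ θ, θ ∈ S ↔ θ + Real.pi ∉ S) : FS p q d b r S * σ ≤ 0 := by
  have hcont : Continuous (lfC p q d b r) := Leaf.continuous_lfC h hr
  have hper : ∀ θ, lfC p q d b r (θ + 2 * Real.pi) = lfC p q d b r θ :=
    fun θ => Leaf.periodic_lfC h hr θ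
  have hcompl := FS_compl h hr hS
  have hshift := Anti_shift (f := lfC p q d b r) hper hS hanti
  have hmS : MeasurableSet (S ∩ Set.Ioc 0 (2 * Real.pi)) := hS.inter measurableSet_Ioc
  have hi1 : IntegrableOn (fun θ => lfC p q d b r θ) (S ∩ Set.Ioc 0 (2 * Real.pi)) :=
    (hcont.integrableOn_Ioc (a := 0) (b := 2 * Real.pi)).mono_set Set.inter_subset_right
  have hi2 : IntegrableOn (fun θ => lfC p q d b r (θ + Real.pi))
      (S ∩ Set.Ioc 0 (2 * Real.pi)) :=
    ((hcont.comp (continuous_id.add continuous_const)).integrableOn_Ioc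
      (a := 0) (b := 2 * Real.pi)).mono_set Set.inter_subset_right
  have hF : FS p q d b r S = ∫ θ in S ∩ Set.Ioc 0 (2 * Real.pi), lfC p q d b r θ := rfl
  have hFc : FS p q d b r Sᶜ = ∫ θ in Sᶜ ∩ Set.Ioc 0 (2 * Real.pi), lfC p q d b r θ := rfl
  -- the two points
  have hU : ∀ θ, lfU p q d b r θ =
      Complex.exp ((b : ℂ) * Complex.I) * (p θ + ((r θ ^ d : ℝ) : ℂ) * q θ) := fun θ => rfl
  have hV : ∀ θ, lfU p q d b r (θ + Real.pi) =
      (σ : ℂ) * (Complex.exp ((b : ℂ) * Complex.I) *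
        (p θ - ((r (θ + Real.pi) ^ d : ℝ) : ℂ) * q θ)) := by
    intro θ
    rw [hU, hp, hq]
    ring
  have hs : ∀ θ, 0 < r θ ^ d := fun θ => pow_pos (hr.pos θ) d
  rcases hσ with rfl | rfl
  · have hle : ∀ θ ∈ S ∩ Set.Ioc 0 (2 * Real.pi),
        lfC p q d b r θ ≤ lfC p q d b r (θ + Real.pi) := by
      intro θ hθ
      refine cot_le_of_det (hr.up θ) (hr.up (θ + Real.pi)) ?_
      have hd := Anti_det (p θ) (q θ) (Complex.exp ((b : ℂ) * Complex.I)) (r θ ^ d)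
        (r (θ + Real.pi) ^ d) (Anti_norm b)
      rw [hV, Complex.ofReal_one, one_mul, hU, hd]
      exact mul_nonneg (by have := hs θ; have := hs (θ + Real.pi); linarith)
        (hS1 θ hθ.1)
    have hint := MeasureTheory.setIntegral_mono_on hi1 hi2 hmS hle
    rw [hshift, ← hFc, ← hF, hcompl] at hint
    linarith
  · have hle : ∀ θ ∈ S ∩ Set.Ioc 0 (2 * Real.pi),
        lfC p q d b r (θ + Real.pi) ≤ lfC p q d b r θ := by
      intro θ hθ
      refine cot_le_of_det (hr.up (θ + Real.pi)) (hr.up θ) ?_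
      have hd := Anti_det (p θ) (q θ) (Complex.exp ((b : ℂ) * Complex.I)) (r θ ^ d)
        (r (θ + Real.pi) ^ d) (Anti_norm b)
      rw [hV, Complex.ofReal_neg, Complex.ofReal_one, neg_one_mul, hU, Complex.neg_re,
        Complex.neg_im]
      have h5 : 0 ≤ (r θ ^ d + r (θ + Real.pi) ^ d) * ((p θ).re * (q θ).im -
          (p θ).im * (q θ).re) :=
        mul_nonneg (by have := hs θ; have := hs (θ + Real.pi); linarith) (hS1 θ hθ.1)
      rw [← hd] at h5
      linarith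
    have hint := MeasureTheory.setIntegral_mono_on hi2 hi1 hmS hle
    rw [hshift, ← hFc, ← hF, hcompl] at hint
    linarith

end Pool.Agent.Lib.MP_95e7ec_an
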