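import Mathlib
import Pool.Agent.Lib.MP_95e7ec_an.Rz.Defs

/-!
# Rz, AntiSet: the set of the angles with positive determinant
-/

set_option autoImplicit false

open Set Filter Topology MeasureTheory
open scoped ContDiff ENNReal

namespace Pool.Agent.Lib.MP_95e7ec_an

theorem antiSet_pqD_add_pi {p q : ℝ → ℂ} {σ : ℝ} (hσ : σ = 1 ∨ σ = -1)
    (hp : ∀ θ, p (θ + Real.pi) = (σ : ℂ) * p θ)
    (hq : ∀ θ, q (θ + Real.pi) = -((σ : ℂ) * q θ)) (θ : ℝ) :
    pqD p q (θ + Real.pi) = - pqD p q θ := by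
  unfold pqD
  rw [hp, hq]
  rcases hσ with h | h <;> subst h <;> simp <;> ring

theorem antiSet_vol {S : Set ℝ} (hS : MeasurableSet S)
    (h : ∀ θ, θ ∈ S ↔ θ + Real.pi ∉ S) :
    volume (S ∩ Set.Ioc 0 (2 * Real.pi)) = ENNReal.ofReal Real.pi := by
  have hpi := Real.pi_pos
  have hsplit : S ∩ Set.Ioc 0 (2 * Real.pi) =
      (S ∩ Set.Ioc 0 Real.pi) ∪ (S ∩ Set.Ioc Real.pi (2 * Real.pi)) := by
    rw [← Set.inter_union_distrib_left,
      Set.Ioc_union_Ioc_eq_Ioc hpi.le (by linarith)]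
  have hdisj : Disjoint (S ∩ Set.Ioc 0 Real.pi) (S ∩ Set.Ioc Real.pi (2 * Real.pi)) := by
    rw [Set.disjoint_left]
    rintro x ⟨_, hx⟩ ⟨_, hy⟩
    exact absurd hx.2 (not_le.mpr hy.1)
  have hshift : volume (S ∩ Set.Ioc Real.pi (2 * Real.pi)) =
      volume (Sᶜ ∩ Set.Ioc 0 Real.pi) := by
    rw [← measure_preimage_add_right volume Real.pi (S ∩ Set.Ioc Real.pi (2 * Real.pi))]
    congr 1
    ext x
    simp only [Set.mem_preimage, Set.mem_inter_iff, Set.mem_Ioc, Set.mem_compl_iff]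
    constructor
    · rintro ⟨h1, h2, h3⟩
      refine ⟨fun hx => (h x).1 hx h1, by linarith, by linarith⟩
    · rintro ⟨h1, h2, h3⟩
      refine ⟨?_, by linarith, by linarith⟩
      by_contra hc
      exact h1 ((h x).2 hc)
  rw [hsplit, measure_union hdisj (hS.inter measurableSet_Ioc), hshift]
  have hunion : volume (S ∩ Set.Ioc 0 Real.pi) + volume (Sᶜ ∩ Set.Ioc 0 Real.pi) =
      volume (Set.Ioc (0 : ℝ) Real.pi) := by
    have := measure_inter_add_diff (μ := volume) (Set.Ioc (0 : ℝ) Real.pi) hS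
    rw [← this, Set.inter_comm S, Set.inter_comm Sᶜ, Set.diff_eq]
  rw [hunion, Real.volume_Ioc, sub_zero]

/-- Proof. `pqD (θ+π) = -pqD θ`. Take
`S = {0 < pqD} ∪ ({pqD = 0} ∩ {θ | 0 < sin θ ∨ (sin θ = 0 ∧ 0 < cos θ)})`. The last set `A` satisfies
`θ ∈ A ↔ θ + π ∉ A`. Volumes: `S ∩ (0,2π]` and `Sᶜ ∩ (0,2π]` have the same volume (shift by `π` and
periodicity, as in `anti_sign`; for instance with the integral of periodic indicator functions) and
the sum is `2π`. -/
theorem exists_anti_set {p q : ℝ → ℂ} (h : PQ p q) {σ : ℝ} (hσ : σ = 1 ∨ σ = -1)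
    (hp : ∀ θ, p (θ + Real.pi) = (σ : ℂ) * p θ)
    (hq : ∀ θ, q (θ + Real.pi) = -((σ : ℂ) * q θ)) :
    ∃ S : Set ℝ, MeasurableSet S ∧ (∀ θ ∈ S, 0 ≤ pqD p q θ) ∧ (∀ θ, θ ∉ S → pqD p q θ ≤ 0) ∧
      (∀ θ, θ ∈ S ↔ θ + Real.pi ∉ S) ∧
      volume (S ∩ Set.Ioc 0 (2 * Real.pi)) = ENNReal.ofReal Real.pi ∧
      volume (Sᶜ ∩ Set.Ioc 0 (2 * Real.pi)) = ENNReal.ofReal Real.pi := by
  have hD : ∀ θ, pqD p q (θ + Real.pi) = - pqD p q θ := antiSet_pqD_add_pi hσ hp hq
  have hDc : Continuous (pqD p q) := by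
    unfold pqD
    have h1 := h.cp
    have h2 := h.cq
    fun_prop
  set S : Set ℝ := {θ | 0 < pqD p q θ} ∪
    {θ | pqD p q θ = 0 ∧ (0 < Real.sin θ ∨ (Real.sin θ = 0 ∧ 0 < Real.cos θ))} with hSdef
  have hmem : ∀ θ, θ ∈ S ↔ (0 < pqD p q θ ∨
      (pqD p q θ = 0 ∧ (0 < Real.sin θ ∨ (Real.sin θ = 0 ∧ 0 < Real.cos θ)))) := by
    intro θ
    rfl
  have hSm : MeasurableSet S := by
    refine MeasurableSet.union (measurableSet_lt measurable_const hDc.measurable) ?_
    refine MeasurableSet.inter (measurableSet_eq_fun hDc.measurable measurable_const) ?_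
    refine MeasurableSet.union
      (measurableSet_lt measurable_const Real.continuous_sin.measurable) ?_
    exact MeasurableSet.inter
      (measurableSet_eq_fun Real.continuous_sin.measurable measurable_const)
      (measurableSet_lt measurable_const Real.continuous_cos.measurable)
  have hflip : ∀ θ, θ ∈ S ↔ θ + Real.pi ∉ S := by
    intro θ
    rw [hmem, hmem, hD, Real.sin_add_pi, Real.cos_add_pi]
    have hsc := Real.sin_sq_add_cos_sq θ
    constructor
    · rintro (h1 | ⟨h1, h2⟩)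
      · rintro (h3 | ⟨h3, _⟩) <;> linarith
      · rintro (h3 | ⟨_, h4⟩)
        · linarith
        · rcases h2 with h2 | ⟨h2, h5⟩ <;> rcases h4 with h4 | ⟨h4, h6⟩ <;> linarith
    · intro hn
      push Not at hn
      obtain ⟨h1, h2⟩ := hn
      rcases lt_trichotomy (pqD p q θ) 0 with h3 | h3 | h3
      · exfalso
        linarith
      · right
        refine ⟨h3, ?_⟩
        obtain ⟨h4, h5⟩ := h2 (by linarith)
        rcases (show (0 : ℝ) ≤ Real.sin θ by linarith).lt_or_eq with h6 | h6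
        · exact Or.inl h6
        · right
          refine ⟨h6.symm, ?_⟩
          have h7 := h5 (by linarith)
          rcases (show (0 : ℝ) ≤ Real.cos θ by linarith).lt_or_eq with h8 | h8
          · exact h8
          · exfalso
            rw [← h6, ← h8] at hsc
            norm_num at hsc
      · exact Or.inl h3
  refine ⟨S, hSm, ?_, ?_, hflip, antiSet_vol hSm hflip, antiSet_vol hSm.compl ?_⟩
  · intro θ hθ
    rcases (hmem θ).1 hθ with h1 | ⟨h1, _⟩
    · exact h1.le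
    · exact h1.ge
  · intro θ hθ
    by_contra hc
    exact hθ ((hmem θ).2 (Or.inl (not_le.mp hc)))
  · intro θ
    simp only [Set.mem_compl_iff, not_not]
    constructor
    · intro h1
      by_contra h2
      exact h1 ((hflip θ).2 h2)
    · intro h1 h2
      exact (hflip θ).1 h2 h1

end Pool.Agent.Lib.MP_95e7ec_an
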