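import Mathlib
import Pool.Agent.Lib.MP_95e7ec_an.Rz.Defs

/-!
# Rz, ArcCover: sets of small diameter modulo 2 pi
-/

set_option autoImplicit false

open Set Filter Topology MeasureTheory
open scoped ContDiff ENNReal

namespace Pool.Agent.Lib.MP_95e7ec_an

/-- A set of reals all of whose pairs have a distance at most `h` modulo `2π` (`h ≤ 1`) is contained,
modulo `2π`, in an interval of length `h`. Proof. If `ι` is empty take `c = 0`. Fix `i₀`;
`a i = a i₀ + D i + 2π (m i)` with `|D i| ≤ h`. For `i`, `j`: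
`D j - D i = Δ + 2π m`, `|Δ| ≤ h`, `|D j - D i| ≤ 2 h`, so `|2π m| ≤ 3 h < 2π`, `m = 0` and
`|D j - D i| ≤ h`. Take `c = a i₀ + inf D` (`csInf`, bounded below by `-h`). -/
theorem arc_of_pairs {ι : Type*} (a : ι → ℝ) {h : ℝ} (h0 : 0 ≤ h) (h1 : h ≤ 1)
    (hp : ∀ i j, ∃ (Δ : ℝ) (m : ℤ), a j - a i = Δ + 2 * Real.pi * m ∧ |Δ| ≤ h) :
    ∃ c : ℝ, ∀ i, ∃ m : ℤ, a i + 2 * Real.pi * m ∈ Set.Icc c (c + h) := by
  classical
  by_cases hne : Nonempty ι
  swap
  · exact ⟨0, fun i => absurd ⟨i⟩ hne⟩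
  obtain ⟨i₀⟩ := hne
  have : Nonempty ι := ⟨i₀⟩
  choose D m hD using hp i₀
  have hpi : (3 : ℝ) < Real.pi := Real.pi_gt_three
  have key : ∀ i j, |D j - D i| ≤ h := by
    intro i j
    obtain ⟨Δ, k, hk, hΔ⟩ := hp i j
    have e1 := (hD i).1
    have e2 := (hD j).1
    have b1 := (hD i).2
    have b2 := (hD j).2
    have e3 : D j - D i = Δ + 2 * Real.pi * ((k - m j + m i : ℤ) : ℝ) := by
      push_cast
      linarith
    have hK : (k - m j + m i : ℤ) = 0 := by
      by_contra hK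
      have h3 : (1 : ℝ) ≤ |((k - m j + m i : ℤ) : ℝ)| := by
        have := Int.one_le_abs hK
        exact_mod_cast this
      have h4 : 2 * Real.pi * ((k - m j + m i : ℤ) : ℝ) = D j - D i - Δ := by linarith
      have h5 : |2 * Real.pi * ((k - m j + m i : ℤ) : ℝ)| =
          2 * Real.pi * |((k - m j + m i : ℤ) : ℝ)| := by
        rw [abs_mul, abs_of_pos (by positivity)]
      have h6 : |D j - D i - Δ| ≤ 3 * h := by
        rw [abs_le] at b1 b2 hΔ ⊢
        constructor <;> linarith [b1.1, b1.2, b2.1, b2.2, hΔ.1, hΔ.2]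
      rw [← h4, h5] at h6
      nlinarith
    rw [e3, hK]
    simpa using hΔ
  have hbdd : BddBelow (Set.range D) := by
    refine ⟨-h, ?_⟩
    rintro _ ⟨i, rfl⟩
    exact (abs_le.mp (hD i).2).1
  refine ⟨a i₀ + ⨅ i, D i, fun i => ⟨-m i, ?_⟩⟩
  have e1 := (hD i).1
  have h1 : (⨅ i, D i) ≤ D i := ciInf_le hbdd i
  have h2 : D i - h ≤ ⨅ i, D i := by
    refine le_ciInf fun j => ?_
    have := (abs_le.mp (key i j)).1
    linarith
  have e2 : a i + 2 * Real.pi * ((-m i : ℤ) : ℝ) = a i₀ + D i := by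
    push_cast
    linarith
  rw [e2]
  constructor <;> linarith

/-- Proof. The set `{x | ∃ m : ℤ, x + 2π m ∈ [c, c+h]}` is measurable (countable union) and
`2π`-periodic; its part in an interval of length `2π` has measure at most `h` (cover: at most two
translates of `[c,c+h]` meet the interval; or use that the measure of the part of a periodic set in
`Ico t (t+2π)` does not depend on `t` (`Function.Periodic`, indicator), take `t = c`, where only
`m = 0` gives points up to a null set, as `h ≤ 1 < 2π`). -/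
theorem volume_arc_le {c h : ℝ} (h0 : 0 ≤ h) (h1 : h ≤ 1) (t : ℝ) :
    MeasurableSet {x : ℝ | ∃ m : ℤ, x + 2 * Real.pi * m ∈ Set.Icc c (c + h)} ∧
      volume ({x : ℝ | ∃ m : ℤ, x + 2 * Real.pi * m ∈ Set.Icc c (c + h)} ∩
        Set.Icc t (t + 2 * Real.pi)) ≤ ENNReal.ofReal h := by
  have hpi : (3 : ℝ) < Real.pi := Real.pi_gt_three
  have hT : (0 : ℝ) < 2 * Real.pi := by positivity
  have hmeas : MeasurableSet {x : ℝ | ∃ m : ℤ, x + 2 * Real.pi * m ∈ Set.Icc c (c + h)} := by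
    have : {x : ℝ | ∃ m : ℤ, x + 2 * Real.pi * m ∈ Set.Icc c (c + h)} =
        ⋃ m : ℤ, (fun x : ℝ => x + 2 * Real.pi * m) ⁻¹' Set.Icc c (c + h) := by
      ext x
      constructor
      · rintro ⟨m, hm⟩
        exact Set.mem_iUnion.mpr ⟨m, hm⟩
      · intro hx
        exact Set.mem_iUnion.mp hx
    rw [this]
    exact MeasurableSet.iUnion fun m => measurableSet_Icc.preimage (by fun_prop)
  refine ⟨hmeas, ?_⟩
  set S := {x : ℝ | ∃ m : ℤ, x + 2 * Real.pi * m ∈ Set.Icc c (c + h)} with hS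
  have hinv : ∀ g : AddSubgroup.zmultiples (2 * Real.pi), (fun x : ℝ => g +ᵥ x) ⁻¹' S = S := by
    rintro ⟨g, k, rfl⟩
    ext x
    simp only [Set.mem_preimage, hS]
    constructor
    · rintro ⟨m, hm⟩
      refine ⟨m + k, ?_⟩
      have e : (x + 2 * Real.pi * ((m + k : ℤ) : ℝ)) =
          ((⟨(fun x : ℤ => x • (2 * Real.pi)) k, k, rfl⟩ : AddSubgroup.zmultiples (2 * Real.pi)) +ᵥ x) +
            2 * Real.pi * (m : ℝ) := by
        change _ = (k • (2 * Real.pi) + x) + 2 * Real.pi * (m : ℝ)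
        rw [zsmul_eq_mul]
        push_cast
        ring
      rw [e]
      exact hm
    · rintro ⟨m, hm⟩
      refine ⟨m - k, ?_⟩
      have e : ((⟨(fun x : ℤ => x • (2 * Real.pi)) k, k, rfl⟩ :
            AddSubgroup.zmultiples (2 * Real.pi)) +ᵥ x) +
            2 * Real.pi * ((m - k : ℤ) : ℝ) = x + 2 * Real.pi * (m : ℝ) := by
        change (k • (2 * Real.pi) + x) + 2 * Real.pi * ((m - k : ℤ) : ℝ) = _
        rw [zsmul_eq_mul]
        push_cast
        ring
      rw [e]
      exact hm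
  have hfd := (isAddFundamentalDomain_Ioc hT t volume).measure_set_eq
    (isAddFundamentalDomain_Ioc hT c volume) hmeas hinv
  have hsub1 : S ∩ Set.Icc t (t + 2 * Real.pi) ⊆ (S ∩ Set.Ioc t (t + 2 * Real.pi)) ∪ {t} := by
    rintro x ⟨hx, hx1, hx2⟩
    rcases eq_or_lt_of_le hx1 with h3 | h3
    · right
      exact h3.symm
    · left
      exact ⟨hx, h3, hx2⟩
  have hsub2 : S ∩ Set.Ioc c (c + 2 * Real.pi) ⊆ Set.Icc c (c + h) ∪ {c + 2 * Real.pi} := by
    rintro x ⟨⟨m, hm1, hm2⟩, hx1, hx2⟩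
    rcases lt_trichotomy m 0 with h3 | h3 | h3
    · right
      have h4 : (m : ℝ) ≤ -1 := by exact_mod_cast (by omega : m ≤ -1)
      have h5 : c + 2 * Real.pi ≤ x := by nlinarith
      exact le_antisymm hx2 h5
    · left
      subst h3
      simp only [Int.cast_zero, mul_zero, add_zero] at hm1 hm2
      exact ⟨hm1, hm2⟩
    · exfalso
      have h4 : (1 : ℝ) ≤ m := by exact_mod_cast h3
      nlinarith
  calc volume (S ∩ Set.Icc t (t + 2 * Real.pi))
      ≤ volume ((S ∩ Set.Ioc t (t + 2 * Real.pi)) ∪ {t}) := measure_mono hsub1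
    _ ≤ volume (S ∩ Set.Ioc t (t + 2 * Real.pi)) + volume ({t} : Set ℝ) := measure_union_le _ _
    _ = volume (S ∩ Set.Ioc c (c + 2 * Real.pi)) := by rw [hfd, Real.volume_singleton, add_zero]
    _ ≤ volume (Set.Icc c (c + h) ∪ {c + 2 * Real.pi}) := measure_mono hsub2
    _ ≤ volume (Set.Icc c (c + h)) + volume ({c + 2 * Real.pi} : Set ℝ) := measure_union_le _ _
    _ = ENNReal.ofReal h := by
        rw [Real.volume_singleton, add_zero, Real.volume_Icc]
        congr 1
        ring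

end Pool.Agent.Lib.MP_95e7ec_an
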