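import Mathlib
import Pool.Agent.Lib.MP_95e7ec_an.Rz.ArcCover

/-!
# Rz, LipCount: counting with a Lipschitz angle
-/

set_option autoImplicit false

open Set Filter Topology MeasureTheory
open scoped ContDiff ENNReal

namespace Pool.Agent.Lib.MP_95e7ec_an

private theorem LipCount_encard_le {ι : Type*} {S : Set ι} {y : ℝ≥0∞}
    (h : ∀ s : Finset ι, (s : Set ι) ⊆ S → (s.card : ℝ≥0∞) ≤ y) :
    ((S.encard : ℕ∞) : ℝ≥0∞) ≤ y := by
  rcases S.finite_or_infinite with hS | hS
  · rw [hS.encard_eq_coe_toFinset_card]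
    have := h hS.toFinset (by simp)
    simpa using this
  · rw [hS.encard_eq, ENat.toENNReal_top, top_le_iff]
    by_contra hy
    obtain ⟨n, hn⟩ := ENNReal.exists_nat_gt hy
    obtain ⟨s, hs1, hs2⟩ := hS.exists_subset_card_eq n
    have := h s hs1
    rw [hs2] at this
    exact absurd hn (not_lt.2 this)

private theorem LipCount_piece {α β y : ℝ} (hy : y ∈ Set.Icc α β) {N : ℕ} (hN : 0 < N) :
    ∃ k < N, y ∈ Set.Icc (α + k * ((β - α) / N)) (α + (k + 1) * ((β - α) / N)) := by
  have hN' : (0 : ℝ) < N := by exact_mod_cast hN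
  have hαβ : α ≤ β := hy.1.trans hy.2
  rcases hαβ.eq_or_lt with h0 | h0
  · subst h0
    refine ⟨0, hN, ?_⟩
    have : y = α := le_antisymm hy.2 hy.1
    simp [this]
  · set h := (β - α) / N with hh
    have hpos : 0 < h := div_pos (by linarith) hN'
    have hNh : N * h = β - α := by rw [hh]; field_simp
    have hq : 0 ≤ (y - α) / h := div_nonneg (by linarith [hy.1]) hpos.le
    have hqh : (y - α) / h * h = y - α := by field_simp
    refine ⟨min (N - 1) ⌊(y - α) / h⌋₊, lt_of_le_of_lt (min_le_left _ _) (by omega), ?_⟩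
    constructor
    · have h1 : ((min (N - 1) ⌊(y - α) / h⌋₊ : ℕ) : ℝ) ≤ (y - α) / h :=
        le_trans (by exact_mod_cast min_le_right _ _) (Nat.floor_le hq)
      nlinarith
    · rcases le_total (N - 1) ⌊(y - α) / h⌋₊ with h2 | h2
      · rw [min_eq_left h2]
        have h3 : ((N - 1 : ℕ) : ℝ) + 1 = N := by
          have : N - 1 + 1 = N := by omega
          exact_mod_cast this
        rw [h3, hNh]
        linarith [hy.2]
      · rw [min_eq_right h2]
        have h3 := Nat.lt_floor_add_one ((y - α) / h)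
        nlinarith

/-- Counting: `G` is injective with values in `[α,β]` and the angle is 1-Lipschitz in `G` modulo
`2π`; then the mean number of indices with a given angle is at most `(β-α)/2π`.
Proof. For `N ≥ 1` with `h = (β-α)/N ≤ 1` cut `[α,β]` into the `N` pieces
`P_k = [α + k h, α + (k+1) h]`, `k < N`. By `arc_of_pairs` (for the subtype of the `i` with
`G i ∈ P_k`) there is `c_k` such that the angles of these `i` are in
`M_k = {x | ∃ m, x + 2π m ∈ [c_k, c_k + h]}`. Let `f_N x = ∑_{k<N} indicator (M_k) 1 x`, measurable,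
`∫ over [t,t+2π] ≤ N h = β - α` by `volume_arc_le`. (If `h = 0`, i.e. `α = β`, all is fine too:
`M_k` are null sets.) Let `H = liminf f_N` (over `N → ∞`, `f_N = 0` for the small `N`), measurable
(`Measurable.liminf`), `∫ H ≤ liminf ∫ f_N ≤ β - α` (Fatou, `lintegral_liminf_le`).
Pointwise: let `i_1, ..., i_n` be different indices with angle `x` modulo `2π`; the numbers `G i_l`
are different, so for large `N` they lie in different pieces (choose for each the piece
`k = min (N-1) ⌊(G i - α)/h⌋`), so `x` is in `n` of the sets `M_k` and `f_N x ≥ n`. Hence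
`H x ≥ n` for every finite subset: `H x ≥ encard` (for an infinite set `H x = ∞`). -/
theorem lip_count {ι : Type*} (a G : ι → ℝ) {α β : ℝ} (hαβ : α ≤ β)
    (hG : ∀ i, G i ∈ Set.Icc α β) (hinj : Function.Injective G)
    (hL : ∀ i j, ∃ (Δ : ℝ) (m : ℤ), a j - a i = Δ + 2 * Real.pi * m ∧ |Δ| ≤ |G j - G i|) :
    ∃ H : ℝ → ℝ≥0∞, Measurable H ∧
      (∀ x, (({i : ι | ∃ m : ℤ, a i = x + 2 * Real.pi * m}.encard : ℕ∞) : ℝ≥0∞) ≤ H x) ∧
      ∀ t : ℝ, ∫⁻ x in Set.Icc t (t + 2 * Real.pi), H x ≤ ENNReal.ofReal (β - α) := by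
  classical
  have h0 : ∀ N : ℕ, 0 ≤ (β - α) / N := fun N => div_nonneg (by linarith) (Nat.cast_nonneg N)
  have hlen : ∀ (N k : ℕ), α + (k + 1) * ((β - α) / N) - (α + k * ((β - α) / N)) = (β - α) / N :=
    fun N k => by ring
  have key : ∀ N k : ℕ, ∃ c : ℝ, (β - α) / N ≤ 1 → ∀ i,
      G i ∈ Set.Icc (α + k * ((β - α) / N)) (α + (k + 1) * ((β - α) / N)) →
      ∃ m : ℤ, a i + 2 * Real.pi * m ∈ Set.Icc c (c + (β - α) / N) := by
    intro N k
    by_cases hN : (β - α) / N ≤ 1
    · obtain ⟨c, hc⟩ := arc_of_pairs (ι := {i // G i ∈ Set.Icc (α + k * ((β - α) / N))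
        (α + (k + 1) * ((β - α) / N))}) (fun i => a i) (h0 N) hN (by
          intro i j
          obtain ⟨Δ, m, h1, h2⟩ := hL i j
          refine ⟨Δ, m, h1, h2.trans ?_⟩
          have e1 := i.2.1
          have e2 := i.2.2
          have e3 := j.2.1
          have e4 := j.2.2
          have e5 := hlen N k
          rw [abs_le]
          constructor <;> linarith)
      exact ⟨c, fun _ i hi => hc ⟨i, hi⟩⟩
    · exact ⟨0, fun h => absurd h hN⟩
  choose c hc using key
  set M : ℕ → ℕ → Set ℝ := fun N k =>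
    {x : ℝ | ∃ m : ℤ, x + 2 * Real.pi * m ∈ Set.Icc (c N k) (c N k + (β - α) / N)} with hM
  set f : ℕ → ℝ → ℝ≥0∞ := fun N x =>
    if (β - α) / N ≤ 1 then ∑ k ∈ Finset.range N, (M N k).indicator 1 x else 0 with hf
  have hMm : ∀ N k : ℕ, (β - α) / N ≤ 1 → MeasurableSet (M N k) := fun N k hN =>
    (volume_arc_le (c := c N k) (h0 N) hN 0).1
  have hfm : ∀ N, Measurable (f N) := by
    intro N
    by_cases hN : (β - α) / N ≤ 1
    · simp only [hf, if_pos hN]
      exact Finset.measurable_sum _ fun k _ => measurable_one.indicator (hMm N k hN)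
    · simp only [hf, if_neg hN]
      exact measurable_const
  have hfi : ∀ N t, ∫⁻ x in Set.Icc t (t + 2 * Real.pi), f N x ≤ ENNReal.ofReal (β - α) := by
    intro N t
    by_cases hN : (β - α) / N ≤ 1
    · simp only [hf, if_pos hN]
      rw [lintegral_finsetSum _ fun k _ => measurable_one.indicator (hMm N k hN)]
      have h1 : ∀ k ∈ Finset.range N, ∫⁻ x in Set.Icc t (t + 2 * Real.pi), (M N k).indicator 1 x
          ≤ ENNReal.ofReal ((β - α) / N) := by
        intro k _
        rw [lintegral_indicator_one (hMm N k hN), Measure.restrict_apply (hMm N k hN)]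
        exact (volume_arc_le (c := c N k) (h0 N) hN t).2
      refine (Finset.sum_le_sum h1).trans ?_
      rw [Finset.sum_const, Finset.card_range, nsmul_eq_mul, ← ENNReal.ofReal_natCast,
        ← ENNReal.ofReal_mul (Nat.cast_nonneg N)]
      apply ENNReal.ofReal_le_ofReal
      rcases Nat.eq_zero_or_pos N with h2 | h2
      · subst h2; simp; linarith
      · have : (0 : ℝ) < N := by exact_mod_cast h2
        rw [mul_div_cancel₀ _ this.ne']
    · simp only [hf, if_neg hN]
      simp
  have htend : Tendsto (fun N : ℕ => (β - α) / (N : ℝ)) atTop (𝓝 0) :=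
    tendsto_const_div_atTop_nhds_zero_nat _
  refine ⟨fun x => liminf (fun N => f N x) atTop, Measurable.liminf hfm, ?_, ?_⟩
  · intro x
    refine LipCount_encard_le fun s hs => ?_
    refine le_liminf_of_le (by isBoundedDefault) ?_
    have hpairs : ∀ᶠ N : ℕ in atTop, ∀ p ∈ s ×ˢ s, p.1 ≠ p.2 →
        (β - α) / (N : ℝ) < |G p.1 - G p.2| := by
      rw [Filter.eventually_all_finset]
      intro p _
      by_cases hp : p.1 = p.2
      · exact Eventually.of_forall fun _ h => absurd hp h
      · have h1 : 0 < |G p.1 - G p.2| := abs_pos.2 (sub_ne_zero.2 fun h => hp (hinj h))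
        filter_upwards [htend.eventually (gt_mem_nhds h1)] with N hN _
        exact hN
    filter_upwards [hpairs, htend.eventually (gt_mem_nhds one_pos), eventually_gt_atTop 0]
      with N hN1 hN2 hN3
    have hN2' : (β - α) / (N : ℝ) ≤ 1 := hN2.le
    simp only [hf, if_pos hN2']
    choose κ hκ1 hκ2 using fun i => LipCount_piece (hG i) hN3
    have hinjκ : Set.InjOn κ (s : Set ι) := by
      intro i hi j hj hij
      by_contra hne
      have h1 := hN1 (i, j) (Finset.mem_product.2 ⟨hi, hj⟩) hne
      have h2 := hκ2 i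
      have h3 := hκ2 j
      rw [← hij] at h3
      have h4 : |G i - G j| ≤ (β - α) / N := by
        rw [← hlen N (κ i), abs_le]
        constructor <;> linarith [h2.1, h2.2, h3.1, h3.2]
      exact absurd h1 (not_lt.2 h4)
    have himg : s.image κ ⊆ (Finset.range N).filter (fun k => x ∈ M N k) := by
      intro k hk
      obtain ⟨i, hi, rfl⟩ := Finset.mem_image.1 hk
      refine Finset.mem_filter.2 ⟨Finset.mem_range.2 (hκ1 i), ?_⟩
      obtain ⟨m', hm'⟩ := hs hi
      obtain ⟨m, hm⟩ := hc N (κ i) hN2' i (hκ2 i)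
      refine ⟨m' + m, ?_⟩
      rw [hm'] at hm
      have : x + 2 * Real.pi * ((m' + m : ℤ) : ℝ) = x + 2 * Real.pi * m' + 2 * Real.pi * m := by
        push_cast; ring
      rw [this]
      exact hm
    have hsum : ∑ k ∈ Finset.range N, (M N k).indicator (1 : ℝ → ℝ≥0∞) x
        = (((Finset.range N).filter (fun k => x ∈ M N k)).card : ℝ≥0∞) := by
      rw [Finset.card_filter]
      push_cast
      refine Finset.sum_congr rfl fun k _ => ?_
      simp [Set.indicator_apply]
    rw [hsum]
    have h5 := Finset.card_le_card himg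
    rw [Finset.card_image_of_injOn hinjκ] at h5
    exact_mod_cast h5
  · intro t
    refine (lintegral_liminf_le hfm).trans ?_
    refine (liminf_le_liminf (Eventually.of_forall fun N => hfi N t)).trans ?_
    simp

end Pool.Agent.Lib.MP_95e7ec_an
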