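import Mathlib
import Pool.Agent.Lib.MP_95e7ec_an.Rz.Closed

/-!
# Rz, LeafUniq: leaves of the same field with a common point
-/

set_option autoImplicit false

open Set Filter Topology MeasureTheory
open scoped ContDiff ENNReal

namespace Pool.Agent.Lib.MP_95e7ec_an

private lemma LeafUniq_cr {p q : ℝ → ℂ} {d : ℕ} {b : ℝ} {r : ℝ → ℝ}
    (hr : Leaf p q d b r) : Continuous r :=
  continuous_iff_continuousAt.2 fun θ => (hr.der θ).continuousAt

private lemma LeafUniq_cU {p q : ℝ → ℂ} (h : PQ p q) {d : ℕ} {b : ℝ} {r : ℝ → ℝ}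
    (hr : Leaf p q d b r) : Continuous (lfU p q d b r) := by
  have hc := LeafUniq_cr hr
  have hp := h.cp
  have hq := h.cq
  unfold lfU
  have h1 : Continuous fun θ => ((r θ ^ d : ℝ) : ℂ) := Complex.continuous_ofReal.comp (hc.pow d)
  exact continuous_const.mul (hp.add (h1.mul hq))

private lemma LeafUniq_exp {b₁ b₂ : ℝ} {j : ℤ} (hb : b₂ - b₁ = 2 * Real.pi * j) :
    Complex.exp ((b₂ : ℂ) * Complex.I) = Complex.exp ((b₁ : ℂ) * Complex.I) := by
  rw [Complex.exp_eq_exp_iff_exists_int]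
  refine ⟨j, ?_⟩
  have h1 : b₂ = b₁ + 2 * Real.pi * j := by linarith
  rw [h1]
  push_cast
  ring

private lemma LeafUniq_cross (z : ℂ) (hz : ‖z‖ = 1) (p q : ℂ) (s t : ℝ) :
    (z * (p + (s : ℂ) * q)).re * (z * (p + (t : ℂ) * q)).im
      - (z * (p + (t : ℂ) * q)).re * (z * (p + (s : ℂ) * q)).im
      = (t - s) * (p.re * q.im - p.im * q.re) := by
  have h1 : z.re * z.re + z.im * z.im = 1 := by
    have := Complex.normSq_apply z
    rw [Complex.normSq_eq_norm_sq, hz] at this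
    linarith
  simp only [Complex.mul_re, Complex.mul_im, Complex.add_re, Complex.add_im,
    Complex.ofReal_re, Complex.ofReal_im]
  linear_combination ((t - s) * (p.re * q.im - p.im * q.re)) * h1

private lemma LeafUniq_lin {g A : ℝ → ℝ} (hA : Continuous A)
    (hg : ∀ θ, HasDerivAt g (g θ * A θ) θ) {θ₀ : ℝ} (h0 : g θ₀ = 0) : ∀ θ, g θ = 0 := by
  intro θ
  let F : ℝ → ℝ := fun θ => ∫ x in θ₀..θ, A x
  have hF : ∀ θ, HasDerivAt F (A θ) θ := fun θ => (hA.integral_hasStrictDerivAt θ₀ θ).hasDerivAt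
  have hk : ∀ θ, HasDerivAt (fun x => g x * Real.exp (-F x)) 0 θ := by
    intro θ
    have h1 := (hg θ).mul ((hF θ).neg.exp)
    refine h1.congr_deriv ?_
    simp only [Pi.neg_apply]
    ring
  have hc := is_const_of_deriv_eq_zero (fun x => (hk x).differentiableAt)
    (fun x => (hk x).deriv) θ θ₀
  have h2 : g θ * Real.exp (-F θ) = 0 := by
    rw [hc, h0, zero_mul]
  exact (mul_eq_zero.1 h2).resolve_right (Real.exp_pos _).ne'

/-- Leaves of the same field with a common point are equal: the difference `g = r₁ - r₂` solves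
a linear equation `g' = A g` with `A` continuous. -/
theorem leaf_unique {p q : ℝ → ℂ} (h : PQ p q) {d : ℕ} {b₁ b₂ : ℝ} {r₁ r₂ : ℝ → ℝ}
    (h₁ : Leaf p q d b₁ r₁) (h₂ : Leaf p q d b₂ r₂) {j : ℤ} (hb : b₂ - b₁ = 2 * Real.pi * j)
    {θ₀ : ℝ} (h0 : r₁ θ₀ = r₂ θ₀) : r₁ = r₂ := by
  have hc₁ := LeafUniq_cr h₁
  have hc₂ := LeafUniq_cr h₂
  have hU₁ := LeafUniq_cU h h₁
  have hU₂ := LeafUniq_cU h h₂
  have hI₁ : Continuous fun θ => (lfU p q d b₁ r₁ θ).im := Complex.continuous_im.comp hU₁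
  have hI₂ : Continuous fun θ => (lfU p q d b₂ r₂ θ).im := Complex.continuous_im.comp hU₂
  have hR₁ : Continuous fun θ => (lfU p q d b₁ r₁ θ).re := Complex.continuous_re.comp hU₁
  have hD : Continuous (pqD p q) := by
    unfold pqD
    exact ((Complex.continuous_re.comp h.cp).mul (Complex.continuous_im.comp h.cq)).sub
      ((Complex.continuous_im.comp h.cp).mul (Complex.continuous_re.comp h.cq))
  let G : ℝ → ℝ := fun θ => ∑ i ∈ Finset.range d, r₁ θ ^ i * r₂ θ ^ (d - 1 - i)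
  have hG : Continuous G :=
    continuous_finset_sum _ fun i _ => (hc₁.pow i).mul (hc₂.pow (d - 1 - i))
  let A : ℝ → ℝ := fun θ => (lfU p q d b₁ r₁ θ).re / (lfU p q d b₁ r₁ θ).im
    - r₂ θ * G θ * pqD p q θ / ((lfU p q d b₁ r₁ θ).im * (lfU p q d b₂ r₂ θ).im)
  have hA : Continuous A := by
    refine (hR₁.div hI₁ fun θ => (h₁.up θ).ne').sub
      (((hc₂.mul hG).mul hD).div (hI₁.mul hI₂) fun θ => (mul_pos (h₁.up θ) (h₂.up θ)).ne')
  have hcross : ∀ θ, (lfU p q d b₁ r₁ θ).re * (lfU p q d b₂ r₂ θ).im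
      - (lfU p q d b₂ r₂ θ).re * (lfU p q d b₁ r₁ θ).im
      = (r₂ θ ^ d - r₁ θ ^ d) * pqD p q θ := by
    intro θ
    unfold lfU pqD
    rw [LeafUniq_exp hb]
    exact LeafUniq_cross _ (Complex.norm_exp_ofReal_mul_I b₁) (p θ) (q θ) _ _
  have hgeom : ∀ θ, G θ * (r₁ θ - r₂ θ) = r₁ θ ^ d - r₂ θ ^ d := by
    intro θ
    exact (Commute.all (r₁ θ) (r₂ θ)).geom_sum₂_mul d
  have hg : ∀ θ, HasDerivAt (fun x => r₁ x - r₂ x) ((r₁ θ - r₂ θ) * A θ) θ := by
    intro θ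
    refine ((h₁.der θ).sub (h₂.der θ)).congr_deriv ?_
    have hi₁ := (h₁.up θ).ne'
    have hi₂ := (h₂.up θ).ne'
    have hx := hcross θ
    have hy := hgeom θ
    simp only [A, lfC]
    field_simp
    linear_combination (r₂ θ) * hx + r₂ θ * pqD p q θ * hy
  have h3 := LeafUniq_lin hA hg (θ₀ := θ₀) (by simp [h0])
  funext θ
  exact sub_eq_zero.1 (h3 θ)

end Pool.Agent.Lib.MP_95e7ec_an
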