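import Mathlib
import Pool.Agent.Lib.MP_95e7ec_an.Rz.LeafUniq

/-!
# Rz, Order: two leaves do not cross
-/

set_option autoImplicit false

open Set Filter Topology MeasureTheory
open scoped ContDiff ENNReal

namespace Pool.Agent.Lib.MP_95e7ec_an

/-- a periodic function with positive derivative at all its zeros has no zero -/
theorem order_no_zero {g g' : ℝ → ℝ} {P : ℝ} (hP : 0 < P) (hper : ∀ θ, g (θ + P) = g θ)
    (hd : ∀ θ, HasDerivAt g (g' θ) θ) (hz : ∀ θ, g θ = 0 → 0 < g' θ) (θ : ℝ) : g θ ≠ 0 := by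
  intro h0
  have hcont : Continuous g := continuous_iff_continuousAt.2 fun x => (hd x).continuousAt
  have hr : ∀ᶠ x in 𝓝[>] θ, 0 < g x := by
    have h1 := (hasDerivAt_iff_tendsto_slope.1 (hd θ)).eventually (lt_mem_nhds (hz θ h0))
    have h2 : 𝓝[>] θ ≤ 𝓝[≠] θ := nhdsWithin_mono _ fun x hx => ne_of_gt hx
    filter_upwards [h1.filter_mono h2, self_mem_nhdsWithin] with x hx hxs
    rw [slope_def_field, h0, sub_zero] at hx
    have hxs' : 0 < x - θ := sub_pos.2 hxs
    by_contra hc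
    push Not at hc
    exact absurd (div_nonpos_of_nonpos_of_nonneg hc hxs'.le) (not_le.2 hx)
  obtain ⟨u, hu, hgu⟩ := mem_nhdsGT_iff_exists_Ioo_subset.1 hr
  have hu' : θ < u := hu
  set Z : Set ℝ := {x | u ≤ x ∧ g x ≤ 0} with hZ
  have huP : u ≤ θ + P := by
    by_contra hc
    push Not at hc
    have h3 : 0 < g (θ + P) := hgu ⟨by linarith, hc⟩
    rw [hper, h0] at h3
    exact lt_irrefl _ h3
  have hne : Z.Nonempty := ⟨θ + P, huP, by rw [hper, h0]⟩
  have hbd : BddBelow Z := ⟨u, fun x hx => hx.1⟩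
  have hcl : IsClosed Z :=
    (isClosed_le continuous_const continuous_id).inter (isClosed_le hcont continuous_const)
  have hs : sInf Z ∈ Z := hcl.csInf_mem hne hbd
  set s := sInf Z with hsdef
  have hθs : θ < s := lt_of_lt_of_le hu' hs.1
  have hpos : ∀ x ∈ Ioo θ s, 0 < g x := by
    intro x hx
    by_cases hxu : x < u
    · exact hgu ⟨hx.1, hxu⟩
    · by_contra hc
      push Not at hc hxu
      exact absurd (csInf_le hbd (show x ∈ Z from ⟨hxu, hc⟩)) (not_le.2 hx.2)
  have key : ∀ᶠ x in 𝓝[<] s, g x < 0 := by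
    rcases lt_or_eq_of_le hs.2 with h | h
    · exact ((hcont.tendsto s).eventually (gt_mem_nhds h)).filter_mono nhdsWithin_le_nhds
    · have h1 := (hasDerivAt_iff_tendsto_slope.1 (hd s)).eventually (lt_mem_nhds (hz s h))
      have h2 : 𝓝[<] s ≤ 𝓝[≠] s := nhdsWithin_mono _ fun x hx => ne_of_lt hx
      filter_upwards [h1.filter_mono h2, self_mem_nhdsWithin] with x hx hxs
      rw [slope_def_field, h, sub_zero] at hx
      have hxs' : x - s < 0 := sub_neg.2 hxs
      by_contra hc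
      push Not at hc
      exact absurd (div_nonpos_of_nonneg_of_nonpos hc hxs'.le) (not_le.2 hx)
  obtain ⟨x, hx1, hx2⟩ := (key.and (Ioo_mem_nhdsLT hθs)).exists
  exact absurd (hpos x hx2) (not_lt.2 hx1.le)

/-- two continuous functions which are nowhere equal are ordered -/
theorem order_sign {f g : ℝ → ℝ} (hf : Continuous f) (hg : Continuous g)
    (hne : ∀ θ, f θ ≠ g θ) : (∀ θ, f θ < g θ) ∨ ∀ θ, g θ < f θ := by
  rcases lt_or_gt_of_ne (hne 0) with h | h
  · left
    intro θ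
    by_contra hc
    push Not at hc
    obtain ⟨x, -, hx⟩ := isPreconnected_univ.intermediate_value₂ (mem_univ (0 : ℝ)) (mem_univ θ)
      hf.continuousOn hg.continuousOn h.le hc
    exact hne x hx
  · right
    intro θ
    by_contra hc
    push Not at hc
    obtain ⟨x, -, hx⟩ := isPreconnected_univ.intermediate_value₂ (mem_univ (0 : ℝ)) (mem_univ θ)
      hg.continuousOn hf.continuousOn h.le hc
    exact hne x hx.symm

/-- the fields at a common point of two leaves -/
theorem order_common {p q : ℝ → ℂ} {d : ℕ} {b₁ b₂ : ℝ} {r₁ r₂ : ℝ → ℝ} {θ : ℝ}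
    (hr : r₁ θ = r₂ θ) :
    (lfU p q d b₂ r₂ θ).re = Real.cos (b₂ - b₁) * (lfU p q d b₁ r₁ θ).re
        - Real.sin (b₂ - b₁) * (lfU p q d b₁ r₁ θ).im ∧
      (lfU p q d b₂ r₂ θ).im = Real.cos (b₂ - b₁) * (lfU p q d b₁ r₁ θ).im
        + Real.sin (b₂ - b₁) * (lfU p q d b₁ r₁ θ).re := by
  have hU : lfU p q d b₂ r₂ θ
      = Complex.exp (((b₂ - b₁ : ℝ) : ℂ) * Complex.I) * lfU p q d b₁ r₁ θ := by
    unfold lfU
    rw [hr, ← mul_assoc, ← Complex.exp_add]
    congr 2
    push_cast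
    ring
  constructor
  · rw [hU, Complex.mul_re, Complex.exp_ofReal_mul_I_re, Complex.exp_ofReal_mul_I_im]
  · rw [hU, Complex.mul_im, Complex.exp_ofReal_mul_I_re, Complex.exp_ofReal_mul_I_im]

/-- the sign of the difference of the slopes at a common point -/
theorem order_slope {p q : ℝ → ℂ} {d : ℕ} {b₁ b₂ : ℝ} {r₁ r₂ : ℝ → ℝ} {θ : ℝ}
    (h₁ : Leaf p q d b₁ r₁) (h₂ : Leaf p q d b₂ r₂) (hr : r₁ θ = r₂ θ)
    (hs : Real.sin (b₂ - b₁) < 0) :
    0 < r₂ θ * lfC p q d b₂ r₂ θ - r₁ θ * lfC p q d b₁ r₁ θ := by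
  obtain ⟨hre, him⟩ := order_common (p := p) (q := q) (d := d) (b₁ := b₁) (b₂ := b₂) hr
  have hu1 := h₁.up θ
  have hu2 := h₂.up θ
  have hrp := h₁.pos θ
  rw [← hr, ← mul_sub]
  refine mul_pos hrp ?_
  unfold lfC
  rw [div_sub_div _ _ hu2.ne' hu1.ne']
  refine div_pos ?_ (mul_pos hu2 hu1)
  rw [hre, him]
  have h3 : 0 < (lfU p q d b₁ r₁ θ).im ^ 2 + (lfU p q d b₁ r₁ θ).re ^ 2 := by positivity
  nlinarith [mul_pos (neg_pos.2 hs) h3]

/-- Proof. If `b₂ - b₁ = 2π j`: either the functions have a common value and are equal by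
`leaf_unique`, or (intermediate value theorem) one is smaller everywhere.
Otherwise let `g = r₂ - r₁`, continuously differentiable and `2π`-periodic. At a zero `θ` of `g`,
`V := p + r₁^d q = p + r₂^d q`, `U₂ = e^{i(b₂-b₁)} U₁`, both with positive imaginary part, so
`sin (b₂-b₁) ≠ 0` (if `sin (b₂-b₁) = 0` then, as `b₂ - b₁` is not in `2πℤ`, `U₂ = -U₁`) and
`(conj U₁ * U₂).im = |U₁|² sin (b₂-b₁)`, i.e. `Re₁ Im₂ - Im₁ Re₂` has the sign of `sin (b₂-b₁)`, so
`g' θ = r (Re₂/Im₂ - Re₁/Im₁)` has the sign of `-sin (b₂-b₁)`, the same strict sign at all zeros. A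
periodic `C¹` function whose derivative has the same strict sign at all its zeros has no zero (if
it has a zero `θ`, then it changes its sign there, say from `-` to `+`; it is positive just after
`θ` and negative just before `θ + 2π`; at the first zero after `θ` the derivative is `≤ 0`).
So `g` has no zero and one strict sign. -/
theorem leaf_order {p q : ℝ → ℂ} (h : PQ p q) {d : ℕ} {b₁ b₂ : ℝ} {r₁ r₂ : ℝ → ℝ}
    (h₁ : Leaf p q d b₁ r₁) (h₂ : Leaf p q d b₂ r₂) :
    (r₁ = r₂ ∧ ∃ j : ℤ, b₂ - b₁ = 2 * Real.pi * j) ∨ (∀ θ, r₁ θ < r₂ θ) ∨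
      ∀ θ, r₂ θ < r₁ θ := by
  have hc₁ : Continuous r₁ := continuous_iff_continuousAt.2 fun x => (h₁.der x).continuousAt
  have hc₂ : Continuous r₂ := continuous_iff_continuousAt.2 fun x => (h₂.der x).continuousAt
  by_cases hj : ∃ j : ℤ, b₂ - b₁ = 2 * Real.pi * j
  · by_cases hθ : ∃ θ, r₁ θ = r₂ θ
    · obtain ⟨j, hj'⟩ := hj
      obtain ⟨θ, hθ'⟩ := hθ
      exact Or.inl ⟨leaf_unique h h₁ h₂ hj' hθ', j, hj'⟩
    · right
      push Not at hθ
      exact order_sign hc₁ hc₂ hθ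
  · right
    refine order_sign hc₁ hc₂ ?_
    rcases lt_trichotomy (Real.sin (b₂ - b₁)) 0 with hs | hs | hs
    · intro θ hθ
      refine order_no_zero (g := fun x => r₂ x - r₁ x)
        (g' := fun x => r₂ x * lfC p q d b₂ r₂ x - r₁ x * lfC p q d b₁ r₁ x)
        (P := 2 * Real.pi) Real.two_pi_pos (fun x => by simp only [h₁.per, h₂.per])
        (fun x => (h₂.der x).sub (h₁.der x)) ?_ θ (by simp only [hθ, sub_self])
      intro x hx
      have hx' : r₂ x - r₁ x = 0 := hx
      exact order_slope h₁ h₂ (by linarith) hs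
    · intro θ hθ
      obtain ⟨-, him⟩ := order_common (p := p) (q := q) (d := d) (b₁ := b₁) (b₂ := b₂) hθ
      have hu1 := h₁.up θ
      have hu2 := h₂.up θ
      rw [hs, zero_mul, add_zero] at him
      have hcos : 0 < Real.cos (b₂ - b₁) := by
        rw [him] at hu2
        exact (pos_iff_pos_of_mul_pos hu2).2 hu1
      have hc1 : Real.cos (b₂ - b₁) = 1 := by
        have h5 := Real.sin_sq_add_cos_sq (b₂ - b₁)
        rw [hs] at h5
        nlinarith
      obtain ⟨j, hj'⟩ := (Real.cos_eq_one_iff _).1 hc1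
      exact hj ⟨j, by rw [← hj']; ring⟩
    · intro θ hθ
      have hs' : Real.sin (b₁ - b₂) < 0 := by
        rw [← neg_sub b₂ b₁, Real.sin_neg]
        linarith
      refine order_no_zero (g := fun x => r₁ x - r₂ x)
        (g' := fun x => r₁ x * lfC p q d b₁ r₁ x - r₂ x * lfC p q d b₂ r₂ x)
        (P := 2 * Real.pi) Real.two_pi_pos (fun x => by simp only [h₁.per, h₂.per])
        (fun x => (h₁.der x).sub (h₂.der x)) ?_ θ (by simp only [hθ, sub_self])
      intro x hx
      have hx' : r₁ x - r₂ x = 0 := hx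
      exact order_slope h₂ h₁ (by linarith) hs'

end Pool.Agent.Lib.MP_95e7ec_an
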