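import Mathlib
import Pool.Agent.Lib.MP_95e7ec_an.Rz.Order
import Pool.Agent.Lib.MP_95e7ec_an.Rz.LipCount

/-!
# Rz, CountPot: from a potential to the count
-/

set_option autoImplicit false

open Set Filter Topology MeasureTheory
open scoped ContDiff ENNReal

namespace Pool.Agent.Lib.MP_95e7ec_an

private theorem CountPot_lfU {p q : ℝ → ℂ} {d : ℕ} {b : ℝ} {r : ℝ → ℝ} (j : ℤ) (θ : ℝ) :
    lfU p q d (b + 2 * Real.pi * j) r θ = lfU p q d b r θ := by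
  unfold lfU
  have h1 : ((b + 2 * Real.pi * j : ℝ) : ℂ) * Complex.I =
      (b : ℂ) * Complex.I + j * (2 * Real.pi * Complex.I) := by
    push_cast
    ring
  rw [h1, Complex.exp_periodic.int_mul j ((b : ℂ) * Complex.I)]

/-- Proof. `exp ((x + 2π j) i) = exp (x i)`. -/
theorem leaf_shift {p q : ℝ → ℂ} {d : ℕ} {b : ℝ} {r : ℝ → ℝ} (j : ℤ) :
    Leaf p q d (b + 2 * Real.pi * j) r ↔ Leaf p q d b r := by
  have h1 := CountPot_lfU (p := p) (q := q) (d := d) (b := b) (r := r) j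
  have h2 : ∀ θ, lfC p q d (b + 2 * Real.pi * j) r θ = lfC p q d b r θ := by
    intro θ
    unfold lfC
    rw [h1]
  constructor
  · intro h
    refine ⟨h.pos, h.per, fun θ => ?_, fun θ => ?_⟩
    · rw [← h1]
      exact h.up θ
    · rw [← h2]
      exact h.der θ
  · intro h
    refine ⟨h.pos, h.per, fun θ => ?_, fun θ => ?_⟩
    · rw [h1]
      exact h.up θ
    · rw [h2]
      exact h.der θ

/-- From a potential to the count. `G` is a function on the leaves with values in `[α,β]` such that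
for leaves `r₁ < r₂` the angle difference is at most `G₂ - G₁` modulo `2π` and `G₁ < G₂`.
Proof. Apply `lip_count` to the type `ι` of the pairs `(b,r)` with `b ∈ [0,2π)`, `Leaf p q d b r`,
`zin p q d r = E`. Two elements: `leaf_order`; if `r₁ = r₂` then `b₁ = b₂` (both in `[0,2π)`).
For `x` real let `x = b + 2π m`, `b ∈ [0,2π)` (`toIcoMod` or `Int.floor (x / 2π)`); `r ↦ (b,r)` is an
injection of the set in `lfN` into `{i | ∃ m, a i = x + 2π m}` (`leaf_shift`,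
`Set.encard_le_encard_of_injOn` or `Set.InjOn.encard_image`). -/
theorem count_of_pot {p q : ℝ → ℂ} (h : PQ p q) {d : ℕ} (E : Set (ℝ × ℝ)) {α β : ℝ}
    (hαβ : α ≤ β) (G : ℝ → (ℝ → ℝ) → ℝ)
    (hG : ∀ b r, Leaf p q d b r → zin p q d r = E → G b r ∈ Set.Icc α β)
    (hL : ∀ b₁ r₁ b₂ r₂, Leaf p q d b₁ r₁ → Leaf p q d b₂ r₂ → zin p q d r₁ = E →
      zin p q d r₂ = E → (∀ θ, r₁ θ < r₂ θ) →
      ∃ (Δ : ℝ) (m : ℤ), b₂ - b₁ = Δ + 2 * Real.pi * m ∧ |Δ| ≤ G b₂ r₂ - G b₁ r₁ ∧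
        G b₁ r₁ < G b₂ r₂) :
    ∃ H : ℝ → ℝ≥0∞, Measurable H ∧ (∀ x, lfN p q d E x ≤ H x) ∧
      ∀ t : ℝ, ∫⁻ x in Set.Icc t (t + 2 * Real.pi), H x ≤ ENNReal.ofReal (β - α) := by
  have hpi : 0 < 2 * Real.pi := by positivity
  set ι := {x : ℝ × (ℝ → ℝ) // (0 ≤ x.1 ∧ x.1 < 2 * Real.pi) ∧ Leaf p q d x.1 x.2 ∧
    zin p q d x.2 = E} with hι
  have hinj : Function.Injective fun i : ι => G i.1.1 i.1.2 := by
    rintro ⟨⟨b₁, r₁⟩, ⟨hb₁, hb₁'⟩, hl₁, hz₁⟩ ⟨⟨b₂, r₂⟩, ⟨hb₂, hb₂'⟩, hl₂, hz₂⟩ hij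
    simp only at hij hb₁ hb₁' hl₁ hz₁ hb₂ hb₂' hl₂ hz₂
    rcases leaf_order h hl₁ hl₂ with ⟨hr, j, hj⟩ | hlt | hlt
    · have hj0 : j = 0 := by
        have h1 : (2 * Real.pi) * (j : ℝ) < (2 * Real.pi) * 1 := by linarith
        have h2 : (2 * Real.pi) * (-1) < (2 * Real.pi) * (j : ℝ) := by linarith
        have h3 := lt_of_mul_lt_mul_left h1 hpi.le
        have h4 := lt_of_mul_lt_mul_left h2 hpi.le
        have h5 : j < 1 := by exact_mod_cast h3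
        have h6 : -1 < j := by exact_mod_cast h4
        omega
      rw [hj0] at hj
      have hb : b₁ = b₂ := by
        simp only [Int.cast_zero, mul_zero] at hj
        linarith
      subst hb
      subst hr
      rfl
    · obtain ⟨_, _, _, _, h3⟩ := hL b₁ r₁ b₂ r₂ hl₁ hl₂ hz₁ hz₂ hlt
      exact absurd hij h3.ne
    · obtain ⟨_, _, _, _, h3⟩ := hL b₂ r₂ b₁ r₁ hl₂ hl₁ hz₂ hz₁ hlt
      exact absurd hij.symm h3.ne
  have hLip : ∀ i j : ι, ∃ (Δ : ℝ) (m : ℤ), j.1.1 - i.1.1 = Δ + 2 * Real.pi * m ∧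
      |Δ| ≤ |G j.1.1 j.1.2 - G i.1.1 i.1.2| := by
    rintro ⟨⟨b₁, r₁⟩, ⟨hb₁, hb₁'⟩, hl₁, hz₁⟩ ⟨⟨b₂, r₂⟩, ⟨hb₂, hb₂'⟩, hl₂, hz₂⟩
    simp only at hl₁ hz₁ hl₂ hz₂ ⊢
    rcases leaf_order h hl₁ hl₂ with ⟨hr, j, hj⟩ | hlt | hlt
    · exact ⟨0, j, by rw [hj]; ring, by rw [abs_zero]; exact abs_nonneg _⟩
    · obtain ⟨Δ, m, h1, h2, h3⟩ := hL b₁ r₁ b₂ r₂ hl₁ hl₂ hz₁ hz₂ hlt
      exact ⟨Δ, m, h1, h2.trans (le_abs_self _)⟩
    · obtain ⟨Δ, m, h1, h2, h3⟩ := hL b₂ r₂ b₁ r₁ hl₂ hl₁ hz₂ hz₁ hlt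
      refine ⟨-Δ, -m, ?_, ?_⟩
      · push_cast
        linarith
      · rw [abs_neg, abs_sub_comm]
        exact h2.trans (le_abs_self _)
  obtain ⟨H, hH1, hH2, hH3⟩ := lip_count (ι := ι) (fun i => i.1.1) (fun i => G i.1.1 i.1.2) hαβ
    (fun i => hG _ _ i.2.2.1 i.2.2.2) hinj hLip
  refine ⟨H, hH1, fun x => ?_, hH3⟩
  refine le_trans ?_ (hH2 x)
  unfold lfN
  have hsub : {r : ℝ → ℝ | Leaf p q d x r ∧ zin p q d r = E} ⊆
      (fun i : ι => i.1.2) '' {i : ι | ∃ m : ℤ, i.1.1 = x + 2 * Real.pi * m} := by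
    rintro r ⟨hr1, hr2⟩
    set m : ℤ := ⌊x / (2 * Real.pi)⌋ with hm
    have e1 : (m : ℝ) * (2 * Real.pi) ≤ x := by
      have := Int.floor_le (x / (2 * Real.pi))
      rwa [le_div_iff₀ hpi] at this
    have e2 : x < ((m : ℝ) + 1) * (2 * Real.pi) := by
      have := Int.lt_floor_add_one (x / (2 * Real.pi))
      rwa [div_lt_iff₀ hpi] at this
    have e3 : Leaf p q d (x - 2 * Real.pi * m) r := by
      rw [← leaf_shift (b := x - 2 * Real.pi * m) m]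
      rw [sub_add_cancel]
      exact hr1
    refine ⟨⟨(x - 2 * Real.pi * m, r), ⟨by simp only; linarith, by simp only; linarith⟩, e3, hr2⟩,
      ⟨-m, ?_⟩, rfl⟩
    push_cast
    ring
  have h1 := (Set.encard_le_encard hsub).trans (Set.encard_image_le _ _)
  exact_mod_cast h1

end Pool.Agent.Lib.MP_95e7ec_an
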