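import Mathlib
import Pool.Agent.Lib.MP_95e7ec_an.Rz.Defs

/-!
# Rz, NoZero: no zero between two leaves
-/

set_option autoImplicit false

open Set Filter Topology MeasureTheory
open scoped ContDiff ENNReal

namespace Pool.Agent.Lib.MP_95e7ec_an

/-- Polar coordinates are unique. Proof: the Euclidean length gives `s = s'`, then
`cos θ = cos θ'` and `sin θ = sin θ'`, `Real.cos_eq_cos_iff` / `Complex.exp_eq_exp_iff_exists_int`
(or `Real.Angle`). -/
theorem polar_unique {θ θ' s s' : ℝ} (hs : 0 < s) (hs' : 0 < s')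
    (h : s • dirv θ = s' • dirv θ') : s = s' ∧ ∃ j : ℤ, θ' = θ + 2 * Real.pi * j := by
  have h1 : s * Real.cos θ = s' * Real.cos θ' := by
    have := congrArg Prod.fst h
    simpa [dirv] using this
  have h2 : s * Real.sin θ = s' * Real.sin θ' := by
    have := congrArg Prod.snd h
    simpa [dirv] using this
  have hsq : s ^ 2 = s' ^ 2 := by
    have e1 : s ^ 2 = (s * Real.cos θ) ^ 2 + (s * Real.sin θ) ^ 2 := by
      have := Real.sin_sq_add_cos_sq θ
      calc s ^ 2 = s ^ 2 * (Real.sin θ ^ 2 + Real.cos θ ^ 2) := by rw [this, mul_one]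
        _ = _ := by ring
    have e2 : s' ^ 2 = (s' * Real.cos θ') ^ 2 + (s' * Real.sin θ') ^ 2 := by
      have := Real.sin_sq_add_cos_sq θ'
      calc s' ^ 2 = s' ^ 2 * (Real.sin θ' ^ 2 + Real.cos θ' ^ 2) := by rw [this, mul_one]
        _ = _ := by ring
    rw [e1, e2, h1, h2]
  have hss : s = s' := by
    nlinarith [sq_nonneg (s - s'), mul_pos hs hs']
  subst hss
  have hc : Real.cos θ' = Real.cos θ := (mul_left_cancel₀ hs.ne' h1).symm
  have hn : Real.sin θ' = Real.sin θ := (mul_left_cancel₀ hs.ne' h2).symm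
  have ha : (θ' : Real.Angle) = θ := Real.Angle.cos_sin_inj hc hn
  obtain ⟨k, hk⟩ := Real.Angle.angle_eq_iff_two_pi_dvd_sub.mp ha
  exact ⟨rfl, k, by linarith⟩

/-- Proof. A function with period `2π` has the period `2π j` (`Function.Periodic`). -/
theorem Leaf.per_int {p q : ℝ → ℂ} {d : ℕ} {b : ℝ} {r : ℝ → ℝ} (h : Leaf p q d b r) (θ : ℝ)
    (j : ℤ) : r (θ + 2 * Real.pi * j) = r θ := by
  have hp : Function.Periodic r (2 * Real.pi) := h.per
  have := hp.int_mul j θ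
  rw [mul_comm (2 * Real.pi) (j : ℝ)]
  exact this

private theorem NoZero_ne {p q : ℝ → ℂ} {d : ℕ} {b : ℝ} {r : ℝ → ℝ} (h : Leaf p q d b r)
    (θ : ℝ) : p θ + ((r θ ^ d : ℝ) : ℂ) * q θ ≠ 0 := by
  intro h0
  have hu := h.up θ
  rw [lfU, h0, mul_zero] at hu
  simp at hu

/-- Proof. Suppose `p θ + s^d q θ = 0`. `s ≠ r₁ θ` and `s ≠ r₂ θ` because `(lfU ..).im > 0` on the
leaves, so `s < r₂ θ` and `s • dirv θ ∈ zin r₂ = zin r₁`: there are `θ'`, `s'` with `0 < s' < r₁ θ'`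
and `s • dirv θ = s' • dirv θ'`; by `polar_unique` `s' = s` and `r₁ θ' = r₁ θ`, so `s < r₁ θ`, a
contradiction to `r₁ θ ≤ s`. -/
theorem no_zero_between {p q : ℝ → ℂ} {d : ℕ} {b₁ b₂ : ℝ} {r₁ r₂ : ℝ → ℝ}
    (h₁ : Leaf p q d b₁ r₁) (h₂ : Leaf p q d b₂ r₂) (hz : zin p q d r₁ = zin p q d r₂)
    {θ s : ℝ} (hs1 : r₁ θ ≤ s) (hs2 : s ≤ r₂ θ) : p θ + ((s ^ d : ℝ) : ℂ) * q θ ≠ 0 := by
  intro h0
  have hspos : 0 < s := lt_of_lt_of_le (h₁.pos θ) hs1
  have hlt : s < r₂ θ := by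
    rcases lt_or_eq_of_le hs2 with h | h
    · exact h
    · exfalso
      rw [h] at h0
      exact NoZero_ne h₂ θ h0
  have hmem : s • dirv θ ∈ zin p q d r₂ := ⟨θ, s, hspos, hlt, rfl, h0⟩
  rw [← hz] at hmem
  obtain ⟨θ', s', hs'pos, hs'lt, heq, -⟩ := hmem
  obtain ⟨hss, j, hj⟩ := polar_unique hspos hs'pos heq
  rw [hj, h₁.per_int] at hs'lt
  rw [← hss] at hs'lt
  exact absurd hs'lt (not_lt.mpr hs1)

end Pool.Agent.Lib.MP_95e7ec_an
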