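import Mathlib
import Pool.Agent.Lib.MP_95e7ec_an.Rz.NoZero
import Pool.Agent.Lib.MP_95e7ec_an.Rz.Cot

/-!
# Rz, Lift: the difference of the arguments on two leaves
-/

set_option autoImplicit false

open Set Filter Topology MeasureTheory
open scoped ContDiff ENNReal

namespace Pool.Agent.Lib.MP_95e7ec_an

private theorem Lift_seg_ne {p q : ℝ → ℂ} {d : ℕ} {b₁ b₂ : ℝ} {r₁ r₂ : ℝ → ℝ}
    (h₁ : Leaf p q d b₁ r₁) (h₂ : Leaf p q d b₂ r₂) (hlt : ∀ θ, r₁ θ < r₂ θ)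
    (hz : zin p q d r₁ = zin p q d r₂) (θ t : ℝ) (ht : t ∈ Set.Icc (r₁ θ ^ d) (r₂ θ ^ d)) :
    p θ + (t : ℂ) * q θ ≠ 0 := by
  have hc : ContinuousOn (fun s : ℝ => s ^ d) (Set.Icc (r₁ θ) (r₂ θ)) :=
    (continuous_pow d).continuousOn
  obtain ⟨s, hs, hst⟩ := intermediate_value_Icc (hlt θ).le hc ht
  have h := no_zero_between h₁ h₂ hz hs.1 hs.2
  have hst' : s ^ d = t := hst
  rwa [hst'] at h

private theorem Lift_key (P Q : ℂ) (c₁ c₂ N w : ℝ) (h : N - w ≠ 0) :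
    P + (((c₂ * N - w * c₁) / (N - w) : ℝ) : ℂ) * Q =
      ((P + (c₂ : ℂ) * Q) * (N : ℂ) - (w : ℂ) * (P + (c₁ : ℂ) * Q)) / ((N - w : ℝ) : ℂ) := by
  have hne : ((N - w : ℝ) : ℂ) ≠ 0 := by exact_mod_cast h
  rw [eq_div_iff hne, Complex.ofReal_div, add_mul, mul_right_comm, div_mul_cancel₀ _ hne]
  push_cast
  ring

/-- `conj V₁ * V₂` -/
private noncomputable def liftW (p q : ℝ → ℂ) (d : ℕ) (r₁ r₂ : ℝ → ℝ) (θ : ℝ) : ℂ :=
  (p θ + ((r₂ θ ^ d : ℝ) : ℂ) * q θ) * (starRingEnd ℂ) (p θ + ((r₁ θ ^ d : ℝ) : ℂ) * q θ)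

private theorem Lift_im (p q : ℝ → ℂ) (d : ℕ) (r₁ r₂ : ℝ → ℝ) (θ : ℝ) :
    (liftW p q d r₁ r₂ θ).im = (r₂ θ ^ d - r₁ θ ^ d) * pqD p q θ := by
  simp only [liftW, pqD, Complex.mul_im, Complex.add_re, Complex.add_im, Complex.mul_re,
    Complex.ofReal_re, Complex.ofReal_im, Complex.conj_re, Complex.conj_im]
  ring

private theorem Lift_slit {p q : ℝ → ℂ} {d : ℕ} {b₁ b₂ : ℝ} {r₁ r₂ : ℝ → ℝ}
    (h₁ : Leaf p q d b₁ r₁) (h₂ : Leaf p q d b₂ r₂) (hlt : ∀ θ, r₁ θ < r₂ θ)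
    (hz : zin p q d r₁ = zin p q d r₂) (θ : ℝ) : liftW p q d r₁ r₂ θ ∈ Complex.slitPlane := by
  rw [Complex.mem_slitPlane_iff]
  by_contra hcon
  push Not at hcon
  obtain ⟨hre, him⟩ := hcon
  have hle : r₁ θ ^ d ≤ r₂ θ ^ d := pow_le_pow_left₀ (h₁.pos θ).le (hlt θ).le d
  set c₁ : ℝ := r₁ θ ^ d with hc₁
  set c₂ : ℝ := r₂ θ ^ d with hc₂
  set V₁ : ℂ := p θ + (c₁ : ℂ) * q θ with hV₁
  set V₂ : ℂ := p θ + (c₂ : ℂ) * q θ with hV₂
  have hW : liftW p q d r₁ r₂ θ = V₂ * (starRingEnd ℂ) V₁ := rfl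
  rw [hW] at hre him
  have hV₁0 : V₁ ≠ 0 := Lift_seg_ne h₁ h₂ hlt hz θ c₁ ⟨le_rfl, hle⟩
  have hN : 0 < Complex.normSq V₁ := Complex.normSq_pos.2 hV₁0
  set w : ℝ := (V₂ * (starRingEnd ℂ) V₁).re with hw
  have hWr : V₂ * (starRingEnd ℂ) V₁ = (w : ℂ) := by
    apply Complex.ext
    · simp [hw]
    · simp [him]
  have hmul : V₂ * (Complex.normSq V₁ : ℂ) = (w : ℂ) * V₁ := by
    rw [← hWr, Complex.normSq_eq_conj_mul_self]
    ring
  -- the point of the segment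
  have hpos : 0 < Complex.normSq V₁ - w := by linarith
  have ht : (c₂ * Complex.normSq V₁ - w * c₁) / (Complex.normSq V₁ - w) ∈ Set.Icc c₁ c₂ := by
    constructor
    · rw [le_div_iff₀ hpos]
      nlinarith
    · rw [div_le_iff₀ hpos]
      nlinarith
  refine Lift_seg_ne h₁ h₂ hlt hz θ _ ht ?_
  rw [Lift_key (p θ) (q θ) c₁ c₂ (Complex.normSq V₁) w hpos.ne', ← hV₁, ← hV₂, hmul, sub_self,
    zero_div]

private theorem Lift_const {g : ℝ → ℝ} (hg : Continuous g) (hi : ∀ θ, ∃ n : ℤ, g θ = n) :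
    ∃ n : ℤ, ∀ θ, g θ = n := by
  obtain ⟨n, hn⟩ := hi 0
  refine ⟨n, fun θ => ?_⟩
  obtain ⟨m, hm⟩ := hi θ
  by_contra hne
  have hmn : m ≠ n := fun h => hne (by rw [hm, h])
  rcases lt_or_gt_of_ne hmn with h | h
  · have h1 : (m : ℝ) + 1 ≤ n := by exact_mod_cast h
    obtain ⟨x, hx⟩ := mem_range_of_exists_le_of_exists_ge hg
      (c := (m : ℝ) + 1 / 2) ⟨θ, by rw [hm]; linarith⟩ ⟨0, by rw [hn]; linarith⟩
    obtain ⟨k, hk⟩ := hi x
    rw [hk] at hx
    have h2 : (2 * k : ℝ) = 2 * m + 1 := by linarith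
    have h3 : (2 * k : ℤ) = 2 * m + 1 := by exact_mod_cast h2
    omega
  · have h1 : (n : ℝ) + 1 ≤ m := by exact_mod_cast h
    obtain ⟨x, hx⟩ := mem_range_of_exists_le_of_exists_ge hg
      (c := (n : ℝ) + 1 / 2) ⟨0, by rw [hn]; linarith⟩ ⟨θ, by rw [hm]; linarith⟩
    obtain ⟨k, hk⟩ := hi x
    rw [hk] at hx
    have h2 : (2 * k : ℝ) = 2 * n + 1 := by linarith
    have h3 : (2 * k : ℤ) = 2 * n + 1 := by exact_mod_cast h2
    omega

private theorem Lift_contU {p q : ℝ → ℂ} (h : PQ p q) {d : ℕ} {b : ℝ} {r : ℝ → ℝ}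
    (hr : Leaf p q d b r) : Continuous (lfU p q d b r) := by
  have hrc : Continuous r := continuous_iff_continuousAt.2 fun θ => (hr.der θ).continuousAt
  unfold lfU
  exact continuous_const.mul
    (h.cp.add ((Complex.continuous_ofReal.comp (hrc.pow d)).mul h.cq))

private theorem Lift_contArg {p q : ℝ → ℂ} (h : PQ p q) {d : ℕ} {b : ℝ} {r : ℝ → ℝ}
    (hr : Leaf p q d b r) : Continuous fun θ => Complex.arg (lfU p q d b r θ) :=
  continuous_iff_continuousAt.2 fun θ =>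
    (Complex.continuousAt_arg (Complex.mem_slitPlane_iff.2 (Or.inr (hr.up θ).ne'))).comp
      (Lift_contU h hr).continuousAt

/-- Proof. Write `V₁ = p + r₁^d q`, `V₂ = p + r₂^d q` (at `θ`), `δ θ = arg (V₂ / V₁)`. As
`V₂ = V₁ + (r₂^d - r₁^d) q` and no point of the segment from `V₁` to `V₂` is zero
(`no_zero_between` with `s = (u)^{1/d}`; `s ↦ s^d` is onto between the end points, by the
intermediate value theorem or `Real.rpow`), `V₂ / V₁` is not in `(-∞,0]`: `V₂ = -c V₁`, `c ≥ 0`,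
would make the point `(c V₁ + V₂)/(1+c)` of the segment zero. So `δ` is continuous
(`Complex.slitPlane`, `continuousAt_arg`), `-π < δ < π`. `(conj V₁ * V₂).im =
(r₂^d - r₁^d) pqD p q θ`, so `δ` has the sign of `pqD` (if `pqD = 0` then `V₂/V₁` is real, and
positive, so `δ = 0`). The arguments `x₁ = arg (lfU .. r₁)`, `x₂ = arg (lfU .. r₂)` are continuous
(in the upper half plane) and `exp (i (x₂ - x₁ - δ - (b₂ - b₁))) = 1` (all four numbers are arguments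
of the factors of `lfU₂ / lfU₁ = e^{i(b₂-b₁)} V₂/V₁`). So `(x₂ - x₁ - δ - (b₂ - b₁)) / 2π` is a
continuous function with integer values, hence constant, `= -j`; take `Δ = b₂ - b₁ - 2π j`; then
`x₂ - x₁ = δ + Δ`. -/
theorem pair_lift {p q : ℝ → ℂ} (h : PQ p q) {d : ℕ} (hd : 1 ≤ d) {b₁ b₂ : ℝ} {r₁ r₂ : ℝ → ℝ}
    (h₁ : Leaf p q d b₁ r₁) (h₂ : Leaf p q d b₂ r₂) (hlt : ∀ θ, r₁ θ < r₂ θ)
    (hz : zin p q d r₁ = zin p q d r₂) :
    ∃ (Δ : ℝ) (j : ℤ), b₂ - b₁ = Δ + 2 * Real.pi * j ∧ ∀ θ,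
      |Complex.arg (lfU p q d b₂ r₂ θ) - Complex.arg (lfU p q d b₁ r₁ θ) - Δ| < Real.pi ∧
      (0 < pqD p q θ →
        Complex.arg (lfU p q d b₁ r₁ θ) + Δ < Complex.arg (lfU p q d b₂ r₂ θ)) ∧
      (pqD p q θ < 0 →
        Complex.arg (lfU p q d b₂ r₂ θ) < Complex.arg (lfU p q d b₁ r₁ θ) + Δ) ∧
      (pqD p q θ = 0 →
        Complex.arg (lfU p q d b₂ r₂ θ) = Complex.arg (lfU p q d b₁ r₁ θ) + Δ) := by
  have hslit := Lift_slit h₁ h₂ hlt hz
  have hr₁ : Continuous r₁ := continuous_iff_continuousAt.2 fun θ => (h₁.der θ).continuousAt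
  have hr₂ : Continuous r₂ := continuous_iff_continuousAt.2 fun θ => (h₂.der θ).continuousAt
  have hWc : Continuous (liftW p q d r₁ r₂) := by
    unfold liftW
    exact (h.cp.add ((Complex.continuous_ofReal.comp (hr₂.pow d)).mul h.cq)).mul
      (Complex.continuous_conj.comp
        (h.cp.add ((Complex.continuous_ofReal.comp (hr₁.pow d)).mul h.cq)))
  have hδc : Continuous fun θ => Complex.arg (liftW p q d r₁ r₂ θ) :=
    continuous_iff_continuousAt.2 fun θ =>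
      (Complex.continuousAt_arg (hslit θ)).comp hWc.continuousAt
  have hx₁ := Lift_contArg h h₁
  have hx₂ := Lift_contArg h h₂
  have hexp : ∀ θ, ∃ n : ℤ, (Complex.arg (lfU p q d b₂ r₂ θ) - Complex.arg (lfU p q d b₁ r₁ θ) -
      Complex.arg (liftW p q d r₁ r₂ θ) - (b₂ - b₁)) / (2 * Real.pi) = n := by
    intro θ
    set U₁ := lfU p q d b₁ r₁ θ with hU₁
    set U₂ := lfU p q d b₂ r₂ θ with hU₂
    set W := liftW p q d r₁ r₂ θ with hW
    have hU₁0 : U₁ ≠ 0 := fun h0 => by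
      have := h₁.up θ
      rw [← hU₁, h0] at this
      simp at this
    have hU₂0 : U₂ ≠ 0 := fun h0 => by
      have := h₂.up θ
      rw [← hU₂, h0] at this
      simp at this
    have hconj : (starRingEnd ℂ) (Complex.exp ((b₁ : ℂ) * Complex.I)) =
        Complex.exp (-((b₁ : ℂ) * Complex.I)) := by
      rw [← Complex.exp_conj]
      simp
    have hmul : U₂ * (starRingEnd ℂ) U₁ = Complex.exp (((b₂ - b₁ : ℝ) : ℂ) * Complex.I) * W := by
      rw [hU₁, hU₂, hW]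
      unfold lfU liftW
      rw [map_mul, hconj]
      have : Complex.exp (((b₂ - b₁ : ℝ) : ℂ) * Complex.I) =
          Complex.exp ((b₂ : ℂ) * Complex.I) * Complex.exp (-((b₁ : ℂ) * Complex.I)) := by
        rw [← Complex.exp_add]
        congr 1
        push_cast
        ring
      rw [this]
      ring
    have hnorm : ‖U₂‖ * ‖U₁‖ = ‖W‖ := by
      have := congrArg norm hmul
      rw [norm_mul, norm_mul, Complex.norm_exp_ofReal_mul_I, one_mul, RCLike.norm_conj] at this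
      exact this
    have hU₁e : (starRingEnd ℂ) U₁ = ‖U₁‖ * Complex.exp (-((Complex.arg U₁ : ℂ) * Complex.I)) := by
      conv_lhs => rw [← Complex.norm_mul_exp_arg_mul_I U₁]
      rw [map_mul, Complex.conj_ofReal, ← Complex.exp_conj]
      simp
    have hU₂e := Complex.norm_mul_exp_arg_mul_I U₂
    have hWe := Complex.norm_mul_exp_arg_mul_I W
    have hne : ((‖U₂‖ * ‖U₁‖ : ℝ) : ℂ) ≠ 0 := by
      have : 0 < ‖U₂‖ * ‖U₁‖ := mul_pos (norm_pos_iff.2 hU₂0) (norm_pos_iff.2 hU₁0)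
      exact_mod_cast this.ne'
    have h1 : ((‖U₂‖ * ‖U₁‖ : ℝ) : ℂ) * (Complex.exp ((Complex.arg U₂ : ℂ) * Complex.I) *
        Complex.exp (-((Complex.arg U₁ : ℂ) * Complex.I))) =
        ((‖U₂‖ * ‖U₁‖ : ℝ) : ℂ) * (Complex.exp (((b₂ - b₁ : ℝ) : ℂ) * Complex.I) *
          Complex.exp ((Complex.arg W : ℂ) * Complex.I)) := by
      have h2 : U₂ * (starRingEnd ℂ) U₁ = ((‖U₂‖ * ‖U₁‖ : ℝ) : ℂ) *
          (Complex.exp ((Complex.arg U₂ : ℂ) * Complex.I) *
            Complex.exp (-((Complex.arg U₁ : ℂ) * Complex.I))) := by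
        rw [hU₁e]
        conv_lhs => rw [← hU₂e]
        push_cast
        ring
      rw [← h2, hmul]
      conv_lhs => rw [← hWe]
      rw [← hnorm]
      push_cast
      ring
    have h3 := mul_left_cancel₀ hne h1
    have h4 : Complex.exp (((Complex.arg U₂ - Complex.arg U₁ - Complex.arg W - (b₂ - b₁) : ℝ) : ℂ) *
        Complex.I) = 1 := by
      have h5 : Complex.exp (((Complex.arg U₂ - Complex.arg U₁ - Complex.arg W - (b₂ - b₁) : ℝ) : ℂ) *
          Complex.I) * (Complex.exp (((b₂ - b₁ : ℝ) : ℂ) * Complex.I) *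
          Complex.exp ((Complex.arg W : ℂ) * Complex.I)) =
          Complex.exp ((Complex.arg U₂ : ℂ) * Complex.I) *
            Complex.exp (-((Complex.arg U₁ : ℂ) * Complex.I)) := by
        rw [← Complex.exp_add, ← Complex.exp_add, ← Complex.exp_add]
        congr 1
        push_cast
        ring
      rw [h3] at h5
      have h6 : Complex.exp (((b₂ - b₁ : ℝ) : ℂ) * Complex.I) *
          Complex.exp ((Complex.arg W : ℂ) * Complex.I) ≠ 0 :=
        mul_ne_zero (Complex.exp_ne_zero _) (Complex.exp_ne_zero _)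
      exact mul_right_cancel₀ h6 (by rw [h5, one_mul])
    rw [Complex.exp_eq_one_iff] at h4
    obtain ⟨n, hn⟩ := h4
    refine ⟨n, ?_⟩
    have h7 : ((Complex.arg U₂ - Complex.arg U₁ - Complex.arg W - (b₂ - b₁) : ℝ) : ℂ) =
        ((n * (2 * Real.pi) : ℝ) : ℂ) := by
      apply mul_right_cancel₀ Complex.I_ne_zero
      rw [hn]
      push_cast
      ring
    have h8 : Complex.arg U₂ - Complex.arg U₁ - Complex.arg W - (b₂ - b₁) = n * (2 * Real.pi) := by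
      exact_mod_cast h7
    rw [h8]
    field_simp
  obtain ⟨n, hn⟩ := Lift_const (((hx₂.sub hx₁).sub hδc |>.sub continuous_const).div_const _) hexp
  refine ⟨b₂ - b₁ + 2 * Real.pi * n, -n, by push_cast; ring, fun θ => ?_⟩
  have hθ : Complex.arg (lfU p q d b₂ r₂ θ) - Complex.arg (lfU p q d b₁ r₁ θ) -
      (b₂ - b₁ + 2 * Real.pi * n) = Complex.arg (liftW p q d r₁ r₂ θ) := by
    have h1 := hn θ
    have h2 : (2 * Real.pi) ≠ 0 := by positivity
    rw [div_eq_iff h2] at h1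
    simp only [Pi.sub_apply] at h1
    linarith
  have hpow : 0 < r₂ θ ^ d - r₁ θ ^ d :=
    sub_pos.2 (pow_lt_pow_left₀ (hlt θ) (h₁.pos θ).le (by omega))
  have him := Lift_im p q d r₁ r₂ θ
  have hs := hslit θ
  refine ⟨?_, fun hD => ?_, fun hD => ?_, fun hD => ?_⟩
  · rw [hθ, abs_lt]
    exact ⟨Complex.neg_pi_lt_arg _, lt_of_le_of_ne (Complex.arg_le_pi _)
      (Complex.mem_slitPlane_iff_arg.1 hs).1⟩
  · have h1 : 0 < (liftW p q d r₁ r₂ θ).im := by rw [him]; exact mul_pos hpow hD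
    have h2 : 0 ≤ Complex.arg (liftW p q d r₁ r₂ θ) := Complex.arg_nonneg_iff.2 h1.le
    have h3 : Complex.arg (liftW p q d r₁ r₂ θ) ≠ 0 := fun h0 =>
      h1.ne' (Complex.arg_eq_zero_iff.1 h0).2
    have h4 := lt_of_le_of_ne h2 h3.symm
    linarith
  · have h1 : (liftW p q d r₁ r₂ θ).im < 0 := by
      rw [him]; exact mul_neg_of_pos_of_neg hpow hD
    have h2 := Complex.arg_neg_iff.2 h1
    linarith
  · have h1 : (liftW p q d r₁ r₂ θ).im = 0 := by rw [him, hD, mul_zero]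
    have h2 : 0 < (liftW p q d r₁ r₂ θ).re := by
      rcases Complex.mem_slitPlane_iff.1 hs with h | h
      · exact h
      · exact absurd h1 h
    have h3 := Complex.arg_eq_zero_iff.2 ⟨h2.le, h1⟩
    linarith

end Pool.Agent.Lib.MP_95e7ec_an
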