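import Mathlib
import Pool.Agent.Lib.MP_95e7ec_an.Rz.Lift
import Pool.Agent.Lib.MP_95e7ec_an.Rz.Closed

/-!
# Rz, SameSign: the case that the determinant does not change its sign
-/

set_option autoImplicit false

open Set Filter Topology MeasureTheory
open scoped ContDiff ENNReal

namespace Pool.Agent.Lib.MP_95e7ec_an

private theorem sameSign_cot_le {p q : ℝ → ℂ} {d : ℕ} {b₁ b₂ : ℝ} {r₁ r₂ : ℝ → ℝ}
    (h₁ : Leaf p q d b₁ r₁) (h₂ : Leaf p q d b₂ r₂) {θ : ℝ}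
    (h : Complex.arg (lfU p q d b₁ r₁ θ) ≤ Complex.arg (lfU p q d b₂ r₂ θ)) :
    lfC p q d b₂ r₂ θ ≤ lfC p q d b₁ r₁ θ := by
  have h3 := (cot_step (h₁.up θ) (h₂.up θ) (le_refl (0 : ℝ)) (by simpa using h)).2
  simpa [lfC] using h3

private theorem sameSign_cot_lt {p q : ℝ → ℂ} {d : ℕ} {b₁ b₂ : ℝ} {r₁ r₂ : ℝ → ℝ}
    (h₁ : Leaf p q d b₁ r₁) (h₂ : Leaf p q d b₂ r₂) {θ : ℝ}
    (h : Complex.arg (lfU p q d b₁ r₁ θ) < Complex.arg (lfU p q d b₂ r₂ θ)) :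
    lfC p q d b₂ r₂ θ < lfC p q d b₁ r₁ θ :=
  cot_lt (h₁.up θ) (h₂.up θ) h

/-- the integral of the difference of the cotangents of two leaves is zero -/
private theorem sameSign_int {p q : ℝ → ℂ} (h : PQ p q) {d : ℕ} {b₁ b₂ : ℝ} {r₁ r₂ : ℝ → ℝ}
    (h₁ : Leaf p q d b₁ r₁) (h₂ : Leaf p q d b₂ r₂) :
    ∫ θ in (0 : ℝ)..(2 * Real.pi), (lfC p q d b₁ r₁ θ - lfC p q d b₂ r₂ θ) = 0 := by
  have hpi : (0 : ℝ) ≤ 2 * Real.pi := by positivity
  rw [intervalIntegral.integral_sub ((h₁.continuous_lfC h).intervalIntegrable _ _)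
    ((h₂.continuous_lfC h).intervalIntegrable _ _), intervalIntegral.integral_of_le hpi,
    intervalIntegral.integral_of_le hpi, h₁.integral_lfC h, h₂.integral_lfC h, sub_zero]

/-- the cotangents cannot be ordered with strict inequality at one point of a period -/
private theorem sameSign_contra {p q : ℝ → ℂ} (h : PQ p q) {d : ℕ} {b₁ b₂ : ℝ} {r₁ r₂ : ℝ → ℝ}
    (h₁ : Leaf p q d b₁ r₁) (h₂ : Leaf p q d b₂ r₂)
    (hle : ∀ θ, lfC p q d b₂ r₂ θ ≤ lfC p q d b₁ r₁ θ)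
    (hlt : ∃ θ ∈ Icc (0 : ℝ) (2 * Real.pi), lfC p q d b₂ r₂ θ < lfC p q d b₁ r₁ θ) : False := by
  have hpi : (0 : ℝ) < 2 * Real.pi := by positivity
  have h3 := intervalIntegral.integral_pos hpi
    (((h₁.continuous_lfC h).sub (h₂.continuous_lfC h)).continuousOn)
    (fun x _ => sub_nonneg.2 (hle x))
    (by
      obtain ⟨θ, hθ, hθ'⟩ := hlt
      exact ⟨θ, hθ, sub_pos.2 hθ'⟩)
  exact absurd (sameSign_int h h₁ h₂) (ne_of_gt h3)

private theorem sameSign_per {p q : ℝ → ℂ} (h : PQ p q) :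
    Function.Periodic (pqD p q) (2 * Real.pi) := by
  intro θ
  simp only [pqD, h.pp θ, h.pq θ]

/-- there is a point where the cotangents of two leaves are equal, so the arguments are equal -/
private theorem sameSign_eq {p q : ℝ → ℂ} (h : PQ p q) {d : ℕ} {b₁ b₂ : ℝ} {r₁ r₂ : ℝ → ℝ}
    (h₁ : Leaf p q d b₁ r₁) (h₂ : Leaf p q d b₂ r₂) :
    ∃ θ, Complex.arg (lfU p q d b₁ r₁ θ) = Complex.arg (lfU p q d b₂ r₂ θ) := by
  have hpi : (0 : ℝ) ≤ 2 * Real.pi := by positivity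
  have hz : (0 : ℝ) ∈ Icc (0 : ℝ) (2 * Real.pi) := ⟨le_refl _, hpi⟩
  have hc : Continuous fun θ => lfC p q d b₁ r₁ θ - lfC p q d b₂ r₂ θ :=
    (h₁.continuous_lfC h).sub (h₂.continuous_lfC h)
  have hA : ∃ θ, lfC p q d b₁ r₁ θ - lfC p q d b₂ r₂ θ ≤ 0 := by
    by_contra hcon
    push_neg at hcon
    exact sameSign_contra h h₁ h₂ (fun θ => (sub_pos.1 (hcon θ)).le) ⟨0, hz, sub_pos.1 (hcon 0)⟩
  have hB : ∃ θ, 0 ≤ lfC p q d b₁ r₁ θ - lfC p q d b₂ r₂ θ := by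
    by_contra hcon
    push_neg at hcon
    exact sameSign_contra h h₂ h₁ (fun θ => (sub_neg.1 (hcon θ)).le) ⟨0, hz, sub_neg.1 (hcon 0)⟩
  obtain ⟨θ, hθ⟩ := mem_range_of_exists_le_of_exists_ge hc hA hB
  have hθ' : lfC p q d b₁ r₁ θ - lfC p q d b₂ r₂ θ = 0 := hθ
  refine ⟨θ, ?_⟩
  rcases lt_trichotomy (Complex.arg (lfU p q d b₁ r₁ θ)) (Complex.arg (lfU p q d b₂ r₂ θ)) with
    h3 | h3 | h3
  · have := sameSign_cot_lt h₁ h₂ h3
    linarith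
  · exact h3
  · have := sameSign_cot_lt h₂ h₁ h3
    linarith

/-- If the determinant does not change its sign then two leaves never have the same angle.
Proof. Suppose `b₂ - b₁ = 2π j`. By `pair_lift` `b₂ - b₁ = Δ + 2π j'`, so `Δ = 2π i` for an integer
`i`. Let `x₁`, `x₂` be the arguments on the two leaves and `c₁`, `c₂` the cotangents. As
`∫ (c₁ - c₂) = 0` over `(0,2π]` (`Leaf.integral_lfC`) and `c₁ - c₂` is continuous, there is `θ` with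
`c₁ θ = c₂ θ` (otherwise `c₁ - c₂` has one strict sign, intermediate value theorem), so
`x₁ θ = x₂ θ` (`cot_lt` in both directions), and `|x₂ - x₁ - Δ| < π` gives `|Δ| < π`, so `Δ = 0`.
Let `0 ≤ pqD` (the other case is symmetric): `x₁ ≤ x₂` everywhere and `x₁ < x₂` where `pqD > 0`,
which is an open nonempty periodic set, so `c₂ ≤ c₁` everywhere, with `<` on an interval in `(0,2π)`,
and `∫ c₂ < ∫ c₁`, a contradiction. -/
theorem pair_same_sign {p q : ℝ → ℂ} (h : PQ p q) {d : ℕ} (hd : 1 ≤ d) {b₁ b₂ : ℝ}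
    {r₁ r₂ : ℝ → ℝ} (h₁ : Leaf p q d b₁ r₁) (h₂ : Leaf p q d b₂ r₂) (hlt : ∀ θ, r₁ θ < r₂ θ)
    (hz : zin p q d r₁ = zin p q d r₂)
    (hsgn : (∀ θ, 0 ≤ pqD p q θ) ∨ ∀ θ, pqD p q θ ≤ 0) (hne : ∃ θ, pqD p q θ ≠ 0) :
    ¬ ∃ j : ℤ, b₂ - b₁ = 2 * Real.pi * j := by
  rintro ⟨j, hj⟩
  obtain ⟨Δ, j', hb, hΔ⟩ := pair_lift h hd h₁ h₂ hlt hz
  have hpi : (0 : ℝ) < Real.pi := Real.pi_pos
  -- `Δ = 0`
  have hΔ0 : Δ = 0 := by
    obtain ⟨θ, hθ⟩ := sameSign_eq h h₁ h₂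
    have h3 := (hΔ θ).1
    rw [hθ] at h3
    have h4 : |Δ| < Real.pi := by
      have h5 : Complex.arg (lfU p q d b₂ r₂ θ) - Complex.arg (lfU p q d b₂ r₂ θ) - Δ = -Δ := by
        ring
      rw [h5, abs_neg] at h3
      exact h3
    have h5 : Δ = 2 * Real.pi * ((j - j' : ℤ) : ℝ) := by
      push_cast
      linarith
    have h6 : j - j' = 0 := by
      by_contra hne0
      have h7 : (1 : ℝ) ≤ |((j - j' : ℤ) : ℝ)| := by
        have h8 : (1 : ℤ) ≤ |j - j'| := Int.one_le_abs hne0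
        have h9 : ((1 : ℤ) : ℝ) ≤ ((|j - j'| : ℤ) : ℝ) := by exact_mod_cast h8
        simpa using h9
      rw [h5, abs_mul, abs_of_pos (by positivity : (0 : ℝ) < 2 * Real.pi)] at h4
      nlinarith
    rw [h5, h6]
    simp
  obtain ⟨θ₀, hθ₀⟩ := hne
  obtain ⟨y, hy, hyy⟩ := (sameSign_per h).exists_mem_Ico₀ (by positivity) θ₀
  have hyI : y ∈ Icc (0 : ℝ) (2 * Real.pi) := ⟨hy.1, hy.2.le⟩
  rw [hyy] at hθ₀
  rcases hsgn with hs | hs
  · refine sameSign_contra h h₁ h₂ (fun θ => sameSign_cot_le h₁ h₂ ?_)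
      ⟨y, hyI, sameSign_cot_lt h₁ h₂ ?_⟩
    · rcases (hs θ).lt_or_eq with h3 | h3
      · have := (hΔ θ).2.1 h3
        rw [hΔ0, add_zero] at this
        exact this.le
      · have := (hΔ θ).2.2.2 h3.symm
        rw [hΔ0, add_zero] at this
        exact this.ge
    · have h3 : 0 < pqD p q y := lt_of_le_of_ne (hs y) (Ne.symm hθ₀)
      have := (hΔ y).2.1 h3
      rwa [hΔ0, add_zero] at this
  · refine sameSign_contra h h₂ h₁ (fun θ => sameSign_cot_le h₂ h₁ ?_)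
      ⟨y, hyI, sameSign_cot_lt h₂ h₁ ?_⟩
    · rcases (hs θ).lt_or_eq with h3 | h3
      · have := (hΔ θ).2.2.1 h3
        rw [hΔ0, add_zero] at this
        exact this.le
      · have := (hΔ θ).2.2.2 h3
        rw [hΔ0, add_zero] at this
        exact this.le
    · have h3 : pqD p q y < 0 := lt_of_le_of_ne (hs y) hθ₀
      have := (hΔ y).2.2.1 h3
      rwa [hΔ0, add_zero] at this

/-- If the determinant is zero then all the leaves have the same angle. Proof. By `pair_lift`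
`x₂ = x₁ + Δ` everywhere. If `Δ > 0` then `c₂ < c₁` everywhere (`cot_lt`), a contradiction to
`Leaf.integral_lfC` for both leaves; in the same way `Δ < 0` is impossible. -/
theorem pair_zero {p q : ℝ → ℂ} (h : PQ p q) {d : ℕ} (hd : 1 ≤ d) {b₁ b₂ : ℝ}
    {r₁ r₂ : ℝ → ℝ} (h₁ : Leaf p q d b₁ r₁) (h₂ : Leaf p q d b₂ r₂) (hlt : ∀ θ, r₁ θ < r₂ θ)
    (hz : zin p q d r₁ = zin p q d r₂) (h0 : ∀ θ, pqD p q θ = 0) :
    ∃ j : ℤ, b₂ - b₁ = 2 * Real.pi * j := by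
  obtain ⟨Δ, j', hb, hΔ⟩ := pair_lift h hd h₁ h₂ hlt hz
  refine ⟨j', ?_⟩
  have hΔ0 : Δ = 0 := by
    obtain ⟨θ, hθ⟩ := sameSign_eq h h₁ h₂
    have h3 := (hΔ θ).2.2.2 (h0 θ)
    rw [hθ] at h3
    linarith
  rw [hb, hΔ0, zero_add]

end Pool.Agent.Lib.MP_95e7ec_an
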