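import Mathlib
import Pool.Agent.Lib.MP_95e7ec_an.Rz.Order
import Pool.Agent.Lib.MP_95e7ec_an.Rz.SameSign

/-!
# Rz, CountZero: the case that the determinant is zero
-/

set_option autoImplicit false

open Set Filter Topology MeasureTheory
open scoped ContDiff ENNReal

namespace Pool.Agent.Lib.MP_95e7ec_an

/-- The case `pqD = 0`. Proof. By `leaf_order` and `pair_zero` all the leaves with `zin = E` have
the same angle modulo `2π`. If there is none take `H = 0`; if `b₀` is the angle of one, take
`H x = ⊤` if `x = b₀ + 2π m` for some integer `m` and `0` otherwise (a countable set has measure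
zero). -/
theorem count_zero {p q : ℝ → ℂ} (h : PQ p q) {d : ℕ} (hd : 1 ≤ d) (E : Set (ℝ × ℝ))
    (h0 : ∀ θ, pqD p q θ = 0) :
    ∃ H : ℝ → ℝ≥0∞, Measurable H ∧ (∀ x, lfN p q d E x ≤ H x) ∧
      ∀ t : ℝ, ∫⁻ x in Set.Icc t (t + 2 * Real.pi), H x ≤ 0 := by
  by_cases hex : ∃ (b₀ : ℝ) (r₀ : ℝ → ℝ), Leaf p q d b₀ r₀ ∧ zin p q d r₀ = E
  · obtain ⟨b₀, r₀, hl₀, hz₀⟩ := hex
    have hcount : (Set.range fun m : ℤ => b₀ + 2 * Real.pi * m).Countable :=
      Set.countable_range _
    refine ⟨(Set.range fun m : ℤ => b₀ + 2 * Real.pi * m).indicator (fun _ => ⊤),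
      measurable_const.indicator hcount.measurableSet, fun x => ?_, fun t => ?_⟩
    · by_cases hx : x ∈ Set.range fun m : ℤ => b₀ + 2 * Real.pi * m
      · rw [Set.indicator_of_mem hx]
        exact le_top
      · have hempty : {r : ℝ → ℝ | Leaf p q d x r ∧ zin p q d r = E} = ∅ := by
          rw [Set.eq_empty_iff_forall_notMem]
          rintro r ⟨hl, hz⟩
          apply hx
          have hzz : zin p q d r₀ = zin p q d r := hz₀.trans hz.symm
          rcases leaf_order h hl₀ hl with ⟨-, j, hj⟩ | hlt | hlt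
          · exact ⟨j, by simp only; linarith⟩
          · obtain ⟨j, hj⟩ := pair_zero h hd hl₀ hl hlt hzz h0
            exact ⟨j, by simp only; linarith⟩
          · obtain ⟨j, hj⟩ := pair_zero h hd hl hl₀ hlt hzz.symm h0
            refine ⟨-j, ?_⟩
            simp only [Int.cast_neg]
            linarith
        rw [lfN, hempty]
        simp
    · rw [nonpos_iff_eq_zero]
      have hae : (Set.range fun m : ℤ => b₀ + 2 * Real.pi * m).indicator (fun _ => (⊤ : ℝ≥0∞))
          =ᵐ[volume.restrict (Set.Icc t (t + 2 * Real.pi))] fun _ => (0 : ℝ≥0∞) := by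
        apply ae_restrict_of_ae
        exact indicator_meas_zero (hcount.measure_zero volume)
      rw [lintegral_congr_ae hae]
      simp
  · refine ⟨fun _ => 0, measurable_const, fun x => ?_, fun t => by simp⟩
    have hempty : {r : ℝ → ℝ | Leaf p q d x r ∧ zin p q d r = E} = ∅ := by
      rw [Set.eq_empty_iff_forall_notMem]
      rintro r ⟨hl, hz⟩
      exact hex ⟨x, r, hl, hz⟩
    rw [lfN, hempty]
    simp

end Pool.Agent.Lib.MP_95e7ec_an
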