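import Mathlib
import Pool.Agent.Lib.MP_95e7ec_an.Rz.Defs

/-!
# Rz, Mean: the mean of the cotangents
-/

set_option autoImplicit false

open Set Filter Topology MeasureTheory
open scoped ContDiff ENNReal

namespace Pool.Agent.Lib.MP_95e7ec_an

private theorem mean_pointwise {C s a b c : ℝ} (hCs : C ^ 2 + s ^ 2 = 1) (hs : 0 ≤ s)
    (hD : 0 < C + a * s) (hE : 0 < C + c * s) (hb : b * (C + a * s) ≤ a * C - s) :
    b ≤ (c * C - s) / (C + c * s) + (a - c) / (C + c * s) ^ 2 := by
  set E := C + c * s with hEdef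
  set D := C + a * s with hDdef
  have h1 : b ≤ (a * C - s) / D := by
    rw [le_div_iff₀ hD]
    exact hb
  refine h1.trans ?_
  have hDE : D - E = (a - c) * s := by
    rw [hDdef, hEdef]
    ring
  have key : (c * C - s) / E + (a - c) / E ^ 2 - (a * C - s) / D
      = (a - c) ^ 2 * s / (D * E ^ 2) := by
    have hnum : (a * C - s) * E - (c * C - s) * D = a - c := by
      rw [hDdef, hEdef]
      have : (a * C - s) * (C + c * s) - (c * C - s) * (C + a * s)
          = (a - c) * (C ^ 2 + s ^ 2) := by ring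
      rw [this, hCs, mul_one]
    have e1 : (c * C - s) / E + (a - c) / E ^ 2 - (a * C - s) / D
        = ((a - c) * D - E * ((a * C - s) * E - (c * C - s) * D)) / (D * E ^ 2) := by
      field_simp
      ring
    rw [e1, hnum]
    congr 1
    have : (a - c) * D - E * (a - c) = (a - c) * (D - E) := by ring
    rw [this, hDE]
    ring
  have hpos : 0 ≤ (a - c) ^ 2 * s / (D * E ^ 2) := by positivity
  linarith

/-- Proof. Let `c = (∫ c₁) / w` and `E = cos t + c sin t = (1/w) ∫_S (cos t + c₁ sin t) > 0`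
(`setIntegral_pos_iff_support_of_nonneg_ae` or similar: a positive function on a set of positive
finite measure has a positive integral). On `S`, with `D = cos t + c₁ sin t > 0`,
`c₂ ≤ (c₁ cos t - sin t) / D`, and
`(c₁ cos t - sin t)/D - (c cos t - sin t)/E = (c₁ - c) / (D E) ≤ (c₁ - c) / E²` since
`(c₁ - c)(1/(DE) - 1/E²) = - (c₁ - c)² sin t / (D E²) ≤ 0`. Integrate over `S`:
`∫_S c₂ ≤ w (c cos t - sin t) / E`. Finally let `ξ = arctan c`, `-π/2 < ξ < π/2`;
`E = cos (ξ - t) / cos ξ > 0` and `-3π/2 < ξ - t < π/2` give `-π/2 < ξ - t`, and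
`(c cos t - sin t) / E = tan (ξ - t)`, so `arctan ((∫ c₂)/w) ≤ ξ - t`. -/
theorem mean_step {S : Set ℝ} (hS : MeasurableSet S) {w : ℝ} (hw : 0 < w)
    (hvol : volume S = ENNReal.ofReal w) {c₁ c₂ : ℝ → ℝ} (h1 : IntegrableOn c₁ S)
    (h2 : IntegrableOn c₂ S) {t : ℝ} (ht : 0 ≤ t) (htπ : t < Real.pi)
    (h : ∀ θ ∈ S, 0 < Real.cos t + c₁ θ * Real.sin t ∧
      c₂ θ * (Real.cos t + c₁ θ * Real.sin t) ≤ c₁ θ * Real.cos t - Real.sin t) :
    t ≤ Real.arctan ((∫ θ in S, c₁ θ) / w) - Real.arctan ((∫ θ in S, c₂ θ) / w) := by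
  have hfin : volume S ≠ ⊤ := by
    rw [hvol]
    exact ENNReal.ofReal_ne_top
  have hpos : 0 < volume S := by
    rw [hvol]
    exact ENNReal.ofReal_pos.2 hw
  have hreal : volume.real S = w := by
    rw [Measure.real, hvol, ENNReal.toReal_ofReal hw.le]
  have hs0 : 0 ≤ Real.sin t := Real.sin_nonneg_of_nonneg_of_le_pi ht htπ.le
  have hconst : ∀ k : ℝ, IntegrableOn (fun _ : ℝ => k) S := fun k =>
    integrableOn_const (by simpa using hfin)
  have hconst_int : ∀ k : ℝ, ∫ _ in S, k = w * k := by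
    intro k
    rw [setIntegral_const, hreal, smul_eq_mul]
  set c := (∫ θ in S, c₁ θ) / w with hc
  have hcw : ∫ θ in S, c₁ θ = w * c := by
    rw [hc]
    field_simp
  set C := Real.cos t with hC
  set s := Real.sin t with hsdef
  set E := C + c * s with hEdef
  have hCs : C ^ 2 + s ^ 2 = 1 := Real.cos_sq_add_sin_sq t
  -- positivity of E
  have hDint : IntegrableOn (fun θ => C + c₁ θ * s) S := (hconst C).add (h1.mul_const s)
  have hDval : ∫ θ in S, (C + c₁ θ * s) = w * E := by
    rw [integral_add (hconst C) (h1.mul_const s), hconst_int, integral_mul_const, hcw, hEdef]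
    ring
  have hE : 0 < E := by
    have hI : 0 < ∫ θ in S, (C + c₁ θ * s) := by
      rw [setIntegral_pos_iff_support_of_nonneg_ae _ hDint]
      · refine lt_of_lt_of_le hpos (measure_mono ?_)
        intro θ hθ
        exact ⟨ne_of_gt (h θ hθ).1, hθ⟩
      · filter_upwards [ae_restrict_mem hS] with θ hθ
        exact (h θ hθ).1.le
    rw [hDval] at hI
    exact (mul_pos_iff_of_pos_left hw).1 hI
  -- the integrated inequality
  have hle : ∫ θ in S, c₂ θ ≤ ∫ θ in S, ((c * C - s) / E + (c₁ θ - c) / E ^ 2) := by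
    refine setIntegral_mono_on h2 ?_ hS ?_
    · exact (hconst _).add ((h1.sub (hconst c)).div_const _)
    · intro θ hθ
      exact mean_pointwise hCs hs0 (h θ hθ).1 hE (h θ hθ).2
  have hval : ∫ θ in S, ((c * C - s) / E + (c₁ θ - c) / E ^ 2) = w * ((c * C - s) / E) := by
    have hA : Integrable (fun θ => (c₁ θ - c) / E ^ 2) (volume.restrict S) :=
      (Integrable.sub h1 (hconst c)).div_const _
    have hB : ∫ θ in S, (c₁ θ - c) / E ^ 2 = 0 := by
      rw [integral_div, integral_sub h1 (hconst c), hcw, hconst_int]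
      simp
    rw [integral_add (hconst _) hA, hconst_int, hB, add_zero]
  rw [hval] at hle
  have hle2 : (∫ θ in S, c₂ θ) / w ≤ (c * C - s) / E := by
    rw [div_le_iff₀ hw]
    linarith
  -- the angle
  set ξ := Real.arctan c with hξ
  have hξ1 : -(Real.pi / 2) < ξ := Real.neg_pi_div_two_lt_arctan c
  have hξ2 : ξ < Real.pi / 2 := Real.arctan_lt_pi_div_two c
  have hcosξ : 0 < Real.cos ξ := Real.cos_arctan_pos c
  have htan : Real.tan ξ = c := Real.tan_arctan c
  have hsinξ : Real.sin ξ = c * Real.cos ξ := by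
    rw [← htan, Real.tan_mul_cos hcosξ.ne']
  have hcosd : Real.cos (ξ - t) = Real.cos ξ * E := by
    rw [Real.cos_sub, hsinξ, hEdef]
    ring
  have hsind : Real.sin (ξ - t) = Real.cos ξ * (c * C - s) := by
    rw [Real.sin_sub, hsinξ]
    ring
  have hcosd_pos : 0 < Real.cos (ξ - t) := by
    rw [hcosd]
    exact mul_pos hcosξ hE
  have hlow : -(Real.pi / 2) < ξ - t := by
    by_contra hcon
    push Not at hcon
    have h5 : Real.cos (t - ξ) ≤ 0 :=
      Real.cos_nonpos_of_pi_div_two_le_of_le (by linarith) (by linarith)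
    have h6 : Real.cos (t - ξ) = Real.cos (ξ - t) := by
      rw [← Real.cos_neg]
      congr 1
      ring
    linarith
  have hupp : ξ - t < Real.pi / 2 := by linarith
  have htand : Real.tan (ξ - t) = (c * C - s) / E := by
    rw [Real.tan_eq_sin_div_cos, hsind, hcosd]
    field_simp
  have hfinal : Real.arctan ((∫ θ in S, c₂ θ) / w) ≤ ξ - t := by
    calc Real.arctan ((∫ θ in S, c₂ θ) / w) ≤ Real.arctan (Real.tan (ξ - t)) := by
          rw [htand]
          exact Real.arctan_strictMono.monotone hle2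
      _ = ξ - t := Real.arctan_tan hlow hupp
  linarith

end Pool.Agent.Lib.MP_95e7ec_an
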