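import Mathlib
import Pool.Agent.Lib.MP_95e7ec_an.Rz.Lift
import Pool.Agent.Lib.MP_95e7ec_an.Rz.Mean
import Pool.Agent.Lib.MP_95e7ec_an.Rz.Closed

/-!
# Rz, PairPot: two leaves: the angle is Lipschitz in the potential
-/

set_option autoImplicit false

open Set Filter Topology MeasureTheory
open scoped ContDiff ENNReal

namespace Pool.Agent.Lib.MP_95e7ec_an

theorem PairPot_continuous_pqD {p q : ℝ → ℂ} (h : PQ p q) : Continuous (pqD p q) := by
  unfold pqD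
  exact ((Complex.continuous_re.comp h.cp).mul (Complex.continuous_im.comp h.cq)).sub
    ((Complex.continuous_im.comp h.cp).mul (Complex.continuous_re.comp h.cq))

theorem PairPot_periodic_pqD {p q : ℝ → ℂ} (h : PQ p q) :
    Function.Periodic (pqD p q) (2 * Real.pi) := by
  intro θ
  unfold pqD
  rw [h.pp, h.pq]

theorem PairPot_open_pos {g : ℝ → ℝ} (hg : Continuous g)
    (hp : Function.Periodic g (2 * Real.pi)) {θ₀ : ℝ} (h0 : 0 < g θ₀) :
    0 < volume ({θ | 0 < g θ} ∩ Set.Ioo 0 (2 * Real.pi)) := by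
  have hpi : (0 : ℝ) < 2 * Real.pi := by positivity
  obtain ⟨θ₁, hθ₁, hg1⟩ := hp.exists_mem_Ioc hpi θ₀ 0
  rw [zero_add] at hθ₁
  rw [hg1] at h0
  have hO : IsOpen ({θ | 0 < g θ} ∩ Set.Ioo 0 (2 * Real.pi)) :=
    (isOpen_lt continuous_const hg).inter isOpen_Ioo
  refine hO.measure_pos volume ?_
  rcases lt_or_eq_of_le hθ₁.2 with hlt | heq
  · exact ⟨θ₁, h0, hθ₁.1, hlt⟩
  · obtain ⟨ε, hε, hball⟩ := Metric.isOpen_iff.1 (isOpen_lt continuous_const hg) θ₁ h0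
    have hm : 0 < min ε (2 * Real.pi) := lt_min hε hpi
    refine ⟨θ₁ - min ε (2 * Real.pi) / 2, hball ?_, ?_, ?_⟩
    · rw [Metric.mem_ball, Real.dist_eq, abs_lt]
      constructor
      · have := min_le_left ε (2 * Real.pi)
        linarith
      · linarith
    · have := min_le_right ε (2 * Real.pi)
      rw [heq]
      linarith
    · rw [heq]
      linarith

/-- Proof. Take `Δ`, `j` from `pair_lift`. Let `c₁ = lfC .. r₁`, `c₂ = lfC .. r₂`,
`I = Ioc 0 (2π)`, `F₁ = FS .. S`, `F₂`.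
Case `0 ≤ Δ`. On `S` (`pqD ≥ 0`) `arg U₁ + Δ ≤ arg U₂`, so `cot_step` holds there with `t = Δ`;
`Δ < π` as `S ∩ I` is nonempty and the arguments are in `(0,π)`. `mean_step` on `S ∩ I` gives
`Δ ≤ arctan (F₁/w₁) - arctan (F₂/w₁)`, hence `F₂ ≤ F₁`.
Case `Δ < 0`, `t = -Δ`. On `Sᶜ` (`pqD ≤ 0`) `arg U₂ + t ≤ arg U₁`; `mean_step` on `Sᶜ ∩ I` with
the roles of the leaves exchanged gives
`t ≤ arctan (G₂/w₂) - arctan (G₁/w₂)`, `G = FS .. Sᶜ = -F` (`FS_compl`), i.e.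
`t ≤ arctan (F₁/w₂) - arctan (F₂/w₂)`, hence `F₂ ≤ F₁`.
Strictness. If `0 ≤ Δ` let `pqD θ₀ > 0`; `pqD` is continuous and periodic, so there is an open
interval in `I` on which `pqD > 0`, it is contained in `S` (off `S` `pqD ≤ 0`), there
`arg U₁ < arg U₂`, `c₂ < c₁` (`cot_lt`), and `c₂ ≤ c₁` on all of `S`; so `F₂ < F₁`
(`setIntegral_lt_of_...` or: the integral over `S ∩ I` of the nonnegative function `c₁ - c₂` is
positive since it is at least the integral over the interval). If `Δ < 0` then `t > 0` and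
`arctan (F₁/w₂) - arctan (F₂/w₂) ≥ t > 0`, so `F₂ < F₁`. -/
theorem pair_pot {p q : ℝ → ℂ} (h : PQ p q) {d : ℕ} (hd : 1 ≤ d) {b₁ b₂ : ℝ} {r₁ r₂ : ℝ → ℝ}
    (h₁ : Leaf p q d b₁ r₁) (h₂ : Leaf p q d b₂ r₂) (hlt : ∀ θ, r₁ θ < r₂ θ)
    (hz : zin p q d r₁ = zin p q d r₂) {S : Set ℝ} (hS : MeasurableSet S)
    (hS1 : ∀ θ ∈ S, 0 ≤ pqD p q θ) (hS2 : ∀ θ, θ ∉ S → pqD p q θ ≤ 0) {w₁ w₂ : ℝ}
    (hw₁ : 0 < w₁) (hw₂ : 0 < w₂)
    (hv₁ : volume (S ∩ Set.Ioc 0 (2 * Real.pi)) = ENNReal.ofReal w₁)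
    (hv₂ : volume (Sᶜ ∩ Set.Ioc 0 (2 * Real.pi)) = ENNReal.ofReal w₂) :
    ∃ (Δ : ℝ) (j : ℤ), b₂ - b₁ = Δ + 2 * Real.pi * j ∧
      FS p q d b₂ r₂ S ≤ FS p q d b₁ r₁ S ∧
      (|Δ| ≤ Real.arctan (FS p q d b₁ r₁ S / w₁) - Real.arctan (FS p q d b₂ r₂ S / w₁) ∨
        |Δ| ≤ Real.arctan (FS p q d b₁ r₁ S / w₂) - Real.arctan (FS p q d b₂ r₂ S / w₂)) ∧
      ((∃ θ, 0 < pqD p q θ) → FS p q d b₂ r₂ S < FS p q d b₁ r₁ S) := by
  obtain ⟨Δ, j, hb, hL⟩ := pair_lift h hd h₁ h₂ hlt hz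
  have hOnS : ∀ θ ∈ S, Complex.arg (lfU p q d b₁ r₁ θ) + Δ ≤ Complex.arg (lfU p q d b₂ r₂ θ) := by
    intro θ hθ
    obtain ⟨-, a1, -, a3⟩ := hL θ
    rcases lt_or_eq_of_le (hS1 θ hθ) with hp | hp
    · exact (a1 hp).le
    · exact (a3 hp.symm).ge
  have hOffS : ∀ θ, θ ∉ S →
      Complex.arg (lfU p q d b₂ r₂ θ) ≤ Complex.arg (lfU p q d b₁ r₁ θ) + Δ := by
    intro θ hθ
    obtain ⟨-, -, a2, a3⟩ := hL θ
    rcases lt_or_eq_of_le (hS2 θ hθ) with hp | hp
    · exact (a2 hp).le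
    · exact (a3 hp).le
  have hc₁ := Leaf.continuous_lfC h h₁
  have hc₂ := Leaf.continuous_lfC h h₂
  have hint : ∀ {f : ℝ → ℝ}, Continuous f → ∀ A : Set ℝ,
      IntegrableOn f (A ∩ Set.Ioc 0 (2 * Real.pi)) := by
    intro f hf A
    exact (hf.integrableOn_Icc (a := 0) (b := 2 * Real.pi)).mono_set
      (fun x hx => Set.Ioc_subset_Icc_self hx.2)
  have hargpos : ∀ {z : ℂ}, 0 < z.im → 0 < Complex.arg z := by
    intro z hz
    rcases lt_or_eq_of_le (Complex.arg_nonneg_iff.2 hz.le) with h0 | h0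
    · exact h0
    · exfalso
      have := (Complex.arg_eq_zero_iff.1 h0.symm).2
      linarith
  have harglt : ∀ {z : ℂ}, 0 < z.im → Complex.arg z < Real.pi := by
    intro z hz
    exact Complex.arg_lt_pi_iff.2 (Or.inr hz.ne')
  have hnonempty : ∀ {A : Set ℝ} {w : ℝ}, 0 < w → volume A = ENNReal.ofReal w → A.Nonempty := by
    intro A w hw hA
    by_contra hne
    rw [Set.not_nonempty_iff_eq_empty] at hne
    rw [hne, measure_empty] at hA
    have := ENNReal.ofReal_pos.2 hw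
    rw [← hA] at this
    exact lt_irrefl _ this
  refine ⟨Δ, j, hb, ?_⟩
  rcases le_or_gt 0 Δ with hΔ | hΔ
  · have hΔπ : Δ < Real.pi := by
      obtain ⟨θ, hθ⟩ := hnonempty hw₁ hv₁
      have e1 := hOnS θ hθ.1
      have e2 := hargpos (h₁.up θ)
      have e3 := harglt (h₂.up θ)
      linarith
    have key := mean_step (hS.inter measurableSet_Ioc) hw₁ hv₁ (hint hc₁ S) (hint hc₂ S) hΔ hΔπ
      (fun θ hθ => cot_step (h₁.up θ) (h₂.up θ) hΔ (hOnS θ hθ.1))
    have key' : Δ ≤ Real.arctan (FS p q d b₁ r₁ S / w₁) - Real.arctan (FS p q d b₂ r₂ S / w₁) :=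
      key
    have hle : FS p q d b₂ r₂ S ≤ FS p q d b₁ r₁ S := by
      have e1 : Real.arctan (FS p q d b₂ r₂ S / w₁) ≤ Real.arctan (FS p q d b₁ r₁ S / w₁) := by
        linarith
      have e2 := Real.arctan_strictMono.le_iff_le.1 e1
      exact (div_le_div_iff_of_pos_right hw₁).1 e2
    refine ⟨hle, Or.inl ?_, ?_⟩
    · rw [abs_of_nonneg hΔ]
      exact key'
    · rintro ⟨θ₀, hθ₀⟩
      have hpos := PairPot_open_pos (PairPot_continuous_pqD h) (PairPot_periodic_pqD h) hθ₀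
      have hsub : FS p q d b₁ r₁ S - FS p q d b₂ r₂ S =
          ∫ θ in S ∩ Set.Ioc 0 (2 * Real.pi), (lfC p q d b₁ r₁ θ - lfC p q d b₂ r₂ θ) := by
        unfold FS
        rw [integral_sub (hint hc₁ S) (hint hc₂ S)]
      have hnn : ∀ θ ∈ S, 0 ≤ lfC p q d b₁ r₁ θ - lfC p q d b₂ r₂ θ := by
        intro θ hθ
        have e1 := hOnS θ hθ
        rcases lt_or_eq_of_le (show Complex.arg (lfU p q d b₁ r₁ θ) ≤
          Complex.arg (lfU p q d b₂ r₂ θ) by linarith) with e2 | e2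
        · have := cot_lt (h₁.up θ) (h₂.up θ) e2
          unfold lfC
          linarith
        · have e3 := (cot_step (h₁.up θ) (h₂.up θ) le_rfl (by linarith :
            Complex.arg (lfU p q d b₁ r₁ θ) + 0 ≤ Complex.arg (lfU p q d b₂ r₂ θ))).2
          simp only [Real.cos_zero, Real.sin_zero, mul_zero, add_zero, mul_one, sub_zero] at e3
          unfold lfC
          linarith
      have hstrict : 0 < ∫ θ in S ∩ Set.Ioc 0 (2 * Real.pi),
          (lfC p q d b₁ r₁ θ - lfC p q d b₂ r₂ θ) := by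
        rw [setIntegral_pos_iff_support_of_nonneg_ae]
        · refine lt_of_lt_of_le hpos (measure_mono ?_)
          rintro θ ⟨hθ1, hθ2⟩
          have hθ1' : 0 < pqD p q θ := hθ1
          have hθS : θ ∈ S := by
            by_contra hn
            exact absurd (hS2 θ hn) (not_le.2 hθ1')
          refine ⟨?_, hθS, hθ2.1, hθ2.2.le⟩
          have e1 := (hL θ).2.1 hθ1'
          have e2 := cot_lt (h₁.up θ) (h₂.up θ)
            (show Complex.arg (lfU p q d b₁ r₁ θ) < Complex.arg (lfU p q d b₂ r₂ θ) by linarith)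
          rw [Function.mem_support]
          unfold lfC
          exact (sub_pos.2 e2).ne'
        · rw [Filter.EventuallyLE, ae_restrict_iff' (hS.inter measurableSet_Ioc)]
          exact Filter.Eventually.of_forall fun θ hθ => hnn θ hθ.1
        · exact (hint hc₁ S).sub (hint hc₂ S)
      rw [← hsub] at hstrict
      linarith
  · have ht : 0 ≤ -Δ := by linarith
    have hOff' : ∀ θ, θ ∉ S → Complex.arg (lfU p q d b₂ r₂ θ) + -Δ ≤
        Complex.arg (lfU p q d b₁ r₁ θ) := by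
      intro θ hθ
      have := hOffS θ hθ
      linarith
    have hΔπ : -Δ < Real.pi := by
      obtain ⟨θ, hθ⟩ := hnonempty hw₂ hv₂
      have e1 := hOff' θ hθ.1
      have e2 := hargpos (h₂.up θ)
      have e3 := harglt (h₁.up θ)
      linarith
    have key := mean_step (hS.compl.inter measurableSet_Ioc) hw₂ hv₂ (hint hc₂ Sᶜ) (hint hc₁ Sᶜ)
      ht hΔπ (fun θ hθ => cot_step (h₂.up θ) (h₁.up θ) ht (hOff' θ hθ.1))
    have key' : -Δ ≤ Real.arctan (FS p q d b₂ r₂ Sᶜ / w₂) -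
        Real.arctan (FS p q d b₁ r₁ Sᶜ / w₂) := key
    rw [FS_compl h h₁ hS, FS_compl h h₂ hS, neg_div, neg_div, Real.arctan_neg,
      Real.arctan_neg] at key'
    have hlt' : FS p q d b₂ r₂ S < FS p q d b₁ r₁ S := by
      have e1 : Real.arctan (FS p q d b₂ r₂ S / w₂) < Real.arctan (FS p q d b₁ r₁ S / w₂) := by
        linarith
      have e2 := Real.arctan_strictMono.lt_iff_lt.1 e1
      exact (div_lt_div_iff_of_pos_right hw₂).1 e2
    refine ⟨hlt'.le, Or.inr ?_, fun _ => hlt'⟩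
    rw [abs_of_neg hΔ]
    linarith

end Pool.Agent.Lib.MP_95e7ec_an
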