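import Mathlib
import Pool.Agent.Lib.MP_95e7ec_an.Rz.PairPot
import Pool.Agent.Lib.MP_95e7ec_an.Rz.CountPot
import Pool.Agent.Lib.MP_95e7ec_an.Rz.CountZero
import Pool.Agent.Lib.MP_95e7ec_an.Rz.Anti
import Pool.Agent.Lib.MP_95e7ec_an.Rz.AntiSet

/-!
# Rz, LeafOdd: the mean number of leaves, odd case
-/

set_option autoImplicit false

open Set Filter Topology MeasureTheory
open scoped ContDiff ENNReal

namespace Pool.Agent.Lib.MP_95e7ec_an

/-- the determinant changes its sign under the half turn -/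
theorem LeafOdd_pqD_pi {p q : ℝ → ℂ} {σ : ℝ} (hσ : σ = 1 ∨ σ = -1)
    (hp : ∀ θ, p (θ + Real.pi) = (σ : ℂ) * p θ)
    (hq : ∀ θ, q (θ + Real.pi) = -((σ : ℂ) * q θ)) (θ : ℝ) :
    pqD p q (θ + Real.pi) = -pqD p q θ := by
  rw [pqD, pqD, hp, hq]
  rcases hσ with rfl | rfl <;> simp <;> ring

/-- Proof. If `pqD = 0` everywhere: `count_zero`. Otherwise `pqD` takes both strict signs, as
`pqD (θ+π) = -pqD θ`. Take `S` from `exists_anti_set` and `G b r = -arctan (FS p q d b r S / π)`;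
`pair_pot` with `w₁ = w₂ = π`; by `anti_sign` `G ∈ [0, π/2]` if `σ = 1` and `G ∈ [-π/2, 0]` if
`σ = -1`. -/
theorem leaf_count_odd {p q : ℝ → ℂ} (h : PQ p q) {d : ℕ} (hd : 1 ≤ d) (E : Set (ℝ × ℝ))
    {σ : ℝ} (hσ : σ = 1 ∨ σ = -1) (hp : ∀ θ, p (θ + Real.pi) = (σ : ℂ) * p θ)
    (hq : ∀ θ, q (θ + Real.pi) = -((σ : ℂ) * q θ)) :
    ∃ H : ℝ → ℝ≥0∞, Measurable H ∧ (∀ x, lfN p q d E x ≤ H x) ∧
      ∀ t : ℝ, ∫⁻ x in Set.Icc t (t + 2 * Real.pi), H x ≤ ENNReal.ofReal (Real.pi / 2) := by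
  by_cases h0 : ∀ θ, pqD p q θ = 0
  · obtain ⟨H, hH, hle, hint⟩ := count_zero h hd E h0
    exact ⟨H, hH, hle, fun t => (hint t).trans zero_le⟩
  push Not at h0
  obtain ⟨θ₀, hθ₀⟩ := h0
  have hpos : ∃ θ, 0 < pqD p q θ := by
    rcases lt_or_gt_of_ne hθ₀ with hlt | hgt
    · refine ⟨θ₀ + Real.pi, ?_⟩
      rw [LeafOdd_pqD_pi hσ hp hq]
      linarith
    · exact ⟨θ₀, hgt⟩
  obtain ⟨S, hS, hS1, hS2, hanti, hv₁, hv₂⟩ := exists_anti_set h hσ hp hq
  have hpi := Real.pi_pos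
  have hL : ∀ b₁ r₁ b₂ r₂, Leaf p q d b₁ r₁ → Leaf p q d b₂ r₂ → zin p q d r₁ = E →
      zin p q d r₂ = E → (∀ θ, r₁ θ < r₂ θ) →
      ∃ (Δ : ℝ) (m : ℤ), b₂ - b₁ = Δ + 2 * Real.pi * m ∧
        |Δ| ≤ -Real.arctan (FS p q d b₂ r₂ S / Real.pi) -
          -Real.arctan (FS p q d b₁ r₁ S / Real.pi) ∧
        -Real.arctan (FS p q d b₁ r₁ S / Real.pi) <
          -Real.arctan (FS p q d b₂ r₂ S / Real.pi) := by
    intro b₁ r₁ b₂ r₂ h₁ h₂ hz₁ hz₂ hlt
    obtain ⟨Δ, j, hj, -, hor, hst⟩ := pair_pot h hd h₁ h₂ hlt (hz₁.trans hz₂.symm) hS hS1 hS2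
      hpi hpi hv₁ hv₂
    refine ⟨Δ, j, hj, ?_, ?_⟩
    · rcases hor with h3 | h3 <;> linarith
    · have h4 := hst hpos
      have h5 : FS p q d b₂ r₂ S / Real.pi < FS p q d b₁ r₁ S / Real.pi :=
        div_lt_div_of_pos_right h4 hpi
      have h6 := Real.arctan_strictMono h5
      linarith
  rcases hσ with hσ1 | hσ1
  · have hmain := count_of_pot h E (α := 0) (β := Real.pi / 2) (by positivity)
      (fun b r => -Real.arctan (FS p q d b r S / Real.pi)) (fun b r hl _ => ?_) hL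
    · rwa [sub_zero] at hmain
    · have h7 := anti_sign h hl (Or.inl hσ1) hp hq hS hS1 hanti
      rw [hσ1, mul_one] at h7
      have h8 : Real.arctan (FS p q d b r S / Real.pi) ≤ 0 := by
        rw [← Real.arctan_zero]
        exact Real.arctan_strictMono.monotone (div_nonpos_of_nonpos_of_nonneg h7 hpi.le)
      have h9 := Real.neg_pi_div_two_lt_arctan (FS p q d b r S / Real.pi)
      constructor <;> linarith
  · have hmain := count_of_pot h E (α := -(Real.pi / 2)) (β := 0) (by linarith)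
      (fun b r => -Real.arctan (FS p q d b r S / Real.pi)) (fun b r hl _ => ?_) hL
    · have h10 : (0 : ℝ) - -(Real.pi / 2) = Real.pi / 2 := by ring
      rwa [h10] at hmain
    · have h7 := anti_sign h hl (Or.inr hσ1) hp hq hS hS1 hanti
      rw [hσ1, mul_neg, mul_one] at h7
      have h8 : 0 ≤ Real.arctan (FS p q d b r S / Real.pi) := by
        rw [← Real.arctan_zero]
        exact Real.arctan_strictMono.monotone (div_nonneg (by linarith) hpi.le)
      have h9 := Real.arctan_lt_pi_div_two (FS p q d b r S / Real.pi)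
      constructor <;> linarith

end Pool.Agent.Lib.MP_95e7ec_an
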