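import Mathlib
import Pool.Agent.Lib.MP_95e7ec_an.Rz.Defs
import Pool.Agent.Lib.MP_95e7ec_an.Rb.Basic

/-!
# Rz, HomLeaf: the leaves of a sum of two homogeneous fields
-/

set_option autoImplicit false

open Set Filter Topology MeasureTheory
open scoped ContDiff ENNReal

namespace Pool.Agent.Lib.MP_95e7ec_an

private theorem homLeaf_dirv_cont : Continuous dirv := by
  unfold dirv
  fun_prop

private theorem homLeaf_pol_cont {A : ℝ × ℝ → ℝ × ℝ} (hA : Continuous A) :
    Continuous (pol A) := by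
  have hd := homLeaf_dirv_cont
  have hAd : Continuous fun θ => A (dirv θ) := hA.comp hd
  have h1 : Continuous fun θ => ipv (dirv θ) (A (dirv θ)) := by
    unfold ipv
    fun_prop
  have h2 : Continuous fun θ => det2 (dirv θ) (A (dirv θ)) := by
    unfold det2
    fun_prop
  have h : pol A = fun θ => Complex.equivRealProdCLM.symm
      (ipv (dirv θ) (A (dirv θ)), det2 (dirv θ) (A (dirv θ))) := by
    funext θ
    apply Complex.ext <;> simp [pol]
  rw [h]
  exact Complex.equivRealProdCLM.symm.continuous.comp (h1.prodMk h2)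

/-- Proof. `dirv` is continuous and `2π`-periodic. -/
theorem pq_of_hom {v A B : ℝ × ℝ → ℝ × ℝ} {k m : ℕ} (h : HomSum v A B k m) :
    PQ (pol A) (pol B) where
  cp := homLeaf_pol_cont h.dA.continuous
  cq := homLeaf_pol_cont h.dB.continuous
  pp := fun θ => by rw [pol, rb_dirv_two_pi, pol]
  pq := fun θ => by rw [pol, rb_dirv_two_pi, pol]

private theorem homLeaf_dirv_pi (θ : ℝ) : dirv (θ + Real.pi) = (-1 : ℝ) • dirv θ := by
  apply Prod.ext <;> simp [dirv]

private theorem homLeaf_pol_pi {A : ℝ × ℝ → ℝ × ℝ} {k : ℕ}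
    (hA : ∀ (t : ℝ) (z : ℝ × ℝ), A (t • z) = t ^ k • A z) (θ : ℝ) :
    pol A (θ + Real.pi) = (((-1 : ℝ) ^ (k + 1) : ℝ) : ℂ) * pol A θ := by
  have h1 : A ((-1 : ℝ) • dirv θ) = (-1 : ℝ) ^ k • A (dirv θ) := hA _ _
  apply Complex.ext
  · rw [Complex.re_ofReal_mul]
    simp only [pol, h1, homLeaf_dirv_pi θ, ipv, Prod.smul_fst, Prod.smul_snd, smul_eq_mul]
    ring
  · rw [Complex.im_ofReal_mul]
    simp only [pol, h1, homLeaf_dirv_pi θ, det2, Prod.smul_fst, Prod.smul_snd, smul_eq_mul]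
    ring

/-- Proof. `dirv (θ+π) = -dirv θ = (-1) • dirv θ`, so `A (dirv (θ+π)) = (-1)^k • A (dirv θ)` and
`pol A (θ+π) = (-1)^(k+1) pol A θ`; the same for `B`, `m`; take `σ = (-1)^(k+1)`;
`(-1)^(m+1) = -(-1)^(k+1)` as `k + m` is odd. -/
theorem pol_anti {v A B : ℝ × ℝ → ℝ × ℝ} {k m : ℕ} (h : HomSum v A B k m)
    (hodd : Odd (k + m)) :
    ∃ σ : ℝ, (σ = 1 ∨ σ = -1) ∧ (∀ θ, pol A (θ + Real.pi) = (σ : ℂ) * pol A θ) ∧
      (∀ θ, pol B (θ + Real.pi) = -((σ : ℂ) * pol B θ)) ∧ (Odd k → σ = 1) := by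
  refine ⟨(-1 : ℝ) ^ (k + 1), neg_one_pow_eq_or ℝ (k + 1), fun θ => homLeaf_pol_pi h.homA θ,
    fun θ => ?_, fun hk => hk.add_one.neg_one_pow⟩
  rw [homLeaf_pol_pi h.homB θ]
  have h2 : ((-1 : ℝ) ^ (m + 1)) = -((-1 : ℝ) ^ (k + 1)) := by
    rcases Nat.even_or_odd k with hk | hk
    · have hm : Odd m := by
        rcases Nat.even_or_odd m with hm | hm
        · exact absurd hodd (Nat.not_odd_iff_even.2 (hk.add hm))
        · exact hm
      rw [hm.add_one.neg_one_pow, hk.add_one.neg_one_pow]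
      ring
    · have hm : Even m := by
        rcases Nat.even_or_odd m with hm | hm
        · exact hm
        · exact absurd hodd (Nat.not_odd_iff_even.2 (hk.add_odd hm))
      rw [hm.add_one.neg_one_pow, hk.add_one.neg_one_pow]
  rw [h2]
  push_cast
  ring

private theorem homLeaf_v {v A B : ℝ × ℝ → ℝ × ℝ} {k m : ℕ} (h : HomSum v A B k m) (s θ : ℝ) :
    v (s • dirv θ) = s ^ k • (A (dirv θ) + s ^ (m - k) • B (dirv θ)) := by
  rw [h.sum, h.homA, h.homB, smul_add, smul_smul, ← pow_add, Nat.add_sub_cancel' h.lt.le]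

/-- The vector `lfU` is the turned field in polar coordinates: for `s > 0`, with
`e = dirv θ`, `turn b v (s • e) = s^k • (turned (A e + s^(m-k) B e))` and
`e^{ib} (pol A + s^(m-k) pol B)` has the components `ipv e _`, `det2 e _`. Proof: `h.sum`, `h.homA`,
`h.homB`, `s^m = s^k s^(m-k)`, and expansion of `turn`, `ipv`, `det2`, `Complex.exp_mul_I`
(`Complex.ext`, real and imaginary parts). -/
theorem lfU_eq {v A B : ℝ × ℝ → ℝ × ℝ} {k m : ℕ} (h : HomSum v A B k m) (b : ℝ)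
    (r : ℝ → ℝ) (θ : ℝ) :
    ipv (dirv θ) (turn b v (r θ • dirv θ)) =
        r θ ^ k * (lfU (pol A) (pol B) (m - k) b r θ).re ∧
      det2 (dirv θ) (turn b v (r θ • dirv θ)) =
        r θ ^ k * (lfU (pol A) (pol B) (m - k) b r θ).im := by
  have hv := homLeaf_v h (r θ) θ
  have hre : (lfU (pol A) (pol B) (m - k) b r θ).re =
      Real.cos b * (ipv (dirv θ) (A (dirv θ)) + r θ ^ (m - k) * ipv (dirv θ) (B (dirv θ))) -
      Real.sin b * (det2 (dirv θ) (A (dirv θ)) + r θ ^ (m - k) * det2 (dirv θ) (B (dirv θ))) := by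
    rw [lfU, Complex.mul_re, Complex.exp_ofReal_mul_I_re, Complex.exp_ofReal_mul_I_im,
      Complex.add_re, Complex.add_im, Complex.re_ofReal_mul, Complex.im_ofReal_mul]
    rfl
  have him : (lfU (pol A) (pol B) (m - k) b r θ).im =
      Real.cos b * (det2 (dirv θ) (A (dirv θ)) + r θ ^ (m - k) * det2 (dirv θ) (B (dirv θ))) +
      Real.sin b * (ipv (dirv θ) (A (dirv θ)) + r θ ^ (m - k) * ipv (dirv θ) (B (dirv θ))) := by
    rw [lfU, Complex.mul_im, Complex.exp_ofReal_mul_I_re, Complex.exp_ofReal_mul_I_im,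
      Complex.add_re, Complex.add_im, Complex.re_ofReal_mul, Complex.im_ofReal_mul]
    rfl
  constructor
  · rw [hre]
    simp only [ipv, det2, turn, hv, Prod.smul_fst, Prod.smul_snd, Prod.fst_add, Prod.snd_add,
      smul_eq_mul]
    ring
  · rw [him]
    simp only [ipv, det2, turn, hv, Prod.smul_fst, Prod.smul_snd, Prod.fst_add, Prod.snd_add,
      smul_eq_mul]
    ring

/-- Proof. `lfU_eq`. -/
theorem leaf_of_star {v A B : ℝ × ℝ → ℝ × ℝ} {k m : ℕ} (h : HomSum v A B k m) {b : ℝ}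
    {r : ℝ → ℝ} (hr : ∀ θ, 0 < r θ) (hper : ∀ θ, r (θ + 2 * Real.pi) = r θ)
    (hst : ∀ θ, 0 < det2 (dirv θ) (turn b v (r θ • dirv θ)) ∧
        HasDerivAt r (r θ * (ipv (dirv θ) (turn b v (r θ • dirv θ)) /
          det2 (dirv θ) (turn b v (r θ • dirv θ)))) θ) :
    Leaf (pol A) (pol B) (m - k) b r where
  pos := hr
  per := hper
  up := fun θ => by
    have h1 := (hst θ).1
    rw [(lfU_eq h b r θ).2] at h1
    exact (pos_iff_pos_of_mul_pos h1).1 (pow_pos (hr θ) k)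
  der := fun θ => by
    have h2 := (hst θ).2
    rw [(lfU_eq h b r θ).1, (lfU_eq h b r θ).2,
      mul_div_mul_left _ _ (pow_pos (hr θ) k).ne'] at h2
    exact h2

/-- Proof. For `s > 0`: `v (s • e) = s^k • (A e + s^(m-k) • B e)`, and `pol A θ + s^(m-k) pol B θ` is
`A e + s^(m-k) B e` multiplied by `e^{-iθ}`. -/
theorem pol_zero_iff {v A B : ℝ × ℝ → ℝ × ℝ} {k m : ℕ} (h : HomSum v A B k m) {s : ℝ}
    (hs : 0 < s) (θ : ℝ) :
    pol A θ + ((s ^ (m - k) : ℝ) : ℂ) * pol B θ = 0 ↔ v (s • dirv θ) = 0 := by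
  have hcs := Real.cos_sq_add_sin_sq θ
  rw [homLeaf_v h s θ, smul_eq_zero_iff_right (pow_pos hs k).ne', Complex.ext_iff, Prod.ext_iff]
  simp only [Complex.add_re, Complex.add_im, Complex.re_ofReal_mul, Complex.im_ofReal_mul, pol,
    ipv, det2, dirv, Prod.fst_add, Prod.snd_add, Prod.smul_fst, Prod.smul_snd, smul_eq_mul,
    Complex.zero_re, Complex.zero_im, Prod.fst_zero, Prod.snd_zero]
  set a1 := (A (Real.cos θ, Real.sin θ)).1
  set a2 := (A (Real.cos θ, Real.sin θ)).2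
  set b1 := (B (Real.cos θ, Real.sin θ)).1
  set b2 := (B (Real.cos θ, Real.sin θ)).2
  set t := s ^ (m - k)
  constructor
  · rintro ⟨h1, h2⟩
    constructor
    · linear_combination Real.cos θ * h1 - Real.sin θ * h2 - (a1 + t * b1) * hcs
    · linear_combination Real.sin θ * h1 + Real.cos θ * h2 - (a2 + t * b2) * hcs
  · rintro ⟨h1, h2⟩
    constructor
    · linear_combination Real.cos θ * h1 + Real.sin θ * h2
    · linear_combination Real.cos θ * h2 - Real.sin θ * h1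

end Pool.Agent.Lib.MP_95e7ec_an
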