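import Mathlib
import Pool.Agent.Lib.MP_95e7ec_an.Rz.HomLeaf

/-!
# Rz, LeafJac: the Jacobian determinant at the centre of a leaf
-/

set_option autoImplicit false

open Set Filter Topology MeasureTheory
open scoped ContDiff ENNReal

namespace Pool.Agent.Lib.MP_95e7ec_an

private theorem LeafJac_pos_dir {v A B : ℝ × ℝ → ℝ × ℝ} (h : HomSum v A B 1 2)
    {b : ℝ} {r : ℝ → ℝ}
    (hr : Leaf (pol A) (pol B) 1 b r) (θ : ℝ) :
    0 < Real.sin b * ipv (dirv θ) (A (dirv θ)) + Real.cos b * det2 (dirv θ) (A (dirv θ)) := by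
  obtain ⟨σ, -, hA, hB, hσ⟩ := pol_anti h (by decide)
  have hs1 : σ = 1 := hσ (by decide)
  subst hs1
  have h1 := hr.up θ
  have h2 := hr.up (θ + Real.pi)
  have p1 := hr.pos θ
  have p2 := hr.pos (θ + Real.pi)
  have e1 : (lfU (pol A) (pol B) 1 b r θ).im =
      Real.sin b * ((pol A θ).re + r θ * (pol B θ).re) +
        Real.cos b * ((pol A θ).im + r θ * (pol B θ).im) := by
    simp only [lfU, Complex.exp_mul_I, pow_one]
    simp [Complex.mul_im, Complex.mul_re, Complex.cos_ofReal_re, Complex.sin_ofReal_re]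
    ring
  have e2 : (lfU (pol A) (pol B) 1 b r (θ + Real.pi)).im =
      Real.sin b * ((pol A θ).re - r (θ + Real.pi) * (pol B θ).re) +
        Real.cos b * ((pol A θ).im - r (θ + Real.pi) * (pol B θ).im) := by
    simp only [lfU, Complex.exp_mul_I, pow_one]
    rw [hA, hB]
    simp [Complex.mul_im, Complex.mul_re, Complex.cos_ofReal_re, Complex.sin_ofReal_re]
    ring
  rw [e1] at h1
  rw [e2] at h2
  have h3 := mul_pos p2 h1
  have h4 := mul_pos p1 h2
  have h5 : 0 < (r θ + r (θ + Real.pi)) *
      (Real.sin b * (pol A θ).re + Real.cos b * (pol A θ).im) := by nlinarith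
  have h6 := (mul_pos_iff_of_pos_left (by positivity)).1 h5
  simpa [pol] using h6

/-- A leaf of a field with linear part `A` and quadratic part `B`: the centre has a positive Jacobian
determinant. -/
theorem leaf_jac_pos {v A B : ℝ × ℝ → ℝ × ℝ} (h : HomSum v A B 1 2)
    (hA : ∀ x y : ℝ, A (x, y) = x • A (1, 0) + y • A (0, 1)) {b : ℝ} {r : ℝ → ℝ}
    (hr : Leaf (pol A) (pol B) 1 b r) : 0 < det2 (A (1, 0)) (A (0, 1)) := by
  set a11 := (A (1, 0)).1 with ha11
  set a21 := (A (1, 0)).2 with ha21
  set a12 := (A (0, 1)).1 with ha12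
  set a22 := (A (0, 1)).2 with ha22
  have key : ∀ θ : ℝ, 0 < Real.sin b * (Real.cos θ * (Real.cos θ * a11 + Real.sin θ * a12) +
      Real.sin θ * (Real.cos θ * a21 + Real.sin θ * a22)) +
      Real.cos b * (Real.cos θ * (Real.cos θ * a21 + Real.sin θ * a22) -
      Real.sin θ * (Real.cos θ * a11 + Real.sin θ * a12)) := by
    intro θ
    have := LeafJac_pos_dir h hr θ
    simp only [dirv, ipv, det2] at this
    rw [hA] at this
    simpa [ha11, ha21, ha12, ha22] using this
  set m11 := Real.cos b * a11 - Real.sin b * a21 with hm11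
  set m21 := Real.sin b * a11 + Real.cos b * a21 with hm21
  set m12 := Real.cos b * a12 - Real.sin b * a22 with hm12
  set m22 := Real.sin b * a12 + Real.cos b * a22 with hm22
  have Q : ∀ x y : ℝ, (x ≠ 0 ∨ y ≠ 0) →
      0 < m21 * x ^ 2 + (m22 - m11) * x * y - m12 * y ^ 2 := by
    intro x y hxy
    set z : ℂ := ⟨x, y⟩ with hz
    have hz0 : z ≠ 0 := by
      intro h0
      have h1 : x = 0 := by simpa [hz] using congrArg Complex.re h0
      have h2 : y = 0 := by simpa [hz] using congrArg Complex.im h0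
      rcases hxy with h | h
      · exact h h1
      · exact h h2
    have hn : 0 < ‖z‖ := norm_pos_iff.2 hz0
    have hx : x = ‖z‖ * Real.cos (Complex.arg z) := by
      rw [Complex.norm_mul_cos_arg]
    have hy : y = ‖z‖ * Real.sin (Complex.arg z) := by
      rw [Complex.norm_mul_sin_arg]
    have hk := mul_pos (pow_pos hn 2) (key (Complex.arg z))
    have he : m21 * x ^ 2 + (m22 - m11) * x * y - m12 * y ^ 2 = ‖z‖ ^ 2 *
        (Real.sin b * (Real.cos (Complex.arg z) * (Real.cos (Complex.arg z) * a11 +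
          Real.sin (Complex.arg z) * a12) +
        Real.sin (Complex.arg z) * (Real.cos (Complex.arg z) * a21 +
          Real.sin (Complex.arg z) * a22)) +
        Real.cos b * (Real.cos (Complex.arg z) * (Real.cos (Complex.arg z) * a21 +
          Real.sin (Complex.arg z) * a22) -
        Real.sin (Complex.arg z) * (Real.cos (Complex.arg z) * a11 +
          Real.sin (Complex.arg z) * a12))) := by
      generalize Real.cos (Complex.arg z) = C at *
      generalize Real.sin (Complex.arg z) = S at *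
      generalize ‖z‖ = N at *
      rw [hx, hy, hm11, hm21, hm12, hm22]
      ring
    rw [he]
    exact hk
  have q1 := Q 0 1 (Or.inr one_ne_zero)
  have hm : m12 < 0 := by nlinarith
  have q2 := Q (2 * m12) (m22 - m11) (Or.inl (mul_ne_zero two_ne_zero hm.ne))
  have q3 : 0 < m12 * (4 * m21 * m12 + (m22 - m11) ^ 2) := by nlinarith
  have q4 : 4 * m21 * m12 + (m22 - m11) ^ 2 < 0 := by
    by_contra hc
    push Not at hc
    nlinarith [mul_nonneg (neg_nonneg.2 hm.le) hc]
  have hdet : det2 (A (1, 0)) (A (0, 1)) = m11 * m22 - m21 * m12 := by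
    have hcs := Real.sin_sq_add_cos_sq b
    simp only [det2, ← ha11, ← ha21, ← ha12, ← ha22]
    rw [hm11, hm21, hm12, hm22]
    linear_combination (-(a11 * a22 - a21 * a12)) * hcs
  rw [hdet]
  nlinarith [sq_nonneg (m11 + m22)]

end Pool.Agent.Lib.MP_95e7ec_an
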