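import Mathlib
import Pool.Agent.Lib.MP_95e7ec_an.Rz.Defs
import Pool.Agent.Lib.MP_95e7ec_an.Rb.SideLem
import Pool.Agent.Lib.MP_95e7ec_an.Rb.Basic

/-!
# Rz, Chord: a line through an inside point
-/

set_option autoImplicit false

open Set Filter Topology MeasureTheory
open scoped ContDiff ENNReal

namespace Pool.Agent.Lib.MP_95e7ec_an

/-- half of the chord through an inside point -/
theorem chord_half {w : ℝ × ℝ → ℝ × ℝ} {C D : Set (ℝ × ℝ)} (hJ : JP C D) (hS : Side w C D)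
    {z e : ℝ × ℝ} (hz : z ∈ D) (he : e ≠ 0) :
    ∃ β : ℝ, 0 < β ∧ (∀ s ∈ Set.Ico 0 β, z + s • e ∈ D) ∧ z + β • e ∈ C ∧
      0 ≤ det2 e (w (z + β • e)) := by
  have hcont : Continuous fun s : ℝ => z + s • e := by fun_prop
  set S : Set ℝ := {s : ℝ | 0 ≤ s ∧ z + s • e ∉ D} with hSdef
  have hScl : IsClosed S :=
    isClosed_Ici.inter ((hJ.op.preimage hcont).isClosed_compl)
  have hSbd : BddBelow S := ⟨0, fun s hs => hs.1⟩
  have hSne : S.Nonempty := by
    obtain ⟨R, hR⟩ := hJ.cpt.isBounded.exists_norm_le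
    have hen : 0 < ‖e‖ := norm_pos_iff.2 he
    refine ⟨(R + ‖z‖ + 1) / ‖e‖, ?_, fun hmem => ?_⟩
    · have h0 : 0 ≤ R := (norm_nonneg z).trans (hR z (Or.inl hz))
      positivity
    · have h1 := hR _ (Or.inl hmem)
      have h0 : 0 ≤ R := (norm_nonneg z).trans (hR z (Or.inl hz))
      have h2 : ‖((R + ‖z‖ + 1) / ‖e‖) • e‖ = R + ‖z‖ + 1 := by
        rw [norm_smul, Real.norm_eq_abs, abs_of_nonneg (by positivity)]
        field_simp
      have h3 : ‖((R + ‖z‖ + 1) / ‖e‖) • e‖ ≤ ‖z + ((R + ‖z‖ + 1) / ‖e‖) • e‖ + ‖z‖ := by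
        have := norm_sub_le (z + ((R + ‖z‖ + 1) / ‖e‖) • e) z
        rwa [add_sub_cancel_left] at this
      linarith
  have hβ : sInf S ∈ S := hScl.csInf_mem hSne hSbd
  set β := sInf S with hβdef
  have hβ0 : 0 < β := by
    rcases hβ.1.eq_or_lt with h | h
    · exfalso
      apply hβ.2
      rw [← h, zero_smul, add_zero]
      exact hz
    · exact h
  have hin : ∀ s ∈ Set.Ico 0 β, z + s • e ∈ D := by
    intro s hs
    by_contra hcon
    exact absurd (csInf_le hSbd (show s ∈ S from ⟨hs.1, hcon⟩)) (not_le.2 hs.2)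
  have hmem : z + β • e ∈ D ∪ C := by
    have hcl : IsClosed (D ∪ C) := hJ.cpt.isClosed
    have h1 : Tendsto (fun s : ℝ => z + s • e) (𝓝[<] β) (𝓝 (z + β • e)) :=
      (hcont.tendsto β).mono_left nhdsWithin_le_nhds
    refine hcl.mem_of_tendsto h1 ?_
    filter_upwards [Ioo_mem_nhdsLT hβ0] with s hs
    exact Or.inl (hin s ⟨hs.1.le, hs.2⟩)
  have hC : z + β • e ∈ C := hmem.resolve_left hβ.2
  refine ⟨β, hβ0, hin, hC, ?_⟩
  by_contra hneg
  have hneg : det2 e (w (z + β • e)) < 0 := not_le.1 hneg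
  have hneg' : 0 < det2 (-e) (w (z + β • e)) := by
    have : det2 (-e) (w (z + β • e)) = -det2 e (w (z + β • e)) := by
      simp only [det2, Prod.fst_neg, Prod.snd_neg]; ring
    linarith
  obtain ⟨η, hη, hev⟩ := hS.out hC hneg'
  obtain ⟨ε, hε, hε1⟩ := (hev.and (Ioo_mem_nhdsGT hβ0)).exists
  refine hε (z + (β - ε) • e) ?_ (Or.inl (hin (β - ε) ⟨by linarith [hε1.2], by linarith [hε1.1]⟩))
  have h1 : z + (β - ε) • e - (z + β • e) - ε • -e = 0 := by
    rw [sub_smul, smul_neg]; abel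
  rw [h1, rb_nm_zero]
  exact mul_nonneg hη.le hε1.1.le

/-- The chord through an inside point. Proof. `{s | z + s • e ∈ D}` is open, contains `0` and is
bounded (`D ∪ C` is compact, `e ≠ 0`). Let `β` be the infimum of the `s > 0` with `z + s • e ∉ D`
(closed, nonempty set, so it is attained and `β > 0`): `z + s • e ∈ D` for `0 ≤ s < β`, and
`z + β • e` is in the closed set `D ∪ C` and not in `D`, so it is in `C`. If
`det2 e (w (z + β • e)) < 0` then `0 < det2 (-e) (w ..)` and `Side.out` (with `u = -e`, the point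
`p + ε • u`) says that `z + (β - ε) • e` is not in `D ∪ C` for small `ε > 0`, a contradiction. The
same for `α` with `-e`. -/
theorem side_chord {w : ℝ × ℝ → ℝ × ℝ} {C D : Set (ℝ × ℝ)} (hJ : JP C D) (hS : Side w C D)
    {z e : ℝ × ℝ} (hz : z ∈ D) (he : e ≠ 0) :
    ∃ α β : ℝ, α < 0 ∧ 0 < β ∧ (∀ s ∈ Set.Ioo α β, z + s • e ∈ D) ∧ z + α • e ∈ C ∧
      z + β • e ∈ C ∧ det2 e (w (z + α • e)) ≤ 0 ∧ 0 ≤ det2 e (w (z + β • e)) := by
  obtain ⟨β, hβ0, hβin, hβC, hβs⟩ := chord_half hJ hS hz he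
  obtain ⟨α, hα0, hαin, hαC, hαs⟩ := chord_half hJ hS hz (neg_ne_zero.2 he)
  rw [smul_neg, ← neg_smul] at hαC hαs
  refine ⟨-α, β, neg_neg_of_pos hα0, hβ0, fun s hs => ?_, hαC, hβC, ?_, hβs⟩
  · rcases le_or_gt 0 s with h | h
    · exact hβin s ⟨h, hs.2⟩
    · have h1 := hαin (-s) ⟨by linarith, by linarith [hs.1]⟩
      rwa [smul_neg, neg_smul, neg_neg] at h1
  · have h1 : det2 (-e) (w (z + -α • e)) = -det2 e (w (z + -α • e)) := by
      simp only [det2, Prod.fst_neg, Prod.snd_neg]; ring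
    linarith

/-- The last point of `C` on a ray. Proof. Let `β` be the maximum of the `s > 0` with
`z + s • e ∈ C` (a compact nonempty set by `side_chord`). For `s > β` the point is not in `C`; it is
not in `D`: otherwise let `s' ≥ s` be the infimum of the `s'' ≥ s` with `z + s'' • e ∉ D`, then
`z + s' • e ∈ C`. If `det2 e (w p) < 0` at `p = z + β • e` then by `Side.into` the points
`p + ε • e` are in `D` for small `ε > 0`, a contradiction. -/
theorem side_last {w : ℝ × ℝ → ℝ × ℝ} {C D : Set (ℝ × ℝ)} (hJ : JP C D) (hS : Side w C D)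
    {z e : ℝ × ℝ} (hz : z ∈ D) (he : e ≠ 0) :
    ∃ β : ℝ, 0 < β ∧ z + β • e ∈ C ∧ (∀ s : ℝ, β < s → z + s • e ∉ C) ∧
      0 ≤ det2 e (w (z + β • e)) := by
  have hcont : Continuous fun s : ℝ => z + s • e := by fun_prop
  set S : Set ℝ := {s : ℝ | 0 ≤ s ∧ z + s • e ∈ C} with hSdef
  have hScl : IsClosed S := isClosed_Ici.inter (hJ.cptC.isClosed.preimage hcont)
  have hSne : S.Nonempty := by
    obtain ⟨β, hβ0, -, hβC, -⟩ := chord_half hJ hS hz he
    exact ⟨β, hβ0.le, hβC⟩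
  have hSbd : BddAbove S := by
    obtain ⟨R, hR⟩ := hJ.cpt.isBounded.exists_norm_le
    have hen : 0 < ‖e‖ := norm_pos_iff.2 he
    refine ⟨(R + ‖z‖) / ‖e‖, fun s hs => ?_⟩
    have h1 := hR _ (Or.inr hs.2)
    have h3 : ‖s • e‖ ≤ ‖z + s • e‖ + ‖z‖ := by
      have := norm_sub_le (z + s • e) z
      rwa [add_sub_cancel_left] at this
    rw [norm_smul, Real.norm_eq_abs, abs_of_nonneg hs.1] at h3
    rw [le_div_iff₀ hen]
    linarith
  have hβ : sSup S ∈ S := hScl.csSup_mem hSne hSbd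
  set β := sSup S with hβdef
  have hβ0 : 0 < β := by
    rcases hβ.1.eq_or_lt with h | h
    · exfalso
      have h1 := hβ.2
      rw [← h, zero_smul, add_zero] at h1
      exact Set.disjoint_left.1 hJ.disj hz h1
    · exact h
  have hlast : ∀ s : ℝ, β < s → z + s • e ∉ C := fun s hs hmem =>
    absurd (le_csSup hSbd (show s ∈ S from ⟨by linarith, hmem⟩)) (not_le.2 hs)
  refine ⟨β, hβ0, hβ.2, hlast, ?_⟩
  by_contra hneg
  have hneg : det2 e (w (z + β • e)) < 0 := not_le.1 hneg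
  obtain ⟨η, hη, hev⟩ := hS.into hβ.2 hneg
  obtain ⟨ε, hε, hε1⟩ := (hev.and self_mem_nhdsWithin).exists
  have hε1 : 0 < ε := hε1
  have h1 : z + (β + ε) • e ∈ D := by
    refine hε _ ?_
    have h2 : z + (β + ε) • e - (z + β • e) - ε • e = 0 := by
      rw [add_smul]; abel
    rw [h2, rb_nm_zero]
    exact mul_nonneg hη.le hε1.le
  obtain ⟨β', hβ'0, -, hβ'C, -⟩ := chord_half hJ hS h1 he
  apply hlast (β + ε + β') (by linarith)
  rwa [add_smul (β + ε) β' e, ← add_assoc]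

end Pool.Agent.Lib.MP_95e7ec_an
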