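import Mathlib
import Pool.Agent.Lib.MP_95e7ec_an.Rz.Defs
import Pool.Agent.Lib.MP_95e7ec_an.Rb.SideLem
import Pool.Agent.Lib.MP_95e7ec_an.Rb.Basic

/-!
# Rz, ChordB: convex filled curves
-/

set_option autoImplicit false

open Set Filter Topology MeasureTheory
open scoped ContDiff ENNReal

namespace Pool.Agent.Lib.MP_95e7ec_an

/-- the square of a nonzero vector -/
theorem ChordB_sq_pos {v : ℝ × ℝ} (hv : v ≠ 0) : 0 < v.1 ^ 2 + v.2 ^ 2 := by
  have h1 : v.1 ≠ 0 ∨ v.2 ≠ 0 := by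
    by_contra h
    push Not at h
    exact hv (Prod.ext h.1 h.2)
  rcases h1 with h | h
  · positivity
  · positivity

/-- Proof. `Side.into` with the left normal: `p + ε • u ∈ D` for small `ε > 0`. -/
theorem side_closure {w : ℝ × ℝ → ℝ × ℝ} {C D : Set (ℝ × ℝ)} (hS : Side w C D) :
    C ⊆ closure D := by
  intro z hz
  have hv : w z ≠ 0 := (hS z hz).1
  have hpos := ChordB_sq_pos hv
  have hu : det2 (-(w z).2, (w z).1) (w z) < 0 := by
    simp only [det2]
    nlinarith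
  obtain ⟨η, hη, hev⟩ := hS.into hz hu
  have ht : Tendsto (fun ε : ℝ => z + ε • ((-(w z).2, (w z).1) : ℝ × ℝ)) (𝓝[>] (0 : ℝ)) (𝓝 z) := by
    have h1 : Tendsto (fun ε : ℝ => z + ε • ((-(w z).2, (w z).1) : ℝ × ℝ)) (𝓝 (0 : ℝ))
        (𝓝 (z + (0 : ℝ) • ((-(w z).2, (w z).1) : ℝ × ℝ))) := by
      refine Continuous.tendsto ?_ 0
      fun_prop
    rw [zero_smul, add_zero] at h1
    exact h1.mono_left nhdsWithin_le_nhds
  refine mem_closure_of_tendsto ht ?_
  filter_upwards [hev, self_mem_nhdsWithin] with ε h1 hε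
  have hε : 0 < ε := hε
  apply h1
  rw [add_sub_cancel_left, sub_self, rb_nm_zero]
  positivity

/-- If the filled curve is convex then it is strictly star-shaped about every inside point.
Proof. Let `z ∈ C`, `q ∈ D` and suppose `det2 (z - q) (w z) ≤ 0`, i.e. `0 ≤ det2 (q - z) (w z)`.
`w z ≠ 0` (from `Side`), `D` is open, so there is `p ∈ D` near `q` with `0 < det2 (p - z) (w z)`
(move `q` a little in the direction `(w₂, -w₁)`). By `Side.out` with `u = p - z` the point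
`z + ε • (p - z)` is not in `D ∪ C` for small `ε > 0`; but it is by convexity. -/
theorem side_convex_pos {w : ℝ × ℝ → ℝ × ℝ} {C D : Set (ℝ × ℝ)} (hJ : JP C D)
    (hS : Side w C D) (hcv : Convex ℝ (D ∪ C)) {z q : ℝ × ℝ} (hz : z ∈ C) (hq : q ∈ D) :
    0 < det2 (z - q) (w z) := by
  by_contra hneg
  have hv : w z ≠ 0 := (hS z hz).1
  have hpos := ChordB_sq_pos hv
  have hn : 0 < det2 ((w z).2, -(w z).1) (w z) := by
    simp only [det2]
    nlinarith
  obtain ⟨η, hη, hev⟩ := move_open hJ.op hq ((w z).2, -(w z).1)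
  obtain ⟨t, ht, ht0⟩ := (hev.and self_mem_nhdsWithin).exists
  have ht0 : 0 < t := ht0
  have hq' : q + t • ((w z).2, -(w z).1) ∈ D := by
    apply ht
    rw [add_sub_cancel_left, sub_self, rb_nm_zero]
    positivity
  have hdet : 0 < det2 (q + t • ((w z).2, -(w z).1) - z) (w z) := by
    have h1 : q + t • ((w z).2, -(w z).1) - z = t • ((w z).2, -(w z).1) - (z - q) := by abel
    rw [h1, rb_det2_sub_left, rb_det2_smul_left]
    have h2 := mul_pos ht0 hn
    linarith [not_lt.1 hneg]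
  obtain ⟨η', hη', hev'⟩ := hS.out hz hdet
  have hle : ∀ᶠ ε in 𝓝[>] (0 : ℝ), ε * 1 < 1 := SideLem_small 1 1 one_pos
  obtain ⟨ε, ⟨h1, h2⟩, h3⟩ := ((hev'.and hle).and self_mem_nhdsWithin).exists
  have h3 : 0 < ε := h3
  refine h1 (z + ε • (q + t • ((w z).2, -(w z).1) - z)) ?_ ?_
  · rw [add_sub_cancel_left, sub_self, rb_nm_zero]
    positivity
  · exact hcv.add_smul_sub_mem (Or.inr hz) (Or.inl hq') ⟨h3.le, by linarith⟩

end Pool.Agent.Lib.MP_95e7ec_an
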