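import Mathlib
import Pool.Agent.Lib.MP_95e7ec_an.Rz.Defs
import Pool.Agent.Lib.MP_95e7ec_an.Orbits
import Pool.Agent.Lib.MP_95e7ec_an.Rb.Basic

/-!
# Rz, InvLine: a closed orbit does not meet an invariant line
-/

set_option autoImplicit false

open Set Filter Topology MeasureTheory
open scoped ContDiff ENNReal

namespace Pool.Agent.Lib.MP_95e7ec_an

/-- Proof. Let `γ`, `T` parametrise `C` with `γ 0 = x₀ + s • e` (`hC.exists_param_of_contDiff`), let
`g t = det2 e (γ t - x₀)`, `g 0 = 0`, `g' t = det2 e (w (γ t))`. `C` is compact; let `R` be large and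
`K` a Lipschitz constant of `w` on the closed ball of radius `R` (as in `curve_unique_of_contDiff`,
Orbits.lean). For `z ∈ C` let `z̄ = x₀ + (⟨z - x₀, e⟩ / |e|²) • e` be its projection to the line (`R` is so
large that `z̄` is in the ball): `det2 e (w z̄) = 0` and `nm (z - z̄) = |det2 e (z - x₀)| / nm e`, so
`|g'| ≤ K' |g|`. Gronwall (or: `g² e^{∓2K't}` is monotone) gives `g = 0`: `C` is in the line. Then
`γ t = x₀ + λ t • e` with `λ t = ⟨γ t - x₀, e⟩ / |e|²` periodic and differentiable; at a maximum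
point `λ' = 0`, so `w (γ t) = 0` (`w (γ t) = λ' • e`), a contradiction to
`hC.ne_zero_of_contDiff`. -/
theorem no_orbit_line {w : ℝ × ℝ → ℝ × ℝ} (hw : ContDiff ℝ 1 w) {x₀ e : ℝ × ℝ} (he : e ≠ 0)
    (hl : ∀ s : ℝ, det2 e (w (x₀ + s • e)) = 0) {C : Set (ℝ × ℝ)} (hC : IsClosedOrbit w C)
    (s : ℝ) : x₀ + s • e ∉ C := by
  intro hmem
  set n : ℝ := e.1 ^ 2 + e.2 ^ 2 with hn
  have hnpos : 0 < n := by
    rcases Classical.em (e.1 = 0) with h1 | h1
    · have h2 : e.2 ≠ 0 := fun h2 => he (Prod.ext h1 h2)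
      have := sq_pos_of_ne_zero h2
      nlinarith [sq_nonneg e.1]
    · have := sq_pos_of_ne_zero h1
      nlinarith [sq_nonneg e.2]
  have hne := hnpos.ne'
  obtain ⟨γ, T, hT, hγ, hper, h0, hCr, -⟩ := hC.exists_param_of_contDiff hw hmem
  have hc : Continuous γ := continuous_iff_continuousAt.2 fun t => (hγ t).continuousAt
  -- the projection to the line
  set pr : ℝ × ℝ → ℝ × ℝ := fun z =>
    x₀ + (((z.1 - x₀.1) * e.1 + (z.2 - x₀.2) * e.2) / n) • e with hpr
  have hprc : Continuous pr := by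
    rw [hpr]
    fun_prop
  obtain ⟨R, hR⟩ := (hC.isCompact.union (hC.isCompact.image hprc)).isBounded.subset_closedBall
    (0 : ℝ × ℝ)
  obtain ⟨K, hK⟩ := (hw.contDiffOn (s := Metric.closedBall (0 : ℝ × ℝ) R)).exists_lipschitzOnWith
    one_ne_zero (convex_closedBall _ _) (isCompact_closedBall _ _)
  set g : ℝ → ℝ := fun t => e.1 * ((γ t).2 - x₀.2) - e.2 * ((γ t).1 - x₀.1) with hg
  have hg1 : ∀ t, HasDerivAt g (e.1 * (w (γ t)).2 - e.2 * (w (γ t)).1) t := by
    intro t
    have h1 : HasDerivAt (fun t => (γ t).1) (w (γ t)).1 t := (hγ t).fst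
    have h2 : HasDerivAt (fun t => (γ t).2) (w (γ t)).2 t := (hγ t).snd
    exact ((h2.sub_const x₀.2).const_mul e.1).sub ((h1.sub_const x₀.1).const_mul e.2)
  have hbound : ∀ t, ‖e.1 * (w (γ t)).2 - e.2 * (w (γ t)).1‖ ≤ (2 * K) * ‖g t‖ + 0 := by
    intro t
    have hm : γ t ∈ C := by rw [hCr]; exact ⟨t, rfl⟩
    have hz1 : γ t ∈ Metric.closedBall (0 : ℝ × ℝ) R := hR (Or.inl hm)
    have hz2 : pr (γ t) ∈ Metric.closedBall (0 : ℝ × ℝ) R := hR (Or.inr ⟨γ t, hm, rfl⟩)
    have hl0 : det2 e (w (pr (γ t))) = 0 := hl _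
    unfold det2 at hl0
    have hd := hK.dist_le_mul _ hz1 _ hz2
    rw [dist_eq_norm, dist_eq_norm] at hd
    have hdiff : γ t - pr (γ t) = (g t / n) • ((-e.2, e.1) : ℝ × ℝ) := by
      apply Prod.ext
      · simp only [hpr, hg, Prod.fst_sub, Prod.fst_add, Prod.smul_fst, smul_eq_mul]
        field_simp
        rw [hn]
        ring
      · simp only [hpr, hg, Prod.snd_sub, Prod.snd_add, Prod.smul_snd, smul_eq_mul]
        field_simp
        rw [hn]
        ring
    have hnn : ‖γ t - pr (γ t)‖ ≤ |g t| / n * ‖e‖ := by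
      rw [hdiff, norm_smul, Real.norm_eq_abs, abs_div, abs_of_pos hnpos]
      refine mul_le_mul_of_nonneg_left (le_of_eq ?_) (by positivity)
      rw [Prod.norm_def, Prod.norm_def]
      simp only [norm_neg]
      exact max_comm _ _
    have he1 : |e.1| ≤ ‖e‖ := norm_fst_le e
    have he2 : |e.2| ≤ ‖e‖ := norm_snd_le e
    have hen : ‖e‖ ^ 2 ≤ n := by
      rw [Prod.norm_def]
      rcases le_total ‖e.1‖ ‖e.2‖ with h | h
      · rw [max_eq_right h, Real.norm_eq_abs, sq_abs, hn]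
        nlinarith [sq_nonneg e.1]
      · rw [max_eq_left h, Real.norm_eq_abs, sq_abs, hn]
        nlinarith [sq_nonneg e.2]
    set u := w (γ t) - w (pr (γ t)) with hu
    have hu1 : |u.1| ≤ ‖u‖ := norm_fst_le u
    have hu2 : |u.2| ≤ ‖u‖ := norm_snd_le u
    have heq : e.1 * (w (γ t)).2 - e.2 * (w (γ t)).1 = e.1 * u.2 - e.2 * u.1 := by
      simp only [hu, Prod.fst_sub, Prod.snd_sub]
      linear_combination hl0
    have hE0 : 0 ≤ ‖e‖ := norm_nonneg e
    have hU0 : 0 ≤ ‖u‖ := norm_nonneg u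
    have h3 : |e.1 * u.2 - e.2 * u.1| ≤ 2 * (‖e‖ * ‖u‖) := by
      have h4 : |e.1 * u.2| ≤ ‖e‖ * ‖u‖ := by
        rw [abs_mul]
        exact mul_le_mul he1 hu2 (abs_nonneg _) hE0
      have h5 : |e.2 * u.1| ≤ ‖e‖ * ‖u‖ := by
        rw [abs_mul]
        exact mul_le_mul he2 hu1 (abs_nonneg _) hE0
      have h6 := abs_sub (e.1 * u.2) (e.2 * u.1)
      linarith
    have h7 : ‖u‖ ≤ K * (|g t| / n * ‖e‖) :=
      hd.trans (mul_le_mul_of_nonneg_left hnn K.coe_nonneg)
    rw [Real.norm_eq_abs, heq, Real.norm_eq_abs, add_zero]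
    have h8 : ‖e‖ * ‖u‖ ≤ K * |g t| := by
      calc ‖e‖ * ‖u‖ ≤ ‖e‖ * (K * (|g t| / n * ‖e‖)) := mul_le_mul_of_nonneg_left h7 hE0
        _ = K * |g t| * (‖e‖ ^ 2 / n) := by ring
        _ ≤ K * |g t| * 1 := by
            refine mul_le_mul_of_nonneg_left ?_ (mul_nonneg K.coe_nonneg (abs_nonneg _))
            rw [div_le_one hnpos]
            exact hen
        _ = K * |g t| := mul_one _
    linarith
  have hg0 : g 0 = 0 := by
    simp only [hg, h0, Prod.fst_add, Prod.snd_add, Prod.smul_fst, Prod.smul_snd, smul_eq_mul]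
    ring
  have hgz : ∀ t, 0 ≤ t → g t = 0 := by
    intro t ht
    have h1 := norm_le_gronwallBound_of_norm_deriv_right_le (f := g)
      (f' := fun t => e.1 * (w (γ t)).2 - e.2 * (w (γ t)).1) (δ := 0) (K := 2 * K) (ε := 0)
      (a := 0) (b := t)
      (continuous_iff_continuousAt.2 fun t => (hg1 t).continuousAt).continuousOn
      (fun x _ => (hg1 x).hasDerivWithinAt) (by rw [hg0, norm_zero])
      (fun x _ => hbound x) t ⟨ht, le_rfl⟩
    rw [gronwallBound_ε0, zero_mul] at h1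
    exact norm_le_zero_iff.1 h1
  set lam : ℝ → ℝ := fun t => (((γ t).1 - x₀.1) * e.1 + ((γ t).2 - x₀.2) * e.2) / n with hlam
  have hlam1 : ∀ t, HasDerivAt lam (((w (γ t)).1 * e.1 + (w (γ t)).2 * e.2) / n) t := by
    intro t
    have h1 : HasDerivAt (fun t => (γ t).1) (w (γ t)).1 t := (hγ t).fst
    have h2 : HasDerivAt (fun t => (γ t).2) (w (γ t)).2 t := (hγ t).snd
    exact (((h1.sub_const x₀.1).mul_const e.1).add ((h2.sub_const x₀.2).mul_const e.2)).div_const n
  have hT0 : lam 0 = lam T := by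
    have := hper 0
    rw [zero_add] at this
    simp only [hlam, this]
  obtain ⟨c, hc1, hc2⟩ := exists_hasDerivAt_eq_zero hT
    (continuous_iff_continuousAt.2 fun t => (hlam1 t).continuousAt).continuousOn hT0
    (fun x _ => hlam1 x)
  have hgc := hgz c hc1.1.le
  have hline : γ c = x₀ + lam c • e := by
    simp only [hg] at hgc
    apply Prod.ext
    · simp only [hlam, Prod.fst_add, Prod.smul_fst, smul_eq_mul]
      field_simp
      rw [hn]
      linear_combination (-e.2) * hgc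
    · simp only [hlam, Prod.snd_add, Prod.smul_snd, smul_eq_mul]
      field_simp
      rw [hn]
      linear_combination e.1 * hgc
  have hdet : det2 e (w (γ c)) = 0 := by
    rw [hline]
    exact hl _
  unfold det2 at hdet
  have hsc : (w (γ c)).1 * e.1 + (w (γ c)).2 * e.2 = 0 := by
    rcases div_eq_zero_iff.1 hc2 with h | h
    · exact h
    · exact absurd h hne
  have hm : γ c ∈ C := by rw [hCr]; exact ⟨c, rfl⟩
  refine hC.ne_zero_of_contDiff hw hm (Prod.ext ?_ ?_)
  · have h1 : n * (w (γ c)).1 = 0 := by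
      rw [hn]
      linear_combination e.1 * hsc - e.2 * hdet
    rcases mul_eq_zero.1 h1 with h | h
    · exact absurd h hne
    · exact h
  · have h1 : n * (w (γ c)).2 = 0 := by
      rw [hn]
      linear_combination e.2 * hsc + e.1 * hdet
    rcases mul_eq_zero.1 h1 with h | h
    · exact absurd h hne
    · exact h

end Pool.Agent.Lib.MP_95e7ec_an
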