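import Mathlib
import Pool.Agent.Lib.MP_95e7ec_an.Rz.QuadLine
import Pool.Agent.Lib.MP_95e7ec_an.Rz.Chord
import Pool.Agent.Lib.MP_95e7ec_an.Rz.ChordB
import Pool.Agent.Lib.MP_95e7ec_an.Rz.InvLine

/-!
# Rz, QuadConvex: closed orbits of quadratic fields are convex
-/

set_option autoImplicit false

open Set Filter Topology MeasureTheory
open scoped ContDiff ENNReal

namespace Pool.Agent.Lib.MP_95e7ec_an

/-- the segments between two points of `D` are in `D ∪ C` -/
private theorem QuadConvex_seg {P Q : MvPolynomial (Fin 2) ℝ} (hP : P.totalDegree ≤ 2)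
    (hQ : Q.totalDegree ≤ 2) {b : ℝ} {C D : Set (ℝ × ℝ)}
    (hC : IsClosedOrbit (turn b (vf P Q)) C) (hJ : JP C D) (hS : Side (turn b (vf P Q)) C D)
    {z₁ z₃ : ℝ × ℝ} (h1 : z₁ ∈ D) (h3 : z₃ ∈ D) {s : ℝ} (hs0 : 0 ≤ s) (hs1 : s ≤ 1) :
    z₁ + s • (z₃ - z₁) ∈ D ∪ C := by
  by_cases he : z₃ - z₁ = 0
  · rw [he, smul_zero, add_zero]
    exact Or.inl h1
  by_contra hcon
  obtain ⟨α, β, hα, hβ, hD, hαC, hβC, hαs, hβs⟩ := side_chord hJ hS h1 he
  obtain ⟨α', β', hα', hβ', hD', hαC', hβC', hαs', hβs'⟩ := side_chord hJ hS h3 he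
  have hshift : ∀ t : ℝ, z₃ + t • (z₃ - z₁) = z₁ + (1 + t) • (z₃ - z₁) := by
    intro t
    rw [add_smul, one_smul]
    abel
  have hβs2 : β < s := by
    by_contra hle
    rcases (not_lt.1 hle).lt_or_eq with h | h
    · exact hcon (Or.inl (hD s ⟨by linarith, h⟩))
    · rw [← h] at hβC
      exact hcon (Or.inr hβC)
  have hs2α : s < 1 + α' := by
    by_contra hle
    rcases (not_lt.1 hle).lt_or_eq with h | h
    · have h5 := hD' (s - 1) ⟨by linarith, by linarith⟩
      rw [hshift, add_sub_cancel] at h5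
      exact hcon (Or.inl h5)
    · rw [hshift, h] at hαC'
      exact hcon (Or.inr hαC')
  obtain ⟨c₀, c₁, c₂, hc⟩ := turn_vf_line hP hQ b z₁ (z₃ - z₁) (z₃ - z₁)
  rw [hc] at hαs hβs
  rw [hshift, hc] at hαs' hβs'
  obtain ⟨e0, e1, e2⟩ := quad_four (c₀ := c₀) (c₁ := c₁) (c₂ := c₂) (x₁ := α) (x₂ := β)
    (x₃ := 1 + α') (x₄ := 1 + β') (by linarith) (by linarith) (by linarith) hαs hβs hαs' hβs'
  refine no_orbit_line (contDiff_turn (contDiff_vf P Q) b) he (fun t => ?_) hC α hαC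
  rw [hc, e0, e1, e2]
  ring

/-- Proof. Suppose `z₁`, `z₃ ∈ D` and `z₂ = z₁ + s₂ • (z₃ - z₁) ∉ D ∪ C`, `0 ≤ s₂ ≤ 1`. Let
`e = z₃ - z₁ ≠ 0`. `side_chord` at `z₁` gives `α < 0 < β` and at `z₃` (shifted by `1`) `α' < 1 < β'`,
with points of `C` at the parameters `α, β, α', β'` (from `z₁`), the open chords in `D`, so
`β < s₂ < α'` (`β ≤ s₂` since `z₂` is not in `D`, `β ≠ s₂` since it is not in `C`). The function
`y s = det2 e (turn b (vf P Q) (z₁ + s • e))` is quadratic (`turn_vf_line`), `y α ≤ 0 ≤ y β`,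
`y α' ≤ 0 ≤ y β'`, so `y = 0` by `quad_four`, a contradiction to `no_orbit_line` at `α`. So the
segments between points of `D` are in `D ∪ C`. As `D ∪ C` is closed and `D` is dense in it
(`side_closure`), this holds for all the points of `D ∪ C`. -/
theorem quad_convex {P Q : MvPolynomial (Fin 2) ℝ} (hP : P.totalDegree ≤ 2)
    (hQ : Q.totalDegree ≤ 2) {b : ℝ} {C D : Set (ℝ × ℝ)}
    (hC : IsClosedOrbit (turn b (vf P Q)) C) (hJ : JP C D) (hS : Side (turn b (vf P Q)) C D) :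
    Convex ℝ (D ∪ C) := by
  intro x hx y hy a c ha hc hac
  have hcl : closure (D ∪ C) = D ∪ C := hJ.cpt.isClosed.closure_eq
  have hsub : D ∪ C ⊆ closure D := union_subset subset_closure (side_closure hS)
  have hcont : Continuous (Function.uncurry fun u v : ℝ × ℝ => a • u + c • v) := by
    have : Continuous fun p : (ℝ × ℝ) × (ℝ × ℝ) => a • p.1 + c • p.2 := by fun_prop
    exact this
  have h := map_mem_closure₂ hcont (hsub hx) (hsub hy) (u := D ∪ C) (fun u hu v hv => by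
    have h1 := QuadConvex_seg hP hQ hC hJ hS hu hv hc (by linarith)
    have h2 : a • u + c • v = u + c • (v - u) := by
      have : a = 1 - c := by linarith
      rw [this, sub_smul, one_smul, smul_sub]
      abel
    rw [h2]
    exact h1)
  rw [hcl] at h
  exact h

end Pool.Agent.Lib.MP_95e7ec_an
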