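import Mathlib
import Pool.Agent.Lib.MP_95e7ec_an.Rz.QuadLine
import Pool.Agent.Lib.MP_95e7ec_an.Rz.Chord
import Pool.Agent.Lib.MP_95e7ec_an.Rz.InvLine
import Pool.Agent.Lib.MP_95e7ec_an.AvgBasic

/-!
# Rz, QuadOne: one zero inside a closed orbit of a quadratic field
-/

set_option autoImplicit false

open Set Filter Topology MeasureTheory
open scoped ContDiff ENNReal

namespace Pool.Agent.Lib.MP_95e7ec_an

/-- Two zeros are not inside the same closed orbit. Proof. Let `q ≠ q'` be zeros in `D`, `e = q' - q`,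
`α < 0 < β` from `side_chord` at `q`. By convexity of `D ∪ C` and `quad_convex` the point `q'` (at the
parameter `1`) is before `β`: if `β ≤ 1`, take the chord at `q'`: `α' < 1 < β'`; then
`y α ≤ 0 ≤ y β`, `y α' ≤ 0 ≤ y β'` and `β ≤ α'`; if `β < α'` then `quad_four` gives `y = 0`; if
`β = α'` then `y β = 0` and `y 0 = y 1 = 0` (`y s = det2 e (turn b (vf P Q) (q + s • e))` vanishes at
the zeros of the field), three zeros `0 < β < 1` (`β ≠ 1` as `q' ∈ D`, not in `C`), so `y = 0`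
(`quad_four` or directly). If `β > 1`: `y` vanishes at `0` and `1`, `y α ≤ 0`, `0 ≤ y β`,
`α < 0 < 1 < β`, so `quad_four` gives `y = 0`. In all cases `no_orbit_line` gives a contradiction at
`α`. -/
theorem quad_one_zero {P Q : MvPolynomial (Fin 2) ℝ} (hP : P.totalDegree ≤ 2)
    (hQ : Q.totalDegree ≤ 2) {b : ℝ} {C D : Set (ℝ × ℝ)}
    (hC : IsClosedOrbit (turn b (vf P Q)) C) (hJ : JP C D) (hS : Side (turn b (vf P Q)) C D)
    {q q' : ℝ × ℝ} (hq : q ∈ D) (hq' : q' ∈ D) (h0 : vf P Q q = 0) (h0' : vf P Q q' = 0) :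
    q = q' := by
  by_contra hne
  have he : q' - q ≠ 0 := fun h => hne (sub_eq_zero.mp h).symm
  obtain ⟨c₀, c₁, c₂, hy⟩ := turn_vf_line hP hQ b q (q' - q) (q' - q)
  have h1 : q + (1 : ℝ) • (q' - q) = q' := by simp
  have t0 : ∀ z : ℝ × ℝ, vf P Q z = 0 → turn b (vf P Q) z = 0 := by
    intro z hz
    unfold turn
    rw [hz]
    ext <;> simp
  have y0 : c₀ = 0 := by
    have := hy 0
    rw [zero_smul, add_zero, t0 q h0] at this
    simpa [det2] using this.symm
  have y1 : c₁ + c₂ = 0 := by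
    have := hy 1
    rw [h1, t0 q' h0'] at this
    rw [y0] at this
    simp [det2] at this
    linarith
  obtain ⟨α, β, hα, -, -, hαC, -, hya, -⟩ := side_chord hJ hS hq he
  obtain ⟨α', β', -, hβ', -, -, -, -, hyb⟩ := side_chord hJ hS hq' he
  have e2 : q' + β' • (q' - q) = q + (1 + β') • (q' - q) := by
    rw [add_smul, ← add_assoc, h1]
  rw [e2] at hyb
  rw [hy] at hya hyb
  have hc2 : c₂ = -c₁ := by linarith
  rw [y0, hc2] at hya hyb
  have a1 : 0 ≤ c₁ := by
    by_contra hc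
    have hc : c₁ < 0 := not_le.mp hc
    have : 0 < 0 + c₁ * α + -c₁ * α ^ 2 := by nlinarith [mul_pos_of_neg_of_neg hc hα, mul_pos (neg_pos.mpr hc) (pow_pos (neg_pos.mpr hα) 2)]
    linarith
  have a2 : c₁ ≤ 0 := by
    by_contra hc
    have hc : 0 < c₁ := not_le.mp hc
    have : 0 + c₁ * (1 + β') + -c₁ * (1 + β') ^ 2 < 0 := by
      have : 0 + c₁ * (1 + β') + -c₁ * (1 + β') ^ 2 = -(c₁ * ((1 + β') * β')) := by ring
      rw [this]
      have : 0 < c₁ * ((1 + β') * β') := by positivity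
      linarith
    linarith
  have hc1 : c₁ = 0 := le_antisymm a2 a1
  refine no_orbit_line (contDiff_turn (contDiff_vf P Q) b) he (x₀ := q) ?_ hC α hαC
  intro s
  rw [hy, y0, hc2, hc1]
  ring


end Pool.Agent.Lib.MP_95e7ec_an
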