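import Mathlib
import Pool.Agent.Lib.MP_95e7ec_an.Rz.QuadConvex
import Pool.Agent.Lib.MP_95e7ec_an.Rz.QuadOne
import Pool.Agent.Lib.MP_95e7ec_an.Rb.Barrier
import Pool.Agent.Lib.MP_95e7ec_an.Rb.Time
import Pool.Agent.Lib.MP_95e7ec_an.Hull
import Pool.Agent.Lib.MP_95e7ec_an.Duff

/-!
# Rz, QuadCenter: the centre of a closed orbit of a quadratic field
-/

set_option autoImplicit false

open Set Filter Topology MeasureTheory
open scoped ContDiff ENNReal

namespace Pool.Agent.Lib.MP_95e7ec_an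

private theorem QuadCenter_turn_pi (a : ℝ) (v : ℝ × ℝ → ℝ × ℝ) :
    turn (a + Real.pi) v = fun z => -turn a v z := by
  funext z
  ext
  · simp only [turn, Real.cos_add_pi, Real.sin_add_pi, Prod.fst_neg]
    ring
  · simp only [turn, Real.cos_add_pi, Real.sin_add_pi, Prod.snd_neg]
    ring

/-- Proof. `exists_barrier` for `turn a (vf P Q)` gives `ε = ±1`, `D`, `JP C D` and
`Side (ε • turn a ..) C D`. If `ε = 1` let `b = a`; if `ε = -1` let `b = a + π`:
`turn (a+π) v z = -turn a v z`, and `C` is a closed orbit of it (`IsClosedOrbit.neg`, Rb/Time.lean, or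
`rb_turn_neg`). So `Side (turn b v) C D`. By `quad_convex` `D ∪ C` is convex, it contains `C`, so it
contains the convex hull, and by `exists_zero_in_hull` there is a zero `q ∈ D ∪ C` of `turn b v`, i.e.
of `v` (`turn_eq_zero`); `q ∉ C` since `v` has no zero on `C`, so `q ∈ D`. `side_convex_pos` gives the
third claim. For `z ∈ C`, `0 < s ≤ 1`, the point `q + s • (z - q)` is in `D ∪ C`; if it is a zero then
it is in `D` and equal to `q` by `quad_one_zero`, so `s • (z - q) = 0`, `z = q`, a contradiction. -/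
theorem quad_center {P Q : MvPolynomial (Fin 2) ℝ} (hP : P.totalDegree ≤ 2)
    (hQ : Q.totalDegree ≤ 2) (a : ℝ) {C : Set (ℝ × ℝ)}
    (hC : IsClosedOrbit (turn a (vf P Q)) C) :
    ∃ (q : ℝ × ℝ) (b : ℝ), (b = a ∨ b = a + Real.pi) ∧
      IsClosedOrbit (turn b (vf P Q)) C ∧ vf P Q q = 0 ∧ q ∉ C ∧
      (∀ z ∈ C, 0 < det2 (z - q) (turn b (vf P Q) z)) ∧
      ∀ z ∈ C, ∀ s ∈ Set.Ioc (0 : ℝ) 1, vf P Q (q + s • (z - q)) ≠ 0 := by
  have hsm : ∀ c : ℝ, ContDiff ℝ 1 (turn c (vf P Q)) := fun c =>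
    contDiff_turn (contDiff_vf P Q) c
  -- the barrier
  obtain ⟨b, D, hb, hCb, hJ, hS⟩ : ∃ (b : ℝ) (D : Set (ℝ × ℝ)), (b = a ∨ b = a + Real.pi) ∧
      IsClosedOrbit (turn b (vf P Q)) C ∧ JP C D ∧ Side (turn b (vf P Q)) C D := by
    obtain ⟨γ, T, hT, hγ, hper, hne, hCr⟩ := hC
    obtain ⟨ε, hε, hJ, hS, -⟩ := exists_barrier (hsm a) hT hγ hper hne
    have hC' : IsClosedOrbit (turn a (vf P Q)) C := ⟨γ, T, hT, hγ, hper, hne, hCr⟩
    rw [← hCr] at hJ hS
    rcases hε with h1 | h1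
    · refine ⟨a, _, Or.inl rfl, hC', hJ, ?_⟩
      subst h1
      simpa only [one_smul] using hS
    · refine ⟨a + Real.pi, _, Or.inr rfl, ?_, hJ, ?_⟩
      · rw [QuadCenter_turn_pi]
        exact hC'.neg
      · subst h1
        rw [QuadCenter_turn_pi]
        simpa only [neg_smul, one_smul] using hS
  have hcv : Convex ℝ (D ∪ C) := quad_convex hP hQ hCb hJ hS
  obtain ⟨q, hqh, hq0⟩ := exists_zero_in_hull (hsm b) hCb
  have hvq : vf P Q q = 0 := turn_eq_zero.1 hq0
  have hnz : ∀ z ∈ C, vf P Q z ≠ 0 := fun z hz h0 =>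
    hCb.ne_zero_of_contDiff (hsm b) hz (turn_eq_zero.2 h0)
  have hqC : q ∉ C := fun h => hnz q h hvq
  have hqD : q ∈ D := by
    have h1 : q ∈ D ∪ C := convexHull_min subset_union_right hcv hqh
    exact h1.resolve_right hqC
  refine ⟨q, b, hb, hCb, hvq, hqC, fun z hz => side_convex_pos hJ hS hcv hz hqD, ?_⟩
  intro z hz s hs h0
  have hmem : q + s • (z - q) ∈ D ∪ C := by
    have h1 := hcv (Or.inl hqD) (Or.inr hz) (show 0 ≤ 1 - s by linarith [hs.2]) hs.1.le
      (by ring)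
    have h2 : (1 - s) • q + s • z = q + s • (z - q) := by
      rw [sub_smul, one_smul, smul_sub]
      abel
    rwa [h2] at h1
  have hD : q + s • (z - q) ∈ D := hmem.resolve_right fun h => hnz _ h h0
  have heq := quad_one_zero hP hQ hCb hJ hS hqD hD hvq h0
  have hz0 : s • (z - q) = 0 := by
    have : q + s • (z - q) = q + 0 := by rw [← heq, add_zero]
    exact add_left_cancel this
  rcases smul_eq_zero.1 hz0 with h1 | h1
  · exact hs.1.ne' h1
  · exact hqC (by rw [← sub_eq_zero.1 h1]; exact hz)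

end Pool.Agent.Lib.MP_95e7ec_an
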