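import Mathlib
import Pool.Agent.Lib.MP_95e7ec_an.Rz.QuadLine

/-!
# Rz, QuadExpand: a quadratic field at a zero
-/

set_option autoImplicit false

open Set Filter Topology MeasureTheory
open scoped ContDiff ENNReal

namespace Pool.Agent.Lib.MP_95e7ec_an

/-- The expansion of a quadratic field along a line through a zero: the linear coefficient is the
derivative. -/
private theorem quadExpand_line {P Q : MvPolynomial (Fin 2) ℝ} (hP : P.totalDegree ≤ 2)
    (hQ : Q.totalDegree ≤ 2) {q : ℝ × ℝ} (h0 : vf P Q q = 0) (z : ℝ × ℝ) :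
    ∃ c : ℝ × ℝ, ∀ s : ℝ, vf P Q (q + s • z) = s • fderiv ℝ (vf P Q) q z + s ^ 2 • c := by
  obtain ⟨c₀, c₁, c₂, hc⟩ := vf_line hP hQ q z
  have hc0 : c₀ = 0 := by
    have := hc 0
    simpa [h0] using this.symm
  subst hc0
  have hd : HasFDerivAt (vf P Q) (fderiv ℝ (vf P Q) q) q :=
    ((contDiff_vf P Q (k := 1)).differentiable one_ne_zero q).hasFDerivAt
  have hl : HasDerivAt (fun s : ℝ => q + s • z) z 0 := by
    simpa using ((hasDerivAt_id (0 : ℝ)).smul_const z).const_add q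
  have hd' : HasFDerivAt (vf P Q) (fderiv ℝ (vf P Q) q) (q + (0 : ℝ) • z) := by
    simpa using hd
  have h1 : HasDerivAt (fun s : ℝ => vf P Q (q + s • z)) (fderiv ℝ (vf P Q) q z) 0 := by
    have h := HasFDerivAt.comp_hasDerivAt (f := fun s : ℝ => q + s • z) (l := vf P Q) (0 : ℝ) hd' hl
    exact h
  have h2 : HasDerivAt (fun s : ℝ => vf P Q (q + s • z)) c₁ 0 := by
    have ha : HasDerivAt (fun s : ℝ => s • c₁) c₁ 0 := by
      simpa using (hasDerivAt_id (0 : ℝ)).smul_const c₁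
    have hb : HasDerivAt (fun s : ℝ => s ^ 2 • c₂) 0 0 := by
      have := ((hasDerivAt_id (0 : ℝ)).pow 2).smul_const c₂
      simpa using this
    have hab : HasDerivAt (fun s : ℝ => s • c₁ + s ^ 2 • c₂) c₁ 0 := by
      have h := ha.add hb
      rw [add_zero] at h
      exact h
    have he : (fun s : ℝ => vf P Q (q + s • z)) = fun s : ℝ => s • c₁ + s ^ 2 • c₂ := by
      funext s
      rw [hc s, zero_add]
    rw [he]
    exact hab
  have h3 : c₁ = fderiv ℝ (vf P Q) q z := h2.unique h1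
  refine ⟨c₂, fun s => ?_⟩
  rw [hc s, zero_add, h3]

/-- Proof. `A z = fderiv ℝ (vf P Q) q z` is linear, `B z = vf P Q (q + z) - A z`, both smooth
(`contDiff_vf`). Homogeneity of `B`: for fixed `z` `vf_line` gives `vf P Q (q + s • z) =
c₀ + s • c₁ + s² • c₂`; `s = 0`: `c₀ = 0`; the derivative at `s = 0` is `c₁ = A z` (chain rule); so
`B (s • z) = s² • c₂` and `B z = c₂`. -/
theorem quad_expand {P Q : MvPolynomial (Fin 2) ℝ} (hP : P.totalDegree ≤ 2)
    (hQ : Q.totalDegree ≤ 2) {q : ℝ × ℝ} (h0 : vf P Q q = 0) :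
    HomSum (fun z => vf P Q (q + z)) (fun z => fderiv ℝ (vf P Q) q z)
      (fun z => vf P Q (q + z) - fderiv ℝ (vf P Q) q z) 1 2 := by
  refine ⟨by norm_num, fun z => by simp, fun t z => by simp, fun t z => ?_, ?_, ?_⟩
  · obtain ⟨c, hc⟩ := quadExpand_line hP hQ h0 z
    have h1 := hc 1
    have h2 := hc t
    simp only [one_smul, one_pow] at h1
    show vf P Q (q + t • z) - fderiv ℝ (vf P Q) q (t • z) =
      t ^ 2 • (vf P Q (q + z) - fderiv ℝ (vf P Q) q z)
    rw [h1, h2, map_smul]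
    simp
  · exact (fderiv ℝ (vf P Q) q).contDiff
  · exact ((contDiff_vf P Q).comp (contDiff_const.add contDiff_id)).sub
      (fderiv ℝ (vf P Q) q).contDiff

end Pool.Agent.Lib.MP_95e7ec_an
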