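import Mathlib
import Pool.Agent.Lib.MP_95e7ec_an.Rz.Defs
import Pool.Agent.Lib.MP_95e7ec_an.Rq.Lift
import Pool.Agent.Lib.MP_95e7ec_an.KqLift
import Pool.Agent.Lib.MP_95e7ec_an.Orbits
import Pool.Agent.Lib.MP_95e7ec_an.Rb.Basic

/-!
# Rz, StarPolar: the polar equation of a closed orbit which is star-shaped about the origin
-/

set_option autoImplicit false

open Set Filter Topology MeasureTheory
open scoped ContDiff ENNReal

namespace Pool.Agent.Lib.MP_95e7ec_an

private theorem starPolar_cyl (p : ℝ × ℝ) : cyl p = Real.exp p.1 • dirv p.2 := by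
  unfold cyl dirv
  ext <;> simp

private theorem starPolar_contDiff_cyl : ContDiff ℝ 1 cyl := by
  unfold cyl
  have h1 : ContDiff ℝ 1 fun p : ℝ × ℝ => Real.exp p.1 := Real.contDiff_exp.comp contDiff_fst
  exact (h1.mul (Real.contDiff_cos.comp contDiff_snd)).prodMk
    (h1.mul (Real.contDiff_sin.comp contDiff_snd))

private theorem starPolar_contDiff_cf {w : ℝ × ℝ → ℝ × ℝ} (hw : ContDiff ℝ 1 w) :
    ContDiff ℝ 1 (cf w) := by
  have hc := starPolar_contDiff_cyl
  have h1 : ContDiff ℝ 1 fun p => (cyl p).1 := contDiff_fst.comp hc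
  have h2 : ContDiff ℝ 1 fun p => (cyl p).2 := contDiff_snd.comp hc
  have h3 : ContDiff ℝ 1 fun p => (w (cyl p)).1 := contDiff_fst.comp (hw.comp hc)
  have h4 : ContDiff ℝ 1 fun p => (w (cyl p)).2 := contDiff_snd.comp (hw.comp hc)
  unfold cf wf
  exact ((h1.mul h3).add (h2.mul h4)).prodMk ((h1.mul h4).sub (h2.mul h3))

private theorem starPolar_cf_period (w : ℝ × ℝ → ℝ × ℝ) (p : ℝ × ℝ) :
    cf w (p - ((0 : ℝ), 2 * Real.pi)) = cf w p := by
  have e : cyl (p - ((0 : ℝ), 2 * Real.pi)) = cyl p := by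
    unfold cyl
    simp only [Prod.fst_sub, Prod.snd_sub, sub_zero, Real.cos_sub_two_pi, Real.sin_sub_two_pi]
  unfold cf
  rw [e]

private theorem starPolar_cf_fst (w : ℝ × ℝ → ℝ × ℝ) (ρ θ : ℝ) :
    (cf w (ρ, θ)).1 = Real.exp ρ * ipv (dirv θ) (w (Real.exp ρ • dirv θ)) := by
  unfold cf wf
  rw [starPolar_cyl]
  simp only [ipv, Prod.smul_fst, Prod.smul_snd, smul_eq_mul]
  ring

private theorem starPolar_cf_snd (w : ℝ × ℝ → ℝ × ℝ) (ρ θ : ℝ) :
    (cf w (ρ, θ)).2 = Real.exp ρ * det2 (dirv θ) (w (Real.exp ρ • dirv θ)) := by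
  unfold cf wf
  rw [starPolar_cyl]
  simp only [det2, Prod.smul_fst, Prod.smul_snd, smul_eq_mul]
  ring

private theorem starPolar_cf_det (w : ℝ × ℝ → ℝ × ℝ) (p : ℝ × ℝ) :
    (cf w p).2 = det2 (cyl p) (w (cyl p)) := rfl

/-- a strictly increasing function with `θ (t + T) = θ t + S`, `S > 0`, is surjective -/
private theorem starPolar_surj {θ : ℝ → ℝ} (hθc : Continuous θ) (hmono : StrictMono θ) {T S : ℝ}
    (hS : 0 < S) (hadd : ∀ t, θ (t + T) = θ t + S) : Function.Surjective θ := by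
  have hmulN : ∀ k : ℕ, θ (k * T) = θ 0 + k * S := by
    intro k
    induction k with
    | zero => simp
    | succ k ih =>
      push_cast
      rw [add_mul, one_mul, hadd, ih]
      ring
  have hmulN' : ∀ k : ℕ, θ (-(k * T)) = θ 0 - k * S := by
    intro k
    induction k with
    | zero => simp
    | succ k ih =>
      have := hadd (-((k + 1 : ℕ) * T))
      push_cast at this ⊢
      rw [show -((↑k + 1) * T) + T = -(k * T) by ring, ih] at this
      linarith
  apply hθc.surjective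
  · rw [tendsto_atTop_atTop_iff_of_monotone hmono.monotone]
    intro b
    obtain ⟨k, hk⟩ := exists_nat_ge ((b - θ 0) / S)
    refine ⟨k * T, ?_⟩
    rw [hmulN]
    rw [div_le_iff₀ hS] at hk
    linarith
  · rw [tendsto_atBot_atBot_iff_of_monotone hmono.monotone]
    intro b
    obtain ⟨k, hk⟩ := exists_nat_ge ((θ 0 - b) / S)
    refine ⟨-(k * T), ?_⟩
    rw [hmulN']
    rw [div_le_iff₀ hS] at hk
    linarith

/-- a continuous function with the period `n c`, `n ≥ 1`, has a point `x` with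
`r (x + c) = r x` -/
private theorem starPolar_shift {r : ℝ → ℝ} (hr : Continuous r) (c : ℝ) {n : ℕ} (hn : 0 < n)
    (hper : ∀ x, r (x + n * c) = r x) : ∃ x, r (x + c) = r x := by
  set g : ℝ → ℝ := fun x => r (x + c) - r x with hg
  have hgc : Continuous g := by
    rw [hg]
    exact (hr.comp (continuous_id.add continuous_const)).sub hr
  have h1 : ∃ x, g x ≤ 0 := by
    by_contra hcon
    push Not at hcon
    have key : ∀ j : ℕ, 0 < j → r 0 < r (j * c) := by
      intro j hj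
      induction j with
      | zero => exact absurd hj (lt_irrefl 0)
      | succ j ih =>
        have h2 := hcon (j * c)
        simp only [hg] at h2
        rw [show (j : ℝ) * c + c = ((j + 1 : ℕ) : ℝ) * c by push_cast; ring] at h2
        rcases Nat.eq_zero_or_pos j with h3 | h3
        · subst h3
          simp only [Nat.cast_zero, zero_mul] at h2
          linarith
        · linarith [ih h3]
    have h4 := key n hn
    have h5 := hper 0
    rw [zero_add] at h5
    linarith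
  have h2 : ∃ x, 0 ≤ g x := by
    by_contra hcon
    push Not at hcon
    have key : ∀ j : ℕ, 0 < j → r (j * c) < r 0 := by
      intro j hj
      induction j with
      | zero => exact absurd hj (lt_irrefl 0)
      | succ j ih =>
        have h2 := hcon (j * c)
        simp only [hg] at h2
        rw [show (j : ℝ) * c + c = ((j + 1 : ℕ) : ℝ) * c by push_cast; ring] at h2
        rcases Nat.eq_zero_or_pos j with h3 | h3
        · subst h3
          simp only [Nat.cast_zero, zero_mul] at h2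
          linarith
        · linarith [ih h3]
    have h4 := key n hn
    have h5 := hper 0
    rw [zero_add] at h5
    linarith
  obtain ⟨x, hx⟩ := mem_range_of_exists_le_of_exists_ge hgc h1 h2
  refine ⟨x, ?_⟩
  simp only [hg] at hx
  linarith

/-- Polar lift about the origin. Proof. `cyl_lift` with `cylField_cf w` (Rq/Lift.lean; `cf w` is
continuous) gives `σ = (ρ, ϑ)`, `σ' = cf w (σ)`, `σ (t+T) = σ t + (0, 2πk)`,
`C = range (cyl ∘ σ)`. `(cf w p).2 = det2 (cyl p) (w (cyl p)) > 0` on `C`, so `ϑ` is strictly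
increasing, `k ≥ 1`, `ϑ → ±∞` (because `ϑ (t + nT) = ϑ t + 2πkn`), so `ϑ` is a bijection of the real
line with a differentiable inverse `τ` (`HasDerivAt.of_local_left_inverse` or
`OrderIso`/`HasStrictDerivAt`). Let `r = exp ∘ ρ ∘ τ`: positive, `C = {r θ • dirv θ}`,
`r' = r · (cf w).1 / (cf w).2` and
`(cf w p).1 = ipv (cyl p) (w (cyl p))`, `cyl (ρ, θ) = exp ρ • dirv θ`, the ratio is homogeneous.
`r (θ + 2πk) = r θ`.
Period `2π`: let `g θ = r (θ + 2π) - r θ`, continuous; `∑_{j<k} g (θ + 2πj) = 0`, so `g` has a zero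
`θ₀` (intermediate value theorem). Then `cyl (σ (τ (θ₀+2π))) = cyl (σ (τ θ₀))`; with
`δ = τ (θ₀ + 2π) - τ θ₀` the solutions `t ↦ γ (t + δ)` and `γ` (`γ = cyl ∘ σ` up to the time scale;
work with `σ` itself: `t ↦ σ (t + δ) - (0, 2π)` and `σ` are both solutions of `σ' = cf w σ`, as
`cf w` is `2π`-periodic in the second variable, with the same value at `τ θ₀`) are equal by
`curve_unique_of_contDiff`. So `σ (t + δ) = σ t + (0, 2π)` for all `t` and `r (θ + 2π) = r θ`. -/
theorem star_param0 {w : ℝ × ℝ → ℝ × ℝ} (hw : ContDiff ℝ 1 w) {C : Set (ℝ × ℝ)}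
    (hC : IsClosedOrbit w C) (h0 : (0 : ℝ × ℝ) ∉ C) (hpos : ∀ z ∈ C, 0 < det2 z (w z)) :
    ∃ r : ℝ → ℝ, (∀ θ, 0 < r θ) ∧ (∀ θ, r (θ + 2 * Real.pi) = r θ) ∧ C = pcurve 0 r ∧
      ∀ θ, 0 < det2 (dirv θ) (w (r θ • dirv θ)) ∧
        HasDerivAt r (r θ * (ipv (dirv θ) (w (r θ • dirv θ)) /
          det2 (dirv θ) (w (r θ • dirv θ)))) θ := by
  have hF := starPolar_contDiff_cf hw
  obtain ⟨σ, T, k, ⟨hT, hd, hper, -⟩, rfl⟩ :=
    cyl_lift (cylField_cf w) hw.continuous hF.continuous hC h0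
  have hd1 : ∀ t, HasDerivAt (fun t => (σ t).1) (cf w (σ t)).1 t := fun t => (hd t).fst
  have hd2 : ∀ t, HasDerivAt (fun t => (σ t).2) (cf w (σ t)).2 t := fun t => (hd t).snd
  have hcfpos : ∀ t, 0 < (cf w (σ t)).2 := by
    intro t
    rw [starPolar_cf_det]
    exact hpos _ ⟨t, rfl⟩
  have hc2 : Continuous fun t => (σ t).2 :=
    continuous_iff_continuousAt.2 fun t => (hd2 t).continuousAt
  have hmono : StrictMono fun t => (σ t).2 := strictMono_of_hasDerivAt_pos hd2 hcfpos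
  have hadd : ∀ t, (σ (t + T)).2 = (σ t).2 + 2 * Real.pi * (k : ℝ) := by
    intro t
    rw [hper t]
    rfl
  have hadd1 : ∀ t, (σ (t + T)).1 = (σ t).1 := by
    intro t
    rw [hper t]
    simp
  have hkS : 0 < 2 * Real.pi * (k : ℝ) := by
    have h1 : (σ 0).2 < (σ (0 + T)).2 := hmono (by linarith)
    rw [hadd] at h1
    linarith
  have hk : 0 < k := by
    have h1 : 0 < (k : ℝ) := pos_of_mul_pos_right hkS (by positivity)
    exact_mod_cast h1
  have hsurj : Function.Surjective fun t => (σ t).2 := starPolar_surj hc2 hmono hkS hadd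
  let e : ℝ ≃o ℝ := StrictMono.orderIsoOfSurjective (fun t => (σ t).2) hmono hsurj
  set τ : ℝ → ℝ := fun u => e.symm u with hτ
  have hτc : Continuous τ := e.symm.continuous
  have hθτ : ∀ u, (σ (τ u)).2 = u := fun u => e.apply_symm_apply u
  have hτθ : ∀ t, τ ((σ t).2) = t := fun t => e.symm_apply_apply t
  have hτd : ∀ u, HasDerivAt τ ((cf w (σ (τ u))).2)⁻¹ u := fun u =>
    HasDerivAt.of_local_left_inverse hτc.continuousAt (hd2 (τ u)) (hcfpos _).ne'
      (Eventually.of_forall hθτ)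
  set r : ℝ → ℝ := fun θ => Real.exp ((σ (τ θ)).1) with hr
  have hrpos : ∀ θ, 0 < r θ := fun θ => Real.exp_pos _
  have hσr : ∀ θ, cyl (σ (τ θ)) = r θ • dirv θ := by
    intro θ
    rw [starPolar_cyl, hθτ]
  have hστ : ∀ θ, σ (τ θ) = ((σ (τ θ)).1, θ) := by
    intro θ
    ext
    · rfl
    · exact hθτ θ
  have hcf1 : ∀ θ, (cf w (σ (τ θ))).1 = r θ * ipv (dirv θ) (w (r θ • dirv θ)) := by
    intro θ
    rw [hστ θ, starPolar_cf_fst]
  have hcf2 : ∀ θ, (cf w (σ (τ θ))).2 = r θ * det2 (dirv θ) (w (r θ • dirv θ)) := by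
    intro θ
    rw [hστ θ, starPolar_cf_snd]
  have hdet : ∀ θ, 0 < det2 (dirv θ) (w (r θ • dirv θ)) := by
    intro θ
    have h1 := hcfpos (τ θ)
    rw [hcf2] at h1
    exact pos_of_mul_pos_right h1 (hrpos θ).le
  have hrd : ∀ θ, HasDerivAt r (r θ * (ipv (dirv θ) (w (r θ • dirv θ)) /
      det2 (dirv θ) (w (r θ • dirv θ)))) θ := by
    intro θ
    have h1 : HasDerivAt (fun θ => (σ (τ θ)).1)
        ((cf w (σ (τ θ))).1 * ((cf w (σ (τ θ))).2)⁻¹) θ :=
      (hd1 (τ θ)).comp θ (hτd θ)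
    have h2 := h1.exp
    refine h2.congr_deriv ?_
    rw [hcf1, hcf2]
    have h3 := (hrpos θ).ne'
    have h4 := (hdet θ).ne'
    have h5 : Real.exp ((σ (τ θ)).1) = r θ := rfl
    rw [h5]
    field_simp
  have hrc : Continuous r := continuous_iff_continuousAt.2 fun θ => (hrd θ).continuousAt
  -- the period 2πk
  have hτT : ∀ θ, τ (θ + 2 * Real.pi * (k : ℝ)) = τ θ + T := by
    intro θ
    have h1 := hτθ (τ θ + T)
    rw [hadd, hθτ] at h1
    exact h1
  obtain ⟨n, hn⟩ : ∃ n : ℕ, k = n := ⟨k.toNat, (Int.toNat_of_nonneg hk.le).symm⟩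
  have hn0 : 0 < n := by
    have := hk
    rw [hn] at this
    exact_mod_cast this
  have hrper : ∀ θ, r (θ + n * (2 * Real.pi)) = r θ := by
    intro θ
    have h1 := hτT θ
    rw [hn] at h1
    rw [show θ + (n : ℝ) * (2 * Real.pi) = θ + 2 * Real.pi * (((n : ℤ)) : ℝ) by push_cast; ring]
    simp only [hr]
    rw [h1, hadd1]
  obtain ⟨θ0, hθ0⟩ := starPolar_shift hrc (2 * Real.pi) hn0 hrper
  set δ : ℝ := τ (θ0 + 2 * Real.pi) - τ θ0 with hδ
  have hstart : σ (τ (θ0 + 2 * Real.pi)) = σ (τ θ0) + ((0 : ℝ), 2 * Real.pi) := by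
    have h1 : (σ (τ (θ0 + 2 * Real.pi))).1 = (σ (τ θ0)).1 := Real.exp_injective hθ0
    ext
    · simp [h1]
    · simp [hθτ]
  have hshift : ∀ t, σ (t + δ) = σ t + ((0 : ℝ), 2 * Real.pi) := by
    have e1 : ∀ s, HasDerivAt (fun s => σ (s + τ (θ0 + 2 * Real.pi)) - ((0 : ℝ), 2 * Real.pi))
        (cf w (σ (s + τ (θ0 + 2 * Real.pi)) - ((0 : ℝ), 2 * Real.pi))) s := by
      intro s
      rw [starPolar_cf_period]
      exact ((hd (s + τ (θ0 + 2 * Real.pi))).comp_add_const s _).sub_const _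
    have e2 : ∀ s, HasDerivAt (fun s => σ (s + τ θ0)) (cf w (σ (s + τ θ0))) s := fun s =>
      (hd (s + τ θ0)).comp_add_const s _
    have e3 := curve_unique_of_contDiff hF e1 e2 (by
      simp only [zero_add]
      rw [hstart]
      simp)
    intro t
    have e4 := congrFun e3 (t - τ θ0)
    rw [show t - τ θ0 + τ (θ0 + 2 * Real.pi) = t + δ by rw [hδ]; ring, sub_add_cancel] at e4
    rw [← e4]
    simp
  have hper2 : ∀ θ, r (θ + 2 * Real.pi) = r θ := by
    intro θ
    have h1 := hshift (τ θ)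
    have h2 : (σ (τ θ + δ)).2 = θ + 2 * Real.pi := by
      rw [h1]
      simp [hθτ]
    have h3 : τ (θ + 2 * Real.pi) = τ θ + δ := by
      rw [← h2, hτθ]
    simp only [hr]
    rw [h3, h1]
    simp
  refine ⟨r, hrpos, hper2, ?_, fun θ => ⟨hdet θ, hrd θ⟩⟩
  ext z
  constructor
  · rintro ⟨t, rfl⟩
    refine ⟨(σ t).2, ?_⟩
    simp only [zero_add]
    rw [← hσr, hτθ]
  · rintro ⟨θ, rfl⟩
    refine ⟨τ θ, ?_⟩
    simp only [zero_add]
    rw [hσr]

end Pool.Agent.Lib.MP_95e7ec_an
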