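import Mathlib
import Pool.Agent.Lib.MP_95e7ec_an.Rz.StarPolar

/-!
# Rz, StarParam: the polar equation of a star-shaped closed orbit
-/

set_option autoImplicit false

open Set Filter Topology MeasureTheory
open scoped ContDiff ENNReal

namespace Pool.Agent.Lib.MP_95e7ec_an

/-- Proof. `star_param0` for the field `z ↦ w (q + z)` and the translated curve. -/
theorem star_param {w : ℝ × ℝ → ℝ × ℝ} (hw : ContDiff ℝ 1 w) {C : Set (ℝ × ℝ)}
    (hC : IsClosedOrbit w C) {q : ℝ × ℝ} (h0 : q ∉ C)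
    (hpos : ∀ z ∈ C, 0 < det2 (z - q) (w z)) :
    ∃ r : ℝ → ℝ, (∀ θ, 0 < r θ) ∧ (∀ θ, r (θ + 2 * Real.pi) = r θ) ∧ C = pcurve q r ∧
      ∀ θ, 0 < det2 (dirv θ) (w (q + r θ • dirv θ)) ∧
        HasDerivAt r (r θ * (ipv (dirv θ) (w (q + r θ • dirv θ)) /
          det2 (dirv θ) (w (q + r θ • dirv θ)))) θ := by
  have hw' : ContDiff ℝ 1 (fun z => w (q + z)) := hw.comp (contDiff_const.add contDiff_id)
  have hC' : IsClosedOrbit (fun z => w (q + z)) ((fun z => z - q) '' C) := by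
    obtain ⟨γ, T, hT, hγ, hper, hne, hr⟩ := hC
    refine ⟨fun t => γ t - q, T, hT, fun t => ?_, fun t => ?_, ?_, ?_⟩
    · have h1 := (hγ t).sub_const q
      have h2 : q + (γ t - q) = γ t := by abel
      simpa only [h2] using h1
    · simp only [hper t]
    · obtain ⟨s, t, hst⟩ := hne
      exact ⟨s, t, fun h => hst (sub_left_injective h)⟩
    · rw [hr, ← Set.range_comp]
      rfl
  have h0' : (0 : ℝ × ℝ) ∉ (fun z => z - q) '' C := by
    rintro ⟨z, hz, hzq⟩
    exact h0 (sub_eq_zero.mp hzq ▸ hz)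
  have hpos' : ∀ z ∈ (fun z => z - q) '' C, 0 < det2 z (w (q + z)) := by
    rintro _ ⟨z, hz, rfl⟩
    have h2 : q + (z - q) = z := by abel
    simpa only [h2] using hpos z hz
  obtain ⟨r, h1, h2, h3, h4⟩ := star_param0 hw' hC' h0' hpos'
  refine ⟨r, h1, h2, ?_, h4⟩
  have h5 : C = (fun z => q + z) '' ((fun z => z - q) '' C) := by
    rw [Set.image_image]
    have h6 : (fun z : ℝ × ℝ => q + (z - q)) = id := by
      funext z
      simp
    rw [h6, Set.image_id]
  rw [h5, h3, pcurve, pcurve, ← Set.range_comp]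
  congr 1
  funext θ
  simp

end Pool.Agent.Lib.MP_95e7ec_an
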