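import Mathlib
import Pool.Agent.Lib.MP_95e7ec_an.Rz.QuadCenter
import Pool.Agent.Lib.MP_95e7ec_an.Rz.StarParam
import Pool.Agent.Lib.MP_95e7ec_an.Rz.LeafJac
import Pool.Agent.Lib.MP_95e7ec_an.Rz.QuadExpand

/-!
# Rz, QuadLeaf: closed orbits of quadratic fields are leaves
-/

set_option autoImplicit false

open Set Filter Topology MeasureTheory
open scoped ContDiff ENNReal

namespace Pool.Agent.Lib.MP_95e7ec_an

/-- One closed orbit of a quadratic field is a leaf about a zero with positive Jacobian determinant.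
Proof. `quad_center` gives `q`, `b`; `star_param` for `turn b (vf P Q)` gives `r`;
`quad_expand` and `leaf_of_star` (for the field `z ↦ vf P Q (q + z)`, `turn b` of it at `z` is
`turn b (vf P Q) (q + z)`) give the leaf with `m - k = 1`; `leaf_jac_pos` (the linear part is
`fderiv ℝ (vf P Q) q`) gives `0 < jacd`. `zin = ∅`: a point of `zin` gives `θ`, `0 < s < r θ` with
`pol A θ + s^1 pol B θ = 0`, i.e. `vf P Q (q + s • dirv θ) = 0` (`pol_zero_iff`), but
`q + s • dirv θ = q + (s / r θ) • (z - q)` with `z = q + r θ • dirv θ ∈ C`. -/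
theorem quad_leaf {P Q : MvPolynomial (Fin 2) ℝ} (hP : P.totalDegree ≤ 2)
    (hQ : Q.totalDegree ≤ 2) (a : ℝ) {C : Set (ℝ × ℝ)}
    (hC : IsClosedOrbit (turn a (vf P Q)) C) :
    ∃ (q : ℝ × ℝ) (b : ℝ) (r : ℝ → ℝ), (b = a ∨ b = a + Real.pi) ∧
      vf P Q q = 0 ∧ 0 < jacd (vf P Q) q ∧ C = pcurve q r ∧
      Leaf (pol fun z => fderiv ℝ (vf P Q) q z)
        (pol fun z => vf P Q (q + z) - fderiv ℝ (vf P Q) q z) 1 b r ∧
      zin (pol fun z => fderiv ℝ (vf P Q) q z)
        (pol fun z => vf P Q (q + z) - fderiv ℝ (vf P Q) q z) 1 r = ∅ := by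
  obtain ⟨q, b, hb, hCb, hq0, hqC, hpos, hnz⟩ := quad_center hP hQ a hC
  obtain ⟨r, hr, hper, hCr, hst⟩ := star_param (contDiff_turn (contDiff_vf P Q) b) hCb hqC hpos
  have hE := quad_expand hP hQ hq0
  have hleaf : Leaf (pol fun z => fderiv ℝ (vf P Q) q z)
      (pol fun z => vf P Q (q + z) - fderiv ℝ (vf P Q) q z) 1 b r :=
    leaf_of_star hE (b := b) hr hper (fun θ => hst θ)
  refine ⟨q, b, r, hb, hq0, ?_, hCr, hleaf, ?_⟩
  · refine leaf_jac_pos hE (fun x y => ?_) hleaf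
    show fderiv ℝ (vf P Q) q (x, y) =
      x • fderiv ℝ (vf P Q) q (1, 0) + y • fderiv ℝ (vf P Q) q (0, 1)
    rw [← map_smul, ← map_smul, ← map_add]
    congr 1
    ext
    · simp
    · simp
  · rw [Set.eq_empty_iff_forall_notMem]
    rintro z ⟨θ, s, hs, hsr, -, h0⟩
    have h1 : vf P Q (q + s • dirv θ) = 0 := (pol_zero_iff hE hs θ).1 h0
    have hz : q + r θ • dirv θ ∈ C := by
      rw [hCr]
      exact ⟨θ, rfl⟩
    have h2 := hnz _ hz (s / r θ) ⟨div_pos hs (hr θ), (div_le_one (hr θ)).2 hsr.le⟩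
    rw [add_sub_cancel_left, smul_smul, div_mul_cancel₀ _ (hr θ).ne'] at h2
    exact h2 h1

end Pool.Agent.Lib.MP_95e7ec_an
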