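import Mathlib
import Pool.Agent.Lib.MP_95e7ec_an.Rz.LeafOdd
import Pool.Agent.Lib.MP_95e7ec_an.Rz.QuadLeaf
import Pool.Agent.Lib.MP_95e7ec_an.Rz.JacThree

/-!
# Rz, FinalA: quadratic fields
-/

set_option autoImplicit false

open Set Filter Topology MeasureTheory
open scoped ContDiff ENNReal

namespace Pool.Agent.Lib.MP_95e7ec_an

/-- the number of elements of a finite union -/
private theorem finalA_biUnion {α β : Type*} (s : Finset α) (f : α → Set β) :
    (((⋃ i ∈ s, f i).encard : ℕ∞) : ℝ≥0∞) ≤ ∑ i ∈ s, (((f i).encard : ℕ∞) : ℝ≥0∞) := by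
  classical
  induction s using Finset.induction_on with
  | empty => simp
  | insert a s ha ih =>
    rw [Finset.sum_insert ha, Finset.set_biUnion_insert]
    calc (((f a ∪ ⋃ i ∈ s, f i).encard : ℕ∞) : ℝ≥0∞)
        ≤ (((f a).encard + (⋃ i ∈ s, f i).encard : ℕ∞) : ℝ≥0∞) :=
          ENat.toENNReal_mono (Set.encard_union_le _ _)
      _ = (((f a).encard : ℕ∞) : ℝ≥0∞) + (((⋃ i ∈ s, f i).encard : ℕ∞) : ℝ≥0∞) := by
          rw [ENat.toENNReal_add]
      _ ≤ _ := by gcongr

/-- the number of elements of the union of two images -/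
private theorem finalA_images {α β : Type*} (g : α → β) (s t : Set α) :
    (((g '' s ∪ g '' t).encard : ℕ∞) : ℝ≥0∞) ≤
      ((s.encard : ℕ∞) : ℝ≥0∞) + ((t.encard : ℕ∞) : ℝ≥0∞) := by
  rw [← ENat.toENNReal_add]
  exact ENat.toENNReal_mono ((Set.encard_union_le _ _).trans
    (add_le_add (Set.encard_image_le _ _) (Set.encard_image_le _ _)))

/-- **Quadratic fields**: the mean number of closed orbits over all the rotations is at most `3/2`.
Proof. The set `Z` of the zeros with positive Jacobian determinant is finite with at most three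
elements (`jac_three`). For `q ∈ Z` let `H_q` be from `leaf_count_odd` (`pq_of_hom`, `pol_anti` with
`quad_expand`), `E = ∅`, and `H a = ∑ q ∈ Z, (H_q a + H_q (a + π))`. By `quad_leaf` the set of the closed
orbits is contained in the union over `q ∈ Z` and `b ∈ {a, a+π}` of the images under `pcurve q` of
the sets in `lfN`, so its cardinality is at most `H a`. The integral of `H_q (a + π)` over `[0,2π]` is
the integral of `H_q` over `[π, 3π]`, at most `π/2`. The sum is at most `3 (π/2 + π/2)`. -/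
theorem quad_mean {P Q : MvPolynomial (Fin 2) ℝ} (hP : P.totalDegree ≤ 2)
    (hQ : Q.totalDegree ≤ 2) :
    ∃ H : ℝ → ℝ≥0∞, Measurable H ∧
      (∀ a, (({C : Set (ℝ × ℝ) | IsClosedOrbit (turn a (vf P Q)) C}.encard : ℕ∞) : ℝ≥0∞) ≤
        H a) ∧
      ∫⁻ a in Set.Icc 0 (2 * Real.pi), H a ≤ ENNReal.ofReal (3 * Real.pi) := by
  classical
  have hpi : (0 : ℝ) < Real.pi := Real.pi_pos
  -- the zeros with positive determinant
  have hfin : {q : ℝ × ℝ | vf P Q q = 0 ∧ 0 < jacd (vf P Q) q}.Finite := by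
    by_contra hinf
    obtain ⟨t, ht, htc⟩ := Set.Infinite.exists_subset_card_eq hinf 4
    have := jac_three hP hQ t (fun q hq => ht hq)
    omega
  set Z : Finset (ℝ × ℝ) := hfin.toFinset with hZ
  have hZm : ∀ q, q ∈ Z ↔ vf P Q q = 0 ∧ 0 < jacd (vf P Q) q := by
    intro q
    rw [hZ, Set.Finite.mem_toFinset]
    rfl
  have hZc : Z.card ≤ 3 := jac_three hP hQ Z (fun q hq => (hZm q).1 hq)
  -- the majorants
  have hex : ∀ q ∈ Z, ∃ H : ℝ → ℝ≥0∞, Measurable H ∧
      (∀ x, lfN (pol fun z => fderiv ℝ (vf P Q) q z)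
        (pol fun z => vf P Q (q + z) - fderiv ℝ (vf P Q) q z) 1 ∅ x ≤ H x) ∧
      ∀ t : ℝ, ∫⁻ x in Set.Icc t (t + 2 * Real.pi), H x ≤ ENNReal.ofReal (Real.pi / 2) := by
    intro q hq
    have hE := quad_expand hP hQ ((hZm q).1 hq).1
    obtain ⟨σ, hσ, hp, hq', -⟩ := pol_anti hE (by decide)
    exact leaf_count_odd (pq_of_hom hE) (le_refl 1) ∅ hσ hp hq'
  choose! H hHm hHc hHi using hex
  refine ⟨fun a => ∑ q ∈ Z, (H q a + H q (a + Real.pi)), ?_, ?_, ?_⟩
  · refine Finset.measurable_sum Z (fun q hq => ?_)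
    exact (hHm q hq).add ((hHm q hq).comp (measurable_id.add_const Real.pi))
  · intro a
    have hsub : {C : Set (ℝ × ℝ) | IsClosedOrbit (turn a (vf P Q)) C} ⊆
        ⋃ q ∈ Z, (pcurve q '' {r : ℝ → ℝ | Leaf (pol fun z => fderiv ℝ (vf P Q) q z)
            (pol fun z => vf P Q (q + z) - fderiv ℝ (vf P Q) q z) 1 a r ∧
            zin (pol fun z => fderiv ℝ (vf P Q) q z)
              (pol fun z => vf P Q (q + z) - fderiv ℝ (vf P Q) q z) 1 r = ∅} ∪
          pcurve q '' {r : ℝ → ℝ | Leaf (pol fun z => fderiv ℝ (vf P Q) q z)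
            (pol fun z => vf P Q (q + z) - fderiv ℝ (vf P Q) q z) 1 (a + Real.pi) r ∧
            zin (pol fun z => fderiv ℝ (vf P Q) q z)
              (pol fun z => vf P Q (q + z) - fderiv ℝ (vf P Q) q z) 1 r = ∅}) := by
      intro C hC
      obtain ⟨q, b, r, hb, h0, hj, hCr, hL, hz⟩ := quad_leaf hP hQ a hC
      simp only [mem_iUnion]
      refine ⟨q, (hZm q).2 ⟨h0, hj⟩, ?_⟩
      rcases hb with hb | hb
      · left
        rw [hb] at hL
        exact ⟨r, ⟨hL, hz⟩, hCr.symm⟩
      · right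
        rw [hb] at hL
        exact ⟨r, ⟨hL, hz⟩, hCr.symm⟩
    calc (({C : Set (ℝ × ℝ) | IsClosedOrbit (turn a (vf P Q)) C}.encard : ℕ∞) : ℝ≥0∞)
        ≤ _ := ENat.toENNReal_mono (Set.encard_le_encard hsub)
      _ ≤ _ := finalA_biUnion Z _
      _ ≤ ∑ q ∈ Z, (H q a + H q (a + Real.pi)) := by
          refine Finset.sum_le_sum (fun q hq => ?_)
          refine (finalA_images _ _ _).trans (add_le_add ?_ ?_)
          · exact hHc q hq a
          · exact hHc q hq (a + Real.pi)
  · have hm : ∀ q ∈ Z, Measurable fun a => H q a + H q (a + Real.pi) := fun q hq =>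
      (hHm q hq).add ((hHm q hq).comp (measurable_id.add_const Real.pi))
    rw [lintegral_finsetSum' Z (fun q hq => (hm q hq).aemeasurable)]
    have hone : ∀ q ∈ Z, ∫⁻ a in Set.Icc 0 (2 * Real.pi), (H q a + H q (a + Real.pi)) ≤
        ENNReal.ofReal Real.pi := by
      intro q hq
      rw [lintegral_add_left (hHm q hq)]
      have h1 : ∫⁻ a in Set.Icc 0 (2 * Real.pi), H q a ≤ ENNReal.ofReal (Real.pi / 2) := by
        have := hHi q hq 0
        rwa [zero_add] at this
      have h2 : ∫⁻ a in Set.Icc 0 (2 * Real.pi), H q (a + Real.pi) ≤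
          ENNReal.ofReal (Real.pi / 2) := by
        have h3 := (measurePreserving_add_right (volume : Measure ℝ)
          Real.pi).setLIntegral_comp_preimage
          (measurableSet_Icc (a := Real.pi) (b := Real.pi + 2 * Real.pi)) (hHm q hq)
        have h4 : (fun x : ℝ => x + Real.pi) ⁻¹' Icc Real.pi (Real.pi + 2 * Real.pi) =
            Icc 0 (2 * Real.pi) := by
          ext x
          simp only [mem_preimage, mem_Icc]
          constructor
          · rintro ⟨h5, h6⟩
            exact ⟨by linarith, by linarith⟩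
          · rintro ⟨h5, h6⟩
            exact ⟨by linarith, by linarith⟩
        rw [h4] at h3
        rw [h3]
        exact hHi q hq Real.pi
      calc _ ≤ ENNReal.ofReal (Real.pi / 2) + ENNReal.ofReal (Real.pi / 2) := add_le_add h1 h2
        _ = ENNReal.ofReal Real.pi := by
            rw [← ENNReal.ofReal_add (by positivity) (by positivity)]
            congr 1
            ring
    calc ∑ q ∈ Z, ∫⁻ a in Set.Icc 0 (2 * Real.pi), (H q a + H q (a + Real.pi))
        ≤ ∑ _q ∈ Z, ENNReal.ofReal Real.pi := Finset.sum_le_sum hone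
      _ = (Z.card : ℝ≥0∞) * ENNReal.ofReal Real.pi := by
          rw [Finset.sum_const, nsmul_eq_mul]
      _ ≤ 3 * ENNReal.ofReal Real.pi := by
          gcongr
          exact_mod_cast hZc
      _ = ENNReal.ofReal (3 * Real.pi) := by
          rw [ENNReal.ofReal_mul (by norm_num)]
          norm_num

end Pool.Agent.Lib.MP_95e7ec_an
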