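import Mathlib
import Pool.Agent.Lib.MP_95e7ec_an.Rz.Chord

/-!
# Rz, HomNonneg: the angle does not decrease along a closed orbit around the centre
-/

set_option autoImplicit false

open Set Filter Topology MeasureTheory
open scoped ContDiff ENNReal

namespace Pool.Agent.Lib.MP_95e7ec_an

/-- Proof. Let `z ∈ C`; `z ≠ 0` as `0 ∈ D`, disjoint from `C`. Apply `side_chord` and `side_last` at the
inside point `0` with `e = z`: `β₁ > 0` first and `β₂ > 0` last parameter with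
`β • e ∈ C`, `0 ≤ y β₁`, `0 ≤ y β₂`, `y s = det2 e (turn b v (s • e)) = s^k (x₁ + s^(m-k) x₂)` with
`x₁ = det2 e (turn b A e)`, `x₂ = det2 e (turn b B e)`. `z` has the parameter `1`, so
`β₁ ≤ 1 ≤ β₂` (the points before `β₁` are in `D`, after `β₂` not in `C`). `x₁ + s^(m-k) x₂` is
monotone in `s`, it is `≥ 0` at `β₁` and `β₂`, so it is `≥ 0` at `1`. -/
theorem hom_nonneg {v A B : ℝ × ℝ → ℝ × ℝ} {k m : ℕ} (h : HomSum v A B k m) {b : ℝ}
    {C D : Set (ℝ × ℝ)} (hJ : JP C D) (hS : Side (turn b v) C D) (h0 : (0 : ℝ × ℝ) ∈ D)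
    {z : ℝ × ℝ} (hz : z ∈ C) : 0 ≤ det2 z (turn b v z) := by
  have hz0 : z ≠ 0 := by
    rintro rfl
    exact Set.disjoint_left.1 hJ.disj h0 hz
  obtain ⟨α, β₁, hα, hβ₁, hD, -, -, -, h1⟩ := side_chord hJ hS h0 hz0
  obtain ⟨β₂, hβ₂, -, hlast, h2⟩ := side_last hJ hS h0 hz0
  have hb1 : β₁ ≤ 1 := by
    by_contra hc
    have h3 := hD 1 ⟨by linarith, by linarith⟩
    rw [zero_add, one_smul] at h3
    exact Set.disjoint_left.1 hJ.disj h3 hz
  have hb2 : 1 ≤ β₂ := by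
    by_contra hc
    have h3 := hlast 1 (by linarith)
    rw [zero_add, one_smul] at h3
    exact h3 hz
  have hval : ∀ s : ℝ, det2 z (turn b v (s • z)) =
      s ^ k * (det2 z (turn b A z) + s ^ (m - k) * det2 z (turn b B z)) := by
    intro s
    have hm : s ^ m = s ^ k * s ^ (m - k) := by
      rw [← pow_add, Nat.add_sub_cancel' h.lt.le]
    have h3 : v (s • z) = s ^ k • A z + s ^ m • B z := by
      rw [h.sum, h.homA, h.homB]
    rw [hm] at h3
    simp only [turn, det2, h3, Prod.fst_add, Prod.snd_add, Prod.smul_fst, Prod.smul_snd,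
      smul_eq_mul]
    ring
  rw [zero_add, hval] at h1 h2
  have h1' : 0 ≤ det2 z (turn b A z) + β₁ ^ (m - k) * det2 z (turn b B z) :=
    nonneg_of_mul_nonneg_right h1 (pow_pos hβ₁ k)
  have h2' : 0 ≤ det2 z (turn b A z) + β₂ ^ (m - k) * det2 z (turn b B z) :=
    nonneg_of_mul_nonneg_right h2 (pow_pos hβ₂ k)
  have h3 := hval 1
  rw [one_smul, one_pow, one_pow, one_mul, one_mul] at h3
  rw [h3]
  have hp1 : β₁ ^ (m - k) ≤ 1 := pow_le_one₀ hβ₁.le hb1
  have hp2 : 1 ≤ β₂ ^ (m - k) := one_le_pow₀ hb2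
  rcases le_total 0 (det2 z (turn b B z)) with h4 | h4
  · nlinarith [mul_nonneg (sub_nonneg.2 hp1) h4]
  · nlinarith [mul_nonneg (sub_nonneg.2 hp2) (neg_nonneg.2 h4)]

end Pool.Agent.Lib.MP_95e7ec_an
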