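import Mathlib
import Pool.Agent.Lib.MP_95e7ec_an.Rz.InvLine
import Pool.Agent.Lib.MP_95e7ec_an.Duff

/-!
# Rz, HomPos: the angle increases strictly
-/

set_option autoImplicit false

open Set Filter Topology MeasureTheory
open scoped ContDiff ENNReal

namespace Pool.Agent.Lib.MP_95e7ec_an

private theorem homPos_parallel {z u : ℝ × ℝ} (hz : z ≠ 0) (h : det2 z u = 0) :
    ∃ μ : ℝ, u = μ • z := by
  have hn : z.1 ^ 2 + z.2 ^ 2 ≠ 0 := by
    intro h0
    apply hz
    have h1 : z.1 = 0 := by nlinarith [sq_nonneg z.1, sq_nonneg z.2]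
    have h2 : z.2 = 0 := by nlinarith [sq_nonneg z.1, sq_nonneg z.2]
    exact Prod.ext h1 h2
  refine ⟨(z.1 * u.1 + z.2 * u.2) / (z.1 ^ 2 + z.2 ^ 2), ?_⟩
  simp only [det2] at h
  ext
  · simp only [Prod.smul_fst, smul_eq_mul]
    field_simp
    linear_combination -z.2 * h
  · simp only [Prod.smul_snd, smul_eq_mul]
    field_simp
    linear_combination z.1 * h

private theorem homPos_sum {v A B : ℝ × ℝ → ℝ × ℝ} {k m : ℕ} (h : HomSum v A B k m) (b : ℝ)
    (s : ℝ) (z : ℝ × ℝ) :
    turn b v (s • z) = s ^ k • turn b A z + s ^ m • turn b B z := by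
  simp only [turn, h.sum, h.homA, h.homB]
  ext
  · simp only [Prod.fst_add, Prod.snd_add, Prod.smul_fst, Prod.smul_snd, smul_eq_mul]
    ring
  · simp only [Prod.fst_add, Prod.snd_add, Prod.smul_fst, Prod.smul_snd, smul_eq_mul]
    ring

/-- Proof. Let `w = turn b v` and suppose `det2 z (w z) = 0` at a point `z ∈ C`. Let `γ` be a periodic
solution with range `C`, `γ 0 = z` (`exists_param_of_contDiff`). `g t = det2 (γ t) (w (γ t)) ≥ 0`
has a minimum at `0`, so `0 = g' 0 = det2 (w z) (w z) + det2 z (fderiv ℝ w z (w z)) =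
det2 z (fderiv ℝ w z (w z))`. `w z ≠ 0`, `z ≠ 0` and `det2 z (w z) = 0`, so `w z = μ • z`, `μ ≠ 0`, so
`det2 z (fderiv ℝ w z z) = 0`. The derivative of `s ↦ w (s • z) = s^k • turn b A z + s^m • turn b B z` at
`s = 1` is `fderiv ℝ w z z = k • turn b A z + m • turn b B z`. With `x = det2 z (turn b A z)`,
`y = det2 z (turn b B z)`: `x + y = 0`, `k x + m y = 0`, `k ≠ m`, so `x = y = 0` and
`det2 z (w (s • z)) = 0` for all real `s`: `no_orbit_line` with `x₀ = 0`, `e = z` says `z ∉ C`. -/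
theorem hom_pos {v A B : ℝ × ℝ → ℝ × ℝ} {k m : ℕ} (h : HomSum v A B k m) {b : ℝ}
    {C : Set (ℝ × ℝ)} (hC : IsClosedOrbit (turn b v) C) (h0 : (0 : ℝ × ℝ) ∉ C)
    (hn : ∀ z ∈ C, 0 ≤ det2 z (turn b v z)) {z : ℝ × ℝ} (hz : z ∈ C) :
    0 < det2 z (turn b v z) := by
  rcases (hn z hz).lt_or_eq with hp | hz1
  · exact hp
  exfalso
  have hv : ContDiff ℝ 1 v := by
    have h1 : v = fun z => A z + B z := funext h.sum
    rw [h1]
    exact h.dA.add h.dB
  have hw : ContDiff ℝ 1 (turn b v) := contDiff_turn' hv b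
  have hz0 : z ≠ 0 := fun h1 => h0 (h1 ▸ hz)
  have hwz : turn b v z ≠ 0 := hC.ne_zero_of_contDiff hw hz
  obtain ⟨γ, T, hT, hγ, hper, hγ0, hCr, -⟩ := hC.exists_param_of_contDiff hw hz
  obtain ⟨μ, hμ⟩ := homPos_parallel hz0 hz1.symm
  have hμ0 : μ ≠ 0 := by
    rintro rfl
    exact hwz (by rw [hμ, zero_smul])
  have hD : HasFDerivAt (turn b v) (fderiv ℝ (turn b v) z) z :=
    (hw.differentiable one_ne_zero z).hasFDerivAt
  -- the derivative along the orbit
  have hg1 : HasDerivAt (fun t => turn b v (γ t)) (fderiv ℝ (turn b v) z (turn b v z)) 0 := by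
    have h1 : HasDerivAt γ (turn b v z) 0 := by
      have := hγ 0
      rwa [hγ0] at this
    have h2 : HasFDerivAt (turn b v) (fderiv ℝ (turn b v) z) (γ 0) := by rw [hγ0]; exact hD
    exact h2.comp_hasDerivAt (0 : ℝ) h1
  have hg2 : HasDerivAt γ (turn b v z) 0 := by
    have := hγ 0
    rwa [hγ0] at this
  have hg : HasDerivAt (fun t => det2 (γ t) (turn b v (γ t)))
      (det2 z (fderiv ℝ (turn b v) z (turn b v z))) 0 := by
    have a1 : HasDerivAt (fun t => (γ t).1) (turn b v z).1 0 := hg2.fst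
    have a2 : HasDerivAt (fun t => (γ t).2) (turn b v z).2 0 := hg2.snd
    have b1 : HasDerivAt (fun t => (turn b v (γ t)).1)
      (fderiv ℝ (turn b v) z (turn b v z)).1 0 := hg1.fst
    have b2 : HasDerivAt (fun t => (turn b v (γ t)).2)
      (fderiv ℝ (turn b v) z (turn b v z)).2 0 := hg1.snd
    have h3 := (a1.mul b2).sub (a2.mul b1)
    refine h3.congr_deriv ?_
    rw [hγ0]
    simp only [det2]
    ring
  have hmin : IsLocalMin (fun t => det2 (γ t) (turn b v (γ t))) 0 := by
    refine Filter.Eventually.of_forall fun t => ?_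
    show det2 (γ 0) (turn b v (γ 0)) ≤ det2 (γ t) (turn b v (γ t))
    rw [hγ0, ← hz1]
    exact hn _ (by rw [hCr]; exact ⟨t, rfl⟩)
  have h4 : det2 z (fderiv ℝ (turn b v) z (turn b v z)) = 0 := hmin.hasDerivAt_eq_zero hg
  have h5 : det2 z (fderiv ℝ (turn b v) z z) = 0 := by
    have h6 : fderiv ℝ (turn b v) z (turn b v z) = μ • fderiv ℝ (turn b v) z z := by
      conv_lhs => rw [hμ]
      rw [map_smul]
    rw [h6, rb_det2_smul_right] at h4
    exact (mul_eq_zero.1 h4).resolve_left hμ0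
  -- the derivative along the ray
  have hr1 : HasDerivAt (fun s : ℝ => turn b v (s • z)) (fderiv ℝ (turn b v) z z) 1 := by
    have h1 : HasDerivAt (fun s : ℝ => s • z) z 1 := by
      simpa using (hasDerivAt_id (1 : ℝ)).smul_const z
    have h2 : HasFDerivAt (turn b v) (fderiv ℝ (turn b v) z) ((1 : ℝ) • z) := by
      rw [one_smul]; exact hD
    exact h2.comp_hasDerivAt (1 : ℝ) h1
  have hr2 : HasDerivAt (fun s : ℝ => turn b v (s • z))
      ((k : ℝ) • turn b A z + (m : ℝ) • turn b B z) 1 := by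
    have h1 : (fun s : ℝ => turn b v (s • z)) =
        fun s : ℝ => s ^ k • turn b A z + s ^ m • turn b B z :=
      funext fun s => homPos_sum h b s z
    rw [h1]
    have h2 := ((hasDerivAt_pow k (1 : ℝ)).smul_const (turn b A z)).add
      ((hasDerivAt_pow m (1 : ℝ)).smul_const (turn b B z))
    refine h2.congr_deriv ?_
    simp
  have h7 := hr1.unique hr2
  have h8 := homPos_sum h b 1 z
  rw [one_smul, one_pow, one_pow, one_smul, one_smul] at h8
  have h9 : det2 z (turn b A z) + det2 z (turn b B z) = 0 := by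
    rw [← rb_det2_add_right, ← h8, ← hz1]
  have h10 : (k : ℝ) * det2 z (turn b A z) + (m : ℝ) * det2 z (turn b B z) = 0 := by
    rw [← rb_det2_smul_right, ← rb_det2_smul_right, ← rb_det2_add_right, ← h7, h5]
  have hkm : (m : ℝ) - k ≠ 0 := by
    have : (k : ℝ) < m := by exact_mod_cast h.lt
    linarith
  have hy : det2 z (turn b B z) = 0 := by
    have : ((m : ℝ) - k) * det2 z (turn b B z) = 0 := by linear_combination h10 - (k : ℝ) * h9
    exact (mul_eq_zero.1 this).resolve_left hkm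
  have hx : det2 z (turn b A z) = 0 := by linarith
  have hl : ∀ s : ℝ, det2 z (turn b v (0 + s • z)) = 0 := by
    intro s
    rw [zero_add, homPos_sum h b s z, rb_det2_add_right, rb_det2_smul_right, rb_det2_smul_right,
      hx, hy, mul_zero, mul_zero, add_zero]
  have h11 := no_orbit_line hw hz0 hl hC 1
  rw [zero_add, one_smul] at h11
  exact h11 hz

end Pool.Agent.Lib.MP_95e7ec_an
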