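import Mathlib
import Pool.Agent.Lib.MP_95e7ec_an.Rz.HomNonneg
import Pool.Agent.Lib.MP_95e7ec_an.Rz.HomPos
import Pool.Agent.Lib.MP_95e7ec_an.Rb.Barrier
import Pool.Agent.Lib.MP_95e7ec_an.Rb.Time
import Pool.Agent.Lib.MP_95e7ec_an.Duff

/-!
# Rz, HomCenter: closed orbits around the centre are star-shaped
-/

set_option autoImplicit false

open Set Filter Topology MeasureTheory
open scoped ContDiff ENNReal

namespace Pool.Agent.Lib.MP_95e7ec_an

private theorem HomCenter_turn_pi (a : ℝ) (v : ℝ × ℝ → ℝ × ℝ) :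
    turn (a + Real.pi) v = fun z => -turn a v z := by
  funext z
  ext
  · simp only [turn, Real.cos_add_pi, Real.sin_add_pi, Prod.fst_neg]
    ring
  · simp only [turn, Real.cos_add_pi, Real.sin_add_pi, Prod.snd_neg]
    ring

/-- Proof. `Surr` gives `γ`, `T`; `exists_barrier` (nonconstant by `hC`) gives `ε`, `D`, with `0 ∈ D`.
As in `quad_center` let `b = a` or `a + π` according to `ε`; `hom_nonneg`, `hom_pos`. -/
theorem hom_center {v A B : ℝ × ℝ → ℝ × ℝ} {k m : ℕ} (h : HomSum v A B k m) (a : ℝ)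
    {C : Set (ℝ × ℝ)} (hC : IsClosedOrbit (turn a v) C) (h0 : Surr (turn a v) C 0) :
    ∃ b : ℝ, (b = a ∨ b = a + Real.pi) ∧ IsClosedOrbit (turn b v) C ∧
      ∀ z ∈ C, 0 < det2 z (turn b v z) := by
  have hv : ContDiff ℝ 1 v := by
    have h1 : v = fun z => A z + B z := funext h.sum
    rw [h1]
    exact h.dA.add h.dB
  have hsm : ContDiff ℝ 1 (turn a v) := contDiff_turn hv a
  obtain ⟨h0C, γ, T, hT, hγ, hper, hCr, hw⟩ := h0
  have hne : ∃ s t : ℝ, γ s ≠ γ t := by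
    obtain ⟨γ₁, T₁, -, -, -, ⟨s, t, hst⟩, hr⟩ := id hC
    have h1 : γ₁ s ∈ Set.range γ := by
      rw [← hCr, hr]
      exact ⟨s, rfl⟩
    have h2 : γ₁ t ∈ Set.range γ := by
      rw [← hCr, hr]
      exact ⟨t, rfl⟩
    obtain ⟨s', hs'⟩ := h1
    obtain ⟨t', ht'⟩ := h2
    exact ⟨s', t', by rw [hs', ht']; exact hst⟩
  obtain ⟨ε, hε, hJ, hS, -⟩ := exists_barrier hsm hT hγ hper hne
  rw [← hCr] at hJ hS
  have h0D : (0 : ℝ × ℝ) ∈ {y : ℝ × ℝ | y ∉ C ∧ wnd γ (fun t => turn a v (γ t)) T y ≠ 0} :=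
    ⟨h0C, hw⟩
  rcases hε with h1 | h1
  · refine ⟨a, Or.inl rfl, hC, ?_⟩
    subst h1
    have hS' : Side (turn a v) C
        {y : ℝ × ℝ | y ∉ C ∧ wnd γ (fun t => turn a v (γ t)) T y ≠ 0} := by
      simpa only [one_smul] using hS
    exact fun z hz => hom_pos h hC h0C (fun z hz => hom_nonneg h hJ hS' h0D hz) hz
  · have hCn : IsClosedOrbit (turn (a + Real.pi) v) C := by
      rw [HomCenter_turn_pi]
      exact hC.neg
    refine ⟨a + Real.pi, Or.inr rfl, hCn, ?_⟩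
    subst h1
    have hS' : Side (turn (a + Real.pi) v) C
        {y : ℝ × ℝ | y ∉ C ∧ wnd γ (fun t => turn a v (γ t)) T y ≠ 0} := by
      rw [HomCenter_turn_pi]
      simpa only [neg_smul, one_smul] using hS
    exact fun z hz => hom_pos h hCn h0C (fun z hz => hom_nonneg h hJ hS' h0D hz) hz

end Pool.Agent.Lib.MP_95e7ec_an
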