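import Mathlib
import Pool.Agent.Lib.MP_95e7ec_an.Rz.Defs
import Pool.Agent.Lib.MP_95e7ec_an.Rz.NoZero
import Pool.Agent.Lib.MP_95e7ec_an.Rb.WndInt
import Pool.Agent.Lib.MP_95e7ec_an.Orbits
import Pool.Agent.Lib.MP_95e7ec_an.Rb.Basic

/-!
# Rz, SurrIff: the points surrounded by a star-shaped curve
-/

set_option autoImplicit false

open Set Filter Topology MeasureTheory
open scoped ContDiff ENNReal

namespace Pool.Agent.Lib.MP_95e7ec_an

private lemma surrIff_per {r : ℝ → ℝ} (hper : ∀ θ, r (θ + 2 * Real.pi) = r θ) (θ : ℝ) (j : ℤ) :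
    r (θ + 2 * Real.pi * j) = r θ := by
  have h : Function.Periodic r (2 * Real.pi) := hper
  have h1 := h.int_mul j θ
  rw [← h1]
  congr 1
  ring

private lemma surrIff_not_mem {r : ℝ → ℝ} (hr : ∀ θ, 0 < r θ)
    (hper : ∀ θ, r (θ + 2 * Real.pi) = r θ) {θ t : ℝ} (ht : 0 < t) (hne : t ≠ r θ) :
    t • dirv θ ∉ pcurve 0 r := by
  rintro ⟨θ', hθ'⟩
  simp only [zero_add] at hθ'
  obtain ⟨h1, j, hj⟩ := polar_unique ht (hr θ') hθ'.symm
  apply hne
  rw [h1, hj, surrIff_per hper]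

private lemma surrIff_compact {r : ℝ → ℝ} (hrc : Continuous r)
    (hper : ∀ θ, r (θ + 2 * Real.pi) = r θ) : IsCompact (pcurve 0 r) := by
  have hc : Continuous fun θ => (0 : ℝ × ℝ) + r θ • dirv θ := by
    have hd : Continuous dirv := by
      unfold dirv
      exact Real.continuous_cos.prodMk Real.continuous_sin
    exact continuous_const.add (hrc.smul hd)
  have hp : Function.Periodic (fun θ => (0 : ℝ × ℝ) + r θ • dirv θ) (2 * Real.pi) := by
    intro θ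
    simp only [hper, rb_dirv_two_pi]
  have h2 : (0 : ℝ) < 2 * Real.pi := by positivity
  have : pcurve 0 r = (fun θ => (0 : ℝ × ℝ) + r θ • dirv θ) '' Set.Icc 0 (0 + 2 * Real.pi) := by
    rw [hp.image_Icc h2]
    rfl
  rw [this]
  exact isCompact_Icc.image hc

private lemma surrIff_const {γ γ' : ℝ → ℝ × ℝ} {T : ℝ} (hT0 : 0 ≤ T)
    (hγ : ∀ t, HasDerivAt γ (γ' t) t) (hc : Continuous γ') (hT : ∀ t, γ (t + T) = γ t)
    (hcl : IsClosed (Set.range γ)) {S : Set (ℝ × ℝ)} (hS : IsPreconnected S)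
    (hd : ∀ y ∈ S, y ∉ Set.range γ) {x y : ℝ × ℝ} (hx : x ∈ S) (hy : y ∈ S) :
    wnd γ γ' T y = wnd γ γ' T x := by
  have hU : IsOpen {z : ℝ × ℝ | z ∉ Set.range γ ∧ wnd γ γ' T z = wnd γ γ' T x} := by
    rw [isOpen_iff_mem_nhds]
    rintro z ⟨hz1, hz2⟩
    filter_upwards [wnd_locally_const hT0 hγ hc hT hz1 hcl] with u hu
    exact ⟨hu.1, hu.2.trans hz2⟩
  have hV : IsOpen {z : ℝ × ℝ | z ∉ Set.range γ ∧ wnd γ γ' T z ≠ wnd γ γ' T x} := by
    rw [isOpen_iff_mem_nhds]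
    rintro z ⟨hz1, hz2⟩
    filter_upwards [wnd_locally_const hT0 hγ hc hT hz1 hcl] with u hu
    exact ⟨hu.1, fun h => hz2 (hu.2.symm.trans h)⟩
  have hdis : Disjoint {z : ℝ × ℝ | z ∉ Set.range γ ∧ wnd γ γ' T z = wnd γ γ' T x}
      {z : ℝ × ℝ | z ∉ Set.range γ ∧ wnd γ γ' T z ≠ wnd γ γ' T x} := by
    rw [Set.disjoint_left]
    rintro z ⟨_, h1⟩ ⟨_, h2⟩
    exact h2 h1
  have hsub : S ⊆ {z : ℝ × ℝ | z ∉ Set.range γ ∧ wnd γ γ' T z = wnd γ γ' T x} ∪
      {z : ℝ × ℝ | z ∉ Set.range γ ∧ wnd γ γ' T z ≠ wnd γ γ' T x} := by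
    intro z hz
    by_cases h : wnd γ γ' T z = wnd γ γ' T x
    · exact Or.inl ⟨hd z hz, h⟩
    · exact Or.inr ⟨hd z hz, h⟩
  have := hS.subset_left_of_subset_union hU hV hdis hsub ⟨x, hx, hd x hx, rfl⟩
  exact (this hy).2

/-- Proof. `C` is compact. Every point is `z = s • dirv θ`, `s ≥ 0`; it is on `C` iff `s = r θ`
(`polar_unique`, `r` has period `2π`). If `s > r θ`: the ray from `z` outwards does not meet `C`, the
winding number (of any periodic parametrisation `γ`, `T`) is constant on it (`wnd_locally_const`, a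
locally constant function on a preconnected set) and `0` far away (`wnd_far`), so `Surr` is false.
If `s < r θ`: the segment from `0` to `z` does not meet `C`, so for the parametrisation which `h0` gives
the winding number about `z` is the one about `0`, not zero. -/
theorem surr_iff {w : ℝ × ℝ → ℝ × ℝ} (hw : ContDiff ℝ 1 w) {C : Set (ℝ × ℝ)} {r : ℝ → ℝ}
    (hr : ∀ θ, 0 < r θ) (hrc : Continuous r) (hper : ∀ θ, r (θ + 2 * Real.pi) = r θ)
    (hCr : C = pcurve 0 r) (h0 : Surr w C 0) (z : ℝ × ℝ) :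
    Surr w C z ↔ ∃ θ s : ℝ, 0 ≤ s ∧ s < r θ ∧ z = s • dirv θ := by
  have hcpt : IsCompact C := by rw [hCr]; exact surrIff_compact hrc hper
  have hwc : Continuous w := hw.continuous
  have key : ∀ (γ : ℝ → ℝ × ℝ) (T : ℝ), 0 < T → (∀ t : ℝ, HasDerivAt γ (w (γ t)) t) →
      (∀ t : ℝ, γ (t + T) = γ t) → C = Set.range γ →
      ∀ S : Set (ℝ × ℝ), IsPreconnected S → (∀ y ∈ S, y ∉ C) → ∀ x ∈ S, ∀ y ∈ S,
      wnd γ (fun t => w (γ t)) T y = wnd γ (fun t => w (γ t)) T x := by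
    intro γ T hT hγ hγT hCγ S hS hd x hx y hy
    have hγc : Continuous γ := continuous_iff_continuousAt.2 fun t => (hγ t).continuousAt
    refine surrIff_const hT.le hγ (hwc.comp hγc) hγT ?_ hS ?_ hx hy
    · rw [← hCγ]; exact hcpt.isClosed
    · rw [← hCγ]; exact hd
  have hline : ∀ (θ : ℝ) (I : Set ℝ), I.OrdConnected →
      IsPreconnected ((fun t : ℝ => t • dirv θ) '' I) := by
    intro θ I hI
    have hc : Continuous fun t : ℝ => t • dirv θ := continuous_id.smul continuous_const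
    exact (hI.isPreconnected).image _ hc.continuousOn
  constructor
  · rintro ⟨hzC, γ, T, hT, hγ, hγT, hCγ, hwz⟩
    obtain ⟨θ, hθ⟩ := rb_exists_dir z
    refine ⟨θ, nm z, rb_nm_nonneg z, ?_, hθ⟩
    by_contra hcon
    push Not at hcon
    have hne : nm z ≠ r θ := by
      intro h
      apply hzC
      rw [hCr]
      refine ⟨θ, ?_⟩
      simp only [zero_add]
      rw [← h]
      exact hθ.symm
    have hlt : r θ < nm z := lt_of_le_of_ne hcon hne.symm
    have hγc : Continuous γ := continuous_iff_continuousAt.2 fun t => (hγ t).continuousAt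
    obtain ⟨R, hR⟩ := wnd_far hT.le hγ (hwc.comp hγc) hγT (by rw [← hCγ]; exact hcpt.isBounded)
    have hS := hline θ (Set.Ici (nm z)) Set.ordConnected_Ici
    have hd : ∀ y ∈ (fun t : ℝ => t • dirv θ) '' Set.Ici (nm z), y ∉ C := by
      rintro y ⟨t, ht, rfl⟩
      rw [hCr]
      have ht' : nm z ≤ t := ht
      exact surrIff_not_mem hr hper (lt_of_lt_of_le ((hr θ).trans hlt) ht')
        (ne_of_gt (lt_of_lt_of_le hlt ht'))
    have hz : z ∈ (fun t : ℝ => t • dirv θ) '' Set.Ici (nm z) :=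
      ⟨nm z, Set.mem_Ici.2 le_rfl, hθ.symm⟩
    have hf : max (nm z) R • dirv θ ∈ (fun t : ℝ => t • dirv θ) '' Set.Ici (nm z) :=
      ⟨max (nm z) R, Set.mem_Ici.2 (le_max_left _ _), rfl⟩
    have h1 := key γ T hT hγ hγT hCγ _ hS hd _ hf _ hz
    have h2 := hR (max (nm z) R • dirv θ) (by
      rw [rb_nm_smul, rb_nm_dirv, mul_one, abs_of_nonneg ((rb_nm_nonneg z).trans (le_max_left _ _))]
      exact le_max_right _ _)
    exact hwz (h1.trans h2.2)
  · rintro ⟨θ, s, hs0, hs, rfl⟩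
    obtain ⟨h0C, γ, T, hT, hγ, hγT, hCγ, hwz⟩ := h0
    have hS := hline θ (Set.Icc 0 s) Set.ordConnected_Icc
    have hd : ∀ y ∈ (fun t : ℝ => t • dirv θ) '' Set.Icc 0 s, y ∉ C := by
      rintro y ⟨t, ⟨ht1, ht2⟩, rfl⟩
      rcases ht1.eq_or_lt with h | h
      · rw [← h]
        simpa using h0C
      · rw [hCr]
        exact surrIff_not_mem hr hper h (ne_of_lt (lt_of_le_of_lt ht2 hs))
    have hz : s • dirv θ ∈ (fun t : ℝ => t • dirv θ) '' Set.Icc 0 s := ⟨s, ⟨hs0, le_rfl⟩, rfl⟩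
    have hf : (0 : ℝ × ℝ) ∈ (fun t : ℝ => t • dirv θ) '' Set.Icc 0 s :=
      ⟨0, ⟨le_rfl, hs0⟩, by simp⟩
    refine ⟨hd _ hz, γ, T, hT, hγ, hγT, hCγ, ?_⟩
    rw [key γ T hT hγ hγT hCγ _ hS hd _ hf _ hz]
    exact hwz

end Pool.Agent.Lib.MP_95e7ec_an
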