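import Mathlib
import Pool.Agent.Lib.MP_95e7ec_an.Rz.HomCenter
import Pool.Agent.Lib.MP_95e7ec_an.Rz.StarParam
import Pool.Agent.Lib.MP_95e7ec_an.Rz.HomLeaf
import Pool.Agent.Lib.MP_95e7ec_an.Rz.SurrIff

/-!
# Rz, AroundLeaf: closed orbits around the origin are leaves
-/

set_option autoImplicit false

open Set Filter Topology MeasureTheory
open scoped ContDiff ENNReal

namespace Pool.Agent.Lib.MP_95e7ec_an

/-- the closed orbits of `turn a v` around the origin with exactly the zeros `E` of `v` inside -/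
def aroundE (v : ℝ × ℝ → ℝ × ℝ) (E : Set (ℝ × ℝ)) (a : ℝ) : Set (Set (ℝ × ℝ)) :=
  {C | IsClosedOrbit (turn a v) C ∧ Surr (turn a v) C 0 ∧
    {z | v z = 0 ∧ Surr (turn a v) C z} = E}

/-- Proof. `hom_center` gives `b`, `star_param0` for `turn b v` gives `r`, `leaf_of_star` the leaf.
`zin = E \ {0}`: by `surr_iff` (for `turn a v`; `r` is continuous) the surrounded points are the
`s • dirv θ`, `0 ≤ s < r θ`; for `s > 0` use `pol_zero_iff`; `s = 0` is the point `0`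
(and `s • dirv θ ≠ 0` for `s > 0`). -/
theorem around_leaf {v A B : ℝ × ℝ → ℝ × ℝ} {k m : ℕ} (h : HomSum v A B k m)
    {E : Set (ℝ × ℝ)} {a : ℝ} {C : Set (ℝ × ℝ)} (hC : C ∈ aroundE v E a) :
    ∃ (b : ℝ) (r : ℝ → ℝ), (b = a ∨ b = a + Real.pi) ∧ C = pcurve 0 r ∧
      Leaf (pol A) (pol B) (m - k) b r ∧ zin (pol A) (pol B) (m - k) r = E \ {0} := by
  obtain ⟨hCo, hS0, hE⟩ := hC
  have hv : ContDiff ℝ 1 v := by
    have h1 : v = fun z => A z + B z := funext h.sum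
    rw [h1]
    exact h.dA.add h.dB
  obtain ⟨b, hb, hCb, hpos⟩ := hom_center h a hCo hS0
  obtain ⟨r, hr, hper, hCr, hst⟩ := star_param0 (contDiff_turn hv b) hCb hS0.1 hpos
  have hrc : Continuous r := continuous_iff_continuousAt.2 fun θ => (hst θ).2.continuousAt
  refine ⟨b, r, hb, hCr, leaf_of_star h hr hper hst, ?_⟩
  ext z
  rw [← hE]
  constructor
  · rintro ⟨θ, s, hs, hsr, hz, h0⟩
    have h1 : v (s • dirv θ) = 0 := (pol_zero_iff h hs θ).1 h0
    refine ⟨⟨by rw [hz]; exact h1, ?_⟩, ?_⟩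
    · exact (surr_iff (contDiff_turn hv a) hr hrc hper hCr hS0 z).2 ⟨θ, s, hs.le, hsr, hz⟩
    · intro hz0
      have hz1 : z = 0 := hz0
      rw [hz] at hz1
      rcases smul_eq_zero.1 hz1 with h2 | h2
      · exact hs.ne' h2
      · exact rb_dirv_ne θ h2
  · rintro ⟨⟨hvz, hSz⟩, hz0⟩
    obtain ⟨θ, s, hs, hsr, hz⟩ := (surr_iff (contDiff_turn hv a) hr hrc hper hCr hS0 z).1 hSz
    have hs0 : s ≠ 0 := by
      intro h2
      apply hz0
      show z = 0
      rw [hz, h2, zero_smul]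
    have hspos : 0 < s := lt_of_le_of_ne hs (Ne.symm hs0)
    refine ⟨θ, s, hspos, hsr, hz, (pol_zero_iff h hspos θ).2 ?_⟩
    rw [← hz]
    exact hvz

end Pool.Agent.Lib.MP_95e7ec_an
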