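import Mathlib
import Pool.Agent.Lib.MP_95e7ec_an.Rz.AroundLeaf

/-!
# Rz, AroundCount: both orientations
-/

set_option autoImplicit false

open Set Filter Topology MeasureTheory
open scoped ContDiff ENNReal

namespace Pool.Agent.Lib.MP_95e7ec_an

/-- From one orientation to both. Proof. `H a + H (a + π)`; the set `aroundE v E a` is contained in the
union of the images under `pcurve 0` of the two sets in `lfN`; the integral of `H (a + π)` over
`[0,2π]` is the integral of `H` over `[π, 3π]`. -/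
theorem around_count {v A B : ℝ × ℝ → ℝ × ℝ} {k m : ℕ} (h : HomSum v A B k m)
    (E : Set (ℝ × ℝ)) {c : ℝ} (hc : 0 ≤ c)
    (hH : ∃ H : ℝ → ℝ≥0∞, Measurable H ∧
      (∀ x, lfN (pol A) (pol B) (m - k) (E \ {0}) x ≤ H x) ∧
      ∀ t : ℝ, ∫⁻ x in Set.Icc t (t + 2 * Real.pi), H x ≤ ENNReal.ofReal c) :
    ∃ H : ℝ → ℝ≥0∞, Measurable H ∧ (∀ a, (((aroundE v E a).encard : ℕ∞) : ℝ≥0∞) ≤ H a) ∧
      ∫⁻ a in Set.Icc 0 (2 * Real.pi), H a ≤ ENNReal.ofReal (2 * c) := by
  obtain ⟨H, hm, hle, hint⟩ := hH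
  have hm2 : Measurable fun a : ℝ => H (a + Real.pi) := hm.comp (measurable_id.add_const _)
  refine ⟨fun a => H a + H (a + Real.pi), hm.add hm2, ?_, ?_⟩
  · intro a
    have hsub : aroundE v E a ⊆
        (pcurve 0 '' {r : ℝ → ℝ | Leaf (pol A) (pol B) (m - k) a r ∧
          zin (pol A) (pol B) (m - k) r = E \ {0}}) ∪
        (pcurve 0 '' {r : ℝ → ℝ | Leaf (pol A) (pol B) (m - k) (a + Real.pi) r ∧
          zin (pol A) (pol B) (m - k) r = E \ {0}}) := by
      intro C hC
      obtain ⟨b, r, hb, hCr, hl, hz⟩ := around_leaf h hC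
      rcases hb with rfl | rfl
      · exact Or.inl ⟨r, ⟨hl, hz⟩, hCr.symm⟩
      · exact Or.inr ⟨r, ⟨hl, hz⟩, hCr.symm⟩
    have h1 : (aroundE v E a).encard ≤
        ({r : ℝ → ℝ | Leaf (pol A) (pol B) (m - k) a r ∧
          zin (pol A) (pol B) (m - k) r = E \ {0}}).encard +
        ({r : ℝ → ℝ | Leaf (pol A) (pol B) (m - k) (a + Real.pi) r ∧
          zin (pol A) (pol B) (m - k) r = E \ {0}}).encard :=
      (Set.encard_le_encard hsub).trans ((Set.encard_union_le _ _).trans
        (add_le_add (Set.encard_image_le _ _) (Set.encard_image_le _ _)))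
    have h2 : (((aroundE v E a).encard : ℕ∞) : ℝ≥0∞) ≤
        lfN (pol A) (pol B) (m - k) (E \ {0}) a +
        lfN (pol A) (pol B) (m - k) (E \ {0}) (a + Real.pi) := by
      unfold lfN
      rw [← ENat.toENNReal_add]
      exact ENat.toENNReal_le.mpr h1
    exact h2.trans (add_le_add (hle _) (hle _))
  · rw [lintegral_add_left hm]
    have h3 : ∫⁻ a in Set.Icc 0 (2 * Real.pi), H (a + Real.pi) =
        ∫⁻ a in Set.Icc Real.pi (Real.pi + 2 * Real.pi), H a := by
      rw [← lintegral_indicator measurableSet_Icc, ← lintegral_indicator measurableSet_Icc]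
      rw [← lintegral_add_right_eq_self
        (fun a => (Set.Icc Real.pi (Real.pi + 2 * Real.pi)).indicator (fun a => H a) a) Real.pi]
      refine lintegral_congr fun a => ?_
      by_cases ha : a ∈ Set.Icc (0 : ℝ) (2 * Real.pi)
      · rw [Set.indicator_of_mem ha, Set.indicator_of_mem]
        exact ⟨by linarith [ha.1], by linarith [ha.2]⟩
      · rw [Set.indicator_of_notMem ha, Set.indicator_of_notMem]
        intro hb
        exact ha ⟨by linarith [hb.1], by linarith [hb.2]⟩
    rw [h3]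
    have h4 := hint 0
    rw [zero_add] at h4
    have h5 := hint Real.pi
    calc _ ≤ ENNReal.ofReal c + ENNReal.ofReal c := add_le_add h4 h5
      _ = ENNReal.ofReal (2 * c) := by rw [← ENNReal.ofReal_add hc hc, two_mul]

end Pool.Agent.Lib.MP_95e7ec_an
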