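import Mathlib
import Pool.Agent.Lib.MP_95e7ec_an.Rz.Order

/-!
# Rz, ChainDefs: the sets of zeros inside the leaves
-/

set_option autoImplicit false

open Set Filter Topology MeasureTheory
open scoped ContDiff ENNReal

namespace Pool.Agent.Lib.MP_95e7ec_an

/-- the sets of the zeros inside a leaf, for all the leaves of all the angles -/
def leafE (p q : ℝ → ℂ) (d : ℕ) : Set (Set (ℝ × ℝ)) :=
  {E | ∃ (b : ℝ) (r : ℝ → ℝ), Leaf p q d b r ∧ zin p q d r = E}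

/-- there is a zero inside the curve `r` on the line of the angle `c`, the centre excepted -/
def lineZ (p q : ℝ → ℂ) (d : ℕ) (r : ℝ → ℝ) (c : ℝ) : Prop :=
  ∃ (j : ℤ) (s : ℝ), 0 < s ∧ s < r (c + Real.pi * j) ∧
    p (c + Real.pi * j) + ((s ^ d : ℝ) : ℂ) * q (c + Real.pi * j) = 0

/-- Two zeros on the same ray are equal if there is a leaf. Proof. `(s^d - t^d) q θ = 0`; if
`s ≠ t` then `q θ = 0`, `p θ = 0` and `lfU p q d b r θ = 0`, but its imaginary part is positive. -/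
theorem ray_unique {p q : ℝ → ℂ} {d : ℕ} (hd : 1 ≤ d) {b : ℝ} {r : ℝ → ℝ}
    (hr : Leaf p q d b r) {θ s t : ℝ} (hs : 0 < s) (ht : 0 < t)
    (h₁ : p θ + ((s ^ d : ℝ) : ℂ) * q θ = 0) (h₂ : p θ + ((t ^ d : ℝ) : ℂ) * q θ = 0) : s = t := by
  by_contra hne
  have hst : s ^ d ≠ t ^ d := fun h => hne ((pow_left_inj₀ hs.le ht.le (by omega)).1 h)
  have h3 : (((s ^ d - t ^ d : ℝ)) : ℂ) * q θ = 0 := by
    push_cast at h₁ h₂ ⊢
    linear_combination h₁ - h₂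
  have h4 : q θ = 0 := by
    rcases mul_eq_zero.1 h3 with h5 | h5
    · exact absurd (sub_eq_zero.1 (Complex.ofReal_eq_zero.1 h5)) hst
    · exact h5
  have h5 : p θ = 0 := by
    rw [h4, mul_zero, add_zero] at h₁
    exact h₁
  have h6 := hr.up θ
  rw [lfU, h4, h5] at h6
  simp at h6

/-- A zero is on a line where the determinant is zero. -/
theorem pqD_of_zero {p q : ℝ → ℂ} {d : ℕ} {θ s : ℝ} (hs : 0 < s)
    (h₁ : p θ + ((s ^ d : ℝ) : ℂ) * q θ = 0) : pqD p q θ = 0 := by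
  have h2 := congrArg Complex.re h₁
  have h3 := congrArg Complex.im h₁
  rw [Complex.add_re, Complex.re_ofReal_mul, Complex.zero_re] at h2
  rw [Complex.add_im, Complex.im_ofReal_mul, Complex.zero_im] at h3
  unfold pqD
  linear_combination (q θ).im * h2 - (q θ).re * h3

theorem zin_mono {p q : ℝ → ℂ} {d : ℕ} {r₁ r₂ : ℝ → ℝ} (h : ∀ θ, r₁ θ < r₂ θ) :
    zin p q d r₁ ⊆ zin p q d r₂ := by
  rintro z ⟨θ, s, hs, hsr, hz, h0⟩
  exact ⟨θ, s, hs, hsr.trans (h θ), hz, h0⟩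

theorem lineZ_mono {p q : ℝ → ℂ} {d : ℕ} {r₁ r₂ : ℝ → ℝ} (h : ∀ θ, r₁ θ < r₂ θ) {c : ℝ}
    (hc : lineZ p q d r₁ c) : lineZ p q d r₂ c := by
  obtain ⟨j, s, hs, hsr, h0⟩ := hc
  exact ⟨j, s, hs, hsr.trans (h _), h0⟩

end Pool.Agent.Lib.MP_95e7ec_an
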