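import Mathlib
import Pool.Agent.Lib.MP_95e7ec_an.Rz.ChainDefs

/-!
# Rz, ChainCard: the number of the sets of zeros inside the leaves
-/

set_option autoImplicit false

open Set Filter Topology MeasureTheory
open scoped ContDiff ENNReal

namespace Pool.Agent.Lib.MP_95e7ec_an

/-- The sets of zeros form a chain. Proof. For a leaf `r` let
`L r = Λ.filter (lineZ p q d r)` (classical). Two leaves are equal or strictly ordered
(`leaf_order`); if `r₁ < r₂` then `L r₁ ⊆ L r₂` (`lineZ_mono`). Let `f : leafE → ℕ`,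
`f E = (L r).card`, `r` a chosen leaf with `zin r = E`; `f E ≤ Λ.card`. `f` is injective: let
`f E₁ = f E₂`, `r₁`, `r₂` the chosen leaves; if `r₁ = r₂` then `E₁ = E₂`; if `r₁ < r₂` then
`L r₁ ⊆ L r₂` have the same number of elements, so `L r₁ = L r₂` and `hline` gives
`zin r₁ = zin r₂`; the same for `r₂ < r₁`. So `leafE` has at most `Λ.card + 1` elements
(`Set.encard_le_encard_of_injOn`, the image is in `Finset.range (Λ.card + 1)`). -/
theorem leafE_card {p q : ℝ → ℂ} (h : PQ p q) {d : ℕ} (Λ : Finset ℝ)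
    (hline : ∀ (b₁ b₂ : ℝ) (r₁ r₂ : ℝ → ℝ), Leaf p q d b₁ r₁ → Leaf p q d b₂ r₂ →
      (∀ θ, r₁ θ < r₂ θ) → (∀ c ∈ Λ, lineZ p q d r₂ c → lineZ p q d r₁ c) →
      zin p q d r₁ = zin p q d r₂) :
    (leafE p q d).encard ≤ ((Λ.card + 1 : ℕ) : ℕ∞) := by
  classical
  have hch : ∀ E : Set (ℝ × ℝ), ∃ br : ℝ × (ℝ → ℝ), E ∈ leafE p q d →
      Leaf p q d br.1 br.2 ∧ zin p q d br.2 = E := by
    intro E
    by_cases hE : E ∈ leafE p q d
    · obtain ⟨b, r, hr⟩ := hE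
      exact ⟨(b, r), fun _ => hr⟩
    · exact ⟨(0, fun _ => 0), fun h => absurd h hE⟩
  choose br hbr using hch
  set f : Set (ℝ × ℝ) → ℕ := fun E => (Λ.filter fun c => lineZ p q d (br E).2 c).card with hf
  have hmaps : ∀ E ∈ leafE p q d, f E ∈ ((Finset.range (Λ.card + 1) : Finset ℕ) : Set ℕ) := by
    intro E _
    rw [Finset.mem_coe, Finset.mem_range, Nat.lt_succ_iff]
    exact Finset.card_filter_le _ _
  have key : ∀ (b₁ b₂ : ℝ) (r₁ r₂ : ℝ → ℝ), Leaf p q d b₁ r₁ → Leaf p q d b₂ r₂ →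
      (∀ θ, r₁ θ < r₂ θ) →
      (Λ.filter fun c => lineZ p q d r₁ c).card = (Λ.filter fun c => lineZ p q d r₂ c).card →
      zin p q d r₁ = zin p q d r₂ := by
    intro b₁ b₂ r₁ r₂ h1 h2 hlt hcard
    refine hline b₁ b₂ r₁ r₂ h1 h2 hlt ?_
    have hsub : (Λ.filter fun c => lineZ p q d r₁ c) ⊆ (Λ.filter fun c => lineZ p q d r₂ c) := by
      intro c hc
      rw [Finset.mem_filter] at hc ⊢
      exact ⟨hc.1, lineZ_mono hlt hc.2⟩
    have heq := Finset.eq_of_subset_of_card_le hsub hcard.ge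
    intro c hc hl
    have hc2 : c ∈ Λ.filter fun c => lineZ p q d r₂ c := Finset.mem_filter.2 ⟨hc, hl⟩
    rw [← heq] at hc2
    exact (Finset.mem_filter.1 hc2).2
  have hinj : Set.InjOn f (leafE p q d) := by
    intro E₁ hE₁ E₂ hE₂ hfe
    obtain ⟨hl1, hz1⟩ := hbr E₁ hE₁
    obtain ⟨hl2, hz2⟩ := hbr E₂ hE₂
    rw [← hz1, ← hz2]
    rcases leaf_order h hl1 hl2 with h3 | h3 | h3
    · rw [h3.1]
    · exact key _ _ _ _ hl1 hl2 h3 hfe
    · exact (key _ _ _ _ hl2 hl1 h3 hfe.symm).symm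
  calc (leafE p q d).encard
      ≤ ((Finset.range (Λ.card + 1) : Finset ℕ) : Set ℕ).encard :=
        Set.encard_le_encard_of_injOn hmaps hinj
    _ = ((Λ.card + 1 : ℕ) : ℕ∞) := by
        rw [Set.encard_coe_eq_coe_finsetCard, Finset.card_range]

end Pool.Agent.Lib.MP_95e7ec_an
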