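import Mathlib
import Pool.Agent.Lib.MP_95e7ec_an.Rz.ChainDefs

/-!
# Rz, ChainLine: the lines determine the zeros
-/

set_option autoImplicit false

open Set Filter Topology MeasureTheory
open scoped ContDiff ENNReal

namespace Pool.Agent.Lib.MP_95e7ec_an

private theorem chainLine_even {α : Type*} {f : ℝ → α} (hf : ∀ θ, f (θ + 2 * Real.pi) = f θ)
    (θ : ℝ) (n : ℤ) : f (θ + Real.pi * ((2 * n : ℤ) : ℝ)) = f θ := by
  have h1 : Function.Periodic f (2 * Real.pi) := hf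
  have h2 := h1.int_mul n θ
  have h3 : θ + (n : ℝ) * (2 * Real.pi) = θ + Real.pi * ((2 * n : ℤ) : ℝ) := by
    push_cast
    ring
  rw [h3] at h2
  exact h2

private theorem chainLine_odd {α : Type*} {f : ℝ → α} (hf : ∀ θ, f (θ + 2 * Real.pi) = f θ)
    (θ : ℝ) (n : ℤ) : f (θ + Real.pi * ((2 * n + 1 : ℤ) : ℝ)) = f (θ + Real.pi) := by
  have h2 := chainLine_even hf (θ + Real.pi) n
  have h3 : θ + Real.pi + Real.pi * ((2 * n : ℤ) : ℝ) = θ + Real.pi * ((2 * n + 1 : ℤ) : ℝ) := by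
    push_cast
    ring
  rw [h3] at h2
  exact h2

/-- The sum of the degrees is odd. Proof. `⊆` is `zin_mono`. Let `z = s • dirv θ`, `0 < s < r₂ θ`,
`p θ + s^d q θ = 0`. By `pqD_of_zero` and `hΛ` `θ = c + π j`, `c ∈ Λ`, so `lineZ p q d r₂ c` (with
`j` and `s`), so `lineZ p q d r₁ c`: `j'`, `s'`. Let `θ' = c + π j' = θ + π i`, `i = j' - j`.
By induction `p (θ + π i) = σ^i p θ` and `q (θ + π i) = (-σ)^i q θ` (integer `i`; or: reduce `i`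
modulo `2` by the `2π`-periodicity, `i = 2n` or `i = 2n + 1`). If `i` is even then `θ'` is `θ` modulo
`2π`, `p θ + s'^d q θ = 0`, `s' = s` (`ray_unique`) and `s < r₁ θ' = r₁ θ`. If `i` is odd then
`σ (p θ - s'^d q θ) = 0`, so `(s^d + s'^d) q θ = 0`, `q θ = 0`, `p θ = 0`, a contradiction
(the imaginary part of `lfU` at `θ` is positive). -/
theorem zin_eq_odd {p q : ℝ → ℂ} (h : PQ p q) {d : ℕ} (hd : 1 ≤ d) {σ : ℝ}
    (hσ : σ = 1 ∨ σ = -1) (hp : ∀ θ, p (θ + Real.pi) = (σ : ℂ) * p θ)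
    (hq : ∀ θ, q (θ + Real.pi) = -((σ : ℂ) * q θ)) (Λ : Finset ℝ)
    (hΛ : ∀ θ, pqD p q θ = 0 → ∃ c ∈ Λ, ∃ j : ℤ, θ = c + Real.pi * j)
    {b₁ b₂ : ℝ} {r₁ r₂ : ℝ → ℝ} (h₁ : Leaf p q d b₁ r₁) (h₂ : Leaf p q d b₂ r₂)
    (hlt : ∀ θ, r₁ θ < r₂ θ) (hL : ∀ c ∈ Λ, lineZ p q d r₂ c → lineZ p q d r₁ c) :
    zin p q d r₁ = zin p q d r₂ := by
  have hσ0 : (σ : ℂ) ≠ 0 := by
    rcases hσ with h | h <;> rw [h] <;> simp
  refine Subset.antisymm (zin_mono hlt) ?_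
  rintro z ⟨θ, s, hs, hsr, hz, h0⟩
  obtain ⟨c, hc, j, hj⟩ := hΛ θ (pqD_of_zero hs h0)
  obtain ⟨j', s', hs', hsr', h0'⟩ := hL c hc ⟨j, s, hs, hj ▸ hsr, hj ▸ h0⟩
  have hθ' : c + Real.pi * (j' : ℝ) = θ + Real.pi * (((j' - j : ℤ)) : ℝ) := by
    rw [hj]
    push_cast
    ring
  rw [hθ'] at hsr' h0'
  obtain ⟨n, hn | hn⟩ := Int.even_or_odd' (j' - j)
  · rw [hn, chainLine_even h.pp, chainLine_even h.pq] at h0'
    rw [hn, chainLine_even h₁.per] at hsr'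
    have h3 : s = s' := ray_unique hd h₁ hs hs' h0 h0'
    exact ⟨θ, s, hs, h3 ▸ hsr', hz, h0⟩
  · exfalso
    rw [hn, chainLine_odd h.pp, chainLine_odd h.pq, hp, hq] at h0'
    have h4 : (σ : ℂ) * (p θ - ((s' ^ d : ℝ) : ℂ) * q θ) = 0 := by
      linear_combination h0'
    have h5 : p θ - ((s' ^ d : ℝ) : ℂ) * q θ = 0 := (mul_eq_zero.1 h4).resolve_left hσ0
    have h6 : (((s ^ d + s' ^ d : ℝ)) : ℂ) * q θ = 0 := by
      push_cast at h0 h5 ⊢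
      linear_combination h0 - h5
    have h7 : (((s ^ d + s' ^ d : ℝ)) : ℂ) ≠ 0 := by
      rw [Ne, Complex.ofReal_eq_zero]
      positivity
    have h8 : q θ = 0 := (mul_eq_zero.1 h6).resolve_left h7
    have h9 : p θ = 0 := by
      rw [h8, mul_zero, add_zero] at h0
      exact h0
    have h10 := h₁.up θ
    rw [lfU, h8, h9] at h10
    simp at h10

/-- The sum of the degrees is even. Proof. `⊆` is `zin_mono`. Let `z = s • dirv θ`, `0 < s < r₂ θ`,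
`p θ + s^d q θ = 0`. By `pqD_of_zero` and `hΛ` `θ = c + π j`, `c ∈ Λ`, so `lineZ p q d r₂ c`, so
`lineZ p q d r₁ c`: `j'`, `s'`. Let `θ' = c + π j' = θ + π i`. `r₁` is `π`-periodic, and
`p + s'^d q` at `θ'` is `σ^i` times `p + s'^d q` at `θ`, so `p θ + s'^d q θ = 0`, `s' = s`
(`ray_unique`) and `s < r₁ θ' = r₁ θ`. -/
theorem zin_eq_even {p q : ℝ → ℂ} (h : PQ p q) {d : ℕ} (hd : 1 ≤ d) {σ : ℝ}
    (hσ : σ = 1 ∨ σ = -1) (hp : ∀ θ, p (θ + Real.pi) = (σ : ℂ) * p θ)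
    (hq : ∀ θ, q (θ + Real.pi) = (σ : ℂ) * q θ) (Λ : Finset ℝ)
    (hΛ : ∀ θ, pqD p q θ = 0 → ∃ c ∈ Λ, ∃ j : ℤ, θ = c + Real.pi * j)
    {b₁ b₂ : ℝ} {r₁ r₂ : ℝ → ℝ} (h₁ : Leaf p q d b₁ r₁) (h₂ : Leaf p q d b₂ r₂)
    (hs₁ : ∀ θ, r₁ (θ + Real.pi) = r₁ θ)
    (hlt : ∀ θ, r₁ θ < r₂ θ) (hL : ∀ c ∈ Λ, lineZ p q d r₂ c → lineZ p q d r₁ c) :
    zin p q d r₁ = zin p q d r₂ := by
  have hσ0 : (σ : ℂ) ≠ 0 := by
    rcases hσ with h | h <;> rw [h] <;> simp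
  refine Subset.antisymm (zin_mono hlt) ?_
  rintro z ⟨θ, s, hs, hsr, hz, h0⟩
  obtain ⟨c, hc, j, hj⟩ := hΛ θ (pqD_of_zero hs h0)
  obtain ⟨j', s', hs', hsr', h0'⟩ := hL c hc ⟨j, s, hs, hj ▸ hsr, hj ▸ h0⟩
  have hθ' : c + Real.pi * (j' : ℝ) = θ + Real.pi * (((j' - j : ℤ)) : ℝ) := by
    rw [hj]
    push_cast
    ring
  rw [hθ'] at hsr' h0'
  obtain ⟨n, hn | hn⟩ := Int.even_or_odd' (j' - j)
  · rw [hn, chainLine_even h.pp, chainLine_even h.pq] at h0'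
    rw [hn, chainLine_even h₁.per] at hsr'
    have h3 : s = s' := ray_unique hd h₁ hs hs' h0 h0'
    exact ⟨θ, s, hs, h3 ▸ hsr', hz, h0⟩
  · rw [hn, chainLine_odd h.pp, chainLine_odd h.pq, hp, hq] at h0'
    rw [hn, chainLine_odd h₁.per, hs₁] at hsr'
    have h4 : (σ : ℂ) * (p θ + ((s' ^ d : ℝ) : ℂ) * q θ) = 0 := by
      linear_combination h0'
    have h5 : p θ + ((s' ^ d : ℝ) : ℂ) * q θ = 0 := (mul_eq_zero.1 h4).resolve_left hσ0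
    have h3 : s = s' := ray_unique hd h₁ hs hs' h0 h5
    exact ⟨θ, s, hs, h3 ▸ hsr', hz, h0⟩

end Pool.Agent.Lib.MP_95e7ec_an
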