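import Mathlib
import Pool.Agent.Lib.MP_95e7ec_an.Rz.Defs
import Pool.Agent.Lib.MP_95e7ec_an.Zeros

/-!
# Rz, HomSumVf: homogeneous polynomial fields
-/

set_option autoImplicit false

open Set Filter Topology MeasureTheory
open scoped ContDiff ENNReal

namespace Pool.Agent.Lib.MP_95e7ec_an

private theorem HomSumVf_eval {k : ℕ} {P : MvPolynomial (Fin 2) ℝ} (hP : P.IsHomogeneous k)
    (t : ℝ) (z : ℝ × ℝ) :
    MvPolynomial.eval ![(t • z).1, (t • z).2] P = t ^ k * MvPolynomial.eval ![z.1, z.2] P := by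
  have h : (![(t • z).1, (t • z).2] : Fin 2 → ℝ) = t • ![z.1, z.2] := by
    funext i
    fin_cases i <;> simp
  rw [h, MvPolynomial.eval_eq, MvPolynomial.eval_eq, Finset.mul_sum]
  refine Finset.sum_congr rfl fun d hd => ?_
  have hdeg : ∑ i ∈ d.support, d i = k := by
    have h1 := hP (MvPolynomial.mem_support_iff.mp hd)
    rw [← h1, Finsupp.weight_apply, Finsupp.sum]
    exact Finset.sum_congr rfl fun i _ => by simp
  have h2 : ∏ i ∈ d.support, (t • ![z.1, z.2] : Fin 2 → ℝ) i ^ d i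
      = t ^ k * ∏ i ∈ d.support, (![z.1, z.2] : Fin 2 → ℝ) i ^ d i := by
    rw [← hdeg, ← Finset.prod_pow_eq_pow_sum, ← Finset.prod_mul_distrib]
    exact Finset.prod_congr rfl fun i _ => by rw [Pi.smul_apply, smul_eq_mul, mul_pow]
  rw [h2]
  ring

private theorem HomSumVf_vf {k : ℕ} {P Q : MvPolynomial (Fin 2) ℝ} (hP : P.IsHomogeneous k)
    (hQ : Q.IsHomogeneous k) (t : ℝ) (z : ℝ × ℝ) : vf P Q (t • z) = t ^ k • vf P Q z := by
  have h1 := HomSumVf_eval hP t z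
  have h2 := HomSumVf_eval hQ t z
  simp only [vf]
  rw [h1, h2]
  rfl

/-- Proof. `MvPolynomial.IsHomogeneous` and `eval` at `t • z` (`MvPolynomial.IsHomogeneous.eval₂`-type
lemma, or `P.support` sum), `contDiff_vf`. -/
theorem homSum_vf {k m : ℕ} (hkm : k < m) {P₁ Q₁ P₂ Q₂ : MvPolynomial (Fin 2) ℝ}
    (hP₁ : P₁.IsHomogeneous k) (hQ₁ : Q₁.IsHomogeneous k) (hP₂ : P₂.IsHomogeneous m)
    (hQ₂ : Q₂.IsHomogeneous m) :
    HomSum (vf (P₁ + P₂) (Q₁ + Q₂)) (vf P₁ Q₁) (vf P₂ Q₂) k m where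
  lt := hkm
  sum := fun z => by
    simp [vf]
  homA := fun t z => HomSumVf_vf hP₁ hQ₁ t z
  homB := fun t z => HomSumVf_vf hP₂ hQ₂ t z
  dA := contDiff_vf P₁ Q₁
  dB := contDiff_vf P₂ Q₂

end Pool.Agent.Lib.MP_95e7ec_an
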