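import Mathlib
import Pool.Agent.Lib.MP_95e7ec_an.Rz.PairPot
import Pool.Agent.Lib.MP_95e7ec_an.Rz.SameSign
import Pool.Agent.Lib.MP_95e7ec_an.Rz.CountPot
import Pool.Agent.Lib.MP_95e7ec_an.Rz.CountZero

/-!
# Rz, LeafCount: the mean number of leaves, general case
-/

set_option autoImplicit false

open Set Filter Topology MeasureTheory
open scoped ContDiff ENNReal

namespace Pool.Agent.Lib.MP_95e7ec_an

/-- Proof. If `pqD = 0` everywhere: `count_zero`. If `pqD` has one sign and is not zero: two leaves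
with the same angle and `zin = E` are equal by `leaf_order` and `pair_same_sign`, so `lfN ≤ 1` and
`H = 1` has the integral `2π`. If `pqD` takes both strict signs: `S = {0 ≤ pqD}` is closed,
`w₁ = volume (S ∩ (0,2π])`, `w₂ = volume (Sᶜ ∩ (0,2π])` are positive (both contain a nonempty open set
by continuity and periodicity) and finite; use `count_of_pot` with
`G b r = -arctan (FS p q d b r S / w₁) - arctan (FS p q d b r S / w₂)`, in `[-π, π]`, and
`pair_pot` (`arctan` is increasing; both summands of `G₂ - G₁` are nonnegative as `F₂ ≤ F₁`, one of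
them is `≥ |Δ|`). -/
theorem leaf_count {p q : ℝ → ℂ} (h : PQ p q) {d : ℕ} (hd : 1 ≤ d) (E : Set (ℝ × ℝ)) :
    ∃ H : ℝ → ℝ≥0∞, Measurable H ∧ (∀ x, lfN p q d E x ≤ H x) ∧
      ∀ t : ℝ, ∫⁻ x in Set.Icc t (t + 2 * Real.pi), H x ≤ ENNReal.ofReal (2 * Real.pi) := by
  have hpi : 0 < Real.pi := Real.pi_pos
  by_cases h0 : ∀ θ, pqD p q θ = 0
  · obtain ⟨H, hm, hle, hint⟩ := count_zero h hd E h0
    exact ⟨H, hm, hle, fun t => (hint t).trans zero_le⟩
  push Not at h0
  by_cases hs : (∀ θ, 0 ≤ pqD p q θ) ∨ ∀ θ, pqD p q θ ≤ 0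
  · refine ⟨fun _ => 1, measurable_const, ?_, ?_⟩
    · intro x
      have h1 : ({r : ℝ → ℝ | Leaf p q d x r ∧ zin p q d r = E}).encard ≤ 1 := by
        rw [Set.encard_le_one_iff]
        rintro r₁ r₂ ⟨h₁, z₁⟩ ⟨h₂, z₂⟩
        rcases leaf_order h h₁ h₂ with h3 | h3 | h3
        · exact h3.1
        · exact absurd ⟨0, by simp⟩
            (pair_same_sign h hd h₁ h₂ h3 (z₁.trans z₂.symm) hs h0)
        · exact absurd ⟨0, by simp⟩
            (pair_same_sign h hd h₂ h₁ h3 (z₂.trans z₁.symm) hs h0)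
      have h2 : (((({r : ℝ → ℝ | Leaf p q d x r ∧ zin p q d r = E}).encard : ℕ∞)) : ℝ≥0∞) ≤ 1 := by
        exact_mod_cast h1
      exact h2
    · intro t
      rw [MeasureTheory.lintegral_const, MeasureTheory.Measure.restrict_apply_univ,
        Real.volume_Icc, one_mul]
      apply le_of_eq
      congr 1
      ring
  push Not at hs
  obtain ⟨⟨θn, hn⟩, ⟨θp, hp⟩⟩ := hs
  have hcont : Continuous (pqD p q) := by
    unfold pqD
    have h1 := Complex.continuous_re.comp h.cp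
    have h2 := Complex.continuous_im.comp h.cp
    have h3 := Complex.continuous_re.comp h.cq
    have h4 := Complex.continuous_im.comp h.cq
    exact (h1.mul h4).sub (h2.mul h3)
  have hper : Function.Periodic (pqD p q) (2 * Real.pi) := by
    intro θ
    unfold pqD
    rw [h.pp, h.pq]
  have h2pi : (0 : ℝ) < 2 * Real.pi := by linarith
  have key : ∀ U : Set ℝ, IsOpen U → (∃ θ, θ ∈ U) → (∀ θ, ∀ n : ℤ, θ ∈ U → θ - n • (2 * Real.pi) ∈ U) →
      0 < volume (U ∩ Set.Ioc 0 (2 * Real.pi)) := by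
    rintro U hU ⟨θ, hθ⟩ hUp
    have h1 : toIcoMod h2pi 0 θ ∈ U := hUp θ (toIcoDiv h2pi 0 θ) hθ
    have h2 : toIcoMod h2pi 0 θ ∈ Set.Ico (0 : ℝ) (0 + 2 * Real.pi) := toIcoMod_mem_Ico h2pi 0 θ
    rw [zero_add] at h2
    have h3 : toIcoMod h2pi 0 θ ∈ closure (Set.Ioo (0 : ℝ) (2 * Real.pi)) := by
      rw [closure_Ioo h2pi.ne]
      exact Set.Ico_subset_Icc_self h2
    obtain ⟨y, hyU, hyI⟩ := mem_closure_iff.1 h3 U hU h1
    have h4 : 0 < volume (U ∩ Set.Ioo 0 (2 * Real.pi)) :=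
      (hU.inter isOpen_Ioo).measure_pos volume ⟨y, hyU, hyI⟩
    exact lt_of_lt_of_le h4
      (measure_mono (Set.inter_subset_inter_right _ Set.Ioo_subset_Ioc_self))
  have hfin : ∀ U : Set ℝ, volume (U ∩ Set.Ioc 0 (2 * Real.pi)) ≠ ⊤ := by
    intro U
    apply ne_top_of_le_ne_top _ (measure_mono Set.inter_subset_right)
    rw [Real.volume_Ioc]
    exact ENNReal.ofReal_ne_top
  set S : Set ℝ := {θ | 0 ≤ pqD p q θ} with hSdef
  have hSm : MeasurableSet S := (isClosed_le continuous_const hcont).measurableSet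
  have hper2 : ∀ (θ : ℝ) (n : ℤ), pqD p q (θ - n • (2 * Real.pi)) = pqD p q θ := by
    intro θ n
    exact hper.sub_zsmul_eq n
  have hpos1 : 0 < volume (S ∩ Set.Ioc 0 (2 * Real.pi)) := by
    refine lt_of_lt_of_le (key {θ | 0 < pqD p q θ} (isOpen_lt continuous_const hcont) ⟨θp, hp⟩
      ?_) (measure_mono (Set.inter_subset_inter_left _ ?_))
    · intro θ n hθ
      simp only [Set.mem_ofPred_eq] at hθ ⊢
      rw [hper2]
      exact hθ
    · intro θ hθ
      simp only [Set.mem_ofPred_eq] at hθ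
      simp only [hSdef, Set.mem_ofPred_eq]
      exact hθ.le
  have hpos2 : 0 < volume (Sᶜ ∩ Set.Ioc 0 (2 * Real.pi)) := by
    refine lt_of_lt_of_le (key {θ | pqD p q θ < 0} (isOpen_lt hcont continuous_const) ⟨θn, hn⟩
      ?_) (measure_mono (Set.inter_subset_inter_left _ ?_))
    · intro θ n hθ
      simp only [Set.mem_ofPred_eq] at hθ ⊢
      rw [hper2]
      exact hθ
    · intro θ hθ
      simp only [Set.mem_ofPred_eq] at hθ
      simp only [hSdef, Set.mem_compl_iff, Set.mem_ofPred_eq, not_le]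
      exact hθ
  set w₁ : ℝ := (volume (S ∩ Set.Ioc 0 (2 * Real.pi))).toReal with hw1
  set w₂ : ℝ := (volume (Sᶜ ∩ Set.Ioc 0 (2 * Real.pi))).toReal with hw2
  have hw₁ : 0 < w₁ := ENNReal.toReal_pos hpos1.ne' (hfin S)
  have hw₂ : 0 < w₂ := ENNReal.toReal_pos hpos2.ne' (hfin Sᶜ)
  have hv₁ : volume (S ∩ Set.Ioc 0 (2 * Real.pi)) = ENNReal.ofReal w₁ :=
    (ENNReal.ofReal_toReal (hfin S)).symm
  have hv₂ : volume (Sᶜ ∩ Set.Ioc 0 (2 * Real.pi)) = ENNReal.ofReal w₂ :=
    (ENNReal.ofReal_toReal (hfin Sᶜ)).symm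
  have hres := count_of_pot h (d := d) E (α := -Real.pi) (β := Real.pi) (by linarith)
    (fun b r => -Real.arctan (FS p q d b r S / w₁) - Real.arctan (FS p q d b r S / w₂))
    (by
      intro b r _ _
      have a1 := Real.arctan_lt_pi_div_two (FS p q d b r S / w₁)
      have a2 := Real.arctan_lt_pi_div_two (FS p q d b r S / w₂)
      have a3 := Real.neg_pi_div_two_lt_arctan (FS p q d b r S / w₁)
      have a4 := Real.neg_pi_div_two_lt_arctan (FS p q d b r S / w₂)
      constructor <;> linarith)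
    (by
      intro b₁ r₁ b₂ r₂ h₁ h₂ z₁ z₂ hlt
      obtain ⟨Δ, j, hj, hle, hor, hst⟩ := pair_pot h hd h₁ h₂ hlt (z₁.trans z₂.symm) hSm
        (fun θ hθ => hθ) (fun θ hθ => le_of_lt (not_le.1 hθ)) hw₁ hw₂ hv₁ hv₂
      have hlt2 := hst ⟨θp, hp⟩
      have b1 : Real.arctan (FS p q d b₂ r₂ S / w₁) < Real.arctan (FS p q d b₁ r₁ S / w₁) :=
        Real.arctan_strictMono (div_lt_div_of_pos_right hlt2 hw₁)
      have b2 : Real.arctan (FS p q d b₂ r₂ S / w₂) < Real.arctan (FS p q d b₁ r₁ S / w₂) :=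
        Real.arctan_strictMono (div_lt_div_of_pos_right hlt2 hw₂)
      refine ⟨Δ, j, hj, ?_, ?_⟩
      · rcases hor with h3 | h3
        · linarith
        · linarith
      · linarith)
  obtain ⟨H, hm, hle, hint⟩ := hres
  refine ⟨H, hm, hle, fun t => (hint t).trans (le_of_eq ?_)⟩
  congr 1
  ring

end Pool.Agent.Lib.MP_95e7ec_an
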