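import Mathlib
import Pool.Agent.Lib.MP_95e7ec_an.Rz.LeafCount
import Pool.Agent.Lib.MP_95e7ec_an.Rz.LeafOdd
import Pool.Agent.Lib.MP_95e7ec_an.Rz.AroundCount
import Pool.Agent.Lib.MP_95e7ec_an.Rz.HomSumVf

/-!
# Rz, FinalB: sums of two homogeneous fields (stub)
-/

set_option autoImplicit false

open Set Filter Topology MeasureTheory
open scoped ContDiff ENNReal

namespace Pool.Agent.Lib.MP_95e7ec_an

/-- **Sums of two homogeneous fields**: the mean number of the closed orbits around the origin with a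
given set of zeros inside, over all the rotations, is at most `2`, and at most `1/2` if the sum of the
degrees is odd. -/
theorem hom_mean {v A B : ℝ × ℝ → ℝ × ℝ} {k m : ℕ} (h : HomSum v A B k m)
    (E : Set (ℝ × ℝ)) :
    ∃ H : ℝ → ℝ≥0∞, Measurable H ∧ (∀ a, (((aroundE v E a).encard : ℕ∞) : ℝ≥0∞) ≤ H a) ∧
      ∫⁻ a in Set.Icc 0 (2 * Real.pi), H a ≤ ENNReal.ofReal (4 * Real.pi) := by
  have h1 := around_count h E (c := 2 * Real.pi) (by positivity)
    (leaf_count (pq_of_hom h) (Nat.sub_pos_of_lt h.lt) _)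
  have e : 2 * (2 * Real.pi) = 4 * Real.pi := by ring
  rwa [e] at h1

theorem hom_mean_odd {v A B : ℝ × ℝ → ℝ × ℝ} {k m : ℕ} (h : HomSum v A B k m)
    (hodd : Odd (k + m)) (E : Set (ℝ × ℝ)) :
    ∃ H : ℝ → ℝ≥0∞, Measurable H ∧ (∀ a, (((aroundE v E a).encard : ℕ∞) : ℝ≥0∞) ≤ H a) ∧
      ∫⁻ a in Set.Icc 0 (2 * Real.pi), H a ≤ ENNReal.ofReal Real.pi := by
  obtain ⟨σ, hσ, hp, hq, -⟩ := pol_anti h hodd
  have h1 := around_count h E (c := Real.pi / 2) (by positivity)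
    (leaf_count_odd (pq_of_hom h) (Nat.sub_pos_of_lt h.lt) _ hσ hp hq)
  have e : 2 * (Real.pi / 2) = Real.pi := by ring
  rwa [e] at h1

end Pool.Agent.Lib.MP_95e7ec_an
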