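import Mathlib
import Pool.Agent.Lib.MP_95e7ec_an.Rz.ChainDefs

/-!
# Rz, LeafTotal: the number of all the leaves
-/

set_option autoImplicit false

open Set Filter Topology MeasureTheory
open scoped ContDiff ENNReal

namespace Pool.Agent.Lib.MP_95e7ec_an

/-- Proof. `leafE p q d` is finite with at most `M` elements; let `H_E` be from `hE` and
`H = ∑ E ∈ leafE, H_E`. The set of the leaves of the angle `x` is the union over `E ∈ leafE` of the
sets in `lfN`. -/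
theorem leaf_total {p q : ℝ → ℂ} {d : ℕ} {c : ℝ} (hc : 0 ≤ c)
    (hE : ∀ E : Set (ℝ × ℝ), ∃ H : ℝ → ℝ≥0∞, Measurable H ∧ (∀ x, lfN p q d E x ≤ H x) ∧
      ∀ t : ℝ, ∫⁻ x in Set.Icc t (t + 2 * Real.pi), H x ≤ ENNReal.ofReal c)
    {M : ℕ} (hM : (leafE p q d).encard ≤ (M : ℕ∞)) :
    ∃ H : ℝ → ℝ≥0∞, Measurable H ∧
      (∀ x, (({r : ℝ → ℝ | Leaf p q d x r}.encard : ℕ∞) : ℝ≥0∞) ≤ H x) ∧
      ∀ t : ℝ, ∫⁻ x in Set.Icc t (t + 2 * Real.pi), H x ≤ ENNReal.ofReal (M * c) := by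
  choose H hm hle hint using hE
  have hfin : (leafE p q d).Finite :=
    Set.finite_of_encard_le_coe hM
  refine ⟨fun x => ∑ E ∈ hfin.toFinset, H E x, ?_, ?_, ?_⟩
  · exact Finset.measurable_fun_sum _ fun E _ => hm E
  · intro x
    have h1 : {r : ℝ → ℝ | Leaf p q d x r} ⊆
        ⋃ E ∈ hfin.toFinset, {r : ℝ → ℝ | Leaf p q d x r ∧ zin p q d r = E} := by
      intro r hr
      have hr' : Leaf p q d x r := hr
      refine Set.mem_iUnion₂.2 ⟨zin p q d r, hfin.mem_toFinset.2 ⟨x, r, hr', rfl⟩, hr', rfl⟩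
    have h2 : ({r : ℝ → ℝ | Leaf p q d x r}).encard ≤
        ∑ E ∈ hfin.toFinset, ({r : ℝ → ℝ | Leaf p q d x r ∧ zin p q d r = E}).encard :=
      (Set.encard_le_encard h1).trans (Finset.set_encard_biUnion_le _ _)
    have h3 : ((({r : ℝ → ℝ | Leaf p q d x r}).encard : ℕ∞) : ℝ≥0∞) ≤
        ((∑ E ∈ hfin.toFinset, ({r : ℝ → ℝ | Leaf p q d x r ∧ zin p q d r = E}).encard : ℕ∞) : ℝ≥0∞) :=
      ENat.toENNReal_le.2 h2
    refine h3.trans ?_
    have h4 : ((∑ E ∈ hfin.toFinset, ({r : ℝ → ℝ | Leaf p q d x r ∧ zin p q d r = E}).encard : ℕ∞) : ℝ≥0∞) =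
        ∑ E ∈ hfin.toFinset, lfN p q d E x := by
      unfold lfN
      exact map_sum (ENat.toENNRealRingHom) _ _
    rw [h4]
    exact Finset.sum_le_sum fun E _ => hle E x
  · intro t
    rw [lintegral_finsetSum _ fun E _ => hm E]
    refine (Finset.sum_le_sum fun E _ => hint E t).trans ?_
    rw [Finset.sum_const, nsmul_eq_mul, ENNReal.ofReal_mul (Nat.cast_nonneg M),
      ENNReal.ofReal_natCast]
    gcongr
    have h5 : ((hfin.toFinset.card : ℕ) : ℕ∞) ≤ (M : ℕ∞) := by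
      rw [← hfin.encard_eq_coe_toFinset_card]
      exact hM
    exact_mod_cast h5

end Pool.Agent.Lib.MP_95e7ec_an
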