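import Mathlib
import Pool.Agent.Lib.MP_95e7ec_an.Rz.Defs
import Pool.Agent.Lib.MP_95e7ec_an.Zeros

/-!
# Rz, LineCount: the number of the lines where the determinant is zero
-/

set_option autoImplicit false

open Set Filter Topology MeasureTheory
open scoped ContDiff ENNReal

namespace Pool.Agent.Lib.MP_95e7ec_an

private theorem LineCount_eval {k : ℕ} {P : MvPolynomial (Fin 2) ℝ} (hP : P.IsHomogeneous k)
    (t x y : ℝ) :
    MvPolynomial.eval ![t * x, t * y] P = t ^ k * MvPolynomial.eval ![x, y] P := by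
  have h : (![t * x, t * y] : Fin 2 → ℝ) = t • ![x, y] := by
    funext i
    fin_cases i <;> simp
  rw [h, MvPolynomial.eval_eq, MvPolynomial.eval_eq, Finset.mul_sum]
  refine Finset.sum_congr rfl fun d hd => ?_
  have hdeg : ∑ i ∈ d.support, d i = k := by
    have h1 := hP (MvPolynomial.mem_support_iff.mp hd)
    rw [← h1, Finsupp.weight_apply, Finsupp.sum]
    exact Finset.sum_congr rfl fun i _ => by simp
  have h2 : ∏ i ∈ d.support, (t • ![x, y] : Fin 2 → ℝ) i ^ d i
      = t ^ k * ∏ i ∈ d.support, (![x, y] : Fin 2 → ℝ) i ^ d i := by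
    rw [← hdeg, ← Finset.prod_pow_eq_pow_sum, ← Finset.prod_mul_distrib]
    exact Finset.prod_congr rfl fun i _ => by rw [Pi.smul_apply, smul_eq_mul, mul_pow]
  rw [h2]
  ring

private theorem LineCount_poly (D : MvPolynomial (Fin 2) ℝ) (a b c d t : ℝ) :
    Polynomial.eval t (MvPolynomial.aeval
      ![Polynomial.C a + Polynomial.X * Polynomial.C c,
        Polynomial.C b + Polynomial.X * Polynomial.C d] D)
      = MvPolynomial.eval ![a + t * c, b + t * d] D := by
  induction D using MvPolynomial.induction_on with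
  | C r => simp
  | add p q hp hq => simp only [map_add, Polynomial.eval_add, hp, hq]
  | mul_X p i hp =>
    simp only [map_mul, Polynomial.eval_mul, hp, MvPolynomial.aeval_X, MvPolynomial.eval_X]
    congr 1
    fin_cases i <;> simp <;> ring

private theorem LineCount_deg (a b : ℝ) :
    (Polynomial.C a + Polynomial.X * Polynomial.C b).natDegree ≤ 1 := by
  refine (Polynomial.natDegree_add_le _ _).trans (max_le ?_ ?_)
  · rw [Polynomial.natDegree_C]
    exact Nat.zero_le 1
  · refine Polynomial.natDegree_mul_le.trans ?_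
    rw [Polynomial.natDegree_C, Polynomial.natDegree_X]

private theorem LineCount_dir (x y : ℝ) (h : x ≠ 0 ∨ y ≠ 0) :
    ∃ φ ρ : ℝ, 0 < ρ ∧ x = ρ * Real.cos φ ∧ y = ρ * Real.sin φ := by
  refine ⟨Complex.arg (⟨x, y⟩ : ℂ), ‖(⟨x, y⟩ : ℂ)‖, ?_, ?_, ?_⟩
  · rw [norm_pos_iff]
    intro h0
    have h1 := congrArg Complex.re h0
    have h2 := congrArg Complex.im h0
    simp only [Complex.zero_re, Complex.zero_im] at h1 h2
    rcases h with h | h
    · exact h h1
    · exact h h2
  · exact (Complex.norm_mul_cos_arg (⟨x, y⟩ : ℂ)).symm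
  · exact (Complex.norm_mul_sin_arg (⟨x, y⟩ : ℂ)).symm

/-- Proof. `pol A θ = conj (e^{iθ}) A(e)`, so `pqD (pol A) (pol B) θ = det2 (A e) (B e)`, `e = dirv θ`
(expansion, `cos² + sin² = 1`). -/
theorem pqD_pol (A B : ℝ × ℝ → ℝ × ℝ) (θ : ℝ) :
    pqD (pol A) (pol B) θ = det2 (A (dirv θ)) (B (dirv θ)) := by
  have h := Real.sin_sq_add_cos_sq θ
  simp only [pqD, pol, ipv, det2]
  generalize hA : A (dirv θ) = u
  generalize hB : B (dirv θ) = w
  simp only [dirv]
  linear_combination (u.1 * w.2 - u.2 * w.1) * h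

/-- Lines of zeros of a homogeneous polynomial. Proof. Let `D` be homogeneous of degree `N`,
`e₁ = dirv α`, `D(e₁) ≠ 0`, `e₂ = dirv (α + π/2)`. Let `f : Polynomial ℝ`, `f t = D (e₂ + t e₁)`
(`MvPolynomial.aeval` at `![C e₂.1 + X * C e₁.1, C e₂.2 + X * C e₁.2]`); `f.natDegree ≤ N`;
`f ≠ 0`: otherwise `D (e₂ + t e₁) = 0` for all `t`, so `D (e₁ + s e₂) = 0` for all `s ≠ 0`
(homogeneity, `s = 1/t`), so `D e₁ = 0` by continuity. Let `R = f.roots.toFinset`, with at most `N`
elements. For `t ∈ R` let `c t` be an angle with `e₂ + t e₁ = ρ • dirv (c t)`, `ρ > 0`, and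
`Λ = R.image c`. If `D (dirv θ) = 0` then `dirv θ = x e₁ + y e₂` with `y ≠ 0` (else
`dirv θ = ± e₁`), `t = x / y ∈ R`, `dirv θ = y (e₂ + t e₁) = y ρ • dirv (c t)`, so
`dirv θ = ± dirv (c t)` and `θ - c t` is an integer multiple of `π`
(`sin (θ - c t) = det2 (dirv (c t)) (dirv θ) = 0`). -/
theorem hom_lines {N : ℕ} {D : MvPolynomial (Fin 2) ℝ} (hD : D.IsHomogeneous N)
    (hne : ∃ α : ℝ, MvPolynomial.eval ![(dirv α).1, (dirv α).2] D ≠ 0) :
    ∃ Λ : Finset ℝ, Λ.card ≤ N ∧ ∀ θ : ℝ,
      MvPolynomial.eval ![(dirv θ).1, (dirv θ).2] D = 0 →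
        ∃ c ∈ Λ, ∃ j : ℤ, θ = c + Real.pi * j := by
  classical
  obtain ⟨α, hα⟩ := hne
  simp only [dirv] at hα
  set ca := Real.cos α with hca
  set sa := Real.sin α with hsa
  have hcs : sa ^ 2 + ca ^ 2 = 1 := Real.sin_sq_add_cos_sq α
  set f : Polynomial ℝ := MvPolynomial.aeval
    ![Polynomial.C (-sa) + Polynomial.X * Polynomial.C ca,
      Polynomial.C ca + Polynomial.X * Polynomial.C sa] D with hf
  have hfe : ∀ t, Polynomial.eval t f = MvPolynomial.eval ![-sa + t * ca, ca + t * sa] D :=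
    fun t => LineCount_poly D (-sa) ca ca sa t
  have hdeg : f.natDegree ≤ N := by
    have h1 := MvPolynomial.aeval_natDegree_le (m := N) (n := 1) D hD.totalDegree_le
      (![Polynomial.C (-sa) + Polynomial.X * Polynomial.C ca,
        Polynomial.C ca + Polynomial.X * Polynomial.C sa]) (by
        intro i
        fin_cases i
        · exact LineCount_deg _ _
        · exact LineCount_deg _ _)
    rw [mul_one] at h1
    exact h1
  have hf0 : f ≠ 0 := by
    intro h0
    set g : Polynomial ℝ := MvPolynomial.aeval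
      ![Polynomial.C ca + Polynomial.X * Polynomial.C (-sa),
        Polynomial.C sa + Polynomial.X * Polynomial.C ca] D with hg
    have hge : ∀ t, Polynomial.eval t g = MvPolynomial.eval ![ca + t * (-sa), sa + t * ca] D :=
      fun t => LineCount_poly D ca sa (-sa) ca t
    have hg0 : g = 0 := by
      apply Polynomial.eq_zero_of_infinite_isRoot
      apply Set.Infinite.mono (s := Set.Ioi (0 : ℝ)) _ (Set.Ioi_infinite 0)
      intro s hs
      have hs0 : s ≠ 0 := ne_of_gt hs
      have h1 := hfe s⁻¹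
      rw [h0, Polynomial.eval_zero] at h1
      have h2 := LineCount_eval hD s (-sa + s⁻¹ * ca) (ca + s⁻¹ * sa)
      rw [← h1, mul_zero] at h2
      show Polynomial.eval s g = 0
      rw [hge, ← h2]
      congr 2
      funext i
      fin_cases i
      · simp only [Fin.zero_eta, Matrix.cons_val_zero]
        rw [mul_add, ← mul_assoc, mul_inv_cancel₀ hs0]
        ring
      · show sa + s * ca = s * (ca + s⁻¹ * sa)
        rw [mul_add, ← mul_assoc, mul_inv_cancel₀ hs0]
        ring
    have h3 := hge 0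
    rw [hg0, Polynomial.eval_zero] at h3
    apply hα
    rw [h3]
    congr 2
    funext i
    fin_cases i <;> simp
  have hex : ∀ t : ℝ, ∃ φ ρ : ℝ, 0 < ρ ∧ -sa + t * ca = ρ * Real.cos φ ∧
      ca + t * sa = ρ * Real.sin φ := by
    intro t
    apply LineCount_dir
    by_contra hcon
    push Not at hcon
    have h1 : (-sa + t * ca) * (-sa) + (ca + t * sa) * ca = 1 := by
      linear_combination hcs
    rw [hcon.1, hcon.2] at h1
    simp at h1
  choose c ρ hρ hc1 hc2 using hex
  refine ⟨f.roots.toFinset.image c, ?_, ?_⟩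
  · calc (f.roots.toFinset.image c).card ≤ f.roots.toFinset.card := Finset.card_image_le
      _ ≤ Multiset.card f.roots := Multiset.toFinset_card_le _
      _ ≤ f.natDegree := Polynomial.card_roots' f
      _ ≤ N := hdeg
  intro θ hθ
  simp only [dirv] at hθ
  set cx := Real.cos θ with hcx
  set sx := Real.sin θ with hsx
  have hcsx : sx ^ 2 + cx ^ 2 = 1 := Real.sin_sq_add_cos_sq θ
  set x : ℝ := cx * ca + sx * sa with hx
  set y : ℝ := -cx * sa + sx * ca with hy
  have e1 : cx = x * ca + y * (-sa) := by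
    rw [hx, hy]
    linear_combination (-cx) * hcs
  have e2 : sx = x * sa + y * ca := by
    rw [hx, hy]
    linear_combination (-sx) * hcs
  have hy0 : y ≠ 0 := by
    intro h0
    rw [h0] at e1 e2
    rw [e1, e2] at hθ
    have h1 := LineCount_eval hD x ca sa
    have h2 : MvPolynomial.eval ![x * ca + 0 * (-sa), x * sa + 0 * ca] D
        = MvPolynomial.eval ![x * ca, x * sa] D := by
      congr 2
      funext i
      fin_cases i <;> simp
    rw [h2, h1] at hθ
    have hx0 : x ≠ 0 := by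
      intro hx0
      rw [hx0] at e1 e2
      rw [e1, e2] at hcsx
      simp at hcsx
    rcases mul_eq_zero.1 hθ with h3 | h3
    · exact pow_ne_zero _ hx0 h3
    · exact hα h3
  have hroot : Polynomial.eval (x / y) f = 0 := by
    rw [hfe]
    have h1 := LineCount_eval hD y (-sa + x / y * ca) (ca + x / y * sa)
    have h2 : MvPolynomial.eval ![y * (-sa + x / y * ca), y * (ca + x / y * sa)] D
        = MvPolynomial.eval ![cx, sx] D := by
      congr 2
      funext i
      fin_cases i
      · simp only [Fin.zero_eta, Matrix.cons_val_zero]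
        rw [e1, mul_add, ← mul_assoc, mul_div_cancel₀ x hy0]
        ring
      · show y * (ca + x / y * sa) = sx
        rw [e2, mul_add, ← mul_assoc, mul_div_cancel₀ x hy0]
        ring
    rw [h2, hθ] at h1
    rcases mul_eq_zero.1 h1.symm with h3 | h3
    · exact absurd h3 (pow_ne_zero _ hy0)
    · exact h3
  have hmem : x / y ∈ f.roots.toFinset := by
    rw [Multiset.mem_toFinset, Polynomial.mem_roots hf0]
    exact hroot
  refine ⟨c (x / y), Finset.mem_image_of_mem c hmem, ?_⟩
  have k1 := hc1 (x / y)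
  have k2 := hc2 (x / y)
  have k3 := hρ (x / y)
  have hsin : Real.sin (θ - c (x / y)) = 0 := by
    rw [Real.sin_sub, ← hcx, ← hsx]
    have h4 : ρ (x / y) * (sx * Real.cos (c (x / y)) - cx * Real.sin (c (x / y))) = 0 := by
      have h5 : ρ (x / y) * (sx * Real.cos (c (x / y)) - cx * Real.sin (c (x / y)))
          = sx * (ρ (x / y) * Real.cos (c (x / y))) - cx * (ρ (x / y) * Real.sin (c (x / y))) := by
        ring
      rw [h5, ← k1, ← k2]
      have h6 : x / y * y = x := div_mul_cancel₀ x hy0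
      have h7 : y * (sx * (-sa + x / y * ca) - cx * (ca + x / y * sa)) = 0 := by
        have h8 : y * (sx * (-sa + x / y * ca) - cx * (ca + x / y * sa))
            = sx * (y * (-sa) + (x / y * y) * ca) - cx * (y * ca + (x / y * y) * sa) := by
          ring
        rw [h8, h6]
        have h9 : y * (-sa) + x * ca = cx := by rw [e1]; ring
        have h10 : y * ca + x * sa = sx := by rw [e2]; ring
        rw [h9, h10]
        ring
      rcases mul_eq_zero.1 h7 with h8 | h8
      · exact absurd h8 hy0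
      · exact h8
    rcases mul_eq_zero.1 h4 with h5 | h5
    · exact absurd h5 k3.ne'
    · exact h5
  obtain ⟨j, hj⟩ := Real.sin_eq_zero_iff.1 hsin
  exact ⟨j, by linarith⟩

/-- Proof. `hom_lines` for `D = P₁ * Q₂ - Q₁ * P₂`, homogeneous of degree `k + m`, and `pqD_pol`. -/
theorem line_count {k m : ℕ} {P₁ Q₁ P₂ Q₂ : MvPolynomial (Fin 2) ℝ}
    (hP₁ : P₁.IsHomogeneous k) (hQ₁ : Q₁.IsHomogeneous k) (hP₂ : P₂.IsHomogeneous m)
    (hQ₂ : Q₂.IsHomogeneous m)
    (hne : ¬ ∀ θ, pqD (pol (vf P₁ Q₁)) (pol (vf P₂ Q₂)) θ = 0) :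
    ∃ Λ : Finset ℝ, Λ.card ≤ k + m ∧ ∀ θ : ℝ,
      pqD (pol (vf P₁ Q₁)) (pol (vf P₂ Q₂)) θ = 0 →
        ∃ c ∈ Λ, ∃ j : ℤ, θ = c + Real.pi * j := by
  have key : ∀ θ, pqD (pol (vf P₁ Q₁)) (pol (vf P₂ Q₂)) θ
      = MvPolynomial.eval ![(dirv θ).1, (dirv θ).2] (P₁ * Q₂ - Q₁ * P₂) := by
    intro θ
    rw [pqD_pol]
    simp only [det2, vf, map_sub, map_mul]
  have hD : (P₁ * Q₂ - Q₁ * P₂).IsHomogeneous (k + m) := (hP₁.mul hQ₂).sub (hQ₁.mul hP₂)
  push Not at hne
  obtain ⟨α, hα⟩ := hne
  rw [key] at hα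
  obtain ⟨Λ, h1, h2⟩ := hom_lines hD ⟨α, hα⟩
  exact ⟨Λ, h1, fun θ hθ => h2 θ (by rw [← key]; exact hθ)⟩

end Pool.Agent.Lib.MP_95e7ec_an
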