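import Mathlib
import Pool.Agent.Lib.MP_95e7ec_an.Rz.Order
import Pool.Agent.Lib.MP_95e7ec_an.Rz.HomLeaf

/-!
# Rz, SymLeaf: the case that the sum of the degrees is even
-/

set_option autoImplicit false

open Set Filter Topology MeasureTheory
open scoped ContDiff ENNReal

namespace Pool.Agent.Lib.MP_95e7ec_an

private theorem symLeaf_dirv_pi (θ : ℝ) : dirv (θ + Real.pi) = (-1 : ℝ) • dirv θ := by
  apply Prod.ext <;> simp [dirv]

private theorem symLeaf_pol_pi {A : ℝ × ℝ → ℝ × ℝ} {k : ℕ}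
    (hA : ∀ (t : ℝ) (z : ℝ × ℝ), A (t • z) = t ^ k • A z) (θ : ℝ) :
    pol A (θ + Real.pi) = (((-1 : ℝ) ^ (k + 1) : ℝ) : ℂ) * pol A θ := by
  have h1 : A ((-1 : ℝ) • dirv θ) = (-1 : ℝ) ^ k • A (dirv θ) := hA _ _
  apply Complex.ext
  · rw [Complex.re_ofReal_mul]
    simp only [pol, h1, symLeaf_dirv_pi θ, ipv, Prod.smul_fst, Prod.smul_snd, smul_eq_mul]
    ring
  · rw [Complex.im_ofReal_mul]
    simp only [pol, h1, symLeaf_dirv_pi θ, det2, Prod.smul_fst, Prod.smul_snd, smul_eq_mul]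
    ring

/-- Proof. As in `pol_anti`:
`pol A (θ+π) = (-1)^(k+1) pol A θ`, the same for `B`, `m`, and `(-1)^(m+1) = (-1)^(k+1)` as `k + m` is
even. -/
theorem pol_sym {v A B : ℝ × ℝ → ℝ × ℝ} {k m : ℕ} (h : HomSum v A B k m)
    (heven : Even (k + m)) :
    ∃ σ : ℝ, (σ = 1 ∨ σ = -1) ∧ (∀ θ, pol A (θ + Real.pi) = (σ : ℂ) * pol A θ) ∧
      (∀ θ, pol B (θ + Real.pi) = (σ : ℂ) * pol B θ) := by
  refine ⟨(-1 : ℝ) ^ (k + 1), neg_one_pow_eq_or ℝ (k + 1), fun θ => symLeaf_pol_pi h.homA θ,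
    fun θ => ?_⟩
  rw [symLeaf_pol_pi h.homB θ]
  have h2 : ((-1 : ℝ) ^ (m + 1)) = (-1 : ℝ) ^ (k + 1) := by
    rcases Nat.even_or_odd k with hk | hk
    · have hm : Even m := (Nat.even_add.1 heven).1 hk
      rw [hm.add_one.neg_one_pow, hk.add_one.neg_one_pow]
    · have hm : Odd m := by
        rcases Nat.even_or_odd m with hm | hm
        · exact absurd ((Nat.even_add.1 heven).2 hm) (Nat.not_even_iff_odd.2 hk)
        · exact hm
      rw [hm.add_one.neg_one_pow, hk.add_one.neg_one_pow]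
  rw [h2]

/-- the angle of the shifted leaf -/
private theorem symLeaf_angle {σ : ℝ} (hσ : σ = 1 ∨ σ = -1) (b : ℝ) :
    ∃ b' : ℝ, Complex.exp ((b' : ℂ) * Complex.I) = (σ : ℂ) * Complex.exp ((b : ℂ) * Complex.I) := by
  rcases hσ with h | h
  · exact ⟨b, by rw [h]; push_cast; ring⟩
  · refine ⟨b + Real.pi, ?_⟩
    rw [h]
    push_cast
    rw [add_mul, Complex.exp_add, Complex.exp_pi_mul_I]
    ring

/-- Proof. Let `r' θ = r (θ + π)`. If `σ = 1` then `r'` is a leaf of the angle `b` (the four fields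
of `Leaf`; `lfU p q d b r' θ = lfU p q d b r (θ+π)`; chain rule); by `leaf_order` `r = r'`
(the claim), or `r θ < r' θ` for all `θ`: then `r 0 < r π < r (2π) = r 0`, a contradiction, or
`r' θ < r θ` for all `θ`, in the same way. If `σ = -1` then `r'` is a leaf of the angle `b + π`:
`lfU p q d (b+π) r' θ = -e^{ib} (p θ + r (θ+π)^d q θ) = e^{ib} (p (θ+π) + r (θ+π)^d q (θ+π))`;
by `leaf_order` `π = 2π j` for an integer `j`, impossible, or a strict order, impossible as before. -/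
theorem leaf_sym {p q : ℝ → ℂ} (h : PQ p q) {σ : ℝ} (hσ : σ = 1 ∨ σ = -1)
    (hp : ∀ θ, p (θ + Real.pi) = (σ : ℂ) * p θ) (hq : ∀ θ, q (θ + Real.pi) = (σ : ℂ) * q θ)
    {d : ℕ} {b : ℝ} {r : ℝ → ℝ} (hr : Leaf p q d b r) (θ : ℝ) : r (θ + Real.pi) = r θ := by
  obtain ⟨b', hb'⟩ := symLeaf_angle hσ b
  have hU : ∀ x, lfU p q d b' (fun t => r (t + Real.pi)) x = lfU p q d b r (x + Real.pi) := by
    intro x
    simp only [lfU]
    rw [hb', hp, hq]
    ring
  have hC : ∀ x, lfC p q d b' (fun t => r (t + Real.pi)) x = lfC p q d b r (x + Real.pi) := by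
    intro x
    unfold lfC
    rw [hU]
  have hr' : Leaf p q d b' (fun t => r (t + Real.pi)) :=
    { pos := fun x => hr.pos _
      per := fun x => by
        show r (x + 2 * Real.pi + Real.pi) = r (x + Real.pi)
        rw [show x + 2 * Real.pi + Real.pi = x + Real.pi + 2 * Real.pi by ring]
        exact hr.per _
      up := fun x => by
        rw [hU]
        exact hr.up _
      der := fun x => by
        rw [hC]
        exact (hr.der (x + Real.pi)).comp_add_const x Real.pi }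
  have hpp : r (0 + Real.pi + Real.pi) = r 0 := by
    rw [show (0 : ℝ) + Real.pi + Real.pi = 0 + 2 * Real.pi by ring]
    exact hr.per 0
  rcases leaf_order h hr hr' with ⟨h1, -⟩ | h1 | h1
  · exact (congrFun h1 θ).symm
  · have h2 : r 0 < r (0 + Real.pi) := h1 0
    have h3 : r (0 + Real.pi) < r (0 + Real.pi + Real.pi) := h1 (0 + Real.pi)
    rw [hpp] at h3
    exact absurd (h2.trans h3) (lt_irrefl _)
  · have h2 : r (0 + Real.pi) < r 0 := h1 0
    have h3 : r (0 + Real.pi + Real.pi) < r (0 + Real.pi) := h1 (0 + Real.pi)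
    rw [hpp] at h3
    exact absurd (h2.trans h3) (lt_irrefl _)

end Pool.Agent.Lib.MP_95e7ec_an
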