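import Mathlib
import Pool.Agent.Lib.MP_95e7ec_an.Rz.Closed
import Pool.Agent.Lib.MP_95e7ec_an.Rz.Cot

/-!
# Rz, ZeroAny: the degenerate case, all the leaves at once
-/

set_option autoImplicit false

open Set Filter Topology MeasureTheory
open scoped ContDiff ENNReal

namespace Pool.Agent.Lib.MP_95e7ec_an

private lemma ZeroAny_cross (b₁ b₂ : ℝ) (w₁ w₂ : ℂ) :
    (Complex.exp ((b₁ : ℂ) * Complex.I) * w₁).re * (Complex.exp ((b₂ : ℂ) * Complex.I) * w₂).im
      - (Complex.exp ((b₂ : ℂ) * Complex.I) * w₂).re * (Complex.exp ((b₁ : ℂ) * Complex.I) * w₁).im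
      = Real.sin (b₂ - b₁) * (w₁.re * w₂.re + w₁.im * w₂.im)
        + Real.cos (b₂ - b₁) * (w₁.re * w₂.im - w₁.im * w₂.re) := by
  simp only [Complex.mul_re, Complex.mul_im, Complex.exp_ofReal_mul_I_re,
    Complex.exp_ofReal_mul_I_im, Real.sin_sub, Real.cos_sub]
  ring

private lemma ZeroAny_exists {p q : ℝ → ℂ} (h : PQ p q) {d : ℕ} {b₁ b₂ : ℝ}
    {r₁ r₂ : ℝ → ℝ} (h₁ : Leaf p q d b₁ r₁) (h₂ : Leaf p q d b₂ r₂) :
    ∃ θ, lfC p q d b₁ r₁ θ = lfC p q d b₂ r₂ θ := by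
  have hpi : (0 : ℝ) < 2 * Real.pi := by positivity
  have hc₁ := h₁.continuous_lfC h
  have hc₂ := h₂.continuous_lfC h
  have hint : ∫ θ in (0 : ℝ)..(2 * Real.pi), (lfC p q d b₁ r₁ θ - lfC p q d b₂ r₂ θ) = 0 := by
    rw [intervalIntegral.integral_sub (hc₁.intervalIntegrable _ _) (hc₂.intervalIntegrable _ _),
      intervalIntegral.integral_of_le hpi.le, intervalIntegral.integral_of_le hpi.le,
      h₁.integral_lfC h, h₂.integral_lfC h, sub_zero]
  have hint2 : ∫ θ in (0 : ℝ)..(2 * Real.pi), (lfC p q d b₂ r₂ θ - lfC p q d b₁ r₁ θ) = 0 := by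
    rw [intervalIntegral.integral_sub (hc₂.intervalIntegrable _ _) (hc₁.intervalIntegrable _ _),
      intervalIntegral.integral_of_le hpi.le, intervalIntegral.integral_of_le hpi.le,
      h₁.integral_lfC h, h₂.integral_lfC h, sub_zero]
  have hA : ∃ θ, lfC p q d b₁ r₁ θ - lfC p q d b₂ r₂ θ ≤ 0 := by
    by_contra hcon
    push Not at hcon
    have := intervalIntegral.intervalIntegral_pos_of_pos
      ((hc₁.sub hc₂).intervalIntegrable 0 (2 * Real.pi)) (fun x => hcon x) hpi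
    exact absurd hint (ne_of_gt this)
  have hB : ∃ θ, 0 ≤ lfC p q d b₁ r₁ θ - lfC p q d b₂ r₂ θ := by
    by_contra hcon
    push Not at hcon
    have := intervalIntegral.intervalIntegral_pos_of_pos
      ((hc₂.sub hc₁).intervalIntegrable 0 (2 * Real.pi))
      (fun x => sub_pos.2 (sub_neg.1 (hcon x))) hpi
    exact absurd hint2 (ne_of_gt this)
  obtain ⟨θ, hθ⟩ := mem_range_of_exists_le_of_exists_ge (hc₁.sub hc₂) hA hB
  exact ⟨θ, sub_eq_zero.1 hθ⟩

/-- If the determinant is zero then all the leaves have the same angle modulo `π`. -/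
theorem pair_zero_any {p q : ℝ → ℂ} (h : PQ p q) {d : ℕ} {b₁ b₂ : ℝ}
    {r₁ r₂ : ℝ → ℝ} (h₁ : Leaf p q d b₁ r₁) (h₂ : Leaf p q d b₂ r₂)
    (h0 : ∀ θ, pqD p q θ = 0) :
    ∃ j : ℤ, b₂ - b₁ = Real.pi * j := by
  obtain ⟨θ, hθ⟩ := ZeroAny_exists h h₁ h₂
  have hu₁ := h₁.up θ
  have hu₂ := h₂.up θ
  have hpq := h0 θ
  have hsin : Real.sin (b₂ - b₁) = 0 := by
    by_contra hne
    have hcr : (lfU p q d b₁ r₁ θ).re * (lfU p q d b₂ r₂ θ).im
        - (lfU p q d b₂ r₂ θ).re * (lfU p q d b₁ r₁ θ).im = 0 := by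
      unfold lfC at hθ
      rw [div_eq_div_iff hu₁.ne' hu₂.ne'] at hθ
      linarith
    set w₁ : ℂ := p θ + ((r₁ θ ^ d : ℝ) : ℂ) * q θ with hw₁
    set w₂ : ℂ := p θ + ((r₂ θ ^ d : ℝ) : ℂ) * q θ with hw₂
    have hU₁ : lfU p q d b₁ r₁ θ = Complex.exp ((b₁ : ℂ) * Complex.I) * w₁ := rfl
    have hU₂ : lfU p q d b₂ r₂ θ = Complex.exp ((b₂ : ℂ) * Complex.I) * w₂ := rfl
    have hc0 : w₁.re * w₂.im - w₁.im * w₂.re = 0 := by
      have h3 : w₁.re * w₂.im - w₁.im * w₂.re = (r₂ θ ^ d - r₁ θ ^ d) * pqD p q θ := by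
        simp only [hw₁, hw₂, pqD, Complex.add_re, Complex.add_im, Complex.mul_re, Complex.mul_im,
          Complex.ofReal_re, Complex.ofReal_im]
        ring
      rw [h3, hpq, mul_zero]
    rw [hU₁, hU₂, ZeroAny_cross, hc0, mul_zero, add_zero] at hcr
    have hd0 : w₁.re * w₂.re + w₁.im * w₂.im = 0 := (mul_eq_zero.1 hcr).resolve_left hne
    have hprod : Complex.normSq w₁ * Complex.normSq w₂ = 0 := by
      rw [Complex.normSq_apply, Complex.normSq_apply]
      have h4 : (w₁.re * w₁.re + w₁.im * w₁.im) * (w₂.re * w₂.re + w₂.im * w₂.im)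
          = (w₁.re * w₂.re + w₁.im * w₂.im) ^ 2 + (w₁.re * w₂.im - w₁.im * w₂.re) ^ 2 := by ring
      rw [h4, hd0, hc0]
      norm_num
    rcases mul_eq_zero.1 hprod with h5 | h5
    · have h6 : w₁ = 0 := Complex.normSq_eq_zero.1 h5
      rw [hU₁, h6, mul_zero, Complex.zero_im] at hu₁
      exact lt_irrefl _ hu₁
    · have h6 : w₂ = 0 := Complex.normSq_eq_zero.1 h5
      rw [hU₂, h6, mul_zero, Complex.zero_im] at hu₂
      exact lt_irrefl _ hu₂
  obtain ⟨j, hj⟩ := Real.sin_eq_zero_iff.1 hsin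
  exact ⟨j, by rw [← hj, mul_comm]⟩

/-- In the degenerate case there are leaves for countably many angles only. -/
theorem count_zero_any {p q : ℝ → ℂ} (h : PQ p q) (d : ℕ) (h0 : ∀ θ, pqD p q θ = 0) :
    ∃ H : ℝ → ℝ≥0∞, Measurable H ∧
      (∀ x, (({r : ℝ → ℝ | Leaf p q d x r}.encard : ℕ∞) : ℝ≥0∞) ≤ H x) ∧
      ∀ t : ℝ, ∫⁻ x in Set.Icc t (t + 2 * Real.pi), H x ≤ 0 := by
  by_cases hex : ∃ b₀ r₀, Leaf p q d b₀ r₀
  · obtain ⟨b₀, r₀, hr₀⟩ := hex
    have hcount : (Set.range fun j : ℤ => b₀ + Real.pi * j).Countable := Set.countable_range _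
    refine ⟨(Set.range fun j : ℤ => b₀ + Real.pi * j).indicator fun _ => ⊤,
      measurable_const.indicator hcount.measurableSet, fun x => ?_, fun t => ?_⟩
    · by_cases hx : x ∈ Set.range fun j : ℤ => b₀ + Real.pi * j
      · rw [Set.indicator_of_mem hx]
        exact le_top
      · have hemp : {r : ℝ → ℝ | Leaf p q d x r} = ∅ := by
          rw [Set.eq_empty_iff_forall_notMem]
          intro r hr
          obtain ⟨j, hj⟩ := pair_zero_any h hr₀ hr h0
          exact hx ⟨j, by simp only; linarith⟩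
        rw [hemp, Set.encard_empty]
        simp
    · have hae : ∀ᵐ x ∂(volume.restrict (Set.Icc t (t + 2 * Real.pi))),
          (Set.range fun j : ℤ => b₀ + Real.pi * j).indicator (fun _ => (⊤ : ℝ≥0∞)) x = 0 :=
        ae_restrict_of_ae ((hcount.ae_notMem volume).mono fun x hx => Set.indicator_of_notMem hx _)
      rw [lintegral_congr_ae hae]
      simp
  · refine ⟨fun _ => 0, measurable_const, fun x => ?_, fun t => by simp⟩
    have hemp : {r : ℝ → ℝ | Leaf p q d x r} = ∅ := by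
      rw [Set.eq_empty_iff_forall_notMem]
      exact fun r hr => hex ⟨x, r, hr⟩
    rw [hemp, Set.encard_empty]
    simp

end Pool.Agent.Lib.MP_95e7ec_an
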