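import Mathlib
import Pool.Agent.Lib.MP_95e7ec_an.Rz.FinalB
import Pool.Agent.Lib.MP_95e7ec_an.Rz.AroundAll
import Pool.Agent.Lib.MP_95e7ec_an.Rz.LeafTotal
import Pool.Agent.Lib.MP_95e7ec_an.Rz.LineCount
import Pool.Agent.Lib.MP_95e7ec_an.Rz.ChainLine
import Pool.Agent.Lib.MP_95e7ec_an.Rz.ChainCard
import Pool.Agent.Lib.MP_95e7ec_an.Rz.SymLeaf
import Pool.Agent.Lib.MP_95e7ec_an.Rz.ZeroAny

/-!
# Rz, FinalT: the number of all the closed orbits around the origin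
-/

set_option autoImplicit false

open Set Filter Topology MeasureTheory
open scoped ContDiff ENNReal

namespace Pool.Agent.Lib.MP_95e7ec_an

/-- the number of the sets of zeros inside the leaves is at most `k + m + 1` -/
theorem leafE_hom {k m : ℕ} (hkm : k < m) {P₁ Q₁ P₂ Q₂ : MvPolynomial (Fin 2) ℝ}
    (hP₁ : P₁.IsHomogeneous k) (hQ₁ : Q₁.IsHomogeneous k) (hP₂ : P₂.IsHomogeneous m)
    (hQ₂ : Q₂.IsHomogeneous m)
    (hne : ¬ ∀ θ, pqD (pol (vf P₁ Q₁)) (pol (vf P₂ Q₂)) θ = 0) :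
    (leafE (pol (vf P₁ Q₁)) (pol (vf P₂ Q₂)) (m - k)).encard ≤ ((k + m + 1 : ℕ) : ℕ∞) := by
  have h := homSum_vf hkm hP₁ hQ₁ hP₂ hQ₂
  have hd : 1 ≤ m - k := Nat.sub_pos_of_lt hkm
  have hpq := pq_of_hom h
  obtain ⟨Λ, hcard, hΛ⟩ := line_count hP₁ hQ₁ hP₂ hQ₂ hne
  have h1 : (leafE (pol (vf P₁ Q₁)) (pol (vf P₂ Q₂)) (m - k)).encard ≤
      ((Λ.card + 1 : ℕ) : ℕ∞) := by
    rcases Nat.even_or_odd (k + m) with he | ho
    · obtain ⟨σ, hσ, hp, hq⟩ := pol_sym h he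
      exact leafE_card hpq Λ fun b₁ b₂ r₁ r₂ h₁ h₂ hlt hL =>
        zin_eq_even hpq hd hσ hp hq Λ hΛ h₁ h₂ (leaf_sym hpq hσ hp hq h₁) hlt hL
    · obtain ⟨σ, hσ, hp, hq, -⟩ := pol_anti h ho
      exact leafE_card hpq Λ fun b₁ b₂ r₁ r₂ h₁ h₂ hlt hL =>
        zin_eq_odd hpq hd hσ hp hq Λ hΛ h₁ h₂ hlt hL
  refine h1.trans ?_
  exact_mod_cast Nat.add_le_add_right hcard 1

/-- from a bound for every set of zeros to a bound for all the closed orbits around the origin -/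
theorem total_of_each {k m : ℕ} (hkm : k < m) {P₁ Q₁ P₂ Q₂ : MvPolynomial (Fin 2) ℝ}
    (hP₁ : P₁.IsHomogeneous k) (hQ₁ : Q₁.IsHomogeneous k) (hP₂ : P₂.IsHomogeneous m)
    (hQ₂ : Q₂.IsHomogeneous m) {c : ℝ} (hc : 0 ≤ c)
    (hE : ∀ E : Set (ℝ × ℝ), ∃ H : ℝ → ℝ≥0∞, Measurable H ∧
      (∀ x, lfN (pol (vf P₁ Q₁)) (pol (vf P₂ Q₂)) (m - k) E x ≤ H x) ∧
      ∀ t : ℝ, ∫⁻ x in Set.Icc t (t + 2 * Real.pi), H x ≤ ENNReal.ofReal c) :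
    ∃ H : ℝ → ℝ≥0∞, Measurable H ∧
      (∀ a, (((around0 (vf (P₁ + P₂) (Q₁ + Q₂)) a).encard : ℕ∞) : ℝ≥0∞) ≤ H a) ∧
      ∫⁻ a in Set.Icc 0 (2 * Real.pi), H a ≤
        ENNReal.ofReal (2 * (((k + m + 1 : ℕ) : ℝ) * c)) := by
  have h := homSum_vf hkm hP₁ hQ₁ hP₂ hQ₂
  have hpq := pq_of_hom h
  refine around_all h (by positivity) ?_
  by_cases hne : ∀ θ, pqD (pol (vf P₁ Q₁)) (pol (vf P₂ Q₂)) θ = 0
  · obtain ⟨H, hm, hle, hint⟩ := count_zero_any hpq (m - k) hne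
    exact ⟨H, hm, hle, fun t => (hint t).trans zero_le⟩
  · exact leaf_total hc hE (leafE_hom hkm hP₁ hQ₁ hP₂ hQ₂ hne)

/-- **Sums of two homogeneous fields**: the mean number, over all the rotations, of all the closed
orbits around the origin is at most `2 (k + m + 1)`. -/
theorem hom_total {k m : ℕ} (hkm : k < m) {P₁ Q₁ P₂ Q₂ : MvPolynomial (Fin 2) ℝ}
    (hP₁ : P₁.IsHomogeneous k) (hQ₁ : Q₁.IsHomogeneous k) (hP₂ : P₂.IsHomogeneous m)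
    (hQ₂ : Q₂.IsHomogeneous m) :
    ∃ H : ℝ → ℝ≥0∞, Measurable H ∧
      (∀ a, (((around0 (vf (P₁ + P₂) (Q₁ + Q₂)) a).encard : ℕ∞) : ℝ≥0∞) ≤ H a) ∧
      ∫⁻ a in Set.Icc 0 (2 * Real.pi), H a ≤
        ENNReal.ofReal (4 * Real.pi * ((k : ℝ) + (m : ℝ) + 1)) := by
  have h := homSum_vf hkm hP₁ hQ₁ hP₂ hQ₂
  have h1 := total_of_each hkm hP₁ hQ₁ hP₂ hQ₂ (c := 2 * Real.pi) (by positivity)
    fun E => leaf_count (pq_of_hom h) (Nat.sub_pos_of_lt hkm) E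
  have e : 2 * (((k + m + 1 : ℕ) : ℝ) * (2 * Real.pi)) =
      4 * Real.pi * ((k : ℝ) + (m : ℝ) + 1) := by
    push_cast
    ring
  rwa [e] at h1

/-- if the sum of the degrees is odd then the mean number is at most `(k + m + 1) / 2` -/
theorem hom_total_odd {k m : ℕ} (hkm : k < m) {P₁ Q₁ P₂ Q₂ : MvPolynomial (Fin 2) ℝ}
    (hP₁ : P₁.IsHomogeneous k) (hQ₁ : Q₁.IsHomogeneous k) (hP₂ : P₂.IsHomogeneous m)
    (hQ₂ : Q₂.IsHomogeneous m) (hodd : Odd (k + m)) :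
    ∃ H : ℝ → ℝ≥0∞, Measurable H ∧
      (∀ a, (((around0 (vf (P₁ + P₂) (Q₁ + Q₂)) a).encard : ℕ∞) : ℝ≥0∞) ≤ H a) ∧
      ∫⁻ a in Set.Icc 0 (2 * Real.pi), H a ≤
        ENNReal.ofReal (Real.pi * ((k : ℝ) + (m : ℝ) + 1)) := by
  have h := homSum_vf hkm hP₁ hQ₁ hP₂ hQ₂
  obtain ⟨σ, hσ, hp, hq, -⟩ := pol_anti h hodd
  have h1 := total_of_each hkm hP₁ hQ₁ hP₂ hQ₂ (c := Real.pi / 2) (by positivity)
    fun E => leaf_count_odd (pq_of_hom h) (Nat.sub_pos_of_lt hkm) E hσ hp hq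
  have e : 2 * (((k + m + 1 : ℕ) : ℝ) * (Real.pi / 2)) =
      Real.pi * ((k : ℝ) + (m : ℝ) + 1) := by
    push_cast
    ring
  rwa [e] at h1

end Pool.Agent.Lib.MP_95e7ec_an
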