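import Mathlib
import Pool.Agent.Lib.MP_95e7ec_an.Rz.FinalT

/-!
# Sums of two homogeneous fields: the mean number of the closed orbits around the origin

Let `X = A + B` with homogeneous polynomial fields `A`, `B` of degrees `k < m`. The mean, over all the
rotations `e^{ia} X`, of the number of the closed orbits around the origin is at most `2 (k + m + 1)`,
and at most `(k + m + 1) / 2` if `k + m` is odd.
-/

set_option autoImplicit false

open scoped ENNReal
open MeasureTheory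

namespace Pool.Agent.Results.MP_95e7ec_an.HomogeneousPairMean

open Pool.Agent.Lib.MP_95e7ec_an

/-- **Sums of two homogeneous fields.** Let `X = (P₁ + P₂, Q₁ + Q₂)`, `P₁`, `Q₁` homogeneous of degree
`k`, `P₂`, `Q₂` homogeneous of degree `m`, `k < m`. There is a measurable function `H` which at every
`a` is at least the number of the closed orbits of `e^{ia} X` which surround the origin, and whose
integral over `[0, 2π]` is at most `4π (k + m + 1)`, and at most `π (k + m + 1)` if `k + m` is odd. -/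
theorem result (k m : ℕ) (hkm : k < m) (P₁ Q₁ P₂ Q₂ : MvPolynomial (Fin 2) ℝ)
    (hP₁ : P₁.IsHomogeneous k) (hQ₁ : Q₁.IsHomogeneous k) (hP₂ : P₂.IsHomogeneous m)
    (hQ₂ : Q₂.IsHomogeneous m) :
    ∃ H : ℝ → ℝ≥0∞, Measurable H ∧
      (∀ a, (({C : Set (ℝ × ℝ) | IsClosedOrbit (turn a (vf (P₁ + P₂) (Q₁ + Q₂))) C ∧
        Surr (turn a (vf (P₁ + P₂) (Q₁ + Q₂))) C 0}.encard : ℕ∞) : ℝ≥0∞) ≤ H a) ∧
      ∫⁻ a in Set.Icc 0 (2 * Real.pi), H a ≤
        ENNReal.ofReal (4 * Real.pi * ((k : ℝ) + (m : ℝ) + 1)) ∧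
      (Odd (k + m) → ∫⁻ a in Set.Icc 0 (2 * Real.pi), H a ≤
        ENNReal.ofReal (Real.pi * ((k : ℝ) + (m : ℝ) + 1))) := by
  by_cases hodd : Odd (k + m)
  · obtain ⟨H, hm, hle, hint⟩ := hom_total_odd hkm hP₁ hQ₁ hP₂ hQ₂ hodd
    refine ⟨H, hm, hle, hint.trans (ENNReal.ofReal_le_ofReal ?_), fun _ => hint⟩
    have hpi := Real.pi_pos
    have h1 : (0 : ℝ) ≤ (k : ℝ) + (m : ℝ) + 1 := by positivity
    nlinarith [mul_nonneg hpi.le h1]
  · obtain ⟨H, hm, hle, hint⟩ := hom_total hkm hP₁ hQ₁ hP₂ hQ₂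
    exact ⟨H, hm, hle, hint, fun h => absurd h hodd⟩

end Pool.Agent.Results.MP_95e7ec_an.HomogeneousPairMean
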