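import Mathlib
import Pool.Agent.Lib.MP_95e7ec_an.Rb.Uniq

/-!
# Rz, Orient: families of different orientation are different
-/

set_option autoImplicit false

open Set Filter Topology MeasureTheory
open scoped ContDiff ENNReal

namespace Pool.Agent.Lib.MP_95e7ec_an

/-- A closed curve cannot have one inside on its left and another inside on its right. Proof. Suppose
both. Let `w` be any point not in `C` and `p` the point of the compact set `C` closest to `w`
(Euclidean distance `nm`). The curve is differentiable with derivative `v p` at `p`, so the scalar product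
of `w - p` and `v p` is zero and `det2 (w - p) (v p) ≠ 0`. The half-open segment from `w` to `p` misses
`C`, so (`JP.dich`) it is contained in `D` or disjoint from `D`, and the same for `D'`. If
`det2 (w - p) (v p) < 0` then the points `p + s (w - p)`, `s > 0` small, are in `D` by
`Side v C D`, so `w ∈ D`; if it is positive they are in `D'` by `Side (-v) C D'`
(`det2 u (-v) = -det2 u v`), so `w ∈ D'`. So every point of the plane is in `D ∪ C ∪ D'`, which is
bounded: a contradiction. (The first half of the proof is the one of `uniq_subset` in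
`Rb/Uniq.lean`.) -/
theorem side_orient {v : ℝ × ℝ → ℝ × ℝ} {C D D' : Set (ℝ × ℝ)} (hC : IsClosedOrbit v C)
    (h : JP C D) (h' : JP C D') (hs : Side v C D) (hs' : Side (fun z => -v z) C D') : False := by
  obtain ⟨y, hy⟩ := (Set.ne_univ_iff_exists_notMem _).1 (h.cpt.union h'.cpt).ne_univ
  have hyD : y ∉ D := fun hh => hy (Or.inl (Or.inl hh))
  have hyC : y ∉ C := fun hh => hy (Or.inl (Or.inr hh))
  have hyD' : y ∉ D' := fun hh => hy (Or.inr (Or.inl hh))
  have hcf : Continuous fun z : ℝ × ℝ => (z.1 - y.1) ^ 2 + (z.2 - y.2) ^ 2 := by fun_prop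
  obtain ⟨p, hp, hmin⟩ := h.cptC.exists_isMinOn h.ne hcf.continuousOn
  have hmin' : ∀ z ∈ C, (p.1 - y.1) ^ 2 + (p.2 - y.2) ^ 2 ≤ (z.1 - y.1) ^ 2 + (z.2 - y.2) ^ 2 :=
    fun z hz => hmin hz
  have hpy : p ≠ y := fun e => hyC (e ▸ hp)
  have hpy2 : 0 < (p.1 - y.1) ^ 2 + (p.2 - y.2) ^ 2 := by
    by_contra hcon
    push Not at hcon
    have e1 : p.1 - y.1 = 0 := by nlinarith [sq_nonneg (p.1 - y.1), sq_nonneg (p.2 - y.2)]
    have e2 : p.2 - y.2 = 0 := by nlinarith [sq_nonneg (p.1 - y.1), sq_nonneg (p.2 - y.2)]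
    exact hpy (Prod.ext (sub_eq_zero.1 e1) (sub_eq_zero.1 e2))
  -- the scalar product vanishes
  obtain ⟨γ, T, -, hγ, -, -, hrange⟩ := hC
  have hp0 := hp
  rw [hrange] at hp0
  obtain ⟨t0, ht0⟩ := hp0
  have hdot : (p.1 - y.1) * (v p).1 + (p.2 - y.2) * (v p).2 = 0 := by
    have hx : HasDerivAt (fun t => (γ t).1) (v (γ t0)).1 t0 :=
      (hasFDerivAt_fst (𝕜 := ℝ) (p := γ t0)).comp_hasDerivAt t0 (hγ t0)
    have hx2 : HasDerivAt (fun t => (γ t).2) (v (γ t0)).2 t0 :=
      (hasFDerivAt_snd (𝕜 := ℝ) (p := γ t0)).comp_hasDerivAt t0 (hγ t0)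
    have hd := ((hx.sub_const y.1).pow 2).add ((hx2.sub_const y.2).pow 2)
    have hloc : IsLocalMin (fun t => ((γ t).1 - y.1) ^ 2 + ((γ t).2 - y.2) ^ 2) t0 := by
      refine Filter.Eventually.of_forall fun t => ?_
      have h1 := hmin' (γ t) (by rw [hrange]; exact ⟨t, rfl⟩)
      simp only [ht0]
      exact h1
    have h0 := hloc.hasDerivAt_eq_zero hd
    rw [ht0] at h0
    simp only [Nat.cast_ofNat] at h0
    have : 2 * ((p.1 - y.1) * (v p).1 + (p.2 - y.2) * (v p).2) = 0 := by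
      rw [← h0]; ring
    linarith
  obtain ⟨hv0, M, r, hM, hr, hside⟩ := hs p hp
  obtain ⟨-, M', r', hM', hr', hside'⟩ := hs' p hp
  have hv2 : 0 < (v p).1 ^ 2 + (v p).2 ^ 2 := by
    by_contra hcon
    push Not at hcon
    have e1 : (v p).1 = 0 := by nlinarith [sq_nonneg (v p).1, sq_nonneg (v p).2]
    have e2 : (v p).2 = 0 := by nlinarith [sq_nonneg (v p).1, sq_nonneg (v p).2]
    exact hv0 (Prod.ext e1 e2)
  set d : ℝ := det2 (y - p) (v p) with hd
  have hd0 : d ≠ 0 := by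
    intro h0
    have e1 : d ^ 2 + ((p.1 - y.1) * (v p).1 + (p.2 - y.2) * (v p).2) ^ 2 =
        ((p.1 - y.1) ^ 2 + (p.2 - y.2) ^ 2) * ((v p).1 ^ 2 + (v p).2 ^ 2) := by
      simp only [hd, det2, Prod.fst_sub, Prod.snd_sub]
      ring
    rw [h0, hdot] at e1
    have e2 := mul_pos hpy2 hv2
    rw [← e1] at e2
    norm_num at e2
  -- the half-open segment
  set K : Set (ℝ × ℝ) := (fun s : ℝ => p + s • (y - p)) '' Set.Ioc 0 1 with hK
  have hKc : IsPreconnected K :=
    isPreconnected_Ioc.image _ (Continuous.continuousOn (by fun_prop))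
  have hKC : Disjoint K C := by
    rw [Set.disjoint_left]
    rintro x ⟨s, ⟨hs0, hs1⟩, rfl⟩ hx
    have h1 := hmin' _ hx
    simp only [Prod.fst_add, Prod.snd_add, Prod.smul_fst, Prod.smul_snd, Prod.fst_sub,
      Prod.snd_sub, smul_eq_mul] at h1
    have h2 : (p.1 + s * (y.1 - p.1) - y.1) ^ 2 + (p.2 + s * (y.2 - p.2) - y.2) ^ 2 =
        (1 - s) ^ 2 * ((p.1 - y.1) ^ 2 + (p.2 - y.2) ^ 2) := by ring
    rw [h2] at h1
    have h3 : (1 - s) ^ 2 < 1 := by nlinarith
    have h4 := mul_lt_mul_of_pos_right h3 hpy2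
    linarith
  have hyK : y ∈ K := ⟨1, ⟨one_pos, le_refl _⟩, by simp⟩
  have hKD : Disjoint K D := by
    rcases h.dich hKc hKC with h1 | h1
    · exact absurd (h1 hyK) hyD
    · exact h1
  have hKD' : Disjoint K D' := by
    rcases h'.dich hKc hKC with h1 | h1
    · exact absurd (h1 hyK) hyD'
    · exact h1
  -- small points of the segment
  have hnm : 0 < nm (y - p) := nm_pos (sub_ne_zero.2 hpy.symm)
  have small : ∀ (M r : ℝ), 0 ≤ M → 0 < r → ∃ s : ℝ, 0 < s ∧ s ≤ 1 ∧ s * nm (y - p) < r ∧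
      M * (s * nm (y - p)) ^ 2 < s * |d| := by
    intro M r hM hr
    have hdp : 0 < |d| := abs_pos.2 hd0
    set s : ℝ := min 1 (min (r / (2 * nm (y - p))) (|d| / (2 * (M * nm (y - p) ^ 2 + 1)))) with hsdef
    have hs0 : 0 < s := by
      rw [hsdef]
      refine lt_min one_pos (lt_min (by positivity) (by positivity))
    have hs1 : s ≤ 1 := min_le_left _ _
    have hs2 : s ≤ r / (2 * nm (y - p)) := le_trans (min_le_right _ _) (min_le_left _ _)
    have hs3 : s ≤ |d| / (2 * (M * nm (y - p) ^ 2 + 1)) :=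
      le_trans (min_le_right _ _) (min_le_right _ _)
    refine ⟨s, hs0, hs1, ?_, ?_⟩
    · rw [le_div_iff₀ (by positivity)] at hs2
      nlinarith
    · rw [le_div_iff₀ (by positivity)] at hs3
      have h1 : M * (s * nm (y - p)) ^ 2 = s * (s * (M * nm (y - p) ^ 2)) := by ring
      rw [h1]
      refine mul_lt_mul_of_pos_left ?_ hs0
      nlinarith [mul_nonneg hM (sq_nonneg (nm (y - p)))]
  have hw : ∀ s : ℝ, 0 < s → nm (p + s • (y - p) - p) = s * nm (y - p) ∧
      det2 (p + s • (y - p) - p) (v p) = s * d := by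
    intro s hs0
    rw [add_sub_cancel_left, rb_nm_smul, abs_of_pos hs0, rb_det2_smul_left]
    exact ⟨rfl, rfl⟩
  have hneg' : ∀ u z : ℝ × ℝ, det2 u (-z) = -det2 u z := by
    intro u z
    simp only [det2, Prod.fst_neg, Prod.snd_neg]
    ring
  rcases lt_or_gt_of_ne hd0 with hneg | hpos
  · obtain ⟨s, hs0, hs1, hs2, hs3⟩ := small M r hM hr
    obtain ⟨e1, e2⟩ := hw s hs0
    have h1 := (hside (p + s • (y - p)) (by rw [e1]; exact hs2)).2 (by
      rw [e1, e2]
      rw [abs_of_neg hneg] at hs3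
      linarith)
    exact Set.disjoint_left.1 hKD ⟨s, ⟨hs0, hs1⟩, rfl⟩ h1
  · obtain ⟨s, hs0, hs1, hs2, hs3⟩ := small M' r' hM' hr'
    obtain ⟨e1, e2⟩ := hw s hs0
    have h1 := (hside' (p + s • (y - p)) (by rw [e1]; exact hs2)).2 (by
      rw [hneg', e1, e2]
      rw [abs_of_pos hpos] at hs3
      linarith)
    exact Set.disjoint_left.1 hKD' ⟨s, ⟨hs0, hs1⟩, rfl⟩ h1

/-- Proof. `side_orient` for the field `turn a Y`; `turn a (-Y) = -turn a Y` (expansion). -/
theorem fml_orient {Y : ℝ × ℝ → ℝ × ℝ} {δ : ℝ} (F : Fml Y δ)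
    (F' : Fml (fun z => -Y z) δ) {a : ℝ} (ha : a ∈ Set.Icc 0 δ) : F.C a ≠ F'.C a := by
  intro he
  have ht : turn a (fun z => -Y z) = fun z => -turn a Y z := by
    funext z
    simp only [turn, Prod.fst_neg, Prod.snd_neg, Prod.neg_mk, Prod.mk.injEq]
    constructor <;> ring
  have h1 := F'.side a ha
  have h2 := F'.jp a ha
  rw [ht] at h1
  rw [← he] at h1 h2
  exact side_orient (F.orb a ha) (F.jp a ha) h2 (F.side a ha) h1

end Pool.Agent.Lib.MP_95e7ec_an
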