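import Mathlib
import Pool.Agent.Lib.MP_95e7ec_an.Rz.Orient
import Pool.Agent.Lib.MP_95e7ec_an.Rb.Distinct
import Pool.Agent.Lib.MP_95e7ec_an.Rb.FmlOf

/-!
# Rz, Persist: persistent closed orbits and the mean number of closed orbits
-/

set_option autoImplicit false

open Set Filter Topology MeasureTheory
open scoped ContDiff ENNReal

namespace Pool.Agent.Lib.MP_95e7ec_an

/-- Proof. By `exists_fml` (with `g = 1`, `Y = v`) every `C ∈ s` is `F.C 0` for a family `F` of `v` or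
of `-v`; choose one, `F_C`. Map `C` to `F_C.C a`, a closed orbit of `turn a v` (for a family of `-v`:
`turn a (-v) = -turn a v` and `IsClosedOrbit.neg`). The map is injective on `s`: if `F_C`, `F_C'` are of
the same kind use `fml_distinct` (the curves are disjoint and not empty; for the families of `-v` use
it for the field `-v`), else `fml_orient`. -/
theorem persist_card {v : ℝ × ℝ → ℝ × ℝ} (hv : ContDiff ℝ 1 v) {δ : ℝ} (hδ : 0 < δ)
    (hδ1 : δ ≤ 1) (s : Finset (Set (ℝ × ℝ))) (hs : ∀ C ∈ s, Persists v δ C) {a : ℝ}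
    (ha : 0 ≤ a) (haδ : a < δ) :
    (s.card : ℕ∞) ≤ {C : Set (ℝ × ℝ) | IsClosedOrbit (turn a v) C}.encard := by
  classical
  have ha' : a ∈ Set.Icc 0 δ := ⟨ha, haδ.le⟩
  have hvn : ContDiff ℝ 1 (fun z => -v z) := hv.neg
  have hR : ∀ C ∈ s, ∃ E : Set (ℝ × ℝ), (∃ F : Fml v δ, F.C 0 = C ∧ F.C a = E) ∨
      ∃ F : Fml (fun z => -v z) δ, F.C 0 = C ∧ F.C a = E := by
    intro C hC
    rcases exists_fml (g := fun _ => (1 : ℝ)) hv hv continuous_const
      (fun z => (one_smul ℝ (v z)).symm) hδ.le (hs C hC) with ⟨F, hF⟩ | ⟨F, hF⟩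
    · exact ⟨F.C a, Or.inl ⟨F, hF, rfl⟩⟩
    · exact ⟨F.C a, Or.inr ⟨F, hF, rfl⟩⟩
  choose! E hE using hR
  have hne : ∀ {Y : ℝ × ℝ → ℝ × ℝ} (_ : ContDiff ℝ 1 Y) (F F' : Fml Y δ), F.C 0 ≠ F'.C 0 →
      F.C a ≠ F'.C a := by
    intro Y hY F F' h0 h1
    have hd := fml_distinct hY hδ1 F F' h0 ha haδ
    rw [← h1, disjoint_self] at hd
    exact (F.jp a ha').ne.ne_empty hd
  have hinj : Set.InjOn E (s : Set (Set (ℝ × ℝ))) := by
    intro C hC C' hC' h
    by_contra hCC
    rcases hE C hC with ⟨F, h1, h2⟩ | ⟨F, h1, h2⟩ <;>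
      rcases hE C' hC' with ⟨F', h3, h4⟩ | ⟨F', h3, h4⟩
    · exact hne hv F F' (by rw [h1, h3]; exact hCC) (by rw [h2, h4, h])
    · exact fml_orient F F' ha' (by rw [h2, h4, h])
    · exact fml_orient F' F ha' (by rw [h2, h4, h])
    · exact hne hvn F F' (by rw [h1, h3]; exact hCC) (by rw [h2, h4, h])
  have hmem : ∀ C ∈ s, IsClosedOrbit (turn a v) (E C) := by
    intro C hC
    rcases hE C hC with ⟨F, -, h2⟩ | ⟨F, -, h2⟩
    · rw [← h2]
      exact F.orb a ha'
    · rw [← h2]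
      have h3 := (F.orb a ha').neg
      rw [rb_turn_neg] at h3
      simpa using h3
  calc (s.card : ℕ∞) = ((s.image E).card : ℕ∞) := by rw [Finset.card_image_of_injOn hinj]
    _ = ((s.image E : Finset (Set (ℝ × ℝ))) : Set (Set (ℝ × ℝ))).encard :=
        (Set.encard_coe_eq_coe_finsetCard _).symm
    _ ≤ {C : Set (ℝ × ℝ) | IsClosedOrbit (turn a v) C}.encard := by
        apply Set.encard_le_encard
        intro D hD
        obtain ⟨C, hC, rfl⟩ := Finset.mem_image.1 (Finset.mem_coe.1 hD)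
        exact hmem C hC

/-- From the mean number of closed orbits to the number of persistent closed orbits. Proof. For a
finite set `s` of persistent closed orbits `s.card ≤ H a` for `0 ≤ a < δ` (`persist_card`), so
`s.card * δ ≤ ∫ over [0,δ) of H ≤ K`. So every finite set of persistent closed orbits has at most
`K / δ` elements. -/
theorem persist_of_mean {v : ℝ × ℝ → ℝ × ℝ} (hv : ContDiff ℝ 1 v) {K : ℝ} (hK0 : 0 ≤ K)
    (hK : ∃ H : ℝ → ℝ≥0∞, Measurable H ∧
      (∀ a, (({C : Set (ℝ × ℝ) | IsClosedOrbit (turn a v) C}.encard : ℕ∞) : ℝ≥0∞) ≤ H a) ∧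
      ∫⁻ a in Set.Icc 0 (2 * Real.pi), H a ≤ ENNReal.ofReal K) {δ : ℝ} (hδ : 0 < δ)
    (hδ1 : δ ≤ 1) :
    {C : Set (ℝ × ℝ) | Persists v δ C}.Finite ∧
      ({C : Set (ℝ × ℝ) | Persists v δ C}.ncard : ℝ) ≤ K / δ := by
  obtain ⟨H, -, hH, hI⟩ := hK
  have hpi : δ ≤ 2 * Real.pi := by
    have := Real.pi_gt_three
    linarith
  have key : ∀ s : Finset (Set (ℝ × ℝ)), (∀ C ∈ s, Persists v δ C) →
      (s.card : ℝ) ≤ K / δ := by
    intro s hs
    have h1 : ∀ a ∈ Set.Ico 0 δ, (s.card : ℝ≥0∞) ≤ H a := by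
      intro a ha
      refine le_trans ?_ (hH a)
      have h2 := ENat.toENNReal_le.2 (persist_card hv hδ hδ1 s hs ha.1 ha.2)
      simpa using h2
    have h3 : (s.card : ℝ≥0∞) * ENNReal.ofReal δ ≤ ENNReal.ofReal K := by
      calc (s.card : ℝ≥0∞) * ENNReal.ofReal δ
          = ∫⁻ _ in Set.Ico 0 δ, (s.card : ℝ≥0∞) := by
            rw [MeasureTheory.setLIntegral_const, Real.volume_Ico, sub_zero]
        _ ≤ ∫⁻ a in Set.Ico 0 δ, H a := by
            apply MeasureTheory.setLIntegral_mono' measurableSet_Ico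
            exact h1
        _ ≤ ∫⁻ a in Set.Icc 0 (2 * Real.pi), H a := by
            apply MeasureTheory.lintegral_mono_set
            intro x hx
            exact ⟨hx.1, hx.2.le.trans hpi⟩
        _ ≤ ENNReal.ofReal K := hI
    have h4 : ENNReal.ofReal ((s.card : ℝ) * δ) ≤ ENNReal.ofReal K := by
      rw [ENNReal.ofReal_mul (Nat.cast_nonneg _), ENNReal.ofReal_natCast]
      exact h3
    rw [le_div_iff₀ hδ]
    exact (ENNReal.ofReal_le_ofReal_iff hK0).1 h4
  have hfin : {C : Set (ℝ × ℝ) | Persists v δ C}.Finite := by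
    by_contra hinf
    obtain ⟨N, hN⟩ := exists_nat_gt (K / δ)
    obtain ⟨s, hs, hc⟩ := Set.Infinite.exists_subset_card_eq hinf N
    have := key s (fun C hC => hs (Finset.mem_coe.2 hC))
    rw [hc] at this
    linarith
  refine ⟨hfin, ?_⟩
  rw [Set.ncard_eq_toFinset_card _ hfin]
  exact key _ (fun C hC => by simpa using hC)

end Pool.Agent.Lib.MP_95e7ec_an
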